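import Pool.Agent.Helper316.Check
set_option autoImplicit false
namespace Pool.Agent.Helper316

open Finset

/-! ## recursions -/

theorem S_pref {m q : ℕ} (hq : q.Prime) (hm : ¬ q ∣ m) (hm0 : m ≠ 0) (a : ℕ) :
    S (m * q^(a+1)) = (S m + ∑ k ∈ range (a+1), G m (q^(k+1)) 1) + S (m * q^a) / q := by
  have hq0 : (0:ℝ) < q := by exact_mod_cast hq.pos
  induction a with
  | zero =>
    have h := S_rec hq hm hm0 0
    simp only [zero_add, pow_zero, mul_one, pow_one, V, zero_div, add_zero, range_one,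
      sum_singleton] at h ⊢
    rw [h]
  | succ a ih =>
    have h1 := S_rec hq hm hm0 (a+1)
    have h2 := S_rec hq hm hm0 a
    rw [sum_range_succ, h1, V]
    rw [show S (m * q^(a+1)) / (q:ℝ) = (S (m * q^a) + V m q (a+1) + S m / (q:ℝ)^(a+1)) / q by
      rw [h2]]
    rw [ih]
    field_simp
    ring

/-- the mixed sum -/
theorem mixed_sum {m q : ℕ} (hq : q.Prime) (hm : ¬ q ∣ m) (hm0 : m ≠ 0) (b : ℕ) :
    ∀ x y : ℕ, ∑ d ∈ m.divisors, ∑ e ∈ (m * q^b).divisors, phi (x*d) (y*e)
      = ∑ k ∈ range (b+1), G m x (y*q^k) := by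
  induction b with
  | zero => intro x y; simp [G]
  | succ b ih =>
    intro x y
    rw [sum_range_succ']
    have h1 : ∀ d ∈ m.divisors, ∑ e ∈ (m * q^(b+1)).divisors, phi (x*d) (y*e)
        = ∑ e ∈ m.divisors, phi (x*d) (y*e) + ∑ e ∈ (m * q^b).divisors, phi (x*d) (y*q*e) := by
      intro d _
      rw [sum_divisors_succ hq hm hm0]
      congr 1
      exact sum_congr rfl fun e _ => by rw [mul_assoc]
    rw [sum_congr rfl h1, sum_add_distrib, ih x (y*q), add_comm]
    congr 1
    · exact sum_congr rfl fun k _ => by rw [pow_succ']; congr 1; ring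
    · simp [G]

theorem G_pref {m q : ℕ} (hq : q.Prime) (hm : ¬ q ∣ m) (hm0 : m ≠ 0) (b x y : ℕ) :
    G (m * q^(b+1)) x y
      = (G m x y + ∑ k ∈ range (b+1), (G m (x*q^(k+1)) y + G m x (y*q^(k+1))))
        + G (m * q^b) x y / q := by
  have e0 : G (m * q^(b+1)) x y = ∑ d ∈ m.divisors, ∑ e ∈ (m * q^(b+1)).divisors, phi (x*d) (y*e)
      + ∑ d ∈ (m * q^b).divisors, ∑ e ∈ (m * q^(b+1)).divisors, phi (x*(q*d)) (y*e) := by
    unfold G; rw [sum_divisors_succ hq hm hm0]
  have e1 : ∑ d ∈ (m * q^b).divisors, ∑ e ∈ (m * q^(b+1)).divisors, phi (x*(q*d)) (y*e)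
      = ∑ d ∈ (m * q^b).divisors, ∑ e ∈ m.divisors, phi (x*(q*d)) (y*e)
        + ∑ d ∈ (m * q^b).divisors, ∑ e ∈ (m * q^b).divisors, phi (x*(q*d)) (y*(q*e)) := by
    rw [← sum_add_distrib]
    exact sum_congr rfl fun d _ => by rw [sum_divisors_succ hq hm hm0]
  have e2 : ∑ d ∈ (m * q^b).divisors, ∑ e ∈ (m * q^b).divisors, phi (x*(q*d)) (y*(q*e))
      = G (m * q^b) x y / q := by
    unfold G
    rw [sum_div]
    refine sum_congr rfl fun d _ => ?_
    rw [sum_div]
    refine sum_congr rfl fun e _ => ?_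
    rw [show x*(q*d) = q*(x*d) by ring, show y*(q*e) = q*(y*e) by ring, phi_mul]
  have e3 : ∑ d ∈ (m * q^b).divisors, ∑ e ∈ m.divisors, phi (x*(q*d)) (y*e)
      = ∑ k ∈ range (b+1), G m (x*q^(k+1)) y := by
    rw [sum_comm]
    have := mixed_sum hq hm hm0 b y (x*q)
    have h3 : ∑ d ∈ m.divisors, ∑ e ∈ (m * q^b).divisors, phi (y*d) (x*q*e)
        = ∑ y_1 ∈ m.divisors, ∑ x_1 ∈ (m * q ^ b).divisors, phi (x * (q * x_1)) (y * y_1) := by
      refine sum_congr rfl fun d _ => sum_congr rfl fun e _ => ?_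
      rw [phi_comm, mul_assoc]
    rw [← h3, this]
    refine sum_congr rfl fun k _ => ?_
    rw [G_comm, pow_succ']; congr 1; ring
  have e4 := mixed_sum hq hm hm0 (b+1) x y
  rw [sum_range_succ'] at e4
  rw [e0, e1, e2, e3, e4, sum_add_distrib]
  simp only [pow_zero, mul_one]
  ring

/-- sum over assignments -/
noncomputable def GG (m : ℕ) : List ℕ → ℕ → ℕ → ℝ
  | [], x, y => G m x y
  | (z :: st), x, y => GG m st (x*z) y + GG m st x (y*z)

theorem GG_pref {m q : ℕ} (hq : q.Prime) (hm : ¬ q ∣ m) (hm0 : m ≠ 0) (b : ℕ) (st : List ℕ) :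
    ∀ x y : ℕ, GG (m * q^(b+1)) st x y
      = (GG m st x y + ∑ k ∈ range (b+1), GG m ((q^(k+1)) :: st) x y)
        + GG (m * q^b) st x y / q := by
  induction st with
  | nil => intro x y; exact G_pref hq hm hm0 b x y
  | cons z st ih =>
    intro x y
    have h1 := ih (x*z) y
    have h2 := ih x (y*z)
    have h3 : GG (m * q^(b+1)) (z :: st) x y
      = GG (m * q^(b+1)) st (x*z) y + GG (m * q^(b+1)) st x (y*z) := rfl
    have h4 : GG (m * q^b) (z :: st) x y
      = GG (m * q^b) st (x*z) y + GG (m * q^b) st x (y*z) := rfl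
    have h5 : GG m (z :: st) x y = GG m st (x*z) y + GG m st x (y*z) := rfl
    have h6 : ∀ k, GG m ((q^(k+1)) :: z :: st) x y
      = GG m ((q^(k+1)) :: st) (x*z) y + GG m ((q^(k+1)) :: st) x (y*z) := by
      intro k
      simp only [GG]
      rw [show x * q^(k+1) * z = x * z * q^(k+1) by ring,
        show y * q^(k+1) * z = y * z * q^(k+1) by ring]
      ring
    rw [h3, h1, h2, h4, h5, sum_congr rfl (fun k _ => h6 k), sum_add_distrib]
    ring

/-! ## the computation -/

def hh (l : List ℕ) : ℕ → ℕ → ℕ :=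
  List.rec (motive := fun _ => ℕ → ℕ → ℕ)
    (fun x y => Nat.add (Nat.div 1000000000 (Nat.add (Nat.sub x y) (Nat.sub y x))) 1)
    (fun z _ ih x y => Nat.add (ih (Nat.mul x z) y) (ih x (Nat.mul y z))) l

theorem hh_nil (x y : ℕ) : hh [] x y = 1000000000 / ((x - y) + (y - x)) + 1 := rfl
theorem hh_cons (z : ℕ) (l : List ℕ) (x y : ℕ) :
    hh (z :: l) x y = hh l (x*z) y + hh l x (y*z) := rfl

theorem hh_spec (l : List ℕ) : ∀ x y, 1000000000 * GG 1 l x y ≤ hh l x y := by
  induction l with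
  | nil =>
    intro x y
    rw [hh_nil]
    simp only [GG, G, Nat.divisors_one, sum_singleton, mul_one]
    unfold phi
    have h1 : |(x:ℝ) - y| = (((x - y) + (y - x) : ℕ):ℝ) := by
      rcases le_total x y with h | h
      · have h2 : (x:ℝ) ≤ y := by exact_mod_cast h
        rw [abs_of_nonpos (by linarith), Nat.sub_eq_zero_of_le h, zero_add, Nat.cast_sub h]; ring
      · have h2 : (y:ℝ) ≤ x := by exact_mod_cast h
        rw [abs_of_nonneg (by linarith), Nat.sub_eq_zero_of_le h, add_zero, Nat.cast_sub h]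
    rw [h1]
    generalize (x - y) + (y - x) = t
    rcases Nat.eq_zero_or_pos t with h | h
    · subst h; simp
    · have hR : (0:ℝ) < (t:ℝ) := by exact_mod_cast h
      rw [mul_one_div, div_le_iff₀ hR]
      have h1 : 1000000000 < (1000000000 / t + 1) * t := by
        have := Nat.div_add_mod 1000000000 t
        have h2 := Nat.mod_lt 1000000000 h
        nlinarith
      exact_mod_cast h1.le
  | cons z l ih =>
    intro x y
    rw [hh_cons]
    have h1 := ih (x*z) y
    have h2 := ih x (y*z)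
    rw [GG]; push_cast; linarith

def addL (l l' : List ℕ) : List ℕ := List.zipWith Nat.add l l'
def cdL (q : ℕ) (l : List ℕ) : List ℕ := l.map (fun v => Nat.div (Nat.add v (Nat.sub q 1)) q)

def comb (q : ℕ) (U : ℕ → List ℕ) : ℕ → List ℕ × List ℕ × List ℕ
 | 0 => (U 0, U 0, U 0)
 | (a+1) =>
   match comb q U a with
   | (R, P, C) =>
     (addL R (U (a+1)), addL (addL R (U (a+1))) (cdL q P), C ++ addL (addL R (U (a+1))) (cdL q P))

def vals : List (ℕ × ℕ) → List ℕ → ℕ → List ℕ
 | [], st, x => [hh st x 1]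
 | (p :: rs), st, x => (comb p.1 (fun k => match k with
    | 0 => vals rs st x
    | (j+1) => vals rs ((p.1^(j+1)) :: st) x) p.2).2.2

def vals0 : List (ℕ × ℕ) → List ℕ
 | [] => [0]
 | (p :: rs) => (comb p.1 (fun k => match k with
    | 0 => vals0 rs
    | (j+1) => vals rs [] (p.1^(j+1))) p.2).2.2

def pts : List (ℕ × ℕ) → List (ℕ × ℕ)
 | [] => [(1,1)]
 | (p :: rs) => (List.range (p.2+1)).flatMap
    (fun a => (pts rs).map (fun z => (z.1 * p.1^a, z.2 * (a+1))))

/-- the bound relation -/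
def Bd (f : ℕ → ℝ) (B : List (ℕ × ℕ)) (l : List ℕ) : Prop :=
  List.Forall₂ (fun z (v : ℕ) => 1000000000 * f z.1 ≤ v) B l

theorem Bd.addL {f g : ℕ → ℝ} {B : List (ℕ × ℕ)} {l l' : List ℕ} (h : Bd f B l)
    (h' : Bd g B l') : Bd (fun m => f m + g m) B (addL l l') := by
  unfold Bd at *
  induction h generalizing l' with
  | nil =>
    cases h'
    exact List.Forall₂.nil
  | cons h1 _ ih =>
    cases h' with
    | cons h2 h3 =>
      refine List.Forall₂.cons ?_ (ih h3)
      have : ∀ a b : ℕ, ((Nat.add a b : ℕ):ℝ) = a + b := fun a b => by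
        rw [Nat.add_eq]; push_cast; rfl
      rw [this]
      linarith

theorem Bd.cdL {f : ℕ → ℝ} {B : List (ℕ × ℕ)} {l : List ℕ} {q : ℕ} (hq : 0 < q)
    (h : Bd f B l) : Bd (fun m => f m / q) B (cdL q l) := by
  unfold Bd at *
  induction h with
  | nil => exact List.Forall₂.nil
  | @cons z v _ _ h1 _ ih =>
    refine List.Forall₂.cons ?_ ih
    have hqR : (0:ℝ) < q := by exact_mod_cast hq
    have h2 : v ≤ ((v + (q-1)) / q) * q := by
      have h3 := Nat.div_add_mod (v + (q-1)) q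
      have h4 := Nat.mod_lt (v + (q-1)) hq
      have h5 : q * ((v + (q-1)) / q) = ((v + (q-1)) / q) * q := mul_comm _ _
      omega
    have h6 : (v:ℝ) ≤ (((v + (q-1)) / q : ℕ):ℝ) * q := by exact_mod_cast h2
    have e : Nat.div (Nat.add v (Nat.sub q 1)) q = (v + (q-1)) / q := rfl
    show 1000000000 * (f z.1 / q) ≤ ((Nat.div (Nat.add v (Nat.sub q 1)) q : ℕ):ℝ)
    rw [e, mul_div_assoc', div_le_iff₀ hqR]
    linarith

theorem Bd.congr {f g : ℕ → ℝ} {B : List (ℕ × ℕ)} {l : List ℕ} (h : Bd f B l)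
    (hfg : ∀ z ∈ B, f z.1 = g z.1) : Bd g B l := by
  unfold Bd at *
  induction h with
  | nil => exact List.Forall₂.nil
  | cons h1 _ ih =>
    refine List.Forall₂.cons ?_ (ih fun z hz => hfg z (List.mem_cons_of_mem _ hz))
    rw [← hfg _ List.mem_cons_self]; exact h1

theorem Bd.map {f g : ℕ → ℝ} {B : List (ℕ × ℕ)} {l : List ℕ} (h : Bd f B l) (s t : ℕ)
    (hfg : ∀ z ∈ B, f z.1 = g (z.1 * s)) : Bd g (B.map (fun z => (z.1 * s, z.2 * t))) l := by
  unfold Bd at *
  rw [List.forall₂_map_left_iff]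
  induction h with
  | nil => exact List.Forall₂.nil
  | cons h1 _ ih =>
    refine List.Forall₂.cons ?_ (ih fun z hz => hfg z (List.mem_cons_of_mem _ hz))
    simp only
    rw [← hfg _ List.mem_cons_self]; exact h1

theorem Bd.append {f : ℕ → ℝ} {B B' : List (ℕ × ℕ)} {l l' : List ℕ} (h : Bd f B l)
    (h' : Bd f B' l') : Bd f (B ++ B') (l ++ l') := by
  unfold Bd at *
  exact List.rel_append h h'

theorem comb_spec {q : ℕ} (hq : 0 < q) {U : ℕ → List ℕ} {B : List (ℕ × ℕ)} {u : ℕ → ℕ → ℝ}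
    {f : ℕ → ℝ} {A : ℕ}
    (hU : ∀ k ≤ A, Bd (u k) B (U k))
    (h0 : ∀ z ∈ B, f (z.1 * q^0) = u 0 z.1)
    (hs : ∀ z ∈ B, ∀ a < A, f (z.1 * q^(a+1)) = (u 0 z.1 + ∑ k ∈ range (a+1), u (k+1) z.1)
      + f (z.1 * q^a) / q) :
    ∀ a ≤ A,
      Bd (fun m => u 0 m + ∑ k ∈ range a, u (k+1) m) B (comb q U a).1 ∧
      Bd (fun m => f (m * q^a)) B (comb q U a).2.1 ∧
      Bd f ((List.range (a+1)).flatMap (fun j => B.map (fun z => (z.1 * q^j, z.2 * (j+1)))))
        (comb q U a).2.2 := by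
  intro a
  induction a with
  | zero =>
    intro _
    refine ⟨(hU 0 (by omega)).congr (by intro z _; simp), ?_, ?_⟩
    · exact (hU 0 (by omega)).congr (fun z hz => (h0 z hz).symm)
    · have := (hU 0 (by omega)).map (q^0) (0+1) (fun z hz => (h0 z hz).symm)
      simpa [comb] using this
  | succ a ih =>
    intro ha
    obtain ⟨h1, h2, h3⟩ := ih (by omega)
    rw [comb]
    generalize comb q U a = X at *
    obtain ⟨R, P, C⟩ := X
    simp only at h1 h2 h3 ⊢
    have h4 := h1.addL (hU (a+1) ha)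
    have h5 := h4.addL (h2.cdL hq)
    have h6 : Bd (fun m => f (m * q^(a+1))) B (addL (addL R (U (a+1))) (cdL q P)) := by
      refine h5.congr fun z hz => ?_
      rw [hs z hz a (by omega), sum_range_succ]
      ring
    refine ⟨?_, h6, ?_⟩
    · refine h4.congr fun z hz => ?_
      rw [sum_range_succ]; ring
    · rw [List.range_succ, List.flatMap_append]
      apply h3.append
      have := h6.map (q^(a+1)) (a+1+1) (g := f) (fun z hz => rfl)
      simpa using this

theorem pts_spec (rs : List (ℕ × ℕ)) (hrs : ∀ p ∈ rs, p.1.Prime) :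
    ∀ z ∈ pts rs, z.1 ≠ 0 ∧ (∀ r, r.Prime → r ∣ z.1 → r ∈ rs.map Prod.fst) := by
  induction rs with
  | nil =>
    intro z hz
    simp only [pts, List.mem_singleton] at hz
    subst hz
    refine ⟨one_ne_zero, fun r hr h => ?_⟩
    exact absurd (Nat.dvd_one.1 h) hr.ne_one
  | cons p rs ih =>
    intro z hz
    rw [pts, List.mem_flatMap] at hz
    obtain ⟨a, _, hz⟩ := hz
    obtain ⟨z', hz', rfl⟩ := List.mem_map.1 hz
    obtain ⟨h1, h2⟩ := ih (fun p hp => hrs p (List.mem_cons_of_mem _ hp)) z' hz'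
    have hp := hrs p List.mem_cons_self
    refine ⟨mul_ne_zero h1 (pow_ne_zero _ hp.ne_zero), fun r hr h => ?_⟩
    rw [List.map_cons, List.mem_cons]
    rcases (Nat.Prime.dvd_mul hr).1 h with h3 | h3
    · right; exact h2 r hr h3
    · left; exact (Nat.prime_dvd_prime_iff_eq hr hp).1 (hr.dvd_of_dvd_pow h3)

theorem pts_ndvd {p : ℕ × ℕ} {rs : List (ℕ × ℕ)} (hrs : ∀ r ∈ p :: rs, r.1.Prime)
    (hnd : ((p :: rs).map Prod.fst).Nodup) : ∀ z ∈ pts rs, z.1 ≠ 0 ∧ ¬ p.1 ∣ z.1 := by
  intro z hz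
  obtain ⟨h1, h2⟩ := pts_spec rs (fun r hr => hrs r (List.mem_cons_of_mem _ hr)) z hz
  refine ⟨h1, fun h => ?_⟩
  rw [List.map_cons, List.nodup_cons] at hnd
  exact hnd.1 (h2 p.1 (hrs p List.mem_cons_self) h)

theorem pts_card (rs : List (ℕ × ℕ)) (hrs : ∀ p ∈ rs, p.1.Prime)
    (hnd : (rs.map Prod.fst).Nodup) :
    ∀ z ∈ pts rs, z.1.divisors.card = z.2 := by
  induction rs with
  | nil =>
    intro z hz
    simp only [pts, List.mem_singleton] at hz
    subst hz; simp
  | cons p rs ih =>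
    intro z hz
    rw [pts, List.mem_flatMap] at hz
    obtain ⟨a, _, hz⟩ := hz
    obtain ⟨z', hz', rfl⟩ := List.mem_map.1 hz
    have h1 := pts_ndvd hrs hnd z' hz'
    have h2 := ih (fun p hp => hrs p (List.mem_cons_of_mem _ hp)) (List.nodup_cons.1 hnd).2 z' hz'
    rw [card_mul_pow (hrs p List.mem_cons_self) h1.2, h2]; ring

theorem vals_spec (rs : List (ℕ × ℕ)) (hrs : ∀ p ∈ rs, p.1.Prime)
    (hnd : (rs.map Prod.fst).Nodup) :
    ∀ (st : List ℕ) (x : ℕ), Bd (fun m => GG m st x 1) (pts rs) (vals rs st x) := by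
  induction rs with
  | nil =>
    intro st x
    exact List.Forall₂.cons (hh_spec st x 1) List.Forall₂.nil
  | cons p rs ih =>
    intro st x
    have hp := hrs p List.mem_cons_self
    have hnd' := (List.nodup_cons.1 hnd).2
    have hrs' : ∀ p ∈ rs, p.1.Prime := fun p hp => hrs p (List.mem_cons_of_mem _ hp)
    have hB := pts_ndvd hrs hnd
    rw [vals, pts]
    refine (comb_spec (A := p.2) hp.pos (B := pts rs)
      (u := fun k m => match k with
        | 0 => GG m st x 1
        | (j+1) => GG m ((p.1^(j+1)) :: st) x 1) ?_ ?_ ?_ p.2 (le_refl _)).2.2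
    · intro k _
      cases k with
      | zero => exact ih hrs' hnd' st x
      | succ j => exact ih hrs' hnd' ((p.1^(j+1)) :: st) x
    · intro z _; simp
    · intro z hz a _
      exact GG_pref hp (hB z hz).2 (hB z hz).1 a st x 1

theorem vals0_spec (rs : List (ℕ × ℕ)) (hrs : ∀ p ∈ rs, p.1.Prime)
    (hnd : (rs.map Prod.fst).Nodup) : Bd S (pts rs) (vals0 rs) := by
  induction rs with
  | nil =>
    refine List.Forall₂.cons ?_ List.Forall₂.nil
    have h : S 1 = 0 := by
      have := two_S 1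
      simp [phi_self] at this
      exact this
    simp [h]
  | cons p rs ih =>
    have hp := hrs p List.mem_cons_self
    have hnd' := (List.nodup_cons.1 hnd).2
    have hrs' : ∀ p ∈ rs, p.1.Prime := fun p hp => hrs p (List.mem_cons_of_mem _ hp)
    have hB := pts_ndvd hrs hnd
    rw [vals0, pts]
    refine (comb_spec (A := p.2) hp.pos (B := pts rs)
      (u := fun k m => match k with
        | 0 => S m
        | (j+1) => G m (p.1^(j+1)) 1) ?_ ?_ ?_ p.2 (le_refl _)).2.2
    · intro k _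
      cases k with
      | zero => exact ih hrs' hnd'
      | succ j => exact vals_spec rs hrs' hnd' [] (p.1^(j+1))
    · intro z _; simp
    · intro z hz a _
      exact S_pref hp (hB z hz).2 (hB z hz).1 a

def EL : List ℕ := [12,24,60,120,180,240,360,420,720,840,1260,1680,2520,5040]

def chkL : List (ℕ × ℕ) → List ℕ → Bool
 | [], [] => true
 | (z :: zs), (v :: vs) => cond (Nat.blt v (z.2 * 1000000000) ||
    (EL.contains z.1 && Nat.ble v (z.2 * 1130000000))) (chkL zs vs) false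
 | _, _ => false

theorem chkL_spec {f : ℕ → ℝ} {B : List (ℕ × ℕ)} {l : List ℕ} (hb : Bd f B l)
    (h : chkL B l = true) : ∀ z ∈ B, f z.1 < z.2 ∨ (z.1 ∈ EL ∧ f z.1 ≤ 1.13 * z.2) := by
  unfold Bd at hb
  induction hb with
  | nil => intro z hz; simp at hz
  | @cons z v zs vs h1 _ ih =>
    rw [chkL] at h
    cases hc : (Nat.blt v (z.2 * 1000000000) ||
        (EL.contains z.1 && Nat.ble v (z.2 * 1130000000))) with
    | false => rw [hc] at h; simp at h
    | true =>
      rw [hc, cond_true] at h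
      intro z' hz'
      rcases List.mem_cons.1 hz' with rfl | hz''
      · rw [Bool.or_eq_true, Bool.and_eq_true, Nat.blt_eq, Nat.ble_eq, List.contains_iff_mem] at hc
        rcases hc with hc | hc
        · left
          have : (v:ℝ) < ((z'.2 * 1000000000 : ℕ):ℝ) := by exact_mod_cast hc
          push_cast at this
          linarith
        · right
          refine ⟨hc.1, ?_⟩
          have : (v:ℝ) ≤ ((z'.2 * 1130000000 : ℕ):ℝ) := by exact_mod_cast hc.2
          push_cast at this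
          linarith
      · exact ih h z' hz''

theorem mem_pts (rs : List (ℕ × ℕ)) : ∀ n, Supp rs n → ∃ z ∈ pts rs, z.1 = n := by
  induction rs with
  | nil => intro n h; rw [Supp] at h; exact ⟨(1,1), by simp [pts], h.symm⟩
  | cons p rs ih =>
    intro n h
    obtain ⟨b, m', hb, _, rfl, h4⟩ := h
    obtain ⟨z, hz, rfl⟩ := ih m' h4
    refine ⟨(z.1 * p.1^b, z.2 * (b+1)), ?_, rfl⟩
    rw [pts, List.mem_flatMap]
    exact ⟨b, List.mem_range.2 (by omega), List.mem_map.2 ⟨z, hz, rfl⟩⟩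

theorem table_sound {rs : List (ℕ × ℕ)} (hrs : ∀ p ∈ rs, p.1.Prime)
    (hnd : (rs.map Prod.fst).Nodup) (h : chkL (pts rs) (vals0 rs) = true) {n : ℕ}
    (hn : Supp rs n) :
    S n < n.divisors.card ∨ (n ∈ EL ∧ S n ≤ 1.13 * n.divisors.card) := by
  obtain ⟨z, hz, rfl⟩ := mem_pts rs n hn
  have := chkL_spec (vals0_spec rs hrs hnd) h z hz
  rwa [pts_card rs hrs hnd z hz]

end Pool.Agent.Helper316
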