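import Pool.Agent.Helper316.Base
set_option autoImplicit false
namespace Pool.Agent.Helper316

def RSA : List (ℕ × ℕ) :=
  [(2,6),(3,4),(5,2),(7,1),(11,1),(13,1),(17,1),(19,1),(23,1)]

theorem tabA : chkL (pts RSA) (vals0 RSA) = true := by decide +kernel

def RSB : List (ℕ × ℕ) := [(2,4),(3,2),(5,1),(7,2)]

theorem tabB : chkL (pts RSB) (vals0 RSB) = true := by decide +kernel

theorem baseA {n : ℕ} (hn : Supp RSA n) :
    S n < n.divisors.card ∨ (n ∈ EL ∧ S n ≤ 1.13 * n.divisors.card) :=
  table_sound (by decide +kernel) (by decide +kernel) tabA hn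

theorem baseB {n : ℕ} (hn : Supp RSB n) :
    S n < n.divisors.card ∨ (n ∈ EL ∧ S n ≤ 1.13 * n.divisors.card) :=
  table_sound (by decide +kernel) (by decide +kernel) tabB hn

end Pool.Agent.Helper316
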