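import Pool.Agent.Helper316.Fin
set_option autoImplicit false
namespace Pool.Agent.Helper316

theorem chkA1 : (chkP 29 43 && chkP 31 46) = true := by decide +kernel

theorem chkA2 : [37,41,43,47,53,59,61,67,71,73,79,83,89,97,101,103,107,109,113,127,131].all
    (fun p => chkP p (4*p)) = true := by decide +kernel

end Pool.Agent.Helper316
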