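import Pool.Agent.Helper316.Fin
set_option autoImplicit false
namespace Pool.Agent.Helper316

theorem chkC1 : [223,227,229,233,239,241,251,257,263,269,271,277,281,283,293].all
    (fun p => chkP p (4*p)) = true := by decide +kernel

end Pool.Agent.Helper316
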