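import Pool.Agent.Helper316.FinB
set_option autoImplicit false
namespace Pool.Agent.Helper316

theorem chkD1 : (chkW 7 1 23 && chkW 5 2 23 && chkW 3 4 31 && chkW 11 1 31 && chkW 13 1 31 &&
    chkW 7 2 31 && chkW 17 1 31) = true := by decide +kernel

theorem chkD3 : (chkT 7 23 && chkT 8 31 && chkT 9 31) = true := by decide +kernel

theorem chkD4 : tree (fun r => loN2 r 7 1) (2^8) (2^7) 1 7 (2^6)
    [(3,4),(5,2),(7,1),(11,1),(13,1),(17,1),(19,1),(23,1)] [1] = true := by decide +kernel

end Pool.Agent.Helper316
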