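import Pool.Agent.Helper316.FinB
set_option autoImplicit false
namespace Pool.Agent.Helper316

theorem chkE1 : chkW 3 5 31 = true := by decide +kernel

theorem chkE2 : chkW 3 6 73 = true := by decide +kernel

end Pool.Agent.Helper316
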