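import Mathlib
set_option autoImplicit false
namespace Pool.Agent.Helper316

open Finset

noncomputable def phi (x y : ℕ) : ℝ := 1 / |(x:ℝ) - (y:ℝ)|

theorem phi_comm (x y : ℕ) : phi x y = phi y x := by
  unfold phi; rw [abs_sub_comm]

theorem phi_self (x : ℕ) : phi x x = 0 := by simp [phi]

theorem phi_nonneg (x y : ℕ) : 0 ≤ phi x y := by unfold phi; positivity

theorem phi_mul (g x y : ℕ) : phi (g*x) (g*y) = phi x y / g := by
  unfold phi
  have h : ((g*x : ℕ):ℝ) - ((g*y:ℕ):ℝ) = g * ((x:ℝ) - y) := by push_cast; ring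
  rw [h, abs_mul, Nat.abs_cast, div_div, mul_comm]

noncomputable def PS (A : Finset ℕ) : ℝ :=
  ∑ d ∈ A, ∑ e ∈ A.filter (fun e => d < e), (1:ℝ)/((e:ℝ)-(d:ℝ))

noncomputable def S (n : ℕ) : ℝ := PS n.divisors

theorem PS_eq_phi (A : Finset ℕ) :
    PS A = ∑ d ∈ A, ∑ e ∈ A.filter (fun e => d < e), phi d e := by
  unfold PS
  refine sum_congr rfl fun d _ => sum_congr rfl fun e he => ?_
  have h : d < e := (mem_filter.1 he).2
  have h' : (d:ℝ) < e := by exact_mod_cast h
  unfold phi
  rw [abs_sub_comm, abs_of_pos (by linarith)]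

theorem two_PS (A : Finset ℕ) : 2 * PS A = ∑ d ∈ A, ∑ e ∈ A, phi d e := by
  have h1 : ∑ d ∈ A, ∑ e ∈ A.filter (fun e => e < d), phi d e = PS A := by
    rw [PS_eq_phi]
    rw [sum_comm' (s := A) (t := fun d => A.filter (fun e => e < d)) (t' := A)
      (s' := fun e => A.filter (fun d => e < d))]
    · exact sum_congr rfl fun e _ => sum_congr rfl fun d _ => phi_comm d e
    · intro x y
      simp only [mem_filter]
      tauto
  have h2 : ∀ d ∈ A, ∑ e ∈ A, phi d e
      = ∑ e ∈ A.filter (fun e => d < e), phi d e + ∑ e ∈ A.filter (fun e => e < d), phi d e := by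
    intro d hd
    rw [← sum_filter_add_sum_filter_not A (fun e => d < e)]
    congr 1
    rw [← sum_filter_add_sum_filter_not (A.filter (fun e => ¬ d < e)) (fun e => e < d)]
    rw [filter_filter, filter_filter]
    have h3 : A.filter (fun a => ¬ d < a ∧ a < d) = A.filter (fun e => e < d) := by
      apply filter_congr; intro x _; constructor
      · exact fun h => h.2
      · exact fun h => ⟨by omega, h⟩
    have h4 : ∑ x ∈ A.filter (fun a => ¬ d < a ∧ ¬ a < d), phi d x = 0 := by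
      apply sum_eq_zero
      intro x hx
      have := (mem_filter.1 hx).2
      have : x = d := by omega
      rw [this, phi_self]
    rw [h3, h4, add_zero]
  rw [sum_congr rfl h2, sum_add_distrib, h1, ← PS_eq_phi]
  ring

theorem two_S (n : ℕ) : 2 * S n = ∑ d ∈ n.divisors, ∑ e ∈ n.divisors, phi d e := two_PS _

theorem S_nonneg (n : ℕ) : 0 ≤ S n := by
  have h := two_S n
  have : 0 ≤ ∑ d ∈ n.divisors, ∑ e ∈ n.divisors, phi d e :=
    sum_nonneg fun _ _ => sum_nonneg fun _ _ => phi_nonneg _ _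
  linarith

/-- sum over pairs of divisors of m of phi (x d) (y e) -/
noncomputable def G (m x y : ℕ) : ℝ := ∑ d ∈ m.divisors, ∑ e ∈ m.divisors, phi (x*d) (y*e)

theorem G_comm (m x y : ℕ) : G m x y = G m y x := by
  unfold G
  rw [sum_comm]
  exact sum_congr rfl fun e _ => sum_congr rfl fun d _ => phi_comm _ _

theorem G_nonneg (m x y : ℕ) : 0 ≤ G m x y :=
  sum_nonneg fun _ _ => sum_nonneg fun _ _ => phi_nonneg _ _

/-- divisors of m * q^(a+1), split by multiples of q -/
theorem divisors_succ {m q : ℕ} (hq : q.Prime) (hm : ¬ q ∣ m) (hm0 : m ≠ 0) (a : ℕ) :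
    (m * q^(a+1)).divisors = m.divisors ∪ (m * q^a).divisors.image (fun d => q * d) := by
  have hq0 := hq.pos
  ext d
  simp only [Nat.mem_divisors, mem_union, mem_image]
  constructor
  · rintro ⟨h, h0⟩
    by_cases hqd : q ∣ d
    · right
      obtain ⟨d', rfl⟩ := hqd
      refine ⟨d', ⟨?_, by positivity⟩, rfl⟩
      rw [pow_succ, show m * (q^a * q) = q * (m * q^a) by ring] at h
      exact Nat.dvd_of_mul_dvd_mul_left hq0 h
    · left
      refine ⟨?_, hm0⟩
      have hc : Nat.Coprime d (q^(a+1)) :=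
        (Nat.Coprime.pow_right _ ((Nat.Prime.coprime_iff_not_dvd hq).2 hqd).symm)
      exact hc.dvd_of_dvd_mul_right h
  · rintro (⟨h, _⟩ | ⟨d', ⟨h, _⟩, rfl⟩)
    · exact ⟨dvd_mul_of_dvd_left h _, by positivity⟩
    · refine ⟨?_, by positivity⟩
      rw [pow_succ, show m * (q^a * q) = q * (m * q^a) by ring]
      exact Nat.mul_dvd_mul_left q h

theorem divisors_succ_disj {m q : ℕ} (hm : ¬ q ∣ m) (a : ℕ) :
    Disjoint m.divisors ((m * q^a).divisors.image (fun d => q * d)) := by
  rw [disjoint_left]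
  intro d hd hd'
  obtain ⟨d', _, rfl⟩ := mem_image.1 hd'
  exact hm (dvd_trans (dvd_mul_right q d') (Nat.dvd_of_mem_divisors hd))

theorem sum_divisors_succ {M : Type} [AddCommMonoid M] {m q : ℕ} (hq : q.Prime) (hm : ¬ q ∣ m)
    (hm0 : m ≠ 0) (a : ℕ) (f : ℕ → M) :
    ∑ d ∈ (m * q^(a+1)).divisors, f d
      = ∑ d ∈ m.divisors, f d + ∑ d ∈ (m * q^a).divisors, f (q*d) := by
  rw [divisors_succ hq hm hm0, sum_union (divisors_succ_disj hm a), sum_image]
  intro x _ y _ h
  exact Nat.eq_of_mul_eq_mul_left hq.pos h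

/-- V m q a = ∑_{k=1}^{a} q^{-(a-k)} G m (q^k) 1 -/
noncomputable def V (m q : ℕ) : ℕ → ℝ
  | 0 => 0
  | (a+1) => G m (q^(a+1)) 1 + V m q a / q

theorem V_nonneg (m q a : ℕ) : 0 ≤ V m q a := by
  induction a with
  | zero => simp [V]
  | succ a ih => rw [V]; have := G_nonneg m (q^(a+1)) 1; positivity

theorem cross_eq_V {m q : ℕ} (hq : q.Prime) (hm : ¬ q ∣ m) (hm0 : m ≠ 0) (a : ℕ) :
    ∑ d ∈ (m * q^a).divisors, ∑ e ∈ m.divisors, phi d (q^(a+1) * e) = V m q (a+1) := by
  induction a with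
  | zero =>
    simp only [pow_zero, mul_one, V, zero_add, pow_one, zero_div, add_zero]
    rw [G_comm]
    simp [G]
  | succ a ih =>
    rw [sum_divisors_succ hq hm hm0, V]
    congr 1
    · rw [G_comm]; simp [G]
    · rw [← ih, sum_div]
      refine sum_congr rfl fun d _ => ?_
      rw [sum_div]
      refine sum_congr rfl fun e _ => ?_
      rw [show q^(a+1+1) * e = q * (q^(a+1) * e) by ring, phi_mul]

/-- recursion: adding one more factor q -/
theorem S_rec {m q : ℕ} (hq : q.Prime) (hm : ¬ q ∣ m) (hm0 : m ≠ 0) (a : ℕ) :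
    S (m * q^(a+1)) = S (m * q^a) + V m q (a+1) + S m / (q:ℝ)^(a+1) := by
  have hdecomp : (m * q^(a+1)).divisors
      = (m * q^a).divisors ∪ m.divisors.image (fun d => q^(a+1) * d) := by
    ext d
    simp only [Nat.mem_divisors, mem_union, mem_image]
    have hq0 := hq.pos
    constructor
    · rintro ⟨h, h0⟩
      by_cases hqd : q^(a+1) ∣ d
      · right
        obtain ⟨d', rfl⟩ := hqd
        refine ⟨d', ⟨?_, hm0⟩, rfl⟩
        rw [mul_comm m] at h
        exact Nat.dvd_of_mul_dvd_mul_left (by positivity) h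
      · left
        refine ⟨?_, by positivity⟩
        obtain ⟨d1, d2, h1, h2, rfl⟩ := (Nat.dvd_mul.1 h)
        obtain ⟨j, hj, rfl⟩ := (Nat.dvd_prime_pow hq).1 h2
        have hj' : j ≤ a := by
          by_contra hcon
          have : j = a+1 := by omega
          subst this
          exact hqd (dvd_mul_left _ _)
        exact Nat.mul_dvd_mul h1 (pow_dvd_pow q hj')
    · rintro (⟨h, _⟩ | ⟨d', ⟨h, _⟩, rfl⟩)
      · refine ⟨h.trans (Nat.mul_dvd_mul_left m (pow_dvd_pow q (by omega))), by positivity⟩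
      · refine ⟨?_, by positivity⟩
        rw [mul_comm m]
        exact Nat.mul_dvd_mul_left _ h
  have hdisj : Disjoint (m * q^a).divisors (m.divisors.image (fun d => q^(a+1) * d)) := by
    rw [disjoint_left]
    intro d hd hd'
    obtain ⟨d', _, rfl⟩ := mem_image.1 hd'
    have h1 : q^(a+1) ∣ m * q^a := (dvd_mul_right _ _).trans (Nat.dvd_of_mem_divisors hd)
    rw [pow_succ, mul_comm m] at h1
    exact hm (Nat.dvd_of_mul_dvd_mul_left (pow_pos hq.pos a) h1)
  have hinj : ∀ x ∈ m.divisors, ∀ y ∈ m.divisors, q^(a+1) * x = q^(a+1) * y → x = y := by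
    intro x _ y _ h
    exact Nat.eq_of_mul_eq_mul_left (pow_pos hq.pos _) h
  have h2 : 2 * S (m * q^(a+1)) = 2 * S (m * q^a) + 2 * V m q (a+1) + 2 * (S m / (q:ℝ)^(a+1)) := by
    have hsplit : ∀ F : ℕ → ℝ, ∑ d ∈ (m * q^(a+1)).divisors, F d
        = ∑ d ∈ (m * q^a).divisors, F d + ∑ d ∈ m.divisors, F (q^(a+1) * d) := by
      intro F
      rw [hdecomp, sum_union hdisj, sum_image hinj]
    rw [two_S, hsplit]
    simp only [hsplit]
    rw [sum_add_distrib, sum_add_distrib, ← two_S, cross_eq_V hq hm hm0]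
    have h3 : ∑ x ∈ m.divisors, ∑ d ∈ (m * q^a).divisors, phi (q^(a+1) * x) d = V m q (a+1) := by
      rw [sum_comm, ← cross_eq_V hq hm hm0]
      exact sum_congr rfl fun d _ => sum_congr rfl fun e _ => phi_comm _ _
    have h4 : ∑ x ∈ m.divisors, ∑ d ∈ m.divisors, phi (q^(a+1) * x) (q^(a+1) * d)
        = 2 * (S m / (q:ℝ)^(a+1)) := by
      rw [show 2 * (S m / (q:ℝ)^(a+1)) = (2 * S m) / (q:ℝ)^(a+1) by ring, two_S, sum_div]
      refine sum_congr rfl fun x _ => ?_
      rw [sum_div]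
      refine sum_congr rfl fun y _ => ?_
      rw [phi_mul]; push_cast; rfl
    rw [h3, h4]
    ring
  linarith

/-- number of divisors -/
theorem card_succ {m q : ℕ} (hq : q.Prime) (hm : ¬ q ∣ m) (hm0 : m ≠ 0) (a : ℕ) :
    (m * q^(a+1)).divisors.card = (m * q^a).divisors.card + m.divisors.card := by
  have hc : ∀ b, Nat.Coprime m (q^b) := fun b =>
    Nat.Coprime.pow_right _ ((Nat.Prime.coprime_iff_not_dvd hq).2 hm).symm
  rw [(hc (a+1)).card_divisors_mul, (hc a).card_divisors_mul, Nat.divisors_prime_pow hq,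
    Nat.divisors_prime_pow hq]
  simp only [card_map, card_range]
  ring

end Pool.Agent.Helper316
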