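import Mathlib

set_option autoImplicit false

namespace Pool.Agent.Helper316.Cross

open MvPolynomial

/-- Two variable chain rule for derivations. -/
theorem chain {A : Type} [CommRing A] [Algebra ℂ A] (D : Derivation ℂ A A) (f : Fin 2 → A)
    (p : MvPolynomial (Fin 2) ℂ) :
    D (aeval f p) = aeval f (pderiv 0 p) * D (f 0) + aeval f (pderiv 1 p) * D (f 1) := by
  induction p using MvPolynomial.induction_on with
  | C a => simp
  | add p q hp hq => simp only [map_add, hp, hq]; ring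
  | mul_X p i hp =>
    rw [map_mul, Derivation.leibniz, hp, aeval_X]
    fin_cases i
    · simp only [Fin.zero_eta, Fin.isValue, smul_eq_mul, Derivation.leibniz, pderiv_X_self, map_add,
        map_mul, aeval_X, map_one, pderiv_X_of_ne (by decide : (0 : Fin 2) ≠ 1), map_zero]
      ring
    · simp only [Fin.mk_one, Fin.isValue, smul_eq_mul, Derivation.leibniz, pderiv_X_self, map_add,
        map_mul, aeval_X, map_one, pderiv_X_of_ne (by decide : (1 : Fin 2) ≠ 0), map_zero]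
      ring

theorem dvd_axis (j : Fin 2) (P : MvPolynomial (Fin 2) ℂ) :
    (X j : MvPolynomial (Fin 2) ℂ) ∣
      P - aeval (fun k : Fin 2 => if k = j then (0 : MvPolynomial (Fin 2) ℂ) else X k) P := by
  induction P using MvPolynomial.induction_on with
  | C a => simp
  | add p q hp hq =>
    rw [map_add]
    have h := dvd_add hp hq
    convert h using 1
    ring
  | mul_X p i hp =>
    rw [map_mul, aeval_X]
    by_cases hij : i = j
    · rw [if_pos hij, hij]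
      exact ⟨p, by ring⟩
    · rw [if_neg hij]
      have h := hp.mul_right (X i)
      convert h using 1
      ring

theorem eval_aeval (v : Fin 2 → ℂ) (f : Fin 2 → MvPolynomial (Fin 2) ℂ)
    (P : MvPolynomial (Fin 2) ℂ) : eval v (aeval f P) = eval (fun i => eval v (f i)) P := by
  have h := comp_aeval_apply (f := f) (aeval v : MvPolynomial (Fin 2) ℂ →ₐ[ℂ] ℂ) P
  simpa [coe_aeval_eq_eval] using h

/-- A polynomial vanishing on a coordinate axis is divisible by the coordinate. -/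
theorem dvd_of_vanish (j : Fin 2) (P : MvPolynomial (Fin 2) ℂ)
    (h : ∀ v : Fin 2 → ℂ, v j = 0 → eval v P = 0) : (X j : MvPolynomial (Fin 2) ℂ) ∣ P := by
  have h0 : aeval (fun k : Fin 2 => if k = j then (0 : MvPolynomial (Fin 2) ℂ) else X k) P = 0 := by
    apply MvPolynomial.funext
    intro v
    rw [eval_aeval, map_zero]
    apply h
    simp
  have h2 := dvd_axis j P
  rwa [h0, sub_zero] at h2

/-- If `q ∤ E q`, two elements divisible by `q` whose `E`-derivatives lie in the ideal they generate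
are zero. -/
theorem zero_of_dvd (E : Derivation ℂ (MvPolynomial (Fin 2) ℂ) (MvPolynomial (Fin 2) ℂ))
    (q : MvPolynomial (Fin 2) ℂ) (hq : Prime q) (hE : ¬ q ∣ E q)
    (D₁ D₂ a₁ b₁ a₂ b₂ : MvPolynomial (Fin 2) ℂ) (h1 : q ∣ D₁) (h2 : q ∣ D₂)
    (e1 : E D₁ = a₁ * D₁ + b₁ * D₂) (e2 : E D₂ = a₂ * D₁ + b₂ * D₂) : D₁ = 0 ∧ D₂ = 0 := by
  have key : ∀ m : ℕ, q ^ (m + 1) ∣ D₁ ∧ q ^ (m + 1) ∣ D₂ := by
    intro m
    induction m with
    | zero => simpa using ⟨h1, h2⟩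
    | succ m ih =>
      obtain ⟨⟨c₁, hc₁⟩, ⟨c₂, hc₂⟩⟩ := ih
      have step : ∀ (D c : MvPolynomial (Fin 2) ℂ), D = q ^ (m + 1) * c → q ^ (m + 1) ∣ E D →
          q ^ (m + 1 + 1) ∣ D := by
        intro D c hD hED
        have h3 : E D = q ^ (m + 1) * E c + q ^ m * ((m + 1 : ℕ) * (c * E q)) := by
          rw [hD, Derivation.leibniz, Derivation.leibniz_pow]
          simp only [smul_eq_mul, nsmul_eq_mul, Nat.add_sub_cancel]
          ring
        have h4 : q ^ (m + 1) ∣ q ^ m * (((m + 1 : ℕ) : MvPolynomial (Fin 2) ℂ) * (c * E q)) := by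
          have h5 := _root_.dvd_sub hED (Dvd.intro _ rfl : q ^ (m + 1) ∣ q ^ (m + 1) * E c)
          rw [h3] at h5
          simpa using h5
        rw [pow_succ, mul_dvd_mul_iff_left (pow_ne_zero m hq.ne_zero)] at h4
        have hu : IsUnit (((m + 1 : ℕ) : MvPolynomial (Fin 2) ℂ)) := by
          have h6 : (((m + 1 : ℕ) : MvPolynomial (Fin 2) ℂ)) = C (((m + 1 : ℕ) : ℂ)) := by simp
          rw [h6]
          exact (isUnit_iff_ne_zero.mpr (Nat.cast_ne_zero.mpr (Nat.succ_ne_zero m))).map C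
        rw [hu.dvd_mul_left] at h4
        rcases hq.dvd_or_dvd h4 with h7 | h7
        · rw [hD, pow_succ]
          exact mul_dvd_mul_left _ h7
        · exact absurd h7 hE
      have hD1 : q ^ (m + 1) ∣ D₁ := ⟨c₁, hc₁⟩
      have hD2 : q ^ (m + 1) ∣ D₂ := ⟨c₂, hc₂⟩
      refine ⟨step D₁ c₁ hc₁ ?_, step D₂ c₂ hc₂ ?_⟩
      · rw [e1]; exact dvd_add (hD1.mul_left _) (hD2.mul_left _)
      · rw [e2]; exact dvd_add (hD1.mul_left _) (hD2.mul_left _)
  have fin : ∀ D : MvPolynomial (Fin 2) ℂ, (∀ m : ℕ, q ^ (m + 1) ∣ D) → D = 0 := by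
    intro D hD
    by_contra hne
    obtain ⟨n, hn⟩ := FiniteMultiplicity.of_not_isUnit hq.not_isUnit hne
    exact hn (hD n)
  exact ⟨fin D₁ fun m => (key m).1, fin D₂ fun m => (key m).2⟩

/-- The difference of the values of a polynomial lies in the ideal of the differences. -/
theorem diff_mem (F₁ F₂ G₁ G₂ p : MvPolynomial (Fin 2) ℂ) :
    ∃ a b : MvPolynomial (Fin 2) ℂ,
      aeval ![G₁, G₂] p - aeval ![F₁, F₂] p = a * (G₁ - F₁) + b * (G₂ - F₂) := by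
  induction p using MvPolynomial.induction_on with
  | C a => exact ⟨0, 0, by simp⟩
  | add p q hp hq =>
    obtain ⟨a, b, h⟩ := hp
    obtain ⟨a', b', h'⟩ := hq
    refine ⟨a + a', b + b', ?_⟩
    rw [map_add, map_add]
    linear_combination h + h'
  | mul_X p i hp =>
    obtain ⟨a, b, h⟩ := hp
    rw [map_mul, map_mul, aeval_X, aeval_X]
    fin_cases i
    · refine ⟨a * G₁ + aeval ![F₁, F₂] p, b * G₁, ?_⟩
      simp only [Fin.zero_eta, Fin.isValue, Matrix.cons_val_zero]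
      linear_combination G₁ * h
    · refine ⟨a * G₂, b * G₂ + aeval ![F₁, F₂] p, ?_⟩
      simp only [Fin.mk_one, Fin.isValue, Matrix.cons_val_one, Matrix.cons_val_zero]
      linear_combination G₂ * h

/-- The Hamiltonian derivation of `u`. -/
noncomputable def ham (u : MvPolynomial (Fin 2) ℂ) :
    Derivation ℂ (MvPolynomial (Fin 2) ℂ) (MvPolynomial (Fin 2) ℂ) :=
  (pderiv 0 u) • (pderiv (1 : Fin 2)) - (pderiv 1 u) • (pderiv (0 : Fin 2))

theorem ham_apply (u v : MvPolynomial (Fin 2) ℂ) :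
    ham u v = pderiv 0 u * pderiv 1 v - pderiv 1 u * pderiv 0 v := by
  simp [ham]

theorem main (F₁ F₂ G₁ G₂ p : MvPolynomial (Fin 2) ℂ)
    (hF : pderiv 0 F₁ * pderiv 1 F₂ - pderiv 1 F₁ * pderiv 0 F₂ = 1)
    (hG : pderiv 0 G₁ * pderiv 1 G₂ - pderiv 1 G₁ * pderiv 0 G₂ = 1)
    (hp : aeval ![F₁, F₂] p = aeval ![G₁, G₂] p) (j : Fin 2)
    (hj : ∀ v : Fin 2 → ℂ, v j = 0 → eval v F₁ = eval v G₁ ∧ eval v F₂ = eval v G₂)
    (hnd : ¬ (X j : MvPolynomial (Fin 2) ℂ) ∣ ham (aeval ![F₁, F₂] p) (X j)) :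
    F₁ = G₁ ∧ F₂ = G₂ := by
  have hu : ∀ k : Fin 2, pderiv k (aeval ![F₁, F₂] p) =
      aeval ![F₁, F₂] (pderiv 0 p) * pderiv k F₁ + aeval ![F₁, F₂] (pderiv 1 p) * pderiv k F₂ := by
    intro k
    simpa using chain (pderiv k) ![F₁, F₂] p
  have hu' : ∀ k : Fin 2, pderiv k (aeval ![F₁, F₂] p) =
      aeval ![G₁, G₂] (pderiv 0 p) * pderiv k G₁ + aeval ![G₁, G₂] (pderiv 1 p) * pderiv k G₂ := by
    intro k
    rw [hp]
    simpa using chain (pderiv k) ![G₁, G₂] p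
  have f1 : ham (aeval ![F₁, F₂] p) F₁ = -aeval ![F₁, F₂] (pderiv 1 p) := by
    rw [ham_apply, hu 0, hu 1]
    linear_combination (-aeval ![F₁, F₂] (pderiv 1 p)) * hF
  have f2 : ham (aeval ![F₁, F₂] p) F₂ = aeval ![F₁, F₂] (pderiv 0 p) := by
    rw [ham_apply, hu 0, hu 1]
    linear_combination (aeval ![F₁, F₂] (pderiv 0 p)) * hF
  have g1 : ham (aeval ![F₁, F₂] p) G₁ = -aeval ![G₁, G₂] (pderiv 1 p) := by
    rw [ham_apply, hu' 0, hu' 1]
    linear_combination (-aeval ![G₁, G₂] (pderiv 1 p)) * hG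
  have g2 : ham (aeval ![F₁, F₂] p) G₂ = aeval ![G₁, G₂] (pderiv 0 p) := by
    rw [ham_apply, hu' 0, hu' 1]
    linear_combination (aeval ![G₁, G₂] (pderiv 0 p)) * hG
  obtain ⟨a₁, b₁, h₁⟩ := diff_mem F₁ F₂ G₁ G₂ (pderiv 1 p)
  obtain ⟨a₂, b₂, h₂⟩ := diff_mem F₁ F₂ G₁ G₂ (pderiv 0 p)
  have hz := zero_of_dvd (ham (aeval ![F₁, F₂] p)) (X j) X_prime hnd (G₁ - F₁) (G₂ - F₂)
    (-a₁) (-b₁) a₂ b₂
    (dvd_of_vanish j _ fun v hv => by rw [map_sub, (hj v hv).1, sub_self])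
    (dvd_of_vanish j _ fun v hv => by rw [map_sub, (hj v hv).2, sub_self])
    (by rw [map_sub, f1, g1]; linear_combination -h₁)
    (by rw [map_sub, f2, g2]; linear_combination h₂)
  exact ⟨(sub_eq_zero.mp hz.1).symm, (sub_eq_zero.mp hz.2).symm⟩

/-- If the derivative along an axis vanishes on the axis, the polynomial is constant there. -/
theorem const_axis0 (u : MvPolynomial (Fin 2) ℂ) (h : (X 1 : MvPolynomial (Fin 2) ℂ) ∣ pderiv 0 u)
    (v : Fin 2 → ℂ) (hv : v 1 = 0) : eval v u = eval 0 u := by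
  have hder : Polynomial.derivative (aeval ![Polynomial.X, (0 : Polynomial ℂ)] u) = 0 := by
    have h1 := chain Polynomial.derivative' ![Polynomial.X, (0 : Polynomial ℂ)] u
    obtain ⟨w, hw⟩ := h
    rw [hw] at h1
    simpa using h1
  have hC := Polynomial.eq_C_of_derivative_eq_zero hder
  have hev : ∀ a : ℂ, eval ![a, 0] u = Polynomial.eval a (aeval ![Polynomial.X, (0 : Polynomial ℂ)] u) := by
    intro a
    have h2 := comp_aeval_apply (f := ![Polynomial.X, (0 : Polynomial ℂ)])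
      (Polynomial.aeval a : Polynomial ℂ →ₐ[ℂ] ℂ) u
    rw [Polynomial.coe_aeval_eq_eval] at h2
    have hfun : (fun i => Polynomial.eval a ((![Polynomial.X, (0 : Polynomial ℂ)] : Fin 2 → Polynomial ℂ) i)) =
        ![a, 0] := by
      funext i
      fin_cases i <;> simp
    rw [h2, hfun]
    rfl
  have e1 : v = ![v 0, 0] := by
    funext i
    fin_cases i
    · rfl
    · exact hv
  have e0 : (0 : Fin 2 → ℂ) = ![0, 0] := by
    funext i
    fin_cases i <;> rfl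
  rw [e0, e1, hev, hev, hC]
  simp

theorem const_axis1 (u : MvPolynomial (Fin 2) ℂ) (h : (X 0 : MvPolynomial (Fin 2) ℂ) ∣ pderiv 1 u)
    (v : Fin 2 → ℂ) (hv : v 0 = 0) : eval v u = eval 0 u := by
  have hder : Polynomial.derivative (aeval ![(0 : Polynomial ℂ), Polynomial.X] u) = 0 := by
    have h1 := chain Polynomial.derivative' ![(0 : Polynomial ℂ), Polynomial.X] u
    obtain ⟨w, hw⟩ := h
    rw [hw] at h1
    simpa using h1
  have hC := Polynomial.eq_C_of_derivative_eq_zero hder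
  have hev : ∀ a : ℂ, eval ![0, a] u = Polynomial.eval a (aeval ![(0 : Polynomial ℂ), Polynomial.X] u) := by
    intro a
    have h2 := comp_aeval_apply (f := ![(0 : Polynomial ℂ), Polynomial.X])
      (Polynomial.aeval a : Polynomial ℂ →ₐ[ℂ] ℂ) u
    rw [Polynomial.coe_aeval_eq_eval] at h2
    have hfun : (fun i => Polynomial.eval a ((![(0 : Polynomial ℂ), Polynomial.X] : Fin 2 → Polynomial ℂ) i)) =
        ![0, a] := by
      funext i
      fin_cases i <;> simp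
    rw [h2, hfun]
    rfl
  have e1 : v = ![0, v 1] := by
    funext i
    fin_cases i
    · exact hv
    · rfl
  have e0 : (0 : Fin 2 → ℂ) = ![0, 0] := by
    funext i
    fin_cases i <;> rfl
  rw [e0, e1, hev, hev, hC]
  simp

theorem main' (F₁ F₂ G₁ G₂ p : MvPolynomial (Fin 2) ℂ)
    (hF : pderiv 0 F₁ * pderiv 1 F₂ - pderiv 1 F₁ * pderiv 0 F₂ = 1)
    (hG : pderiv 0 G₁ * pderiv 1 G₂ - pderiv 1 G₁ * pderiv 0 G₂ = 1)
    (hp : aeval ![F₁, F₂] p = aeval ![G₁, G₂] p)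
    (hZ : ∀ v : Fin 2 → ℂ, v 0 * v 1 = 0 → eval v F₁ = eval v G₁ ∧ eval v F₂ = eval v G₂)
    (hnd : ¬ ((X 1 : MvPolynomial (Fin 2) ℂ) ∣ pderiv 0 (aeval ![F₁, F₂] p) ∧
      (X 0 : MvPolynomial (Fin 2) ℂ) ∣ pderiv 1 (aeval ![F₁, F₂] p))) :
    F₁ = G₁ ∧ F₂ = G₂ := by
  by_cases h1 : (X 1 : MvPolynomial (Fin 2) ℂ) ∣ pderiv 0 (aeval ![F₁, F₂] p)
  · have h0 : ¬ (X 0 : MvPolynomial (Fin 2) ℂ) ∣ pderiv 1 (aeval ![F₁, F₂] p) := fun h => hnd ⟨h1, h⟩
    refine main F₁ F₂ G₁ G₂ p hF hG hp 0 (fun v hv => hZ v (by rw [hv, zero_mul])) ?_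
    rw [ham_apply, pderiv_X_of_ne (by decide : (0 : Fin 2) ≠ 1), pderiv_X_self]
    simpa using h0
  · refine main F₁ F₂ G₁ G₂ p hF hG hp 1 (fun v hv => hZ v (by rw [hv, mul_zero])) ?_
    rw [ham_apply, pderiv_X_of_ne (by decide : (1 : Fin 2) ≠ 0), pderiv_X_self]
    simpa using h1

/-- Values at the origin. -/
theorem lin_nd (F₁ F₂ : MvPolynomial (Fin 2) ℂ) (a b : ℂ) (hab : ¬ (a = 0 ∧ b = 0))
    (hF : pderiv 0 F₁ * pderiv 1 F₂ - pderiv 1 F₁ * pderiv 0 F₂ = 1) :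
    ¬ ((X 1 : MvPolynomial (Fin 2) ℂ) ∣ pderiv 0 (C a * F₁ + C b * F₂) ∧
      (X 0 : MvPolynomial (Fin 2) ℂ) ∣ pderiv 1 (C a * F₁ + C b * F₂)) := by
  rintro ⟨⟨s, hs⟩, ⟨t, ht⟩⟩
  have h0 := congrArg (eval (0 : Fin 2 → ℂ)) hs
  have h1 := congrArg (eval (0 : Fin 2 → ℂ)) ht
  have h2 := congrArg (eval (0 : Fin 2 → ℂ)) hF
  simp only [map_add, Derivation.leibniz, smul_eq_mul, pderiv_C, mul_zero, add_zero, map_mul,
    eval_C, eval_X, Pi.zero_apply, zero_mul, map_sub, map_one] at h0 h1 h2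
  apply hab
  constructor
  · linear_combination (-a) * h2 + (eval 0 (pderiv 1 F₂)) * h0 - (eval 0 (pderiv 0 F₂)) * h1
  · linear_combination (-b) * h2 + (eval 0 (pderiv 0 F₁)) * h1 - (eval 0 (pderiv 1 F₁)) * h0

/-- Keller maps which agree on the cross and have the same composition with a polynomial `p`. -/
theorem fused (F₁ F₂ G₁ G₂ : MvPolynomial (Fin 2) ℂ)
    (hF : pderiv 0 F₁ * pderiv 1 F₂ - pderiv 1 F₁ * pderiv 0 F₂ = 1)
    (hG : pderiv 0 G₁ * pderiv 1 G₂ - pderiv 1 G₁ * pderiv 0 G₂ = 1)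
    (hZ : ∀ v : Fin 2 → ℂ, v 0 * v 1 = 0 → eval v F₁ = eval v G₁ ∧ eval v F₂ = eval v G₂)
    (p : MvPolynomial (Fin 2) ℂ) (hp : aeval ![F₁, F₂] p = aeval ![G₁, G₂] p)
    (v w : Fin 2 → ℂ) (hv : v 0 * v 1 = 0) (hw : w 0 * w 1 = 0)
    (hvw : eval v (aeval ![F₁, F₂] p) ≠ eval w (aeval ![F₁, F₂] p)) :
    F₁ = G₁ ∧ F₂ = G₂ := by
  apply main' F₁ F₂ G₁ G₂ p hF hG hp hZ
  rintro ⟨h1, h0⟩
  have hc : ∀ z : Fin 2 → ℂ, z 0 * z 1 = 0 →
      eval z (aeval ![F₁, F₂] p) = eval 0 (aeval ![F₁, F₂] p) := by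
    intro z hz
    rcases mul_eq_zero.mp hz with h | h
    · exact const_axis1 _ h0 z h
    · exact const_axis0 _ h1 z h
  exact hvw ((hc v hv).trans (hc w hw).symm)

/-- Keller maps which agree on the cross and have a common linear combination of components. -/
theorem common (F₁ F₂ G₁ G₂ : MvPolynomial (Fin 2) ℂ)
    (hF : pderiv 0 F₁ * pderiv 1 F₂ - pderiv 1 F₁ * pderiv 0 F₂ = 1)
    (hG : pderiv 0 G₁ * pderiv 1 G₂ - pderiv 1 G₁ * pderiv 0 G₂ = 1)
    (hZ : ∀ v : Fin 2 → ℂ, v 0 * v 1 = 0 → eval v F₁ = eval v G₁ ∧ eval v F₂ = eval v G₂)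
    (a b : ℂ) (hab : ¬ (a = 0 ∧ b = 0)) (h : C a * F₁ + C b * F₂ = C a * G₁ + C b * G₂) :
    F₁ = G₁ ∧ F₂ = G₂ := by
  have e1 : ∀ P Q : MvPolynomial (Fin 2) ℂ,
      aeval ![P, Q] (C a * X 0 + C b * X 1 : MvPolynomial (Fin 2) ℂ) = C a * P + C b * Q := by
    intro P Q
    simp [algebraMap_eq]
  apply main' F₁ F₂ G₁ G₂ (C a * X 0 + C b * X 1) hF hG (by rw [e1, e1, h]) hZ
  rw [e1]
  exact lin_nd F₁ F₂ a b hab hF

end Pool.Agent.Helper316.Cross
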