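import Pool.Agent.Helper316.Fin
set_option autoImplicit false
namespace Pool.Agent.Helper316

open Finset

theorem nt_double {y : ℕ} (hy : 0 < y) (d : ℕ) :
    nt y (2*d) = if 4 * nt y d ≤ y then 2 * nt y d else y - 2 * nt y d := by
  have h1 : (2*d) % y = (2*(d%y)) % y := by
    rw [Nat.mul_mod, Nat.mul_mod 2 (d%y), Nat.mod_mod]
  have hr : d % y < y := Nat.mod_lt _ hy
  have h2 : (2*(d%y)) % y = if 2*(d%y) < y then 2*(d%y) else 2*(d%y) - y := by
    split_ifs with h
    · exact Nat.mod_eq_of_lt h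
    · rw [Nat.mod_eq_sub_mod (by omega)]; exact Nat.mod_eq_of_lt (by omega)
  unfold nt
  rw [h1, h2]
  split_ifs <;> omega

theorem inv_ub {t : ℕ} (c : ℕ) (hc : 0 < c) (h : t = 0 ∨ c ≤ t) : (1:ℝ)/t ≤ 1/c := by
  rcases h with h | h
  · subst h; simp
  · have : (c:ℝ) ≤ t := by exact_mod_cast h
    have hc' : (0:ℝ) < c := by exact_mod_cast hc
    exact one_div_le_one_div_of_le hc' this

theorem inv_one (t : ℕ) : (1:ℝ)/t ≤ 1 := by
  have := inv_ub (t := t) 1 one_pos (by omega)
  simpa using this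

/-- doubling relation -/
def Db (y t t' : ℕ) : Prop := t' = if 4 * t ≤ y then 2 * t else y - 2 * t

theorem T2_le {y t0 t1 : ℕ} (hy : Odd y) (hy5 : 5 ≤ y) (h0 : Db y t0 t1) :
    (1:ℝ)/t0 + 1/t1 ≤ 3/2 := by
  unfold Db at h0
  have i1 := inv_one t0
  have i2 := inv_one t1
  obtain ⟨w, hw⟩ := hy
  rcases Nat.lt_or_ge t0 1 with h | h
  · have : t0 = 0 := by omega
    subst this; simp at *; linarith
  rcases Nat.lt_or_ge t0 2 with h' | h'
  · have : t0 = 1 := by omega
    subst this
    have : t1 = 2 := by rw [h0, if_pos (by omega)]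
    subst this; norm_num
  · have := inv_ub (t := t0) 2 (by norm_num) (by omega)
    push_cast at this
    linarith

theorem T3_le {y t0 t1 t2 : ℕ} (hy : Odd y) (hy9 : 9 ≤ y) (ht0 : 2 * t0 ≤ y)
    (h0 : Db y t0 t1) (h1 : Db y t1 t2) :
    (1:ℝ)/t0 + 1/t1 + 1/t2 ≤ 7/4 := by
  have hT2 := T2_le hy (by omega) h1
  have i1 := inv_one t1
  have i2 := inv_one t2
  unfold Db at h0 h1
  obtain ⟨w, hw⟩ := hy
  rcases Nat.lt_or_ge t0 1 with h | h
  · have : t0 = 0 := by omega
    subst this; simp at *; linarith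
  rcases Nat.lt_or_ge t0 2 with h' | h'
  · have : t0 = 1 := by omega
    subst this
    have e1 : t1 = 2 := by rw [h0, if_pos (by omega)]
    subst e1
    have e2 : t2 = 4 := by rw [h1, if_pos (by omega)]
    subst e2; norm_num
  rcases Nat.lt_or_ge t0 3 with h'' | h''
  · have : t0 = 2 := by omega
    subst this
    have e1 : t1 = 4 := by rw [h0, if_pos (by omega)]
    subst e1
    push_cast; linarith
  · have j0 := inv_ub (t := t0) 3 (by norm_num) (by omega)
    push_cast at j0
    rcases Nat.lt_or_ge t1 3 with hh | hh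
    · have e : t1 = 1 := by split_ifs at h0 <;> omega
      subst e
      have := inv_ub (t := t0) 4 (by norm_num) (by split_ifs at h0 <;> omega)
      push_cast at this
      linarith
    · have j1 := inv_ub (t := t1) 3 (by norm_num) (by omega)
      push_cast at j1
      linarith

theorem T4_le {y t0 t1 t2 t3 : ℕ} (hy : Odd y) (hy32 : 32 ≤ y) (ht0 : 2 * t0 ≤ y)
    (ht1 : 2 * t1 ≤ y)
    (h0 : Db y t0 t1) (h1 : Db y t1 t2) (h2 : Db y t2 t3) :
    (1:ℝ)/t0 + 1/t1 + 1/t2 + 1/t3 ≤ 15/8 := by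
  have hT2 := T2_le hy (by omega) h2
  have hT3 := T3_le hy (by omega) ht1 h1 h2
  have i1 := inv_one t1
  have i2 := inv_one t2
  have i3 := inv_one t3
  unfold Db at h0 h1 h2
  obtain ⟨w, hw⟩ := hy
  rcases Nat.lt_or_ge t0 1 with h | h
  · have : t0 = 0 := by omega
    subst this; simp at *; linarith
  rcases Nat.lt_or_ge t0 2 with h' | h'
  · have : t0 = 1 := by omega
    subst this
    have e1 : t1 = 2 := by rw [h0, if_pos (by omega)]
    subst e1
    have e2 : t2 = 4 := by rw [h1, if_pos (by omega)]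
    subst e2
    have e3 : t3 = 8 := by rw [h2, if_pos (by omega)]
    subst e3; norm_num
  rcases Nat.lt_or_ge t0 3 with h'' | h''
  · have : t0 = 2 := by omega
    subst this
    have e1 : t1 = 4 := by rw [h0, if_pos (by omega)]
    subst e1
    have e2 : t2 = 8 := by rw [h1, if_pos (by omega)]
    subst e2
    push_cast; linarith
  have j0 := inv_ub (t := t0) 3 (by norm_num) (by omega)
  push_cast at j0
  rcases Nat.lt_or_ge t1 3 with hh | hh
  · have e : t1 = 1 := by split_ifs at h0 <;> omega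
    have := inv_ub (t := t0) 8 (by norm_num) (by split_ifs at h0 <;> omega)
    push_cast at this
    linarith
  have j1 := inv_ub (t := t1) 3 (by norm_num) (by omega)
  push_cast at j1
  rcases Nat.lt_or_ge t2 3 with h4 | h4
  · have e : t2 = 1 := by split_ifs at h1 <;> omega
    have k0 := inv_ub (t := t0) 7 (by norm_num) (by split_ifs at h0 h1 <;> omega)
    have k1 := inv_ub (t := t1) 16 (by norm_num) (by split_ifs at h0 h1 <;> omega)
    push_cast at k0 k1
    linarith
  have j2 := inv_ub (t := t2) 3 (by norm_num) (by omega)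
  push_cast at j2
  rcases Nat.lt_or_ge t3 2 with h5 | h5
  · have k2 := inv_ub (t := t2) 16 (by norm_num) (by split_ifs at h2 <;> omega)
    push_cast at k2
    linarith
  · have j3 := inv_ub (t := t3) 2 (by norm_num) (by omega)
    push_cast at j3
    linarith

/-- doubling sums -/
noncomputable def TS (y d k : ℕ) : ℝ := ∑ s ∈ range k, (1:ℝ)/(nt y (2^s*d) : ℝ)

theorem TS_split (y d j k : ℕ) : TS y d (j+k) = TS y d j + TS y (2^j*d) k := by
  unfold TS
  rw [sum_range_add]
  congr 1
  refine sum_congr rfl fun s _ => ?_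
  rw [show 2^(j+s)*d = 2^s*(2^j*d) by rw [pow_add]; ring]

theorem nt_two_le (y d : ℕ) : 2 * nt y d ≤ y := by unfold nt; omega

theorem db_nt {y : ℕ} (hy : 0 < y) (d : ℕ) : Db y (nt y d) (nt y (2*d)) := nt_double hy d

theorem TS_one (y d : ℕ) : TS y d 1 ≤ 1 := by
  unfold TS; rw [sum_range_one]; exact inv_one _

theorem TS_two {y : ℕ} (hy : Odd y) (hy5 : 5 ≤ y) (d : ℕ) : TS y d 2 ≤ 3/2 := by
  have := T2_le hy hy5 (db_nt hy.pos d)
  unfold TS
  simpa [sum_range_succ] using this

theorem TS_three {y : ℕ} (hy : Odd y) (hy9 : 9 ≤ y) (d : ℕ) : TS y d 3 ≤ 7/4 := by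
  have := T3_le hy hy9 (nt_two_le y d) (db_nt hy.pos d) (db_nt hy.pos (2*d))
  unfold TS
  rw [show 2*(2*d) = 2^2*d by ring] at this
  simpa [sum_range_succ] using this

theorem TS_four {y : ℕ} (hy : Odd y) (hy32 : 32 ≤ y) (d : ℕ) : TS y d 4 ≤ 15/8 := by
  have := T4_le hy hy32 (nt_two_le y d) (nt_two_le y (2*d)) (db_nt hy.pos d) (db_nt hy.pos (2*d))
    (db_nt hy.pos (2*(2*d)))
  unfold TS
  rw [show 2*(2*(2*d)) = 2^3*d by ring, show 2*(2*d) = 2^2*d by ring] at this
  simpa [sum_range_succ] using this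

theorem TS_ge_three {y : ℕ} (hy : Odd y) (hy32 : 32 ≤ y) :
    ∀ k, 3 ≤ k → ∀ d, TS y d k ≤ 7/12 * k := by
  intro k
  induction k using Nat.strong_induction_on with
  | _ k ih =>
    intro hk d
    rcases Nat.lt_or_ge k 7 with h | h
    · have h3 := TS_three hy (by omega) d
      have h4 := TS_four hy hy32 d
      interval_cases k
      · push_cast; linarith
      · push_cast; linarith
      · have := TS_split y d 4 1
        have h1 := TS_one y (2^4*d)
        rw [this]
        generalize 2^4*d = d' at *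
        push_cast; linarith
      · have := TS_split y d 4 2
        have h1 := TS_two hy (by omega) (2^4*d)
        rw [this]
        generalize 2^4*d = d' at *
        push_cast; linarith
    · obtain ⟨j, rfl⟩ : ∃ j, k = 4 + j := ⟨k-4, by omega⟩
      have h4 := TS_four hy hy32 d
      have h5 := ih j (by omega) (by omega) (2^4*d)
      rw [TS_split]
      generalize 2^4*d = d' at *
      push_cast; linarith

theorem sum_two_pow {M : ℕ} (hM2 : ¬ 2 ∣ M) (hM : M ≠ 0) (i : ℕ) : ∀ (F : ℕ → ℝ),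
    ∑ d ∈ (M*2^i).divisors, F d = ∑ d ∈ M.divisors, ∑ s ∈ range (i+1), F (2^s*d) := by
  induction i with
  | zero => intro F; simp
  | succ i ih =>
    intro F
    rw [sum_divisors_succ Nat.prime_two hM2 hM, ih, ← sum_add_distrib]
    refine sum_congr rfl fun d _ => ?_
    rw [sum_range_succ' (n := i+1), add_comm]
    congr 1
    · exact sum_congr rfl fun s _ => by rw [pow_succ']; congr 1; ring
    · simp

/-- independent set lemma -/
theorem IS_chain {M r : ℕ} (hr : r.Prime) (hM : ¬ r ∣ M) (hM0 : M ≠ 0) (c : ℕ) :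
    ∀ f : ℕ → ℕ, (∀ d, f d + f (r*d) ≤ 1) →
      ∑ d ∈ (M * r^(2*c+1)).divisors, f d ≤ (c+1) * M.divisors.card := by
  induction c with
  | zero =>
    intro f hf
    rw [sum_divisors_succ hr hM hM0]
    simp only [mul_zero, pow_zero, mul_one, zero_add, one_mul]
    rw [← sum_add_distrib]
    calc _ ≤ ∑ d ∈ M.divisors, 1 := sum_le_sum fun d _ => hf d
      _ = _ := by simp
  | succ c ih =>
    intro f hf
    rw [show 2*(c+1)+1 = (2*c+1)+1+1 by ring, sum_divisors_succ hr hM hM0,
      sum_divisors_succ hr hM hM0, ← add_assoc, ← sum_add_distrib]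
    have h1 := ih (fun d => f (r*(r*d))) (fun d => hf (r*(r*d)))
    have h2 : ∑ d ∈ M.divisors, (f d + f (r*d)) ≤ M.divisors.card := by
      calc _ ≤ ∑ d ∈ M.divisors, 1 := sum_le_sum fun d _ => hf d
        _ = _ := by simp
    calc _ ≤ M.divisors.card + (c+1) * M.divisors.card := add_le_add h2 h1
      _ = _ := by ring

theorem IS (f : ℕ → ℕ) (h1 : f 1 = 0) (M : ℕ) : M ≠ 0 →
    (∀ r, r.Prime → r ∣ M → ∀ d, f d + f (r*d) ≤ 1) →
    2 * ∑ d ∈ M.divisors, f d ≤ M.divisors.card := by
  induction M using Nat.strong_induction_on with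
  | _ M ih =>
    intro hM0 hM
    by_cases hone : M = 1
    · subst hone; simp [h1]
    obtain ⟨r, hr, hrM⟩ := Nat.exists_prime_and_dvd hone
    set b := M.factorization r with hb
    set M' := M / r^b with hM'
    have hb1 : 1 ≤ b := hr.factorization_pos_of_dvd hM0 hrM
    have hrM' : ¬ r ∣ M' := Nat.not_dvd_ordCompl hr hM0
    have hMM : M = M' * r^b := by
      rw [mul_comm]; exact (Nat.ordProj_mul_ordCompl_eq_self M r).symm
    have hM'0 : M' ≠ 0 := (Nat.ordCompl_pos r hM0).ne'
    have hM'd : M' ∣ M := Nat.ordCompl_dvd M r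
    have hlt : M' < M := by
      refine lt_of_le_of_ne (Nat.le_of_dvd (Nat.pos_of_ne_zero hM0) hM'd) ?_
      intro h; rw [h] at hrM'; exact hrM' hrM
    clear_value b M'
    have hf := hM r hr hrM
    have hcard : M.divisors.card = (b+1) * M'.divisors.card := by
      rw [hMM]; exact card_mul_pow hr hrM' b
    rcases Nat.even_or_odd b with he | ho
    · obtain ⟨c, hc⟩ := he
      obtain ⟨c', rfl⟩ : ∃ c', c = c' + 1 := ⟨c-1, by omega⟩
      have hb2 : b = (2*c'+1)+1 := by omega
      rw [hcard, hMM, hb2, sum_divisors_succ hr hrM' hM'0]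
      have h3 := ih M' hlt hM'0 (fun r hr h => hM r hr (h.trans hM'd))
      have h4 := IS_chain hr hrM' hM'0 c' (fun d => f (r*d)) (fun d => hf (r*d))
      nlinarith
    · obtain ⟨c, hc⟩ := ho
      rw [hcard, hMM, hc]
      have h4 := IS_chain hr hrM' hM'0 c f hf
      nlinarith

end Pool.Agent.Helper316
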