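import Pool.Agent.Helper316.Theory
set_option autoImplicit false
namespace Pool.Agent.Helper316

open Finset

theorem W_zero {m q d : ℕ} : ∀ k, (∀ j, 1 ≤ j → j ≤ k → nu m (q^j) d = 0) → W m q k d = 0 := by
  intro k
  induction k with
  | zero => intro _; rfl
  | succ k ih =>
    intro h
    rw [W, h (k+1) (by omega) (le_refl _), ih (fun j h1 h2 => h j h1 (by omega))]
    simp

theorem TA_level {m q k j d : ℕ} (hqm : ¬ q ∣ m) (hj1 : 1 ≤ j) (hjk : j < k)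
    (h3 : 3 ≤ q^j) (hA : TA m (q^k) d) : nu m (q^j) d = 0 := by
  obtain ⟨e, he, h⟩ := hA
  apply nu_zero (z := q^(k-j)*e)
  · have h1 : q^j * (q^(k-j)*e) = q^k * e := by
      rw [← mul_assoc, ← pow_add]; congr 2; omega
    rw [h1, h]
    have : (3:ℤ) ≤ ((q^j : ℕ):ℤ) := by exact_mod_cast h3
    omega
  · intro hz
    apply hqm
    refine dvd_trans ?_ (Nat.dvd_of_mem_divisors hz)
    exact dvd_mul_of_dvd_left (dvd_pow_self q (by omega)) _

theorem TA_level2 {m q k j d : ℕ} (hqm : ¬ q ∣ m) (hj1 : 1 ≤ j) (hjk : j < k)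
    (h5 : 5 ≤ q^j) (hA : TA m (q^k) d) : nu m (q^j) (2*d) = 0 := by
  obtain ⟨e, he, h⟩ := hA
  apply nu_zero (z := q^(k-j)*(2*e))
  · have h1 : ((q^j * (q^(k-j)*(2*e)) : ℕ):ℤ) - ((2*d:ℕ):ℤ) = 2 * (((q^k * e : ℕ):ℤ) - d) := by
      have h2 : q^j * (q^(k-j)*(2*e)) = 2 * (q^k * e) := by
        have : q^k = q^j * q^(k-j) := by rw [← pow_add]; congr 1; omega
        rw [this]; ring
      rw [h2]; push_cast; ring
    rw [h1, abs_mul, h]
    have : (5:ℤ) ≤ ((q^j : ℕ):ℤ) := by exact_mod_cast h5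
    rw [show |(2:ℤ)| = 2 by norm_num]
    omega
  · intro hz
    apply hqm
    refine dvd_trans ?_ (Nat.dvd_of_mem_divisors hz)
    exact dvd_mul_of_dvd_left (dvd_pow_self q (by omega)) _

/-- pair sums -/
noncomputable def UU (m q k d : ℕ) : ℝ := W m q k d + W m q k (2*d)

theorem UU_succ (m q k d : ℕ) : UU m q (k+1) d
    = (nu m (q^(k+1)) d + nu m (q^(k+1)) (2*d)) + UU m q k d / q := by
  unfold UU; rw [W, W]; ring

theorem UU_5 {m q : ℕ} (hqm : ¬ q ∣ m) (hq : Odd q) (hq5 : 5 ≤ q) (d : ℕ) :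
    ∀ k, UU m q k d ≤ 3/2 := by
  have hqR : (5:ℝ) ≤ q := by exact_mod_cast hq5
  intro k
  induction k with
  | zero => simp [UU, W]; norm_num
  | succ k ih =>
    have hpow : ∀ j, 1 ≤ j → 5 ≤ q^j := by
      intro j hj
      calc 5 ≤ q := hq5
        _ = q^1 := (pow_one q).symm
        _ ≤ q^j := Nat.pow_le_pow_right (by omega) hj
    by_cases hA : TA m (q^(k+1)) d
    · have h1 : W m q k d = 0 := W_zero k (fun j h1 h2 =>
        TA_level hqm h1 (by omega) (by have := hpow j h1; omega) hA)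
      have h2 : W m q k (2*d) = 0 := W_zero k (fun j h1 h2 =>
        TA_level2 hqm h1 (by omega) (hpow j h1) hA)
      rw [UU_succ]
      have h3 : UU m q k d = 0 := by unfold UU; rw [h1, h2]; ring
      rw [h3, zero_div, add_zero]
      exact g_le_TS (hq.pow) (hpow (k+1) (by omega)) d
    · rw [UU_succ]
      have h1 := g_nonA (m := m) (hq.pow (n := k+1)) (by have := hpow (k+1) (by omega); omega) d hA
      rcases Nat.eq_zero_or_pos k with hk | hk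
      · subst hk
        have h2 : UU m q 0 d = 0 := by simp [UU, W]
        rw [h2, zero_div, add_zero]
        simp only [zero_add, pow_one] at h1 ⊢
        have : 2/((q:ℝ)-1) ≤ 2/4 := by
          apply div_le_div_of_nonneg_left (by norm_num) (by norm_num); linarith
        linarith
      · have h2 : (25:ℝ) ≤ ((q^(k+1) : ℕ):ℝ) := by
          have : 25 ≤ q^(k+1) := by
            calc 25 = 5^2 := by norm_num
              _ ≤ q^2 := Nat.pow_le_pow_left hq5 2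
              _ ≤ q^(k+1) := Nat.pow_le_pow_right (by omega) (by omega)
          exact_mod_cast this
        have h3 : 2/(((q^(k+1) : ℕ):ℝ)-1) ≤ 2/24 := by
          apply div_le_div_of_nonneg_left (by norm_num) (by norm_num); linarith
        have h4 : UU m q k d / q ≤ (3/2)/5 :=
          div_le_div₀ (by norm_num) ih (by norm_num) hqR
        linarith

theorem W3_two {m d k : ℕ} (hqm : ¬ 3 ∣ m) (hA : TA m (3^(k+2)) d) :
    ∀ j, j ≤ k → W m 3 (j+1) (2*d) ≤ 1/(3:ℝ)^j := by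
  intro j
  induction j with
  | zero =>
    intro _
    rw [W, W]
    have := nu_le_one m (3^(0+1)) (2*d)
    simpa using this
  | succ j ih =>
    intro hj
    rw [W, TA_level2 (k := k+2) (j := j+1+1) hqm (by omega) (by omega) (by
      calc 5 ≤ 3^2 := by norm_num
        _ ≤ 3^(j+1+1) := Nat.pow_le_pow_right (by omega) (by omega)) hA, zero_add]
    have := ih (by omega)
    rw [pow_succ]
    push_cast
    rw [← div_div]
    exact div_le_div_of_nonneg_right this (by norm_num)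

theorem UU_3A {m d k : ℕ} (hqm : ¬ 3 ∣ m) (hA : TA m (3^(k+2)) d) :
    UU m 3 (k+2) d ≤ 3/2 + 1/(3:ℝ)^(k+1) := by
  have h1 : W m 3 (k+1) d = 0 := W_zero (k+1) (fun j h1 h2 =>
    TA_level hqm h1 (by omega) (by
      calc 3 = 3^1 := by norm_num
        _ ≤ 3^j := Nat.pow_le_pow_right (by omega) h1) hA)
  have h2 := W3_two hqm hA k (le_refl _)
  rw [UU_succ]
  have h3 : UU m 3 (k+1) d = W m 3 (k+1) (2*d) := by unfold UU; rw [h1]; ring
  rw [h3]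
  have h4 := g_le_TS (m := m) (y := 3^(k+2)) (Odd.pow (by decide)) (by
      calc 5 ≤ 3^2 := by norm_num
        _ ≤ 3^(k+2) := Nat.pow_le_pow_right (by omega) (by omega)) d
  have h5 : W m 3 (k+1) (2*d) / ((3:ℕ):ℝ) ≤ (1/(3:ℝ)^k) / 3 := by
    push_cast
    exact div_le_div_of_nonneg_right h2 (by norm_num)
  have h6 : (1/(3:ℝ)^k) / 3 = 1/(3:ℝ)^(k+1) := by rw [div_div, pow_succ]
  rw [h6] at h5
  linarith

theorem UU_3N {m d k : ℕ} (hA : ¬ TA m (3^(k+1)) d) :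
    UU m 3 (k+1) d ≤ 1 + 2/((3:ℝ)^(k+1)-1) + UU m 3 k d / 3 := by
  rw [UU_succ]
  have h1 := g_nonA (m := m) (y := 3^(k+1)) (Odd.pow (by decide)) (by
      calc 3 = 3^1 := by norm_num
        _ ≤ 3^(k+1) := Nat.pow_le_pow_right (by omega) (by omega)) d hA
  push_cast at h1 ⊢
  linarith

theorem UU_3 {m : ℕ} (hqm : ¬ 3 ∣ m) (d : ℕ) : ∀ k, 4 ≤ k → UU m 3 k d ≤ 8/5 := by
  have u1 : UU m 3 1 d ≤ 2 := by
    rw [UU_succ]
    have h1 := nu_le_one m (3^(0+1)) d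
    have h2 := nu_le_one m (3^(0+1)) (2*d)
    have h3 : UU m 3 0 d = 0 := by simp [UU, W]
    rw [h3, zero_div]; linarith
  have u2 : UU m 3 2 d ≤ 1.9167 := by
    by_cases h : TA m (3^2) d
    · have := UU_3A (k := 0) hqm h
      norm_num at this ⊢; linarith
    · have := UU_3N (k := 1) h
      norm_num at this ⊢; linarith
  have u3 : UU m 3 3 d ≤ 1.7159 := by
    by_cases h : TA m (3^3) d
    · have := UU_3A (k := 1) hqm h
      norm_num at this ⊢; linarith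
    · have := UU_3N (k := 2) h
      norm_num at this ⊢; linarith
  intro k hk
  induction k, hk using Nat.le_induction with
  | base =>
    by_cases h : TA m (3^4) d
    · have := UU_3A (k := 2) hqm h
      norm_num at this ⊢; linarith
    · have := UU_3N (k := 3) h
      norm_num at this ⊢; linarith
  | succ k hk ih =>
    have hp : (243:ℝ) ≤ 3^(k+1) := by
      have : (3:ℝ)^5 ≤ 3^(k+1) := pow_le_pow_right₀ (by norm_num) (by omega)
      norm_num at this ⊢; exact this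
    by_cases h : TA m (3^(k+1)) d
    · obtain ⟨j, rfl⟩ : ∃ j, k = j + 1 := ⟨k-1, by omega⟩
      have := UU_3A (k := j) hqm h
      have h2 : (1:ℝ)/3^(j+1) ≤ 1/81 := by
        apply one_div_le_one_div_of_le (by norm_num)
        have : (3:ℝ)^4 ≤ 3^(j+1) := pow_le_pow_right₀ (by norm_num) (by omega)
        norm_num at this ⊢; exact this
      norm_num at h2 this ⊢; linarith
    · have := UU_3N (k := k) h
      have h2 : 2/((3:ℝ)^(k+1)-1) ≤ 2/242 := by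
        apply div_le_div_of_nonneg_left (by norm_num) (by norm_num); linarith
      norm_num at h2 ⊢
      linarith

theorem near_pow_i1 {q a m M : ℕ} {κ : ℝ} (hm : m = M*2) (hM2 : ¬ 2 ∣ M) (hM0 : M ≠ 0)
    (h : ∀ d, UU m q a d ≤ κ) :
    ∑ d ∈ m.divisors, W m q a d ≤ m.divisors.card * (κ/2) := by
  have hcard : m.divisors.card = 2 * M.divisors.card := by
    have := card_mul_pow Nat.prime_two hM2 1
    rw [pow_one, ← hm] at this
    rw [this]
  have h0 : ∑ d ∈ m.divisors, W m q a d = ∑ d ∈ M.divisors, UU m q a d := by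
    have := sum_two_pow hM2 hM0 1 (fun d => W m q a d)
    rw [pow_one, ← hm] at this
    rw [this]
    refine sum_congr rfl fun d _ => ?_
    simp [sum_range_succ, UU]
  rw [h0, hcard]
  calc _ ≤ ∑ d ∈ M.divisors, κ := sum_le_sum fun d _ => h d
    _ = _ := by rw [sum_const, nsmul_eq_mul]; push_cast; ring

/-! ## powers of two -/

theorem odd_dist {m y e d : ℕ} (hy : Even y) (hd : Odd d) (hne : |((y*e : ℕ):ℤ) - d| ≠ 1) :
    (3:ℤ) ≤ |((y*e : ℕ):ℤ) - d| := by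
  obtain ⟨w, hw⟩ := hy
  obtain ⟨t, ht⟩ := hd
  have h1 : ((y*e : ℕ):ℤ) = 2 * ((w*e : ℕ):ℤ) := by rw [hw]; push_cast; ring
  have h2 : (d:ℤ) = 2*t+1 := by rw [ht]; push_cast; ring
  rw [h1, h2] at hne ⊢
  generalize ((w*e : ℕ):ℤ) = z at *
  rcases le_total 0 (2*z - (2*(t:ℤ)+1)) with h | h
  · rw [abs_of_nonneg h] at hne ⊢; omega
  · rw [abs_of_nonpos h] at hne ⊢; omega

theorem phi_ub {x d : ℕ} {c : ℝ} (hc : 0 < c) (h : c ≤ ((|(x:ℤ) - d| : ℤ) : ℝ)) :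
    phi x d ≤ 1/c := by
  rw [phi_eq_int]
  rw [Int.cast_abs] at h
  exact one_div_le_one_div_of_le hc h

theorem nu2_le_one' {m y d : ℕ} (hm : Odd m) : nu2 m y d ≤ 1 := by
  rcases nu2_cases hm y d with h | ⟨e, he, h1, h2⟩
  · rw [h]; norm_num
  · rw [h2, phi_eq_int, ← Int.cast_abs]
    have h0 : 0 ≤ |((y*e : ℕ):ℤ) - d| := abs_nonneg _
    obtain ⟨t, ht⟩ := Int.eq_ofNat_of_zero_le h0
    rw [ht]
    have := inv_one t
    simpa using this

theorem nu2_nonA {m y d : ℕ} (hm : Odd m) (hy : Even y) (hd : Odd d) (hA : ¬ TA m y d) :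
    nu2 m y d ≤ 1/3 := by
  rcases nu2_cases hm y d with h | ⟨e, he, h1, h2⟩
  · rw [h]; norm_num
  · rw [h2]
    apply phi_ub (by norm_num)
    have := odd_dist (m := m) (y := y) (e := e) hy hd (fun h => hA ⟨e, he, h⟩)
    exact_mod_cast this

/-- a type A divisor at level K is far from the lower odd multiples -/
theorem nu2_lower {m K k d : ℕ} (hm : Odd m) (hk1 : 1 ≤ k) (hk : k < K) (hA : TA m (2^K) d) :
    nu2 m (2^k) d ≤ 1/((2:ℝ)^k - 1) := by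
  have hpow : (2:ℝ) ≤ 2^k := by
    have : (2:ℝ)^1 ≤ 2^k := pow_le_pow_right₀ (by norm_num) hk1
    simpa using this
  rcases nu2_cases hm (2^k) d with h | ⟨e', he', h1, h2⟩
  · rw [h]; apply div_nonneg (by norm_num); linarith
  · rw [h2]
    apply phi_ub (by linarith)
    obtain ⟨e, he, hA⟩ := hA
    obtain ⟨u, hu⟩ : Odd e' := Odd.of_dvd_nat hm (Nat.dvd_of_mem_divisors he')
    obtain ⟨s, rfl⟩ : ∃ s, K = k + 1 + s := ⟨K - k - 1, by omega⟩
    have h3 : ((2^k*e' : ℕ):ℤ) - ((2^(k+1+s)*e : ℕ):ℤ) = 2^k * (2*((u:ℤ) - 2^s*e) + 1) := by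
      rw [hu]; push_cast; ring
    have h4 : (2:ℤ)^k ≤ |((2^k*e' : ℕ):ℤ) - ((2^(k+1+s)*e : ℕ):ℤ)| := by
      rw [h3, abs_mul, abs_of_pos (by positivity)]
      have : (1:ℤ) ≤ |2*((u:ℤ) - 2^s*e) + 1| := Int.one_le_abs (by omega)
      nlinarith [pow_pos (show (0:ℤ) < 2 by norm_num) k]
    have h5 := abs_sub_le (((2^k*e' : ℕ):ℤ)) (d:ℤ) ((2^(k+1+s)*e : ℕ):ℤ)
    have h6 : |(d:ℤ) - ((2^(k+1+s)*e : ℕ):ℤ)| = 1 := by rw [abs_sub_comm]; exact hA
    have h7 : (2:ℤ)^k - 1 ≤ |((2^k*e' : ℕ):ℤ) - d| := by omega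
    exact_mod_cast h7

/-- the level just above a type A level -/
theorem nu2_upper {m K d : ℕ} (hm : Odd m) (hK : 1 ≤ K) (hA : TA m (2^K) d) :
    nu2 m (2^(K+1)) d ≤ 1/((2:ℝ)^K - 1) := by
  have hpow : (2:ℝ) ≤ 2^K := by
    have : (2:ℝ)^1 ≤ 2^K := pow_le_pow_right₀ (by norm_num) hK
    simpa using this
  rcases nu2_cases hm (2^(K+1)) d with h | ⟨e', he', h1, h2⟩
  · rw [h]; apply div_nonneg (by norm_num); linarith
  · rw [h2]
    apply phi_ub (by linarith)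
    obtain ⟨e, he, hA⟩ := hA
    obtain ⟨u, hu⟩ : Odd e := Odd.of_dvd_nat hm (Nat.dvd_of_mem_divisors he)
    have h3 : ((2^(K+1)*e' : ℕ):ℤ) - ((2^K*e : ℕ):ℤ) = 2^K * (2*((e':ℤ) - u) - 1) := by
      rw [hu]; push_cast; ring
    have h4 : (2:ℤ)^K ≤ |((2^(K+1)*e' : ℕ):ℤ) - ((2^K*e : ℕ):ℤ)| := by
      rw [h3, abs_mul, abs_of_pos (by positivity)]
      have : (1:ℤ) ≤ |2*((e':ℤ) - u) - 1| := Int.one_le_abs (by omega)
      nlinarith [pow_pos (show (0:ℤ) < 2 by norm_num) K]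
    have h5 := abs_sub_le (((2^(K+1)*e' : ℕ):ℤ)) (d:ℤ) ((2^K*e : ℕ):ℤ)
    have h6 : |(d:ℤ) - ((2^K*e : ℕ):ℤ)| = 1 := by rw [abs_sub_comm]; exact hA
    have h7 : (2:ℤ)^K - 1 ≤ |((2^(K+1)*e' : ℕ):ℤ) - d| := by omega
    exact_mod_cast h7

theorem W2_low {m K d : ℕ} (hm : Odd m) (hA : TA m (2^K) d) :
    ∀ k, k < K → W2 m 2 k d ≤ 2*k/(2:ℝ)^k := by
  intro k
  induction k with
  | zero => intro _; simp [W2]
  | succ k ih =>
    intro hk
    rw [W2]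
    have h1 := nu2_lower hm (by omega) hk hA
    have h2 := ih (by omega)
    have hp : (1:ℝ) ≤ 2^k := one_le_pow₀ (by norm_num)
    have h3 : 1/((2:ℝ)^(k+1) - 1) ≤ 2/(2:ℝ)^(k+1) := by
      rw [pow_succ, div_le_div_iff₀ (by linarith) (by positivity)]
      linarith
    have h4 : W2 m 2 k d / ((2:ℕ):ℝ) ≤ (2*k/(2:ℝ)^k)/2 := by
      push_cast
      exact div_le_div_of_nonneg_right h2 (by norm_num)
    have h5 : (2*(k:ℝ)/(2:ℝ)^k)/2 = 2*k/(2:ℝ)^(k+1) := by rw [div_div, pow_succ]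
    have h6 : 2*((k+1 : ℕ):ℝ)/(2:ℝ)^(k+1) = 2/(2:ℝ)^(k+1) + 2*k/(2:ℝ)^(k+1) := by
      push_cast; ring
    rw [h5] at h4
    rw [h6]
    linarith

theorem W2_A {m K d : ℕ} (hm : Odd m) (hA : TA m (2^(K+1)) d) :
    W2 m 2 (K+1) d ≤ 1 + 2*K/(2:ℝ)^(K+1) := by
  rw [W2]
  have h1 := nu2_le_one' (y := 2^(K+1)) (d := d) hm
  have h2 := W2_low hm hA K (by omega)
  have h4 : W2 m 2 K d / ((2:ℕ):ℝ) ≤ (2*K/(2:ℝ)^K)/2 := by
    push_cast
    exact div_le_div_of_nonneg_right h2 (by norm_num)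
  have h5 : (2*(K:ℝ)/(2:ℝ)^K)/2 = 2*K/(2:ℝ)^(K+1) := by rw [div_div, pow_succ]
  rw [h5] at h4
  linarith

theorem W2_always {m d : ℕ} (hm : Odd m) (hd : Odd d) (K : ℕ) :
    W2 m 2 K d ≤ 1 + 2*K/(2:ℝ)^K := by
  induction K with
  | zero => simp [W2]
  | succ K ih =>
    have h6 : 2*((K+1 : ℕ):ℝ)/(2:ℝ)^(K+1) = 2/(2:ℝ)^(K+1) + 2*K/(2:ℝ)^(K+1) := by
      push_cast; ring
    have h7 : 0 ≤ 2/(2:ℝ)^(K+1) := by positivity
    rw [h6]
    by_cases hA : TA m (2^(K+1)) d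
    · have := W2_A hm hA
      linarith
    · rw [W2]
      have h1 := nu2_nonA (y := 2^(K+1)) hm (by rw [pow_succ]; exact even_two.mul_left _) hd hA
      have h4 : W2 m 2 K d / ((2:ℕ):ℝ) ≤ (1 + 2*K/(2:ℝ)^K)/2 := by
        push_cast
        exact div_le_div_of_nonneg_right ih (by norm_num)
      have h5 : (1 + 2*(K:ℝ)/(2:ℝ)^K)/2 = 1/2 + 2*K/(2:ℝ)^(K+1) := by
        rw [add_div, div_div, pow_succ]
      rw [h5] at h4
      linarith

theorem W2_nonA {m d K : ℕ} (hm : Odd m) (hd : Odd d) (hK : 2 ≤ K) (hA : ¬ TA m (2^(K+2)) d) :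
    W2 m 2 (K+2) d ≤ 3/4 + 2*((K+2 : ℕ):ℝ)/(2:ℝ)^(K+2) := by
  have hev : ∀ j, Even (2^(j+1)) := fun j => by rw [pow_succ]; exact even_two.mul_left _
  have hp : (4:ℝ) ≤ 2^K := by
    have : (2:ℝ)^2 ≤ 2^K := pow_le_pow_right₀ (by norm_num) hK
    norm_num at this ⊢; exact this
  have hp1 : (2:ℝ)^(K+1) = 2 * 2^K := by rw [pow_succ]; ring
  have hp2 : (2:ℝ)^(K+2) = 4 * 2^K := by rw [pow_add]; ring
  by_cases hB : TA m (2^(K+1)) d
  · have h1 := nu2_upper hm (by omega) hB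
    have h2 := W2_A hm hB
    rw [show W2 m 2 (K+2) d = nu2 m (2^(K+1+1)) d + W2 m 2 (K+1) d / ((2:ℕ):ℝ) from rfl]
    have h3 : W2 m 2 (K+1) d / ((2:ℕ):ℝ) ≤ (1 + 2*K/(2:ℝ)^(K+1))/2 := by
      push_cast
      exact div_le_div_of_nonneg_right h2 (by norm_num)
    have h4 : 1/((2:ℝ)^(K+1) - 1) ≤ 1/4 := by
      apply one_div_le_one_div_of_le (by norm_num); linarith
    have h5 : (1 + 2*(K:ℝ)/(2:ℝ)^(K+1))/2 ≤ 1/2 + 2*((K+2 : ℕ):ℝ)/(2:ℝ)^(K+2) := by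
      have e : (1 + 2*(K:ℝ)/(2:ℝ)^(K+1))/2 = 1/2 + 2*(K:ℝ)/(2:ℝ)^(K+2) := by
        rw [hp1, hp2]; field_simp; ring
      rw [e]
      have : 2*(K:ℝ)/(2:ℝ)^(K+2) ≤ 2*((K+2 : ℕ):ℝ)/(2:ℝ)^(K+2) := by
        apply div_le_div_of_nonneg_right _ (by positivity)
        push_cast; linarith
      linarith
    linarith
  · rw [show W2 m 2 (K+2) d = nu2 m (2^(K+1+1)) d
      + (nu2 m (2^(K+1)) d + W2 m 2 K d / ((2:ℕ):ℝ)) / ((2:ℕ):ℝ) from rfl]
    have h1 := nu2_nonA (y := 2^(K+1+1)) hm (hev _) hd hA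
    have h2 := nu2_nonA (y := 2^(K+1)) hm (hev _) hd hB
    have h3 := W2_always hm hd K
    have h4 : (nu2 m (2^(K+1)) d + W2 m 2 K d / ((2:ℕ):ℝ)) / ((2:ℕ):ℝ)
        ≤ (1/3 + (1 + 2*K/(2:ℝ)^K)/2)/2 := by
      push_cast
      linarith
    have h5 : (1/3 + (1 + 2*(K:ℝ)/(2:ℝ)^K)/2)/2 ≤ 5/12 + 2*((K+2 : ℕ):ℝ)/(2:ℝ)^(K+2) := by
      have e : (1/3 + (1 + 2*(K:ℝ)/(2:ℝ)^K)/2)/2 = 5/12 + 2*(K:ℝ)/(2:ℝ)^(K+2) := by
        rw [hp2]; field_simp; ring
      rw [e]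
      have : 2*(K:ℝ)/(2:ℝ)^(K+2) ≤ 2*((K+2 : ℕ):ℝ)/(2:ℝ)^(K+2) := by
        apply div_le_div_of_nonneg_right _ (by positivity)
        push_cast; linarith
      linarith
    linarith

theorem near_two {m a : ℕ} (hm : Odd m) (hm0 : m ≠ 0) (ha : 4 ≤ a)
    (hr : ∀ r, r.Prime → r ∣ m → r + 1 < 2^a) :
    ∑ d ∈ m.divisors, W2 m 2 a d ≤ m.divisors.card * (7/8 + 2*a/(2:ℝ)^a) := by
  obtain ⟨K, rfl⟩ : ∃ K, a = K + 2 := ⟨a-2, by omega⟩
  have h3 : 3 ≤ 2^(K+2) := by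
    calc 3 ≤ 2^2 := by norm_num
      _ ≤ 2^(K+2) := Nat.pow_le_pow_right (by norm_num) (by omega)
  have h := IS_avg (m := m) (y := 2^(K+2)) hm0 h3 hr (fun d => W2 m 2 (K+2) d)
    (α := 3/4 + 2*((K+2 : ℕ):ℝ)/(2:ℝ)^(K+2)) (β := 1/4) (by norm_num) ?_ ?_
  · refine h.trans (le_of_eq ?_); ring
  · intro d hd hA
    have hdo : Odd d := Odd.of_dvd_nat hm (Nat.dvd_of_mem_divisors hd)
    have := W2_always hm hdo (K+2)
    linarith
  · intro d hd hA
    have hdo : Odd d := Odd.of_dvd_nat hm (Nat.dvd_of_mem_divisors hd)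
    exact W2_nonA hm hdo (by omega) hA

end Pool.Agent.Helper316
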