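import Pool.Agent.Helper316.BaseT
import Pool.Agent.Helper316.TheoryB
set_option autoImplicit false
namespace Pool.Agent.Helper316

open Finset

def RSC : List (ℕ × ℕ) := [(2,4),(3,2),(5,1),(7,1),(29,1),(31,1)]

theorem tabC : chkL (pts RSC) (vals0 RSC) = true := by decide +kernel

theorem table_pt {rs : List (ℕ × ℕ)} (hrs : ∀ p ∈ rs, p.1.Prime)
    (hnd : (rs.map Prod.fst).Nodup) (h : chkL (pts rs) (vals0 rs) = true) {n : ℕ}
    (hn : (pts rs).any (fun z => Nat.beq z.1 n) = true) :
    S n < n.divisors.card ∨ (n ∈ EL ∧ S n ≤ 1.13 * n.divisors.card) := by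
  obtain ⟨z, hz, hzn⟩ := List.any_eq_true.1 hn
  rw [Nat.beq_eq] at hzn
  subst hzn
  have := chkL_spec (vals0_spec rs hrs hnd) h z hz
  rwa [pts_card rs hrs hnd z hz]

theorem EL_dvd : ∀ m ∈ EL, m ∣ 5040 := by decide +kernel

theorem EL_four : ∀ m ∈ EL, 4 ∣ m := by decide +kernel

theorem exc_small : ∀ m ∈ EL, ∀ p ∈ [29,31], S (m*p) < (m*p).divisors.card := by
  intro m hm p hp
  have h1 : EL.all (fun m => [29,31].all (fun p => (pts RSC).any (fun z => Nat.beq z.1 (m*p))
      && !(EL.contains (m*p)))) = true := by decide +kernel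
  have h2 := (List.all_eq_true.1 h1) m hm
  have h3 := (List.all_eq_true.1 h2) p hp
  rw [Bool.and_eq_true, Bool.not_eq_true'] at h3
  rcases table_pt (by decide +kernel) (by decide +kernel) tabC h3.1 with h | h
  · exact h
  · exfalso
    have h4 := h3.2
    rw [Bool.eq_false_iff] at h4
    apply h4
    rw [List.contains_iff_mem]
    exact h.1

theorem exc_seven : ∀ m ∈ EL, 7 ∣ m → S (m*7) < (m*7).divisors.card := by
  intro m hm h7
  have h1 : EL.all (fun m => cond (Nat.beq (m % 7) 0) ((pts RSB).any (fun z => Nat.beq z.1 (m*7))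
      && !(EL.contains (m*7))) true) = true := by decide +kernel
  have h2 := (List.all_eq_true.1 h1) m hm
  have h0 : Nat.beq (m % 7) 0 = true := by
    rw [Nat.beq_eq]; exact Nat.mod_eq_zero_of_dvd h7
  simp only [h0, cond_true] at h2
  rw [Bool.and_eq_true, Bool.not_eq_true'] at h2
  rcases table_pt (by decide +kernel) (by decide +kernel) tabB h2.1 with h | h
  · exact h
  · exfalso
    have h4 := h2.2
    rw [Bool.eq_false_iff] at h4
    apply h4
    rw [List.contains_iff_mem]
    exact h.1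

theorem card_5040 : (Nat.divisors 5040).card ≤ 60 := by
  have h : (5040:ℕ) = 5 * 7 * 3^2 * 2^4 := by norm_num
  rw [h, card_mul_pow Nat.prime_two (by norm_num), card_mul_pow Nat.prime_three (by norm_num)]
  have : (Nat.divisors (5*7)).card = 4 := by decide +kernel
  rw [this]

theorem exc_big {m p : ℕ} (hm : m ∈ EL) (hp : p.Prime) (hp37 : 37 ≤ p) (hpm : ¬ p ∣ m)
    (hS : S m ≤ 1.13 * m.divisors.card) : S (m*p) < (m*p).divisors.card := by
  have hd := EL_dvd m hm
  have h4 := EL_four m hm
  have hm0 : m ≠ 0 := by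
    rintro rfl
    have := Nat.eq_zero_of_zero_dvd hd
    omega
  have hcard : m.divisors.card ≤ 60 :=
    (card_le_card (Nat.divisors_subset_of_dvd (show (5040:ℕ) ≠ 0 by omega) hd)).trans card_5040
  have hodd : Odd p := hp.odd_of_ne_two (by omega)
  -- split off the factor two
  set i := m.factorization 2 with hi
  set M := m / 2^i with hM
  have hi2 : 2 ≤ i := (Nat.prime_two.pow_dvd_iff_le_factorization hm0).1 (by norm_num; exact h4)
  have hM2 : ¬ 2 ∣ M := Nat.not_dvd_ordCompl Nat.prime_two hm0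
  have hmM : m = M * 2^i := by
    rw [mul_comm]; exact (Nat.ordProj_mul_ordCompl_eq_self m 2).symm
  have hM0 : M ≠ 0 := (Nat.ordCompl_pos 2 hm0).ne'
  have hnear := near_i2 hmM hM2 hM0 hi2 hodd (by omega)
  have hV := V_le_odd (m := m) hodd 1
  have hrec := S_rec hp hpm hm0 0
  have hc := card_succ hp hpm hm0 0
  simp only [zero_add, pow_one, pow_zero, mul_one] at hrec hc hV
  rw [hrec, hc]
  have hH := hT_spec 60
  have hHm := harmonic_mono hcard
  have e60 : hT 60 = 4723708 := by decide +kernel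
  rw [e60] at hH
  have hpR : (37:ℝ) ≤ p := by exact_mod_cast hp37
  have hτ : (0:ℝ) < m.divisors.card := by
    have : 0 < m.divisors.card := card_pos.2 ⟨1, Nat.one_mem_divisors.2 hm0⟩
    exact_mod_cast this
  push_cast at hV hH ⊢
  set τ : ℝ := (m.divisors.card : ℝ) with hτd
  have h1 : (harmonic m.divisors.card : ℝ) ≤ 4.723708 := by linarith
  have h2 : 2 * 1 / (p:ℝ) * (harmonic m.divisors.card : ℝ) ≤ 2/37 * 4.723708 := by
    apply mul_le_mul _ h1 (harmonic_nonneg _) (by norm_num)
    rw [mul_one]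
    exact div_le_div_of_nonneg_left (by norm_num) (by norm_num) hpR
  have h3 := mul_le_mul_of_nonneg_left h2 hτ.le
  have h5 : S m / (p:ℝ) ≤ (1.13 * τ)/37 :=
    div_le_div₀ (by linarith : (0:ℝ) ≤ 1.13 * τ) hS (by norm_num) hpR
  nlinarith

theorem exc {m p : ℕ} (hm : m ∈ EL) (hp : p.Prime) (hp29 : 29 ≤ p) (hpm : ¬ p ∣ m)
    (hS : S m ≤ 1.13 * m.divisors.card) : S (m*p) < (m*p).divisors.card := by
  rcases Nat.lt_or_ge p 37 with h | h
  · have : p ∈ [29,31] := by
      interval_cases p <;> first | decide | (exfalso; revert hp; norm_num)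
    exact exc_small m hm p this
  · exact exc_big hm hp h hpm hS

end Pool.Agent.Helper316
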