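import Mathlib

/-!
# FC-groups: locally inner automorphisms and closed sets (vendored from helper105, Pool/Agent/FCV)
-/

set_option autoImplicit false

namespace Pool.Agent.Helper316.FCV

section card0

open Cardinal

section closure

variable {Ω : Type} (F : Finset Ω → Set Ω)

/-- closed under the finitary operation `F` -/
def Closed (C : Set Ω) : Prop := ∀ s : Finset Ω, ↑s ⊆ C → F s ⊆ C

/-- the closure -/
def cl (A : Set Ω) : Set Ω := ⋂₀ {C | Closed F C ∧ A ⊆ C}

variable {F}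

theorem subset_cl (A : Set Ω) : A ⊆ cl F A := by
  intro x hx C hC
  exact hC.2 hx

theorem cl_closed (A : Set Ω) : Closed F (cl F A) := by
  intro s hs x hx C hC
  exact hC.1 s (fun y hy => hs hy C hC) hx

theorem cl_min {A C : Set Ω} (hC : Closed F C) (hA : A ⊆ C) : cl F A ⊆ C := by
  intro x hx
  exact hx C ⟨hC, hA⟩

theorem mk_finset_le (α : Type) : #(Finset α) ≤ max ℵ₀ #α := by
  cases finite_or_infinite α with
  | inl h => exact le_max_of_le_left (le_of_lt (lt_aleph0_of_finite _))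
  | inr h => rw [mk_finset_of_infinite]; exact le_max_right _ _

/-- one step of the closure -/
def stepC (F : Finset Ω → Set Ω) (S : Set Ω) : Set Ω :=
  S ∪ ⋃ s : Finset S, F (s.map (Function.Embedding.subtype (· ∈ S)))

/-- the iterated steps -/
def itC (F : Finset Ω → Set Ω) (A : Set Ω) : ℕ → Set Ω
  | 0 => A
  | (n+1) => stepC F (itC F A n)

theorem mk_cl_le (hF : ∀ s, (F s).Countable) (A : Set Ω) : #(cl F A) ≤ max ℵ₀ #A := by
  set κ := max ℵ₀ #A with hκ
  have hB0 : itC F A 0 = A := rfl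
  have hBs : ∀ n, itC F A (n+1) = stepC F (itC F A n) := fun n => rfl
  generalize itC F A = B at hB0 hBs
  have hBmono : Monotone B := by
    apply monotone_nat_of_le_succ
    intro n
    rw [hBs, stepC]
    exact Set.subset_union_left
  have hcard : ∀ n, #(B n) ≤ κ := by
    intro n
    induction n with
    | zero => rw [hB0]; exact le_max_right _ _
    | succ n ih =>
      rw [hBs, stepC]
      refine (mk_union_le _ _).trans ?_
      have h1 : #(⋃ s : Finset (B n), F (s.map (Function.Embedding.subtype (· ∈ B n)))) ≤ κ := by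
        refine (mk_iUnion_le _).trans ?_
        have h2 : #(Finset (B n)) ≤ κ :=
          (mk_finset_le _).trans (max_le (le_max_left _ _) ih)
        have h3 : (⨆ s : Finset (B n), #(F (s.map (Function.Embedding.subtype (· ∈ B n))))) ≤ ℵ₀ := by
          apply ciSup_le'
          intro s
          rw [le_aleph0_iff_set_countable]
          exact hF _
        calc _ ≤ κ * κ := mul_le_mul' h2 (h3.trans (le_max_left _ _))
          _ = κ := mul_eq_self (le_max_left _ _)
      calc _ ≤ κ + κ := add_le_add ih h1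
        _ = κ := add_eq_self (le_max_left _ _)
  have hUclosed : Closed F (⋃ n, B n) := by
    intro s hs
    have : ∃ n, ↑s ⊆ B n := by
      exact (hBmono.directed_le).exists_mem_subset_of_finset_subset_biUnion hs
    obtain ⟨n, hn⟩ := this
    intro x hx
    refine Set.mem_iUnion.mpr ⟨n+1, ?_⟩
    rw [hBs, stepC]
    right
    classical
    refine Set.mem_iUnion.mpr ⟨s.subtype (· ∈ B n), ?_⟩
    have : (s.subtype (· ∈ B n)).map (Function.Embedding.subtype _) = s := by
      rw [Finset.subtype_map]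
      exact Finset.filter_true_of_mem (fun x hx => hn hx)
    rw [this]
    exact hx
  have hle : cl F A ⊆ ⋃ n, B n := cl_min hUclosed (by
    have := Set.subset_iUnion B 0
    rwa [hB0] at this)
  refine (mk_le_mk_of_subset hle).trans ?_
  refine (mk_iUnion_le _).trans ?_
  have h3 : (⨆ n, #(B n)) ≤ κ := ciSup_le' hcard
  calc _ ≤ κ * κ := mul_le_mul' (by rw [mk_nat]; exact le_max_left _ _) h3
    _ = κ := mul_eq_self (le_max_left _ _)

end closure

end card0

section li0

open scoped commutatorElement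

section li

variable {G : Type} [Group G]

/-- locally inner maps -/
def LI (f : G → G) : Prop := ∀ s : Finset G, ∃ c : G, ∀ g ∈ s, f g = c⁻¹ * g * c

/-- displacement -/
def dl (x : MulAut G) (g : G) : G := g⁻¹ * x g

theorem dl_eq (x : MulAut G) (g : G) : x g = g * dl x g := by
  unfold dl; group

theorem dl_mul (x y : MulAut G) (g : G) : dl (x * y) g = dl x g * x (dl y g) := by
  unfold dl
  rw [MulAut.mul_apply, map_mul, map_inv]
  group

theorem dl_inv (x : MulAut G) (g : G) : dl x⁻¹ g = (dl x (x⁻¹ g))⁻¹ := by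
  unfold dl
  rw [MulAut.apply_inv_self]
  group

/-- finitary locally inner automorphisms -/
def XX (G : Type) [Group G] : Subgroup (MulAut G) where
  carrier := {x | LI (x : G → G) ∧ (Set.range (dl x)).Finite}
  one_mem' := by
    refine ⟨fun s => ⟨1, fun g _ => by simp⟩, ?_⟩
    refine (Set.finite_singleton (1 : G)).subset ?_
    rintro _ ⟨g, rfl⟩
    simp [dl]
  mul_mem' := by
    rintro x y ⟨hx, hx'⟩ ⟨hy, hy'⟩
    classical
    constructor
    · intro s
      obtain ⟨c, hc⟩ := hy s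
      obtain ⟨d, hd⟩ := hx (s.image y)
      refine ⟨c * d, fun g hg => ?_⟩
      rw [MulAut.mul_apply, hd _ (Finset.mem_image_of_mem _ hg), hc g hg]
      group
    · refine (hx'.mul (hy'.image x)).subset ?_
      rintro _ ⟨g, rfl⟩
      rw [dl_mul]
      exact Set.mul_mem_mul ⟨g, rfl⟩ ⟨_, ⟨g, rfl⟩, rfl⟩
  inv_mem' := by
    rintro x ⟨hx, hx'⟩
    classical
    constructor
    · intro s
      obtain ⟨c, hc⟩ := hx (s.image (x⁻¹ : MulAut G))
      refine ⟨c⁻¹, fun g hg => ?_⟩
      have := hc _ (Finset.mem_image_of_mem _ hg)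
      rw [MulAut.apply_inv_self] at this
      nth_rw 2 [this]
      group
    · refine (hx'.inv).subset ?_
      rintro _ ⟨g, rfl⟩
      rw [dl_inv]
      exact Set.inv_mem_inv.mpr ⟨_, rfl⟩

theorem LI.center {x : MulAut G} (hx : LI (x : G → G)) {z : G} (hz : z ∈ Subgroup.center G) :
    x z = z := by
  obtain ⟨c, hc⟩ := hx {z}
  rw [hc z (by simp), mul_assoc, ← Subgroup.mem_center_iff.mp hz c]
  group

theorem LI.normal {x : MulAut G} (hx : LI (x : G → G)) {N : Subgroup G} (hN : N.Normal) {g : G}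
    (hg : g ∈ N) : x g ∈ N := by
  obtain ⟨c, hc⟩ := hx {g}
  rw [hc g (by simp)]
  have := hN.conj_mem g hg c⁻¹
  simpa using this

theorem LI.dl_comm {x : MulAut G} (hx : LI (x : G → G)) (g : G) : dl x g ∈ commutator G := by
  obtain ⟨c, hc⟩ := hx {g}
  unfold dl
  rw [hc g (by simp)]
  have : g⁻¹ * (c⁻¹ * g * c) = ⁅g⁻¹, c⁻¹⁆ := by
    rw [commutatorElement_def]; group
  rw [this]
  exact Subgroup.commutator_mem_commutator (Subgroup.mem_top _) (Subgroup.mem_top _)

theorem LI.dl_normal {x : MulAut G} (hx : LI (x : G → G)) {N : Subgroup G} (hN : N.Normal) {g : G}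
    (hg : g ∈ N) : dl x g ∈ N := mul_mem (inv_mem hg) (hx.normal hN hg)

/-- finite conjugacy classes -/
def FCG (G : Type) [Group G] : Prop := ∀ g : G, {h : G | IsConj g h}.Finite

theorem FCG.fin (hFC : FCG G) (g : G) : {u | ∃ c, u = c⁻¹ * g * c}.Finite := by
  refine (hFC g).subset ?_
  rintro _ ⟨c, rfl⟩
  show IsConj g _
  rw [isConj_iff]
  exact ⟨c⁻¹, by simp⟩

theorem conj_mem_XX (hFC : FCG G) (c : G) : MulAut.conj c ∈ XX G := by
  constructor
  · intro s
    exact ⟨c⁻¹, fun g _ => by simp⟩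
  · refine ((hFC.fin c).image (fun u => u * c⁻¹)).subset ?_
    rintro _ ⟨g, rfl⟩
    refine ⟨g⁻¹ * c * g, ⟨g, rfl⟩, ?_⟩
    simp only [dl, MulAut.conj_apply]
    group

theorem XX.li {x : MulAut G} (hx : x ∈ XX G) : LI (x : G → G) := hx.1

theorem XX_classes {x : MulAut G} (hx : x ∈ XX G) :
    {w | ∃ y ∈ XX G, w = y⁻¹ * x * y}.Finite := by
  classical
  set T : Set (MulAut G) := {t | ∃ c, t = (MulAut.conj c)⁻¹ * x * MulAut.conj c} with hT
  have hTf : T.Finite := by
    refine (hx.2.image (fun u => MulAut.conj u * x)).subset ?_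
    rintro _ ⟨c, rfl⟩
    refine ⟨dl x c, ⟨c, rfl⟩, ?_⟩
    ext g
    have e1 : ((MulAut.conj c)⁻¹ * x * MulAut.conj c) g = c⁻¹ * x (c * g * c⁻¹) * c := by
      rw [MulAut.mul_apply, MulAut.mul_apply, ← map_inv, MulAut.conj_apply, MulAut.conj_apply,
        inv_inv]
    have e2 : (MulAut.conj (dl x c) * x) g = (c⁻¹ * x c) * x g * (c⁻¹ * x c)⁻¹ := by
      rw [MulAut.mul_apply, MulAut.conj_apply]
      rfl
    show (MulAut.conj (dl x c) * x) g = _
    rw [e1, e2, map_mul, map_mul, map_inv]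
    group
  refine hTf.subset ?_
  rintro u ⟨y, hy, rfl⟩
  by_contra hcon
  set u := y⁻¹ * x * y with hu
  have h1 : ∀ t : MulAut G, ∃ w, t ≠ u → u w ≠ t w := by
    intro t
    by_cases h : t = u
    · exact ⟨1, fun h' => absurd h h'⟩
    · by_contra hc
      push Not at hc
      apply h
      ext w
      exact (hc w).2.symm
  choose w hw using h1
  obtain ⟨c, hc⟩ := hy.1 (hTf.toFinset.image w ∪ hTf.toFinset.image (fun t => u (w t)))
  set t0 := (MulAut.conj c⁻¹)⁻¹ * x * MulAut.conj c⁻¹ with ht0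
  have ht0T : t0 ∈ T := ⟨c⁻¹, rfl⟩
  have hne : t0 ≠ u := by
    intro h
    rw [h] at ht0T
    exact hcon ht0T
  apply hw t0 hne
  have h2 := hc (w t0) (Finset.mem_union_left _ (Finset.mem_image_of_mem _ (hTf.mem_toFinset.mpr ht0T)))
  have h3 := hc (u (w t0)) (Finset.mem_union_right _
    (Finset.mem_image_of_mem (fun t => u (w t)) (hTf.mem_toFinset.mpr ht0T)))
  have h4 : y (u (w t0)) = x (y (w t0)) := by
    rw [hu]
    simp [MulAut.mul_apply]
  have h5 : t0 (w t0) = c * x (y (w t0)) * c⁻¹ := by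
    have : t0 (w t0) = c * x (c⁻¹ * w t0 * c) * c⁻¹ := by
      rw [ht0]
      simp [MulAut.mul_apply, MulAut.conj_apply]
    rw [this, ← h2]
  rw [h5, ← h4, h3]
  group

theorem li_toMulAut (hFC : FCG G) {f : G → G} (hf : LI f) : ∃ x : MulAut G, ∀ g, x g = f g := by
  classical
  have hmul : ∀ a b, f (a * b) = f a * f b := by
    intro a b
    obtain ⟨c, hc⟩ := hf {a, b, a * b}
    rw [hc a (by simp), hc b (by simp), hc (a * b) (by simp)]
    group
  have hinj : Function.Injective f := by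
    intro a b hab
    obtain ⟨c, hc⟩ := hf {a, b}
    rw [hc a (by simp), hc b (by simp)] at hab
    simpa using hab
  have hsurj : Function.Surjective f := by
    intro g
    have hmaps : Set.MapsTo f {u | ∃ c, u = c⁻¹ * g * c} {u | ∃ c, u = c⁻¹ * g * c} := by
      rintro _ ⟨c, rfl⟩
      obtain ⟨d, hd⟩ := hf {c⁻¹ * g * c}
      refine ⟨c * d, ?_⟩
      rw [hd _ (by simp)]
      group
    have := (hFC.fin g).to_subtype
    have hs : Function.Surjective (hmaps.restrict f _ _) := by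
      apply Finite.surjective_of_injective
      intro a b hab
      exact Subtype.ext (hinj (congrArg Subtype.val hab))
    obtain ⟨u, hu⟩ := hs ⟨g, 1, by simp⟩
    exact ⟨u.1, congrArg Subtype.val hu⟩
  exact ⟨MulEquiv.ofBijective (MonoidHom.mk' f hmul) ⟨hinj, hsurj⟩, fun g => rfl⟩

theorem exists_finite_reps {A B : Type} (f : A → B) (h : (Set.range f).Finite) :
    ∃ T : Finset A, ∀ a, ∃ t ∈ T, f a = f t := by
  classical
  have := h.to_subtype
  choose r hr using fun b : Set.range f => b.2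
  have := Fintype.ofFinite (Set.range f)
  refine ⟨Finset.univ.image r, fun a => ⟨r ⟨f a, a, rfl⟩, ?_, ?_⟩⟩
  · exact Finset.mem_image_of_mem _ (Finset.mem_univ _)
  · exact (hr ⟨f a, a, rfl⟩).symm

theorem lemmaA (hFC : FCG G) (R : Subgroup G) (hRn : R.Normal) (hR : (R : Set G).Finite) :
    ∃ S : Finset G, ∀ H : Subgroup G, ↑S ⊆ (H : Set G) → ∀ y : MulAut G,
      (∀ h ∈ H, dl y h ∈ R) → (∀ s ∈ S, y s = s) → ∀ h ∈ H, dl y h ∈ Subgroup.center G := by
  classical
  have := hR.to_subtype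
  obtain ⟨T, hT⟩ : ∃ T : Finset G, ∀ g, ∃ t ∈ T, (fun r : R => g⁻¹ * r.1 * g) =
      (fun r : R => t⁻¹ * r.1 * t) := by
    apply exists_finite_reps (fun (g : G) (r : R) => g⁻¹ * r.1 * g)
    refine (Set.Finite.pi' (fun r : R => hFC.fin r.1)).subset ?_
    rintro _ ⟨g, rfl⟩ r
    exact ⟨g, rfl⟩
  have hfin : (↑T ∪ (R : Set G) ∪ ⋃ t ∈ T, (fun u => u * t) '' {u | ∃ c, u = c⁻¹ * t⁻¹ * c}).Finite := by
    refine ((T.finite_toSet.union hR).union ?_)
    exact Set.Finite.biUnion T.finite_toSet (fun t _ => (hFC.fin t⁻¹).image _)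
  refine ⟨hfin.toFinset, ?_⟩
  intro H hSH y hy hyS h hh
  have hS : ∀ g, g ∈ (↑T ∪ (R : Set G) ∪ ⋃ t ∈ T, (fun u => u * t) '' {u | ∃ c, u = c⁻¹ * t⁻¹ * c}) →
      y g = g ∧ g ∈ H := by
    intro g hg
    have hg' := hfin.mem_toFinset.mpr hg
    exact ⟨hyS g hg', hSH hg'⟩
  have hT' : ∀ t ∈ T, y t = t ∧ t ∈ H := fun t ht => hS t (Or.inl (Or.inl ht))
  have hc' : ∀ t ∈ T, ∀ g, y (g⁻¹ * t⁻¹ * g * t) = g⁻¹ * t⁻¹ * g * t := by
    intro t ht g
    refine (hS _ (Or.inr ?_)).1
    simp only [Set.mem_iUnion]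
    exact ⟨t, ht, _, ⟨g, rfl⟩, rfl⟩
  obtain ⟨t, ht, hteq⟩ := hT h
  have hteq' : ∀ r ∈ R, h⁻¹ * r * h = t⁻¹ * r * t := fun r hr => congrFun hteq ⟨r, hr⟩
  set g := h * t⁻¹ with hg
  have hgH : g ∈ H := mul_mem hh (inv_mem (hT' t ht).2)
  have hgc : ∀ r ∈ R, g * r = r * g := by
    intro r hr
    have := hteq' r hr
    have h2 : r * h = h * (t⁻¹ * r * t) := by rw [← this]; group
    have h3 : r * g = g * r := by
      rw [hg]
      calc r * (h * t⁻¹) = (r * h) * t⁻¹ := by group
        _ = h * t⁻¹ * r := by rw [h2]; group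
    exact h3.symm
  set r := dl y g with hr
  have hrR : r ∈ R := hy g hgH
  have hyg : y g = g * r := dl_eq y g
  have hcommT : ∀ s ∈ T, s⁻¹ * r * s = r := by
    intro s hs
    have e1 : y (s⁻¹ * g * s) = s⁻¹ * (g * r) * s := by
      rw [map_mul, map_mul, map_inv, hyg, (hT' s hs).1]
    have e2 : y (s⁻¹ * g * s) = g * r * (g⁻¹ * s⁻¹ * g * s) := by
      have : s⁻¹ * g * s = g * (g⁻¹ * s⁻¹ * g * s) := by group
      rw [this, map_mul, hyg, hc' s hs g]
    have e3 : g * r * (g⁻¹ * s⁻¹ * g * s) = r * (s⁻¹ * g * s) := by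
      rw [hgc r hrR]; group
    -- s⁻¹ g s commutes with R
    have e4 : (s⁻¹ * g * s) * r = r * (s⁻¹ * g * s) := by
      have hr' : s * r * s⁻¹ ∈ R := hRn.conj_mem r hrR s
      have := hgc _ hr'
      calc (s⁻¹ * g * s) * r = s⁻¹ * (g * (s * r * s⁻¹)) * s := by group
        _ = s⁻¹ * ((s * r * s⁻¹) * g) * s := by rw [this]
        _ = _ := by group
    have e5 : (s⁻¹ * g * s) * (s⁻¹ * r * s) = (s⁻¹ * g * s) * r := by
      rw [e4, ← e3, ← e2, e1]; group
    exact mul_left_cancel e5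
  have hcen : r ∈ Subgroup.center G := by
    rw [Subgroup.mem_center_iff]
    intro a
    obtain ⟨s, hs, hseq⟩ := hT a
    have h1 : a⁻¹ * r * a = s⁻¹ * r * s := congrFun hseq ⟨r, hrR⟩
    rw [hcommT s hs] at h1
    calc a * r = a * (a⁻¹ * r * a) := by rw [h1]
      _ = r * a := by group
  have : dl y h = r := by
    have hh' : h = g * t := by rw [hg]; group
    unfold dl
    rw [hh', map_mul, hyg, (hT' t ht).1]
    calc (g * t)⁻¹ * (g * r * t) = t⁻¹ * r * t := by group
      _ = r := hcommT t ht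
  rw [this]
  exact hcen

theorem compactness (hFC : FCG G) (S : Finset G) (σ : G → G) (R : Set G) (hR : R.Finite)
    (h : ∀ W : Finset G, ∃ x ∈ XX G, (∀ s ∈ S, x s = σ s) ∧ ∀ w ∈ W, dl x w ∈ R) :
    ∃ x ∈ XX G, (∀ s ∈ S, x s = σ s) ∧ ∀ g, dl x g ∈ R := by
  classical
  choose x hx hxS hxR using h
  let U : Ultrafilter (Finset G) := Ultrafilter.of Filter.atTop
  have hU : (U : Filter (Finset G)) ≤ Filter.atTop := Ultrafilter.of_le _
  have hval : ∀ g, ∃ v, ∀ᶠ W in (U : Filter (Finset G)), x W g = v := by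
    intro g
    have hmem : (⋃ v ∈ {u | ∃ c, u = c⁻¹ * g * c}, {W | x W g = v}) ∈ U := by
      have : (⋃ v ∈ {u | ∃ c, u = c⁻¹ * g * c}, {W | x W g = v}) = Set.univ := by
        rw [Set.eq_univ_iff_forall]
        intro W
        simp only [Set.mem_iUnion]
        obtain ⟨c, hc⟩ := (hx W).1 {g}
        exact ⟨x W g, ⟨c, hc g (by simp)⟩, rfl⟩
      rw [this]
      exact Filter.univ_mem
    rw [Ultrafilter.finite_biUnion_mem_iff (hFC.fin g)] at hmem
    obtain ⟨v, _, hv⟩ := hmem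
    exact ⟨v, hv⟩
  choose φ hφ using hval
  have hLI : LI φ := by
    intro s
    have : ∀ᶠ W in (U : Filter (Finset G)), ∀ g ∈ s, x W g = φ g := by
      rw [Filter.eventually_all_finset]
      intro g _
      exact hφ g
    obtain ⟨W, hW⟩ := this.exists
    obtain ⟨c, hc⟩ := (hx W).1 s
    exact ⟨c, fun g hg => by rw [← hW g hg, hc g hg]⟩
  obtain ⟨y, hy⟩ := li_toMulAut hFC hLI
  have hyR : ∀ g, dl y g ∈ R := by
    intro g
    have h1 : ∀ᶠ W in (U : Filter (Finset G)), {g} ≤ W :=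
      (Filter.eventually_ge_atTop {g}).filter_mono hU
    obtain ⟨W, hW1, hW2⟩ := (h1.and (hφ g)).exists
    have := hxR W g (hW1 (Finset.mem_singleton_self g))
    unfold dl at this ⊢
    rw [hy, ← hW2]
    exact this
  refine ⟨y, ⟨?_, ?_⟩, ?_, hyR⟩
  · have : (y : G → G) = φ := funext hy
    rw [this]
    exact hLI
  · refine hR.subset ?_
    rintro _ ⟨g, rfl⟩
    exact hyR g
  · intro s hs
    obtain ⟨W, hW⟩ := (hφ s).exists
    rw [hy, ← hW]
    exact hxS W s hs

theorem lemmaB0 (hFC : FCG G) (R : Subgroup G) (hRn : R.Normal) (hR : (R : Set G).Finite) :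
    ∃ (W : Finset G) (K : Set (MulAut G)), K.Finite ∧ (∀ k ∈ K, k ∈ XX G) ∧
      ∀ H : Subgroup G, ↑W ⊆ (H : Set G) → ∀ x ∈ XX G, (∀ h ∈ H, dl x h ∈ R) →
        ∃ k ∈ K, ∀ h ∈ H, dl (k⁻¹ * x) h ∈ Subgroup.center G := by
  classical
  obtain ⟨S, hS⟩ := lemmaA hFC R hRn hR
  set TT : Set (S → G) := {σ | ∃ x ∈ XX G, ∀ s, σ s = x s.1} with hTT
  have hTf : TT.Finite := by
    refine (Set.Finite.pi' (fun s : S => hFC.fin s.1)).subset ?_
    rintro σ ⟨x, hx, hσ⟩ s
    obtain ⟨c, hc⟩ := hx.1 {s.1}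
    exact ⟨c, by rw [hσ s, hc _ (by simp)]⟩
  have hex : ∀ σ : S → G, ∃ (W : Finset G) (k : MulAut G), k ∈ XX G ∧
      (((∀ s, σ s = k s.1) ∧ ∀ g, dl k g ∈ R) ∨
        ∀ x ∈ XX G, (∀ s, σ s = x s.1) → ∃ w ∈ W, dl x w ∉ R) := by
    intro σ
    by_cases h : ∃ k ∈ XX G, (∀ s, σ s = k s.1) ∧ ∀ g, dl k g ∈ R
    · obtain ⟨k, hk, h1⟩ := h
      exact ⟨∅, k, hk, Or.inl h1⟩
    · have : ∃ W : Finset G, ∀ x ∈ XX G, (∀ s, σ s = x s.1) → ∃ w ∈ W, dl x w ∉ R := by
        by_contra hcon
        push Not at hcon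
        apply h
        obtain ⟨x, hx, hx1, hx2⟩ := compactness hFC S
          (fun g => if hg : g ∈ S then σ ⟨g, hg⟩ else 1) R hR (by
            intro W
            obtain ⟨x, hx, h1, h2⟩ := hcon W
            refine ⟨x, hx, fun s hs => ?_, h2⟩
            simp only [hs, dif_pos]
            exact (h1 ⟨s, hs⟩).symm)
        refine ⟨x, hx, fun s => ?_, hx2⟩
        rw [hx1 s.1 s.2]
        simp
      obtain ⟨W, hW⟩ := this
      exact ⟨W, 1, one_mem _, Or.inr hW⟩
  choose Wf kf hkf hWk using hex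
  refine ⟨S ∪ hTf.toFinset.biUnion Wf, kf '' TT, hTf.image _, ?_, ?_⟩
  · rintro _ ⟨σ, _, rfl⟩
    exact hkf σ
  · intro H hWH x hx hxR
    set σ : S → G := fun s => x s.1 with hσ
    have hσT : σ ∈ TT := ⟨x, hx, fun s => rfl⟩
    rcases hWk σ with ⟨h1, h2⟩ | h1
    · refine ⟨kf σ, ⟨σ, hσT, rfl⟩, ?_⟩
      apply hS H
      · intro s hs
        exact hWH (Finset.mem_coe.mpr (Finset.mem_union_left _ hs))
      · intro h hh
        rw [dl_mul, dl_inv]
        refine mul_mem (inv_mem (h2 _)) ?_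
        have hk := (inv_mem (hkf σ) : (kf σ)⁻¹ ∈ XX G)
        exact hk.1.normal hRn (hxR h hh)
      · intro s hs
        rw [MulAut.mul_apply]
        have := h1 ⟨s, hs⟩
        rw [hσ] at this
        simp only at this
        rw [this, MulAut.inv_apply_self]
    · obtain ⟨w, hw, hw'⟩ := h1 x hx (fun s => rfl)
      exfalso
      apply hw'
      apply hxR
      apply hWH
      rw [Finset.mem_coe]
      exact Finset.mem_union_right _ (Finset.mem_biUnion.mpr ⟨σ, hTf.mem_toFinset.mpr hσT, hw⟩)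

end li

end li0

section five

open scoped commutatorElement Pointwise

section basics

variable {G : Type} [Group G]

theorem FCG.cent_fi (hFC : FCG G) (g : G) : (Subgroup.centralizer {g} : Subgroup G).FiniteIndex := by
  classical
  have hfin : Finite (G ⧸ (Subgroup.centralizer {g} : Subgroup G)) := by
    have := (hFC.fin g).to_subtype
    let f : G → {u | ∃ c, u = c⁻¹ * g * c} := fun x => ⟨x * g * x⁻¹, x⁻¹, by simp⟩
    have hf : ∀ x y : G, f x = f y → (x : G ⧸ (Subgroup.centralizer {g} : Subgroup G)) = y := by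
      intro x y hxy
      rw [QuotientGroup.eq, Subgroup.mem_centralizer_singleton_iff]
      have h1 : x * g * x⁻¹ = y * g * y⁻¹ := congrArg Subtype.val hxy
      calc x⁻¹ * y * g = x⁻¹ * (y * g * y⁻¹) * y := by group
        _ = x⁻¹ * (x * g * x⁻¹) * y := by rw [h1]
        _ = g * (x⁻¹ * y) := by group
    let F : G ⧸ (Subgroup.centralizer {g} : Subgroup G) → {u | ∃ c, u = c⁻¹ * g * c} :=
      fun q => f q.out
    apply Finite.of_injective F
    intro a b hab
    have := hf _ _ hab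
    rwa [QuotientGroup.out_eq', QuotientGroup.out_eq'] at this
  exact Subgroup.finiteIndex_of_finite_quotient

theorem FCG.sub (hFC : FCG G) (H : Subgroup G) : FCG H := by
  intro h
  refine ((hFC h.1).preimage (f := Subtype.val) Subtype.val_injective.injOn).subset ?_
  intro u hu
  obtain ⟨c, hc⟩ := isConj_iff.mp hu
  refine isConj_iff.mpr ⟨c.1, ?_⟩
  exact congrArg Subtype.val hc

theorem fi_comm (h : (Subgroup.center G).FiniteIndex) : Finite ↥(commutator G) := by
  classical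
  have h1 : Finite (commutatorSet G) := by
    have hq : Finite (G ⧸ Subgroup.center G) := inferInstance
    have : commutatorSet G ⊆ Set.range (fun p : (G ⧸ Subgroup.center G) × (G ⧸ Subgroup.center G) =>
        ⁅p.1.out, p.2.out⁆) := by
      rintro x ⟨a, b, rfl⟩
      have key : ∀ a : G, ∃ z ∈ Subgroup.center G, (a : G ⧸ Subgroup.center G).out = a * z := by
        intro a
        refine ⟨a⁻¹ * (a : G ⧸ Subgroup.center G).out, ?_, by group⟩
        rw [← QuotientGroup.eq, QuotientGroup.out_eq']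
      obtain ⟨z, hz, hza⟩ := key a
      obtain ⟨w, hw, hwb⟩ := key b
      refine ⟨((a : G ⧸ Subgroup.center G), (b : G ⧸ Subgroup.center G)), ?_⟩
      show ⁅(a : G ⧸ Subgroup.center G).out, (b : G ⧸ Subgroup.center G).out⁆ = ⁅a, b⁆
      rw [hza, hwb]
      have hz' := Subgroup.mem_center_iff.mp hz
      have hw' := Subgroup.mem_center_iff.mp hw
      simp only [commutatorElement_def, mul_inv_rev]
      calc a * z * (b * w) * (z⁻¹ * a⁻¹) * (w⁻¹ * b⁻¹)
          = a * ((z * (b * w) * z⁻¹)) * a⁻¹ * w⁻¹ * b⁻¹ := by group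
        _ = a * (b * w) * a⁻¹ * w⁻¹ * b⁻¹ := by
            rw [← hz' (b * w)]; group
        _ = a * b * (w * a⁻¹ * w⁻¹) * b⁻¹ := by group
        _ = a * b * a⁻¹ * b⁻¹ := by
            rw [← hw' a⁻¹]; group
    exact Set.Finite.to_subtype ((Set.finite_range _).subset this)
  infer_instance

theorem FCG.center_fi (hFC : FCG G) (hfg : Group.FG G) : (Subgroup.center G).FiniteIndex := by
  classical
  obtain ⟨S, hS⟩ := Group.fg_iff.mp hfg
  obtain ⟨hS, hfin⟩ := hS
  have h1 : (⨅ s ∈ hfin.toFinset, (Subgroup.centralizer {s} : Subgroup G)).FiniteIndex := by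
    apply Subgroup.finiteIndex_iInf'
    intro s _
    exact hFC.cent_fi s
  refine Subgroup.finiteIndex_of_le (H := ⨅ s ∈ hfin.toFinset, (Subgroup.centralizer {s} : Subgroup G)) ?_
  intro x hx
  have h2 : ∀ s ∈ S, s ∈ Subgroup.centralizer {x} := by
    intro s hs
    have := (Subgroup.mem_iInf.mp (Subgroup.mem_iInf.mp hx s)) (hfin.mem_toFinset.mpr hs)
    rw [Subgroup.mem_centralizer_singleton_iff] at this ⊢
    exact this.symm
  have h3 : (⊤ : Subgroup G) ≤ Subgroup.centralizer {x} := by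
    rw [← hS, Subgroup.closure_le]
    exact h2
  rw [Subgroup.mem_center_iff]
  intro g
  exact (Subgroup.mem_centralizer_singleton_iff.mp (h3 (Subgroup.mem_top g)))

/-- Dietzmann's lemma for FC-groups -/
theorem FCG.nc_finite (hFC : FCG G) (S : Set G) (hS : S.Finite) (ht : ∀ s ∈ S, IsOfFinOrder s) :
    ((Subgroup.normalClosure S : Subgroup G) : Set G).Finite := by
  classical
  have hconj : (Group.conjugatesOfSet S).Finite := by
    have : Group.conjugatesOfSet S = ⋃ s ∈ S, {h | IsConj s h} := by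
      ext x
      simp only [Group.mem_conjugatesOfSet_iff, Set.mem_iUnion, exists_prop]
      rfl
    rw [this]
    exact Set.Finite.biUnion hS (fun s _ => hFC s)
  set F : Subgroup G := Subgroup.normalClosure S with hF
  have hFc : F = Subgroup.closure (Group.conjugatesOfSet S) := rfl
  have hfg : F.FG := by
    rw [Subgroup.fg_iff]
    exact ⟨_, rfl, hconj⟩
  have hFfg : Group.FG F := (Group.fg_iff_subgroup_fg F).mpr hfg
  have hFF : FCG F := hFC.sub F
  have hc := fi_comm (hFF.center_fi hFfg)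
  have htors : Monoid.IsTorsion (Abelianization F) := by
    have key : ∀ x (hx : x ∈ F), (Abelianization.of (⟨x, hx⟩ : F)) ∈
        CommGroup.torsion (Abelianization F) := by
      intro x hx
      have hx' : x ∈ Subgroup.closure (Group.conjugatesOfSet S) := hx
      induction hx' using Subgroup.closure_induction with
      | mem x hxm =>
        obtain ⟨s, hs, hsx⟩ := Group.mem_conjugatesOfSet_iff.mp hxm
        obtain ⟨c, hc⟩ := isConj_iff.mp hsx
        obtain ⟨m, hm, hsm⟩ := (isOfFinOrder_iff_pow_eq_one.mp (ht s hs))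
        show IsOfFinOrder _
        rw [isOfFinOrder_iff_pow_eq_one]
        refine ⟨m, hm, ?_⟩
        rw [← map_pow]
        have : (⟨x, hx⟩ : F) ^ m = 1 := by
          apply Subtype.ext
          show x ^ m = 1
          rw [← hc, conj_pow, hsm]; simp
        rw [this, map_one]
      | one => exact one_mem (CommGroup.torsion (Abelianization F))
      | mul x y hx1 hy1 ihx ihy =>
        have := mul_mem (ihx hx1) (ihy hy1)
        rw [← map_mul] at this
        exact this
      | inv x hx1 ihx =>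
        have := inv_mem (ihx hx1)
        rw [← map_inv] at this
        exact this
    intro a
    obtain ⟨⟨x, hx⟩, rfl⟩ := QuotientGroup.mk_surjective a
    exact key x hx
  have hab : Finite (Abelianization F) := by
    have : Group.FG (Abelianization F) :=
      Group.fg_of_surjective (f := (Abelianization.of : F →* _)) QuotientGroup.mk_surjective
    exact CommGroup.finite_of_fg_torsion _ htors
  have hfi : (commutator F).FiniteIndex := by
    have : Finite (F ⧸ commutator F) := hab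
    exact Subgroup.finiteIndex_of_finite_quotient
  have hFfin : Finite F := (Subgroup.finite_iff_finite_and_finiteIndex (commutator F)).mpr ⟨hc, hfi⟩
  exact Set.toFinite _

theorem FCG.comm_torsion (hFC : FCG G) (g : G) (hg : g ∈ commutator G) : IsOfFinOrder g := by
  rw [commutator_eq_closure] at hg
  induction hg using Subgroup.closure_induction with
  | mem x hx =>
    obtain ⟨a, b, rfl⟩ := hx
    set L : Subgroup G := Subgroup.closure {a, b} with hL
    have hfg : L.FG := by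
      rw [Subgroup.fg_iff]
      exact ⟨_, rfl, Set.toFinite _⟩
    have hLfg : Group.FG L := (Group.fg_iff_subgroup_fg L).mpr hfg
    have hc := fi_comm ((hFC.sub L).center_fi hLfg)
    have haL : a ∈ L := Subgroup.subset_closure (by simp)
    have hbL : b ∈ L := Subgroup.subset_closure (by simp)
    have hmem : ⁅(⟨a, haL⟩ : L), (⟨b, hbL⟩ : L)⁆ ∈ commutator L :=
      Subgroup.commutator_mem_commutator (Subgroup.mem_top _) (Subgroup.mem_top _)
    have h1 : IsOfFinOrder (⟨_, hmem⟩ : commutator L) := isOfFinOrder_of_finite _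
    have h2 := (L.subtype.comp (commutator L).subtype).isOfFinOrder h1
    exact h2
  | one => exact IsOfFinOrder.one
  | mul x y _ _ hx hy =>
    have h1 := hFC.nc_finite {x, y} (Set.toFinite _) (by
      rintro s hs
      rcases hs with rfl | hs
      · exact hx
      · rw [Set.mem_singleton_iff] at hs; subst hs; exact hy)
    have := h1.to_subtype
    have hxm : x * y ∈ Subgroup.normalClosure {x, y} :=
      mul_mem (Subgroup.subset_normalClosure (by simp)) (Subgroup.subset_normalClosure (by simp))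
    have h2 : IsOfFinOrder (⟨_, hxm⟩ : (Subgroup.normalClosure {x, y} : Subgroup G)) :=
      isOfFinOrder_of_finite _
    exact (Subgroup.subtype _).isOfFinOrder h2
  | inv x _ hx => exact hx.inv

theorem FCG.nc_comm_finite (hFC : FCG G) (S : Set G) (hS : S.Finite)
    (ht : ∀ s ∈ S, s ∈ commutator G) :
    ((Subgroup.normalClosure S : Subgroup G) : Set G).Finite :=
  hFC.nc_finite S hS (fun s hs => hFC.comm_torsion s (ht s hs))

end basics

end five

section ten

open scoped commutatorElement Pointwise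

section req

variable {G : Type} [Group G]

/-- labels -/
abbrev Om (G : Type) [Group G] : Type := G ⊕ MulAut G

/-- unary requirements -/
def U1 (a : Om G) (t : Set (Om G)) : Prop :=
  match a with
  | Sum.inl g => (Sum.inl g⁻¹ ∈ t) ∧ (∀ c : G, Sum.inl (c⁻¹ * g * c) ∈ t) ∧
      ∀ c : G, ∃ d : G, Sum.inl d ∈ t ∧ c⁻¹ * g * c = d⁻¹ * g * d
  | Sum.inr x => x ∈ XX G → (Sum.inr x⁻¹ ∈ t) ∧ (∀ y ∈ XX G, Sum.inr (y⁻¹ * x * y) ∈ t) ∧
      (x ≠ 1 → ∃ g : G, Sum.inl g ∈ t ∧ x g ≠ g)

/-- binary requirements -/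
def U2 (a b : Om G) (t : Set (Om G)) : Prop :=
  match a, b with
  | Sum.inl g, Sum.inl h => Sum.inl (g * h) ∈ t
  | Sum.inr x, Sum.inr y => Sum.inr (x * y) ∈ t
  | _, _ => True

/-- finite requirements -/
def U3 (s : Finset (Om G)) (t : Set (Om G)) : Prop :=
  ((Subgroup.normalClosure {g : G | (Sum.inl g : Om G) ∈ s} : Subgroup G) : Set G).Finite →
    ∃ (W : Finset G) (K : Set (MulAut G)), K.Finite ∧ (∀ k ∈ K, k ∈ XX G) ∧
      (∀ H : Subgroup G, ↑W ⊆ (H : Set G) → ∀ x ∈ XX G,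
        (∀ h ∈ H, dl x h ∈ Subgroup.normalClosure {g : G | (Sum.inl g : Om G) ∈ s}) →
        ∃ k ∈ K, ∀ h ∈ H, dl (k⁻¹ * x) h ∈ Subgroup.center G) ∧
      (∀ w ∈ W, Sum.inl w ∈ t) ∧ ∀ k ∈ K, Sum.inr k ∈ t

theorem U1.mono {a : Om G} {t t' : Set (Om G)} (h : t ⊆ t') (hu : U1 a t) : U1 a t' := by
  cases a with
  | inl g =>
    obtain ⟨h1, h2, h3⟩ := hu
    refine ⟨h h1, fun c => h (h2 c), fun c => ?_⟩
    obtain ⟨d, hd, hd'⟩ := h3 c
    exact ⟨d, h hd, hd'⟩
  | inr x =>
    intro hx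
    obtain ⟨h1, h2, h3⟩ := hu hx
    refine ⟨h h1, fun y hy => h (h2 y hy), fun hne => ?_⟩
    obtain ⟨g, hg, hg'⟩ := h3 hne
    exact ⟨g, h hg, hg'⟩

theorem U2.mono {a b : Om G} {t t' : Set (Om G)} (h : t ⊆ t') (hu : U2 a b t) : U2 a b t' := by
  cases a <;> cases b
  · exact h hu
  · trivial
  · trivial
  · exact h hu

theorem U3.mono {s : Finset (Om G)} {t t' : Set (Om G)} (h : t ⊆ t') (hu : U3 s t) : U3 s t' := by
  intro hf
  obtain ⟨W, K, h1, h2, h3, h4, h5⟩ := hu hf
  exact ⟨W, K, h1, h2, h3, fun w hw => h (h4 w hw), fun k hk => h (h5 k hk)⟩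

theorem exU1 (hFC : FCG G) (a : Om G) : ∃ t : Set (Om G), t.Countable ∧ U1 a t := by
  classical
  cases a with
  | inl g =>
    have h1 : ∀ u : {u | ∃ c, u = c⁻¹ * g * c}, ∃ d, u.1 = d⁻¹ * g * d := fun u => u.2
    choose d hd using h1
    have := (hFC.fin g).to_subtype
    refine ⟨{Sum.inl g⁻¹} ∪ (Sum.inl '' {u | ∃ c, u = c⁻¹ * g * c}) ∪
      (Sum.inl '' Set.range d), ?_, ?_, ?_, ?_⟩
    · exact (((Set.finite_singleton _).union ((hFC.fin g).image _)).union
        ((Set.finite_range d).image _)).countable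
    · exact Or.inl (Or.inl rfl)
    · intro c
      exact Or.inl (Or.inr ⟨_, ⟨c, rfl⟩, rfl⟩)
    · intro c
      exact ⟨d ⟨c⁻¹ * g * c, c, rfl⟩, Or.inr ⟨_, ⟨_, rfl⟩, rfl⟩, hd ⟨c⁻¹ * g * c, c, rfl⟩⟩
  | inr x =>
    by_cases hx : x ∈ XX G
    · have h1 : ∃ g : G, x ≠ 1 → x g ≠ g := by
        by_contra hcon
        push Not at hcon
        obtain ⟨hne, _⟩ := hcon 1
        apply hne
        ext g
        exact (hcon g).2
      obtain ⟨g, hg⟩ := h1
      refine ⟨{Sum.inr x⁻¹} ∪ (Sum.inr '' {w | ∃ y ∈ XX G, w = y⁻¹ * x * y}) ∪ {Sum.inl g}, ?_,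
        fun _ => ⟨?_, ?_, ?_⟩⟩
      · exact (((Set.finite_singleton _).union ((XX_classes hx).image _)).union
          (Set.finite_singleton _)).countable
      · exact Or.inl (Or.inl rfl)
      · intro y hy
        exact Or.inl (Or.inr ⟨_, ⟨y, hy, rfl⟩, rfl⟩)
      · intro hne
        exact ⟨g, Or.inr rfl, hg hne⟩
    · exact ⟨∅, Set.countable_empty, fun h => absurd h hx⟩

theorem exU2 (a b : Om G) : ∃ t : Set (Om G), t.Countable ∧ U2 a b t := by
  cases a <;> cases b
  · exact ⟨{Sum.inl _}, Set.countable_singleton _, rfl⟩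
  · exact ⟨∅, Set.countable_empty, trivial⟩
  · exact ⟨∅, Set.countable_empty, trivial⟩
  · exact ⟨{Sum.inr _}, Set.countable_singleton _, rfl⟩

theorem exU3 (hFC : FCG G) (s : Finset (Om G)) : ∃ t : Set (Om G), t.Countable ∧ U3 s t := by
  by_cases hf : ((Subgroup.normalClosure {g : G | (Sum.inl g : Om G) ∈ s} : Subgroup G) :
      Set G).Finite
  · obtain ⟨W, K, h1, h2, h3⟩ := lemmaB0 hFC _ Subgroup.normalClosure_normal hf
    refine ⟨(Sum.inl '' (W : Set G)) ∪ (Sum.inr '' K), ?_, fun _ => ⟨W, K, h1, h2, h3, ?_, ?_⟩⟩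
    · exact ((W.finite_toSet.image _).union (h1.image _)).countable
    · intro w hw
      exact Or.inl ⟨w, hw, rfl⟩
    · intro k hk
      exact Or.inr ⟨k, hk, rfl⟩
  · exact ⟨∅, Set.countable_empty, fun h => absurd h hf⟩

/-- all requirements -/
def Req (s : Finset (Om G)) (t : Set (Om G)) : Prop :=
  Sum.inl 1 ∈ t ∧ Sum.inr 1 ∈ t ∧ (∀ a ∈ s, U1 a t) ∧ (∀ a ∈ s, ∀ b ∈ s, U2 a b t) ∧ U3 s t

theorem exReq (hFC : FCG G) (s : Finset (Om G)) :
    ∃ t : Set (Om G), t.Countable ∧ Req s t := by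
  choose t1 h1 h1' using exU1 hFC
  choose t2 h2 h2' using (exU2 : ∀ a b : Om G, _)
  obtain ⟨t3, h3, h3'⟩ := exU3 hFC s
  set t : Set (Om G) := {Sum.inl 1, Sum.inr 1} ∪ (⋃ a ∈ (s : Set (Om G)), t1 a) ∪
    (⋃ a ∈ (s : Set (Om G)), ⋃ b ∈ (s : Set (Om G)), t2 a b) ∪ t3 with ht
  have hs1 : ∀ a ∈ s, t1 a ⊆ t := by
    intro a ha x hx
    refine Or.inl (Or.inl (Or.inr ?_))
    exact Set.mem_biUnion (x := a) ha hx
  have hs2 : ∀ a ∈ s, ∀ b ∈ s, t2 a b ⊆ t := by
    intro a ha b hb x hx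
    refine Or.inl (Or.inr ?_)
    exact Set.mem_biUnion (x := a) ha (Set.mem_biUnion (x := b) hb hx)
  refine ⟨t, ?_, ?_, ?_, ?_, ?_, ?_⟩
  · refine (((Set.toFinite {Sum.inl 1, Sum.inr 1}).countable.union ?_).union ?_).union h3
    · exact Set.Countable.biUnion s.countable_toSet (fun a _ => h1 a)
    · exact Set.Countable.biUnion s.countable_toSet (fun a _ =>
        Set.Countable.biUnion s.countable_toSet (fun b _ => h2 a b))
  · exact Or.inl (Or.inl (Or.inl (Or.inl rfl)))
  · exact Or.inl (Or.inl (Or.inl (Or.inr rfl)))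
  · intro a ha
    exact (h1' a).mono (hs1 a ha)
  · intro a ha b hb
    exact (h2' a b).mono (hs2 a ha b hb)
  · exact h3'.mono (fun x hx => Or.inr hx)

/-- the closure operation -/
noncomputable def FF (hFC : FCG G) (s : Finset (Om G)) : Set (Om G) := (exReq hFC s).choose

theorem FF_countable (hFC : FCG G) (s : Finset (Om G)) : (FF hFC s).Countable :=
  (exReq hFC s).choose_spec.1

theorem FF_req (hFC : FCG G) (s : Finset (Om G)) : Req s (FF hFC s) :=
  (exReq hFC s).choose_spec.2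

section closed

variable {hFC : FCG G} {C : Set (Om G)} (hC : Closed (FF hFC) C)
include hC

theorem c_U1 {a : Om G} (ha : a ∈ C) : U1 a C := by
  have := (FF_req hFC {a}).2.2.1 a (by simp)
  exact this.mono (hC {a} (by simpa using ha))

theorem c_U2 {a b : Om G} (ha : a ∈ C) (hb : b ∈ C) : U2 a b C := by
  classical
  have := (FF_req hFC {a, b}).2.2.2.1 a (by simp) b (by simp)
  refine this.mono (hC {a, b} ?_)
  intro x hx
  simp only [Finset.coe_insert, Finset.coe_singleton, Set.mem_insert_iff,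
    Set.mem_singleton_iff] at hx
  rcases hx with rfl | rfl
  · exact ha
  · exact hb

theorem c_U3 {s : Finset (Om G)} (hs : ↑s ⊆ C) : U3 s C :=
  (FF_req hFC s).2.2.2.2.mono (hC s hs)

theorem c_g1 : (Sum.inl 1 : Om G) ∈ C := hC ∅ (by simp) (FF_req hFC ∅).1

theorem c_x1 : (Sum.inr 1 : Om G) ∈ C := hC ∅ (by simp) (FF_req hFC ∅).2.1

/-- the normal subgroup of `G` -/
def HH : Subgroup G where
  carrier := {g | (Sum.inl g : Om G) ∈ C}
  one_mem' := c_g1 hC
  mul_mem' := fun {a b} ha hb => c_U2 hC ha hb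
  inv_mem' := fun {a} ha => (c_U1 hC ha).1

theorem HH_normal : (HH hC).Normal := by
  refine ⟨?_⟩
  intro g hg c
  have := (c_U1 hC (a := Sum.inl g) hg).2.1 c⁻¹
  rw [inv_inv] at this
  exact this

theorem c_conj {g : G} (hg : (Sum.inl g : Om G) ∈ C) (c : G) :
    ∃ d : G, (Sum.inl d : Om G) ∈ C ∧ c⁻¹ * g * c = d⁻¹ * g * d := (c_U1 hC hg).2.2 c

theorem c_exK {x : MulAut G} (hx : x ∈ XX G) : ∃ k ∈ XX G, (Sum.inr k : Om G) ∈ C ∧
    ∀ h : G, (Sum.inl h : Om G) ∈ C → dl (k⁻¹ * x) h ∈ Subgroup.center G := by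
  classical
  have hH := HH_normal hC
  have hfin : ((dl x) '' (HH hC : Set G)).Finite := hx.2.subset (Set.image_subset_range _ _)
  set s : Finset (Om G) := hfin.toFinset.image Sum.inl with hs
  have hsC : ↑s ⊆ C := by
    intro a ha
    simp only [hs, Finset.coe_image, Set.mem_image, Finset.mem_coe, Set.Finite.mem_toFinset] at ha
    obtain ⟨u, ⟨h, hh, rfl⟩, rfl⟩ := ha
    exact hx.1.dl_normal hH hh
  have hset : {g : G | (Sum.inl g : Om G) ∈ s} = (dl x) '' (HH hC : Set G) := by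
    ext g
    simp [hs]
  have hnc : ((Subgroup.normalClosure {g : G | (Sum.inl g : Om G) ∈ s} : Subgroup G) :
      Set G).Finite := by
    rw [hset]
    apply hFC.nc_comm_finite _ hfin
    rintro _ ⟨h, _, rfl⟩
    exact hx.1.dl_comm h
  obtain ⟨W, K, h1, h2, h3, h4, h5⟩ := c_U3 hC hsC hnc
  obtain ⟨k, hk, hk'⟩ := h3 (HH hC) (fun w hw => h4 w hw) x hx (by
    intro h hh
    apply Subgroup.subset_normalClosure
    rw [hset]
    exact ⟨h, hh, rfl⟩)
  exact ⟨k, h2 k hk, h5 k hk, fun h hh => hk' h hh⟩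

theorem c_comm {l : MulAut G} (hl : l ∈ XX G) (hlC : (Sum.inr l : Om G) ∈ C) {w : MulAut G}
    (hw : w ∈ XX G) (hwz : ∀ h : G, (Sum.inl h : Om G) ∈ C → dl w h ∈ Subgroup.center G) :
    l * w = w * l := by
  have h1 : (Sum.inr (w⁻¹ * l * w) : Om G) ∈ C := (c_U1 hC hlC hl).2.1 w hw
  have h2 : (Sum.inr l⁻¹ : Om G) ∈ C := (c_U1 hC hlC hl).1
  have h3 : (Sum.inr (l⁻¹ * (w⁻¹ * l * w)) : Om G) ∈ C := c_U2 hC h2 h1
  have h4 : l⁻¹ * (w⁻¹ * l * w) ∈ XX G :=
    mul_mem (inv_mem hl) (mul_mem (mul_mem (inv_mem hw) hl) hw)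
  have h5 : l⁻¹ * (w⁻¹ * l * w) = 1 := by
    by_contra hne
    obtain ⟨h, hh, hh'⟩ := (c_U1 hC h3 h4).2.2 hne
    apply hh'
    have hz := hwz h hh
    obtain ⟨c, hc⟩ := hl.1 {h}
    have hc' := hc h (by simp)
    obtain ⟨d, hd, hd'⟩ := c_conj hC hh c
    have hzd := hwz d hd
    -- compute
    have e1 : w h = h * dl w h := dl_eq w h
    have e2 : w d = d * dl w d := dl_eq w d
    have e3 : l (w h) = l h * dl w h := by
      rw [e1, map_mul, hl.1.center hz]
    have e4 : w (l h) = l h * dl w h := by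
      rw [hc', hd', map_mul, map_mul, map_inv, e1, e2]
      have z1 := Subgroup.mem_center_iff.mp hzd
      have z2 := Subgroup.mem_center_iff.mp hz
      calc (d * dl w d)⁻¹ * (h * dl w h) * (d * dl w d)
          = (dl w d)⁻¹ * (d⁻¹ * h * dl w h * d * dl w d) := by group
        _ = (dl w d)⁻¹ * (dl w d * (d⁻¹ * h * dl w h * d)) := by rw [← z1]
        _ = d⁻¹ * h * (dl w h * d) := by group
        _ = d⁻¹ * h * (d * dl w h) := by rw [← z2]
        _ = _ := by group
    show l⁻¹ (w⁻¹ (l (w h))) = h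
    rw [e3, ← e4, MulAut.inv_apply_self, MulAut.inv_apply_self]
  calc l * w = w * l * (l⁻¹ * (w⁻¹ * l * w)) := by group
    _ = w * l := by rw [h5, mul_one]

end closed

end req

end ten

end Pool.Agent.Helper316.FCV
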