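import Pool.Agent.Helper316.FCX
import Pool.Agent.Helper316.FCZ

/-!
# The case of a countable group `Z(G) ∩ G'`
-/

set_option autoImplicit false

namespace Pool.Agent.Helper316.FCW

open Pool.Agent.Helper316.FCV Pool.Agent.Helper316.FCX

section zz

variable {G : Type} [Group G]

theorem zz_SDF (hFC : FCG G) (hR : ResX G)
    (hc : Countable ↥(Subgroup.center G ⊓ commutator G)) :
    SDF ↥(Subgroup.center G ⊓ commutator G) := by
  refine SDF.of_countable (fun x => ?_) (fun x hx => ?_)
  · have htor : IsOfFinOrder x := by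
      have h1 := FCG.comm_torsion hFC x.1 x.2.2
      rw [isOfFinOrder_iff_pow_eq_one] at h1 ⊢
      obtain ⟨n, hn, hn'⟩ := h1
      exact ⟨n, hn, Subtype.ext hn'⟩
    have hcomm : ∀ a b : ↥(Subgroup.center G ⊓ commutator G), a * b = b * a := by
      intro a b
      apply Subtype.ext
      exact (Subgroup.mem_center_iff.mp a.2.1 b.1).symm
    refine ⟨Subgroup.zpowers x, ⟨fun n hn g => ?_⟩, ?_, Subgroup.mem_zpowers x⟩
    · rw [hcomm g n, mul_inv_cancel_right]
      exact hn
    · exact finite_zpowers.2 htor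
  · obtain ⟨N, hN, hxN, hfin⟩ := hR x.1 (fun h => hx (Subtype.ext h))
    have := hfin.to_subtype
    have hfin' : Finite (commutator (G ⧸ N)) := this
    have hmem : ∀ z : ↥(Subgroup.center G ⊓ commutator G),
        (QuotientGroup.mk' N) z.1 ∈ commutator (G ⧸ N) := by
      intro z
      have h2 : (commutator G).map (QuotientGroup.mk' N) ≤ commutator (G ⧸ N) := by
        rw [commutator_def, Subgroup.map_commutator, commutator_def]
        exact Subgroup.commutator_mono le_top le_top
      exact h2 (Subgroup.mem_map_of_mem _ z.2.2)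
    let φ : ↥(Subgroup.center G ⊓ commutator G) →* commutator (G ⧸ N) :=
      ((QuotientGroup.mk' N).comp (Subgroup.subtype _)).codRestrict _ hmem
    refine ⟨φ.ker, inferInstance, inferInstance, fun h => hxN ?_⟩
    have h1 : φ x = 1 := h
    have h2 : (QuotientGroup.mk' N) x.1 = 1 := congrArg Subtype.val h1
    exact (QuotientGroup.eq_one_iff _).1 h2

theorem of_zz (hFC : FCG G) (ι : Type) (F : ι → Type) [∀ i, Group (F i)]
    [∀ i, Finite (F i)] (f : ↥(Subgroup.center G ⊓ commutator G) →* ((i : ι) → F i))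
    (hf : Function.Injective f) (hs : ∀ x, {i : ι | f x i ≠ 1}.Finite) :
    ∃ (ι : Type) (F : ι → Type) (inst : ∀ i, Group (F i)) (_ : ∀ i, Finite (F i))
        (f : (G ⧸ Subgroup.center G) →* ((i : ι) → F i)),
        Function.Injective f ∧ ∀ x, {i : ι | f x i ≠ 1}.Finite := by
  obtain ⟨J, n, hn, chi, hD⟩ := Pool.Agent.Helper316.FCZ.FC.exists_data hFC ι F f hf hs
  exact (Pool.Agent.Helper316.FCZ.FC.main hD).toProd

end zz

end Pool.Agent.Helper316.FCW
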