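import Pool.Agent.Helper316.FCV

/-!
# FC-groups which are residually (finite derived subgroup)

Let `G` be an FC-group which is residually in the class of groups with finite derived subgroup.
Every subgroup of `G / Z(G)` of cardinality at most `ℵ₁` is embeddable in a restricted direct
product of finite groups; in particular `G / Z(G)` is, if `|G / Z(G)| ≤ ℵ₁`.

The proof works in the group `XX G` of finitary locally inner automorphisms of `G`.  A closure
operation with countable values on `G ∪ Aut G` is used; for closed sets `C ⊆ C'`, with `C'`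
countable, the subgroup `PQ C` of `XX G` is a retract of `PQ C'`.  This comes from a splitting
lemma for a pure subgroup `B` of a countable torsion abelian group `A` with `A / B` Hausdorff.
-/

set_option autoImplicit false

namespace Pool.Agent.Helper316.FCX

open Pool.Agent.Helper316.FCV
open scoped IsMulCommutative

section split

/-- pure subgroup -/
def Pure {A : Type} [AddCommGroup A] (B : AddSubgroup A) : Prop :=
  ∀ (n : ℕ) (a : A), n • a ∈ B → ∃ b ∈ B, n • b = n • a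

/-- no element outside `B` is divisible modulo `B` by all integers -/
def Haus {A : Type} [AddCommGroup A] (B : AddSubgroup A) : Prop :=
  ∀ a : A, a ∉ B → ∃ m : ℕ, 0 < m ∧ ∀ c : A, a - m • c ∉ B

/-- torsion in the group of characters -/
theorem circle_torsion {q : ℕ} (hq : 0 < q) {t s : AddCircle (1 : ℚ)} (ht : addOrderOf t = q)
    (hs : q • s = 0) : ∃ k : ℤ, s = k • t := by
  obtain ⟨m', _, hg, ht'⟩ := (AddCircle.addOrderOf_eq_pos_iff hq).1 ht
  obtain ⟨m, _, hs'⟩ := (AddCircle.nsmul_eq_zero_iff hq).1 hs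
  have hbez := Nat.gcd_eq_gcd_ab m' q
  rw [hg] at hbez
  refine ⟨m * Nat.gcdA m' q, ?_⟩
  rw [← hs', ← ht', ← AddCircle.coe_zsmul, ← sub_eq_zero, ← AddCircle.coe_sub,
    AddCircle.coe_eq_zero_iff]
  refine ⟨m * Nat.gcdB m' q, ?_⟩
  have hb : (1 : ℚ) = m' * (Nat.gcdA m' q : ℚ) + q * (Nat.gcdB m' q : ℚ) := by exact_mod_cast hbez
  have hq' : (q : ℚ) ≠ 0 := by exact_mod_cast hq.ne'
  simp only [zsmul_eq_mul, mul_one]
  push_cast
  field_simp
  linear_combination (-(m : ℚ)) * hb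

theorem step {A : Type} [AddCommGroup A] {B : AddSubgroup A} (hP : Pure B) (hH : Haus B) {x : A}
    (hx : x ∉ B) {p : ℕ} (hp : p.Prime) (hpx : p • x ∈ B) :
    ∃ e : A →+ A, (∀ a, e (e a) = e a) ∧ (∀ b ∈ B, e b = 0) ∧ x - e x ∈ B := by
  classical
  -- multiples
  have hmul : ∀ n (c : A), x - p ^ n • c ∈ B → p ^ (n + 1) • c ∈ B := by
    intro n c h
    have h1 : p ^ (n + 1) • c = p • x - p • (x - p ^ n • c) := by
      rw [smul_sub, sub_sub_cancel, smul_smul, pow_succ, mul_comm]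
    rw [h1]
    exact B.sub_mem hpx (B.nsmul_mem h p)
  obtain ⟨m, hm, hm'⟩ := hH x hx
  have hex : ∃ k : ℕ, ∀ c : A, x - p ^ k • c ∉ B := by
    obtain ⟨k, m', hcop, hk⟩ := Nat.exists_eq_pow_mul_and_not_dvd hm.ne' p hp.ne_one
    refine ⟨k, fun c hc => ?_⟩
    have hc1 := hmul k c hc
    have hco : Nat.Coprime m' (p ^ (k + 1)) := ((Nat.Prime.coprime_iff_not_dvd hp).2 hcop).symm.pow_right _
    have hbez := Nat.gcd_eq_gcd_ab m' (p ^ (k + 1))
    rw [hco.gcd_eq_one] at hbez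
    set u := Nat.gcdA m' (p ^ (k + 1)) with hu
    set v := Nat.gcdB m' (p ^ (k + 1)) with hv
    refine hm' (u • c) ?_
    have h2 : (m : ℤ) • (u • c) = p ^ k • c - (v * (p : ℤ) ^ k) • (p ^ (k + 1) • c) := by
      have e1 : (p ^ k : ℕ) • c = ((p : ℤ) ^ k) • c := by
        rw [← natCast_zsmul]; push_cast; rfl
      have e2 : (p ^ (k + 1) : ℕ) • c = ((p : ℤ) ^ (k + 1)) • c := by
        rw [← natCast_zsmul]; push_cast; rfl
      rw [e1, e2, smul_smul, smul_smul, ← sub_smul]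
      congr 1
      have hb : (1 : ℤ) = m' * u + (p : ℤ) ^ (k + 1) * v := by exact_mod_cast hbez
      rw [hk]
      push_cast
      linear_combination (-(p : ℤ) ^ k) * hb
    have h3 : m • (u • c) = (m : ℤ) • (u • c) := (natCast_zsmul _ _).symm
    rw [h3, h2]
    have h4 : x - (p ^ k • c - (v * (p : ℤ) ^ k) • (p ^ (k + 1) • c)) =
        (x - p ^ k • c) + (v * (p : ℤ) ^ k) • (p ^ (k + 1) • c) := by abel
    rw [h4]
    exact B.add_mem hc (B.zsmul_mem hc1 _)
  have hfind := Nat.find_spec hex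
  have hfmin : ∀ l < Nat.find hex, ∃ c : A, x - p ^ l • c ∈ B := by
    intro l hl
    have := Nat.find_min hex hl
    push Not at this
    exact this
  have hne : Nat.find hex ≠ 0 := by
    intro h0
    rw [h0] at hfind
    exact hfind x (by simp)
  obtain ⟨n, hn⟩ := Nat.exists_eq_succ_of_ne_zero hne
  rw [hn] at hfind hfmin
  obtain ⟨c, hc⟩ := hfmin n (Nat.lt_succ_self n)
  obtain ⟨b, hb, hbc⟩ := hP (p ^ (n + 1)) c (hmul n c hc)
  set y := c - b with hy
  set q := p ^ (n + 1) with hq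
  have hq0 : 0 < q := pow_pos hp.pos _
  have hqy : q • y = 0 := by rw [hy, smul_sub, hbc, sub_self]
  have hxy : x - p ^ n • y ∈ B := by
    rw [hy, smul_sub, ← sub_add]
    exact B.add_mem hc (B.nsmul_mem hb _)
  -- the character
  let f : A →+ A := nsmulAddMonoidHom q
  let K0 : AddSubgroup A := B ⊔ f.range
  have hxK : x ∉ K0 := by
    intro h
    obtain ⟨b', hb', z, ⟨c', rfl⟩, hz⟩ := AddSubgroup.mem_sup.1 h
    refine hfind c' ?_
    have : x - p ^ (n + 1) • c' = b' := by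
      rw [← hz]
      show b' + q • c' - p ^ (n + 1) • c' = b'
      rw [hq, add_sub_cancel_right]
    exact this ▸ hb'
  have hxK' : (QuotientAddGroup.mk x : A ⧸ K0) ≠ 0 := by
    rw [Ne, QuotientAddGroup.eq_zero_iff]
    exact hxK
  obtain ⟨c0, hc0⟩ := CharacterModule.exists_character_apply_ne_zero_of_ne_zero hxK'
  let χ : A → AddCircle (1 : ℚ) := fun a => c0 (QuotientAddGroup.mk a : A ⧸ K0)
  have χadd : ∀ a a', χ (a + a') = χ a + χ a' := fun a a' => by
    show c0 (QuotientAddGroup.mk (a + a') : A ⧸ K0) =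
      c0 (QuotientAddGroup.mk a : A ⧸ K0) + c0 (QuotientAddGroup.mk a' : A ⧸ K0)
    rw [← map_add]
    rfl
  have χB : ∀ b ∈ B, χ b = 0 := by
    intro b hb
    show c0 (QuotientAddGroup.mk b : A ⧸ K0) = 0
    rw [(QuotientAddGroup.eq_zero_iff b).2 (AddSubgroup.mem_sup_left hb), map_zero]
  have χn : ∀ (k : ℕ) a, χ (k • a) = k • χ a := fun k a => by
    show c0 (QuotientAddGroup.mk (k • a) : A ⧸ K0) = k • c0 (QuotientAddGroup.mk a : A ⧸ K0)
    rw [← map_nsmul]
    rfl
  have χz : ∀ (k : ℤ) a, χ (k • a) = k • χ a := fun k a => by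
    show c0 (QuotientAddGroup.mk (k • a) : A ⧸ K0) = k • c0 (QuotientAddGroup.mk a : A ⧸ K0)
    rw [← map_zsmul]
    rfl
  have χq : ∀ a, q • χ a = 0 := by
    intro a
    rw [← χn]
    show c0 (QuotientAddGroup.mk (q • a) : A ⧸ K0) = 0
    have hqa : q • a ∈ K0 := AddSubgroup.mem_sup_right (show q • a ∈ f.range from ⟨a, rfl⟩)
    rw [(QuotientAddGroup.eq_zero_iff (q • a)).2 hqa, map_zero]
  have χx : χ x = p ^ n • χ y := by
    have h1 : x = (x - p ^ n • y) + p ^ n • y := by abel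
    conv_lhs => rw [h1]
    rw [χadd, χB _ hxy, zero_add, χn]
  have : Fact p.Prime := ⟨hp⟩
  have ht : addOrderOf (χ y) = q := by
    refine addOrderOf_eq_prime_pow ?_ (χq y)
    rw [← χx]
    exact hc0
  have hyo : addOrderOf y = q := by
    refine addOrderOf_eq_prime_pow ?_ hqy
    intro h0
    rw [h0, sub_zero] at hxy
    exact hx hxy
  have hk : ∀ a, ∃ k : ℤ, χ a = k • χ y := fun a => circle_torsion hq0 ht (χq a)
  choose k hk using hk
  have hzero : ∀ j : ℤ, j • χ y = 0 → j • y = 0 := by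
    intro j hj
    rw [← addOrderOf_dvd_iff_zsmul_eq_zero] at hj ⊢
    rw [hyo]
    rw [ht] at hj
    exact hj
  have heq : ∀ i j : ℤ, i • χ y = j • χ y → i • y = j • y := by
    intro i j hij
    have := hzero (i - j) (by rw [sub_smul, hij, sub_self])
    rw [sub_smul, sub_eq_zero] at this
    exact this
  let e : A →+ A := AddMonoidHom.mk' (fun a => k a • y) (by
    intro a a'
    show k (a + a') • y = k a • y + k a' • y
    rw [← add_smul]
    refine heq _ _ ?_
    rw [add_smul, ← hk, ← hk, ← hk, χadd])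
  have he : ∀ a, e a = k a • y := fun a => rfl
  have hey : e y = y := by
    rw [he]
    have := heq (k y) 1 (by rw [← hk, one_smul])
    rw [this, one_smul]
  refine ⟨e, fun a => ?_, fun b hb => ?_, ?_⟩
  · rw [he a, map_zsmul, hey]
  · rw [he]
    have h1 : k b • χ y = 0 := by rw [← hk, χB b hb]
    exact hzero _ h1
  · have h1 : e x = p ^ n • y := by
      rw [he]
      have h2 : (p ^ n : ℕ) • y = ((p ^ n : ℕ) : ℤ) • y := (natCast_zsmul _ _).symm
      rw [h2]
      refine heq _ _ ?_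
      rw [← hk, χx, natCast_zsmul]
    rw [h1]
    exact hxy

theorem comb {A : Type} [AddCommGroup A] {B : AddSubgroup A} (hP : Pure B) (hH : Haus B)
    (e1 : A →+ A) (h1 : ∀ a, e1 (e1 a) = e1 a) (h1B : ∀ b ∈ B, e1 b = 0) (x : A)
    (ih : ∀ (A1 : Type) [AddCommGroup A1] (B1 : AddSubgroup A1) (j : A1 →+ A), Pure B1 → Haus B1 →
      Function.Injective j → (∀ a, a ∈ B1 ↔ j a ∈ B) → ∀ x1 : A1, j x1 = x - e1 x →
      ∃ e : A1 →+ A1, (∀ a, e (e a) = e a) ∧ (∀ b ∈ B1, e b = 0) ∧ x1 - e x1 ∈ B1) :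
    ∃ e : A →+ A, (∀ a, e (e a) = e a) ∧ (∀ b ∈ B, e b = 0) ∧ x - e x ∈ B ∧
      ∀ a, e (e1 a) = e1 a := by
  have hker : ∀ a, a - e1 a ∈ e1.ker := fun a => by
    rw [AddMonoidHom.mem_ker, map_sub, h1, sub_self]
  have hBk : ∀ b ∈ B, b ∈ e1.ker := fun b hb => h1B b hb
  have hP1 : Pure (B.addSubgroupOf e1.ker) := by
    intro n a ha
    obtain ⟨b, hb, hb'⟩ := hP n a.1 ha
    exact ⟨⟨b, hBk b hb⟩, hb, Subtype.ext hb'⟩
  have hH1 : Haus (B.addSubgroupOf e1.ker) := by
    intro a ha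
    obtain ⟨m, hm, hm'⟩ := hH a.1 ha
    exact ⟨m, hm, fun c hc => hm' c.1 hc⟩
  obtain ⟨e2, h2, h2B, h2x⟩ := ih e1.ker (B.addSubgroupOf e1.ker) e1.ker.subtype hP1 hH1
    Subtype.val_injective (fun a => Iff.rfl) ⟨x - e1 x, hker x⟩ rfl
  let π : A →+ e1.ker := AddMonoidHom.mk' (fun a => ⟨a - e1 a, hker a⟩) (by
    intro a b
    apply Subtype.ext
    show (a + b) - e1 (a + b) = (a - e1 a) + (b - e1 b)
    rw [map_add]; abel)
  have hπ : ∀ a, (π a : A) = a - e1 a := fun a => rfl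
  have hπk : ∀ a : e1.ker, π a.1 = a := by
    intro a
    apply Subtype.ext
    rw [hπ]
    have : e1 a.1 = 0 := a.2
    rw [this, sub_zero]
  have hπ1 : ∀ a, π (e1 a) = 0 := by
    intro a
    apply Subtype.ext
    rw [hπ, h1, sub_self]
    rfl
  let e : A →+ A := e1 + e1.ker.subtype.comp (e2.comp π)
  have he : ∀ a, e a = e1 a + (e2 (π a) : A) := fun a => rfl
  have hek : ∀ a : e1.ker, e1 a.1 = 0 := fun a => a.2
  have hee1 : ∀ a, e (e1 a) = e1 a := by
    intro a
    rw [he, h1, hπ1, map_zero]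
    show e1 a + 0 = e1 a
    rw [add_zero]
  refine ⟨e, fun a => ?_, fun b hb => ?_, ?_, hee1⟩
  · rw [he a, map_add, hee1, he (e2 (π a)).1, hek, hπk, h2, zero_add]
  · rw [he, h1B b hb, zero_add]
    have : π b ∈ B.addSubgroupOf e1.ker := by
      show (π b : A) ∈ B
      rw [hπ, h1B b hb, sub_zero]
      exact hb
    rw [h2B _ this]
    rfl
  · have h3 : x - e x = ((⟨x - e1 x, hker x⟩ : e1.ker) - e2 ⟨x - e1 x, hker x⟩ : e1.ker).1 := by
      rw [he]
      show x - (e1 x + (e2 (π x) : A)) = (x - e1 x) - (e2 (π x) : A)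
      abel
    rw [h3]
    exact h2x

theorem fin_summand : ∀ (n : ℕ) (A : Type) [AddCommGroup A] (B : AddSubgroup A), Pure B → Haus B →
    ∀ x : A, 0 < n → n • x ∈ B →
    ∃ e : A →+ A, (∀ a, e (e a) = e a) ∧ (∀ b ∈ B, e b = 0) ∧ x - e x ∈ B := by
  intro n
  induction n using Nat.strong_induction_on with
  | _ n ih =>
    intro A _ B hP hH x hn hx
    rcases Nat.lt_or_ge 1 n with h1 | h1
    · obtain ⟨n', hn'⟩ := Nat.minFac_dvd n
      have hp : (Nat.minFac n).Prime := Nat.minFac_prime (by omega)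
      set p := Nat.minFac n with hpdef
      have hn'0 : 0 < n' := by
        rcases Nat.eq_zero_or_pos n' with h | h
        · rw [h, mul_zero] at hn'; omega
        · exact h
      have hlt : n' < n := by
        rw [hn']
        have := hp.two_le
        nlinarith
      by_cases hy : n' • x ∈ B
      · exact ih n' hlt A B hP hH x hn'0 hy
      · obtain ⟨e1, h2, h3, h4⟩ := step hP hH hy hp (by rwa [smul_smul, ← hn'])
        obtain ⟨e, he1, he2, he3, _⟩ := comb hP hH e1 h2 h3 x (by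
          intro A1 _ B1 j hP1 hH1 hj hB1 x1 hx1
          refine ih n' hlt A1 B1 hP1 hH1 x1 hn'0 ?_
          rw [hB1, map_nsmul, hx1, smul_sub, ← map_nsmul]
          exact h4)
        exact ⟨e, he1, he2, he3⟩
    · have hn1 : n = 1 := by omega
      rw [hn1, one_smul] at hx
      refine ⟨0, fun a => by simp, fun b _ => rfl, ?_⟩
      show x - 0 ∈ B
      rwa [sub_zero]

/-- splitting -/
theorem split {A : Type} [AddCommGroup A] [Countable A] (ht : ∀ a : A, ∃ n : ℕ, 0 < n ∧ n • a = 0)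
    {B : AddSubgroup A} (hP : Pure B) (hH : Haus B) :
    ∃ r : A →+ A, (∀ a, r a ∈ B) ∧ ∀ b ∈ B, r b = b := by
  classical
  obtain ⟨en, hen⟩ := exists_surjective_nat A
  have hstep : ∀ (e0 : {e : A →+ A // (∀ a, e (e a) = e a) ∧ ∀ b ∈ B, e b = 0}) (a : A),
      ∃ e' : {e : A →+ A // (∀ a, e (e a) = e a) ∧ ∀ b ∈ B, e b = 0},
        (∀ c, e'.1 (e0.1 c) = e0.1 c) ∧ a - e'.1 a ∈ B := by
    rintro ⟨e0, h0, h0B⟩ a
    obtain ⟨n, hn, hna⟩ := ht (a - e0 a)
    obtain ⟨e, he1, he2, he3, he4⟩ := comb hP hH e0 h0 h0B a (by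
      intro A1 _ B1 j hP1 hH1 hj hB1 x1 hx1
      refine fin_summand n A1 B1 hP1 hH1 x1 hn ?_
      rw [hB1, map_nsmul, hx1, hna]
      exact B.zero_mem)
    exact ⟨⟨e, he1, he2⟩, he4, he3⟩
  choose f hf1 hf2 using hstep
  obtain ⟨E, hE0, hE⟩ : ∃ E : ℕ → {e : A →+ A // (∀ a, e (e a) = e a) ∧ ∀ b ∈ B, e b = 0},
      E 0 = ⟨0, fun a => by simp, fun b _ => rfl⟩ ∧ ∀ n, E (n + 1) = f (E n) (en n) :=
    ⟨fun n => Nat.rec ⟨0, fun a => by simp, fun b _ => rfl⟩ (fun n e => f e (en n)) n, rfl,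
      fun n => rfl⟩
  have hex : ∀ a, ∃ n, a - (E n).1 a ∈ B := by
    intro a
    obtain ⟨n, rfl⟩ := hen a
    refine ⟨n + 1, ?_⟩
    rw [hE]
    exact hf2 _ _
  have hcomp : ∀ n m, n ≤ m → ∀ c, (E m).1 ((E n).1 c) = (E n).1 c := by
    intro n m hnm
    induction m, hnm using Nat.le_induction with
    | base => exact fun c => (E n).2.1 c
    | succ m hnm ih =>
      intro c
      rw [hE, ← ih c]
      exact hf1 _ _ _
  have hst : ∀ a n m, n ≤ m → a - (E n).1 a ∈ B → (E m).1 a = (E n).1 a := by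
    intro a n m hnm ha
    have h1 : a = (a - (E n).1 a) + (E n).1 a := by abel
    have h2 : (E m).1 a = (E m).1 (a - (E n).1 a) + (E m).1 ((E n).1 a) := by
      rw [← map_add, ← h1]
    rw [h2, (E m).2.2 _ ha, zero_add, hcomp n m hnm]
  choose N hN using hex
  have hval : ∀ a m, N a ≤ m → (E m).1 a = (E (N a)).1 a := fun a m h => hst a _ _ h (hN a)
  let r : A →+ A := AddMonoidHom.mk' (fun a => a - (E (N a)).1 a) (by
    intro a b
    show (a + b) - (E (N (a + b))).1 (a + b) = (a - (E (N a)).1 a) + (b - (E (N b)).1 b)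
    set M := max (N (a + b)) (max (N a) (N b)) with hM
    rw [← hval (a + b) M (le_max_left _ _), ← hval a M ((le_max_left _ _).trans (le_max_right _ _)),
      ← hval b M ((le_max_right _ _).trans (le_max_right _ _)), map_add]
    abel)
  refine ⟨r, fun a => hN a, fun b hb => ?_⟩
  show b - (E (N b)).1 b = b
  rw [(E (N b)).2.2 b hb, sub_zero]

end split

/-- point-cofinite separating family of normal subgroups of finite index -/
def SDF (Γ : Type) [Group Γ] : Prop :=
  ∃ (I : Type) (N : I → Subgroup Γ), (∀ i, (N i).Normal) ∧ (∀ i, (N i).FiniteIndex) ∧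
    (∀ x, {i | x ∉ N i}.Finite) ∧ (∀ x, (∀ i, x ∈ N i) → x = 1)

theorem fi_comap {G G' : Type} [Group G] [Group G'] (f : G' →* G) (N : Subgroup G)
    (h : N.FiniteIndex) : (N.comap f).FiniteIndex := by
  constructor
  rw [Subgroup.index_comap]
  exact (Subgroup.instFiniteIndex_subgroupOf N f.range).index_ne_zero

theorem SDF.comap {Γ Γ' : Type} [Group Γ] [Group Γ'] (φ : Γ' →* Γ) (hφ : Function.Injective φ)
    (h : SDF Γ) : SDF Γ' := by
  obtain ⟨I, N, h1, h2, h3, h4⟩ := h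
  refine ⟨I, fun i => (N i).comap φ, fun i => ?_, fun i => ?_, fun x => ?_, fun x hx => ?_⟩
  · exact (h1 i).comap φ
  · exact fi_comap φ _ (h2 i)
  · exact h3 (φ x)
  · apply hφ
    rw [map_one]
    exact h4 _ (fun i => hx i)

theorem SDF.toProd {Γ : Type} [Group Γ] (h : SDF Γ) :
    ∃ (ι : Type) (F : ι → Type) (inst : ∀ i, Group (F i)) (_ : ∀ i, Finite (F i))
        (f : Γ →* ((i : ι) → F i)),
        Function.Injective f ∧ ∀ x, {i : ι | f x i ≠ 1}.Finite := by
  obtain ⟨I, N, h1, h2, h3, h4⟩ := h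
  have := h1
  have := h2
  refine ⟨I, fun i => Γ ⧸ N i, fun i => inferInstance, fun i => inferInstance,
    { toFun := fun x i => QuotientGroup.mk x
      map_one' := rfl
      map_mul' := fun x y => rfl }, ?_, ?_⟩
  · rw [injective_iff_map_eq_one]
    intro x hx
    apply h4
    intro i
    have := congrFun hx i
    exact (QuotientGroup.eq_one_iff x).mp this
  · intro x
    refine (h3 x).subset ?_
    intro i hi hx
    exact hi ((QuotientGroup.eq_one_iff x).mpr hx)

/-- P. Hall: countable, locally normal, residually finite -/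
theorem SDF.of_countable {Γ : Type} [Group Γ] [Countable Γ]
    (hLF : ∀ x : Γ, ∃ N : Subgroup Γ, N.Normal ∧ (N : Set Γ).Finite ∧ x ∈ N)
    (hRF : ∀ x : Γ, x ≠ 1 → ∃ N : Subgroup Γ, N.Normal ∧ N.FiniteIndex ∧ x ∉ N) : SDF Γ := by
  classical
  obtain ⟨e, he⟩ := exists_surjective_nat Γ
  -- finite normal subgroups
  have hex : ∀ s : ℕ, ((Subgroup.normalClosure (e '' {k | k ≤ s}) : Subgroup Γ) : Set Γ).Finite := by
    intro s
    induction s with
    | zero =>
      obtain ⟨N, hN1, hN2, hN3⟩ := hLF (e 0)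
      refine hN2.subset ?_
      apply Subgroup.normalClosure_le_normal
      rintro _ ⟨k, hk, rfl⟩
      have : k = 0 := by simpa using hk
      subst this
      exact hN3
    | succ s ih =>
      obtain ⟨N, hN1, hN2, hN3⟩ := hLF (e (s+1))
      have hfin : (((Subgroup.normalClosure (e '' {k | k ≤ s}) ⊔ N : Subgroup Γ)) : Set Γ).Finite := by
        rw [Subgroup.mul_normal]
        exact ih.mul hN2
      refine hfin.subset ?_
      apply Subgroup.normalClosure_le_normal
      rintro _ ⟨k, hk, rfl⟩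
      have hk' : k ≤ s + 1 := hk
      rcases Nat.lt_or_ge s k with h | h
      · have : k = s + 1 := by omega
        subst this
        exact Subgroup.mem_sup_right hN3
      · exact Subgroup.mem_sup_left (Subgroup.subset_normalClosure ⟨k, h, rfl⟩)
  set D : ℕ → Subgroup Γ := fun s => Subgroup.normalClosure (e '' {k | k ≤ s}) with hD
  have hDmono : Monotone D := by
    intro a b hab
    apply Subgroup.normalClosure_mono
    apply Set.image_mono
    intro k hk
    exact le_trans hk hab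
  have hDe : ∀ n m, n ≤ m → e n ∈ D m := by
    intro n m hnm
    exact Subgroup.subset_normalClosure ⟨n, hnm, rfl⟩
  -- complements
  have hN : ∀ n, ∃ N : Subgroup Γ, N.Normal ∧ N.FiniteIndex ∧ ∀ x ∈ D n, x ∈ N → x = 1 := by
    intro n
    have : ∀ x : Γ, ∃ N : Subgroup Γ, N.Normal ∧ N.FiniteIndex ∧ (x ≠ 1 → x ∉ N) := by
      intro x
      by_cases hx : x = 1
      · exact ⟨⊤, inferInstance, inferInstance, fun h => absurd hx h⟩
      · obtain ⟨N, h1, h2, h3⟩ := hRF x hx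
        exact ⟨N, h1, h2, fun _ => h3⟩
    choose M hM1 hM2 hM3 using this
    have : Finite (D n) := (hex n).to_subtype
    refine ⟨⨅ x : D n, M x, ?_, ?_, ?_⟩
    · have := hM1
      exact Subgroup.normal_iInf_normal (fun x => hM1 _)
    · have := hM2
      exact Subgroup.finiteIndex_iInf (fun x => hM2 _)
    · intro x hx hxN
      by_contra hne
      have := (Subgroup.mem_iInf.mp hxN) ⟨x, hx⟩
      exact hM3 x hne this
  choose N hN1 hN2 hN3 using hN
  let L : ℕ → Subgroup Γ := fun n => match n with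
    | 0 => N 0
    | (n+1) => D n ⊔ N (n+1)
  refine ⟨ℕ, L, ?_, ?_, ?_, ?_⟩
  · intro n
    cases n with
    | zero => exact hN1 0
    | succ n =>
      have := hN1 (n+1)
      show (D n ⊔ N (n+1)).Normal
      have : (D n).Normal := Subgroup.normalClosure_normal
      infer_instance
  · intro n
    cases n with
    | zero => exact hN2 0
    | succ n =>
      have := hN2 (n+1)
      show (D n ⊔ N (n+1)).FiniteIndex
      exact Subgroup.finiteIndex_of_le (le_sup_right : N (n+1) ≤ _)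
  · intro x
    obtain ⟨m, rfl⟩ := he x
    refine (Set.finite_Iic m).subset ?_
    intro n hn
    by_contra hlt
    apply hn
    simp only [Set.mem_Iic, not_le] at hlt
    obtain ⟨k, rfl⟩ : ∃ k, n = k + 1 := ⟨n - 1, by omega⟩
    exact Subgroup.mem_sup_left (hDe m k (by omega))
  · intro x hx
    by_contra hne
    obtain ⟨m, rfl⟩ := he x
    have hex2 : ∃ k, e m ∈ D k := ⟨m, hDe m m le_rfl⟩
    classical
    have hspec := Nat.find_spec hex2
    have hmin := fun k => Nat.find_min hex2 (m := k)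
    set k := Nat.find hex2 with hk
    rcases Nat.eq_zero_or_pos k with h0 | hpos
    · have h1 := hx 0
      rw [h0] at hspec
      exact hne (hN3 0 _ hspec h1)
    · obtain ⟨j, hj⟩ : ∃ j, k = j + 1 := ⟨k - 1, by omega⟩
      have h1 : e m ∈ D j ⊔ N (j+1) := hx (j+1)
      have := hN1 (j+1)
      rw [Subgroup.mem_sup_of_normal_right] at h1
      obtain ⟨d, hd, y, hy, hdy⟩ := h1
      have hyD : y ∈ D (j+1) := by
        have : y = d⁻¹ * e m := by rw [← hdy]; group
        rw [this]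
        exact mul_mem (inv_mem (hDmono (Nat.le_succ j) hd)) (hj ▸ hspec)
      have hy1 := hN3 (j+1) y hyD hy
      rw [hy1, mul_one] at hdy
      apply hmin j (by omega)
      rw [← hdy]
      exact hd


section chain

variable {Γ ι : Type} [Group Γ] [LinearOrder ι] [WellFoundedLT ι]
  (Q : ι → Subgroup Γ) (ρ : ι → Γ → Γ)

/-- `Tr Q ρ i x y` : the iterated retraction of `x` into `Q i` is `y` -/
inductive Tr (i : ι) : Γ → Γ → Prop
  | base (x : Γ) : x ∈ Q i → Tr i x x
  | step (b : ι) (x y : Γ) : i < b → x ∈ Q b → Tr i (ρ b x) y → Tr i x y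

variable {Q ρ}

theorem Tr.mem {i : ι} {x y : Γ} (h : Tr Q ρ i x y) : y ∈ Q i := by
  induction h with
  | base x hx => exact hx
  | step b x y _ _ _ ih => exact ih

/-- the hypotheses on the chain -/
structure Chain (Q : ι → Subgroup Γ) (ρ : ι → Γ → Γ) : Prop where
  mono : ∀ i j, i ≤ j → Q i ≤ Q j
  range : ∀ i, ∀ x ∈ Q i, ρ i x = 1 ∨ ∃ j < i, ρ i x ∈ Q j
  fix : ∀ i x, (∃ j < i, x ∈ Q j) → ρ i x = x
  mul : ∀ i, ∀ x ∈ Q i, ∀ y ∈ Q i, ρ i (x * y) = ρ i x * ρ i y

theorem Chain.one (hc : Chain Q ρ) (i : ι) : ρ i 1 = 1 := by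
  have := hc.mul i 1 (one_mem _) 1 (one_mem _)
  rw [mul_one] at this
  exact left_eq_mul.mp this

theorem Chain.inv (hc : Chain Q ρ) (i : ι) {x : Γ} (hx : x ∈ Q i) : ρ i x⁻¹ = (ρ i x)⁻¹ := by
  have := hc.mul i x hx x⁻¹ (inv_mem hx)
  rw [mul_inv_cancel, hc.one] at this
  exact (inv_eq_of_mul_eq_one_right this.symm).symm

theorem Tr.base_eq (hc : Chain Q ρ) {i : ι} {x y : Γ} (h : Tr Q ρ i x y) (hx : x ∈ Q i) :
    y = x := by
  induction h with
  | base x _ => rfl
  | step b x y hb _ _ ih =>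
    have := hc.fix b x ⟨i, hb, hx⟩
    rw [this] at ih
    exact ih hx

theorem Tr.red (hc : Chain Q ρ) {i : ι} {x y : Γ} (h : Tr Q ρ i x y) :
    ∀ b, i < b → x ∈ Q b → Tr Q ρ i (ρ b x) y := by
  induction h with
  | base x hx =>
    intro b hb _
    rw [hc.fix b x ⟨i, hb, hx⟩]
    exact Tr.base x hx
  | step b' x y hb' hxb' h ih =>
    intro b hb hxb
    rcases lt_trichotomy b' b with hlt | heq | hgt
    · rw [hc.fix b x ⟨b', hlt, hxb'⟩]
      exact Tr.step b' x y hb' hxb' h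
    · subst heq
      exact h
    · have h2 := hc.fix b' x ⟨b, hgt, hxb⟩
      rw [h2] at ih
      exact ih b hb hxb

theorem Tr.total (hc : Chain Q ρ) (i : ι) : ∀ b x, x ∈ Q b → ∃ y, Tr Q ρ i x y := by
  intro b
  induction b using WellFoundedLT.induction with
  | ind b ih =>
    intro x hx
    rcases le_or_gt b i with h | h
    · exact ⟨x, Tr.base x (hc.mono _ _ h hx)⟩
    · rcases hc.range b x hx with h1 | ⟨j, hj, hxj⟩
      · refine ⟨1, Tr.step b x 1 h hx ?_⟩
        rw [h1]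
        exact Tr.base 1 (one_mem _)
      · obtain ⟨y, hy⟩ := ih j hj _ hxj
        exact ⟨y, Tr.step b x y h hx hy⟩

theorem Tr.uniq (hc : Chain Q ρ) (i : ι) : ∀ b x y y', x ∈ Q b → Tr Q ρ i x y → Tr Q ρ i x y' →
    y = y' := by
  intro b
  induction b using WellFoundedLT.induction with
  | ind b ih =>
    intro x y y' hx h h'
    rcases le_or_gt b i with hbi | hbi
    · have hxi := hc.mono _ _ hbi hx
      rw [h.base_eq hc hxi, h'.base_eq hc hxi]
    · have h1 := h.red hc b hbi hx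
      have h2 := h'.red hc b hbi hx
      rcases hc.range b x hx with h3 | ⟨j, hj, hxj⟩
      · rw [h3] at h1 h2
        rw [h1.base_eq hc (one_mem _), h2.base_eq hc (one_mem _)]
      · exact ih j hj _ y y' hxj h1 h2

theorem Tr.mul (hc : Chain Q ρ) (i : ι) : ∀ b x x' y y', x ∈ Q b → x' ∈ Q b →
    Tr Q ρ i x y → Tr Q ρ i x' y' → Tr Q ρ i (x * x') (y * y') := by
  intro b
  induction b using WellFoundedLT.induction with
  | ind b ih =>
    intro x x' y y' hx hx' h h'
    rcases le_or_gt b i with hbi | hbi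
    · have hxi := hc.mono _ _ hbi hx
      have hxi' := hc.mono _ _ hbi hx'
      rw [h.base_eq hc hxi, h'.base_eq hc hxi']
      exact Tr.base _ (mul_mem hxi hxi')
    · have h1 := h.red hc b hbi hx
      have h2 := h'.red hc b hbi hx'
      refine Tr.step b _ _ hbi (mul_mem hx hx') ?_
      rw [hc.mul b x hx x' hx']
      rcases hc.range b x hx with h3 | ⟨j, hj, hxj⟩
      · have hy : y = 1 := by
          rw [h3] at h1
          exact h1.base_eq hc (one_mem _)
        rw [hy, h3, one_mul, one_mul]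
        exact h2
      · rcases hc.range b x' hx' with h3' | ⟨j', hj', hxj'⟩
        · have hy : y' = 1 := by
            rw [h3'] at h2
            exact h2.base_eq hc (one_mem _)
          rw [hy, h3', mul_one, mul_one]
          exact h1
        · refine ih (max j j') (max_lt hj hj') _ _ _ _ (hc.mono _ _ (le_max_left _ _) hxj)
            (hc.mono _ _ (le_max_right _ _) hxj') h1 h2

theorem Tr.finite (hc : Chain Q ρ) : ∀ b x, x ∈ Q b →
    {i | ∃ y, Tr Q ρ i x y ∧ ¬ (y = 1 ∨ ∃ j < i, y ∈ Q j)}.Finite := by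
  intro b
  induction b using WellFoundedLT.induction with
  | ind b ih =>
    intro x hx
    have key : {i | ∃ y, Tr Q ρ i x y ∧ ¬ (y = 1 ∨ ∃ j < i, y ∈ Q j)} ⊆
        {b} ∪ {i | ∃ y, Tr Q ρ i (ρ b x) y ∧ ¬ (y = 1 ∨ ∃ j < i, y ∈ Q j)} := by
      rintro i ⟨y, hy, hn⟩
      rcases lt_trichotomy i b with h | h | h
      · right
        exact ⟨y, hy.red hc b h hx, hn⟩
      · left
        exact h
      · exfalso
        apply hn
        right
        refine ⟨b, h, ?_⟩
        rw [hy.base_eq hc (hc.mono _ _ h.le hx)]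
        exact hx
    refine Set.Finite.subset ((Set.finite_singleton b).union ?_) key
    rcases hc.range b x hx with h1 | ⟨j, hj, hxj⟩
    · rw [h1]
      refine Set.Finite.subset Set.finite_empty ?_
      rintro i ⟨y, hy, hn⟩
      exact (hn (Or.inl (hy.base_eq hc (one_mem _)))).elim
    · exact ih j hj _ hxj

theorem SDF.of_chain (hc : Chain Q ρ) (P : Subgroup Γ) (hP : ∀ x, x ∈ P ↔ ∃ i, x ∈ Q i)
    (hn : ∀ i, (Q i).Normal) (hS : ∀ i, SDF (Q i)) : SDF P := by
  classical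
  -- projections
  have hex : ∀ (i : ι) (x : P), ∃ y, Tr Q ρ i x.1 y := by
    intro i x
    obtain ⟨b, hb⟩ := (hP x.1).mp x.2
    exact Tr.total hc i b x.1 hb
  choose f hf using hex
  have hcommon : ∀ x y : P, ∃ b, x.1 ∈ Q b ∧ y.1 ∈ Q b := by
    intro x y
    obtain ⟨b, hb⟩ := (hP x.1).mp x.2
    obtain ⟨c, hcc⟩ := (hP y.1).mp y.2
    exact ⟨max b c, hc.mono _ _ (le_max_left _ _) hb, hc.mono _ _ (le_max_right _ _) hcc⟩
  have hfmul : ∀ i x y, f i (x * y) = f i x * f i y := by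
    intro i x y
    obtain ⟨b, hx, hy⟩ := hcommon x y
    exact Tr.uniq hc i b (x.1 * y.1) _ _ (mul_mem hx hy) (hf i (x * y))
      (Tr.mul hc i b _ _ _ _ hx hy (hf i x) (hf i y))
  let π : ∀ i, P →* Q i := fun i => MonoidHom.mk' (fun x => ⟨f i x, (hf i x).mem⟩) (by
    intro x y
    apply Subtype.ext
    exact hfmul i x y)
  -- complementary projection
  have hρmem : ∀ i, ∀ x ∈ Q i, ρ i x ∈ Q i := by
    intro i x hx
    rcases hc.range i x hx with h | ⟨j, hj, h⟩
    · rw [h]; exact one_mem _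
    · exact hc.mono _ _ hj.le h
  have hρρ : ∀ i, ∀ x ∈ Q i, ρ i (ρ i x) = ρ i x := by
    intro i x hx
    rcases hc.range i x hx with h | ⟨j, hj, h⟩
    · rw [h, hc.one]
    · exact hc.fix i _ ⟨j, hj, h⟩
  -- range of ρ i is normal
  have hρnorm : ∀ i, ∀ x ∈ Q i, ∀ y, ρ i (y * ρ i x * y⁻¹) = y * ρ i x * y⁻¹ := by
    intro i x hx y
    rcases hc.range i x hx with h | ⟨j, hj, h⟩
    · rw [h]; simp [hc.one]
    · exact hc.fix i _ ⟨j, hj, (hn j).conj_mem _ h y⟩
  have hcomm : ∀ i, ∀ x ∈ Q i, ∀ y ∈ Q i,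
      (x * (ρ i x)⁻¹) * ρ i y = ρ i y * (x * (ρ i x)⁻¹) := by
    intro i x hx y hy
    -- commutator lies in both
    have hρx := hρmem i x hx
    have hρy := hρmem i y hy
    set u := x * (ρ i x)⁻¹ with hu
    have huQ : u ∈ Q i := mul_mem hx (inv_mem hρx)
    have hu1 : ρ i u = 1 := by
      rw [hu, hc.mul i x hx _ (inv_mem hρx), hc.inv i hρx, hρρ i x hx, mul_inv_cancel]
    have h1 := hρnorm i y hy u
    rw [hc.mul i _ (mul_mem huQ hρy) _ (inv_mem huQ), hc.mul i _ huQ _ hρy, hc.inv i huQ, hu1,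
      hρρ i y hy] at h1
    rw [one_mul, inv_one, mul_one] at h1
    calc u * ρ i y = (u * ρ i y * u⁻¹) * u := by group
      _ = ρ i y * u := by rw [← h1]
  let ν : ∀ i, Q i →* Q i := fun i => MonoidHom.mk' (fun x => ⟨x.1 * (ρ i x.1)⁻¹,
      mul_mem x.2 (inv_mem (hρmem i _ x.2))⟩) (by
    intro x y
    apply Subtype.ext
    show (x.1 * y.1) * (ρ i (x.1 * y.1))⁻¹ = (x.1 * (ρ i x.1)⁻¹) * (y.1 * (ρ i y.1)⁻¹)
    rw [hc.mul i _ x.2 _ y.2, mul_inv_rev]
    have h1 := hcomm i y.1 y.2 x.1⁻¹ (inv_mem x.2)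
    rw [hc.inv i x.2] at h1
    calc (x.1 * y.1) * ((ρ i y.1)⁻¹ * (ρ i x.1)⁻¹) = x.1 * ((y.1 * (ρ i y.1)⁻¹) * (ρ i x.1)⁻¹) := by
          group
      _ = x.1 * ((ρ i x.1)⁻¹ * (y.1 * (ρ i y.1)⁻¹)) := by rw [h1]
      _ = _ := by group)
  choose I N h1 h2 h3 h4 using hS
  have hνker : ∀ i (x : Q i), (x.1 = 1 ∨ ∃ j < i, x.1 ∈ Q j) ↔ ν i x = 1 := by
    intro i x
    constructor
    · intro h
      apply Subtype.ext
      show x.1 * (ρ i x.1)⁻¹ = 1
      rcases h with h | h
      · rw [h]; simp [hc.one]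
      · rw [hc.fix i _ h]; simp
    · intro h
      have h' : x.1 * (ρ i x.1)⁻¹ = 1 := congrArg Subtype.val h
      have h'' : x.1 = ρ i x.1 := by
        rwa [mul_inv_eq_one] at h'
      rcases hc.range i x.1 x.2 with h5 | h5
      · left; rw [h'', h5]
      · right; rw [h'']; exact h5
  refine ⟨Σ i, I i, fun p => (N p.1 p.2).comap ((ν p.1).comp (π p.1)), fun p => ?_, fun p => ?_,
    fun x => ?_, fun x hx => ?_⟩
  · exact (h1 p.1 p.2).comap _
  · exact fi_comap _ _ (h2 p.1 p.2)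
  · obtain ⟨b, hb⟩ := (hP x.1).mp x.2
    have hfin := Tr.finite hc b x.1 hb
    have : {p : Σ i, I i | x ∉ (N p.1 p.2).comap ((ν p.1).comp (π p.1))} ⊆
        ⋃ i ∈ {i | ∃ y, Tr Q ρ i x.1 y ∧ ¬ (y = 1 ∨ ∃ j < i, y ∈ Q j)},
          (fun l => (⟨i, l⟩ : Σ i, I i)) '' {l | ν i (π i x) ∉ N i l} := by
      rintro ⟨i, l⟩ hp
      simp only [Set.mem_iUnion]
      refine ⟨i, ⟨f i x, hf i x, ?_⟩, ⟨l, hp, rfl⟩⟩
      intro hcon
      apply hp
      show ν i (π i x) ∈ N i l
      have : ν i (π i x) = 1 := (hνker i (π i x)).mp hcon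
      rw [this]
      exact one_mem _
    refine Set.Finite.subset (Set.Finite.biUnion hfin ?_) this
    intro i _
    exact (h3 i (ν i (π i x))).image _
  · by_contra hne
    obtain ⟨b, hb⟩ := (hP x.1).mp x.2
    have hne' : {i | x.1 ∈ Q i}.Nonempty := ⟨b, hb⟩
    obtain ⟨i, himem, himin'⟩ := (wellFounded_lt (α := ι)).has_min {i | x.1 ∈ Q i} hne'
    have himem : x.1 ∈ Q i := himem
    have himin : ∀ j < i, x.1 ∉ Q j := fun j hj hm => himin' j hm hj
    have hπ : π i x = ⟨x.1, himem⟩ := by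
      apply Subtype.ext
      exact (hf i x).base_eq hc himem
    have h5 : ν i (π i x) = 1 := h4 i _ (fun l => hx ⟨i, l⟩)
    rw [hπ, ← hνker] at h5
    rcases h5 with h5 | ⟨j, hj, h5⟩
    · exact hne (Subtype.ext h5)
    · exact himin j hj h5

end chain

section card

open Cardinal

theorem SDF.of_system1 {Γ Ω : Type} [Group Γ] (F : Finset Ω → Set Ω) (hF : ∀ s, (F s).Countable)
    (P : Set Ω → Subgroup Γ)
    (hn : ∀ C, Closed F C → (P C).Normal)
    (hmono : ∀ C C', C ⊆ C' → P C ≤ P C')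
    (hfin : ∀ C, Closed F C → ∀ x ∈ P C, ∃ s : Finset Ω, ↑s ⊆ C ∧
      ∀ C', Closed F C' → ↑s ⊆ C' → x ∈ P C')
    (hρ : ∀ C C', Closed F C → Closed F C' → C ⊆ C' → C'.Countable →
      ∃ ρ : Γ → Γ, (∀ x ∈ P C', ∀ y ∈ P C', ρ (x * y) = ρ x * ρ y) ∧ (∀ x ∈ P C', ρ x ∈ P C) ∧
        ∀ x ∈ P C, ρ x = x)
    (hbase : ∀ C, Closed F C → C.Countable → SDF (P C)) :
    ∀ C, Closed F C → #C ≤ ℵ_ 1 → SDF (P C) := by
  classical
  intro C hC hκ
  rcases le_or_gt #C ℵ₀ with hle | hgt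
  · apply hbase C hC
    rw [← le_aleph0_iff_set_countable]
    exact hle
  · obtain ⟨_, _, hord⟩ := exists_ord_eq_type_lt C
    let D : C → Set Ω := fun i => cl F (Subtype.val '' Set.Iic i)
    have hDclosed : ∀ i, Closed F (D i) := fun i => cl_closed _
    have hDC : ∀ i, D i ⊆ C := fun i => cl_min hC (by rintro _ ⟨x, _, rfl⟩; exact x.2)
    have hDmem : ∀ i : C, i.1 ∈ D i := fun i => subset_cl _ ⟨i, le_refl i, rfl⟩
    have hDmono : ∀ i j, i ≤ j → D i ⊆ D j := by
      intro i j hij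
      apply cl_min (hDclosed j)
      refine subset_trans (Set.image_mono ?_) (subset_cl _)
      exact Set.Iic_subset_Iic.mpr hij
    have hDcard : ∀ i, (D i).Countable := by
      intro i
      rw [← le_aleph0_iff_set_countable]
      refine (mk_cl_le hF _).trans ?_
      apply max_le le_rfl
      refine (mk_image_le).trans ?_
      have h1 : #(Set.Iic i) < ℵ_ 1 := lt_of_lt_of_le (mk_Iic_lt i hord hgt.le) hκ
      rw [← Order.lt_succ_iff, succ_aleph0]
      exact h1
    -- union of the smaller ones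
    have hQ' : ∀ i : C, (∃ j, j < i) → ∃ E, Closed F E ∧ E ⊆ D i ∧
        ∀ x, x ∈ P E ↔ ∃ j < i, x ∈ P (D j) := by
      rintro i ⟨j0, hj0⟩
      have hcl : Closed F (⋃ j : {j // j < i}, D j) := by
        intro s hs
        have : ∃ j : {j // j < i}, ↑s ⊆ D j := by
          have hdir : Directed (· ⊆ ·) (fun j : {j // j < i} => D j) := by
            intro a b
            refine ⟨⟨max a.1 b.1, max_lt a.2 b.2⟩, hDmono _ _ (le_max_left _ _),
              hDmono _ _ (le_max_right _ _)⟩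
          have : Nonempty {j // j < i} := ⟨⟨j0, hj0⟩⟩
          exact hdir.exists_mem_subset_of_finset_subset_biUnion hs
        obtain ⟨j, hj⟩ := this
        exact (hDclosed j s hj).trans (Set.subset_iUnion (fun j : {j // j < i} => D j) j)
      refine ⟨_, hcl, Set.iUnion_subset fun j => hDmono _ _ j.2.le,
        fun x => ⟨fun hx => ?_, fun ⟨j, hj, hx⟩ => ?_⟩⟩
      · obtain ⟨s, hs, hs'⟩ := hfin _ hcl x hx
        have : ∃ j : {j // j < i}, ↑s ⊆ D j := by
          have hdir : Directed (· ⊆ ·) (fun j : {j // j < i} => D j) := by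
            intro a b
            refine ⟨⟨max a.1 b.1, max_lt a.2 b.2⟩, hDmono _ _ (le_max_left _ _),
              hDmono _ _ (le_max_right _ _)⟩
          have : Nonempty {j // j < i} := ⟨⟨j0, hj0⟩⟩
          exact hdir.exists_mem_subset_of_finset_subset_biUnion hs
        obtain ⟨j, hj⟩ := this
        exact ⟨j.1, j.2, hs' _ (hDclosed _) hj⟩
      · exact hmono _ _ (Set.subset_iUnion (fun j : {j // j < i} => D j) ⟨j, hj⟩) hx
    have hρ' : ∀ i : C, ∃ ρ : Γ → Γ, (∀ x ∈ P (D i), ρ x = 1 ∨ ∃ j < i, ρ x ∈ P (D j)) ∧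
        (∀ x, (∃ j < i, x ∈ P (D j)) → ρ x = x) ∧
        ∀ x ∈ P (D i), ∀ y ∈ P (D i), ρ (x * y) = ρ x * ρ y := by
      intro i
      by_cases hi : ∃ j, j < i
      · obtain ⟨E, hE, hEi, hE'⟩ := hQ' i hi
        obtain ⟨ρ, h0, h1, h2⟩ := hρ E (D i) hE (hDclosed i) hEi (hDcard i)
        exact ⟨ρ, fun x hx => Or.inr ((hE' _).mp (h1 x hx)), fun x hx => h2 x ((hE' _).mpr hx), h0⟩
      · refine ⟨fun _ => 1, fun x _ => Or.inl rfl, fun x hx => ?_, fun x _ y _ => (mul_one _).symm⟩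
        obtain ⟨j, hj, _⟩ := hx
        exact absurd ⟨j, hj⟩ hi
    choose ρ hρ1 hρ2 hρ3 using hρ'
    have hc : Chain (fun i => P (D i)) ρ :=
      { mono := fun i j hij => hmono _ _ (hDmono i j hij)
        range := hρ1
        fix := hρ2
        mul := hρ3 }
    refine SDF.of_chain hc (P C) ?_ (fun i => hn _ (hDclosed i))
      (fun i => hbase _ (hDclosed i) (hDcard i))
    intro x
    constructor
    · intro hx
      obtain ⟨s, hs, hs'⟩ := hfin C hC x hx
      have : ∃ j : C, ↑s ⊆ D j := by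
        have hdir : Directed (· ⊆ ·) D := by
          intro a b
          exact ⟨max a b, hDmono _ _ (le_max_left _ _), hDmono _ _ (le_max_right _ _)⟩
        have : Nonempty C := by
          rw [← mk_ne_zero_iff]
          exact (aleph0_pos.trans hgt).ne'
        have hsub : (s : Set Ω) ⊆ ⋃ j, D j := by
          intro y hy
          exact Set.mem_iUnion.mpr ⟨⟨y, hs hy⟩, hDmem _⟩
        exact hdir.exists_mem_subset_of_finset_subset_biUnion hsub
      obtain ⟨j, hj⟩ := this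
      exact ⟨j, hs' _ (hDclosed j) hj⟩
    · rintro ⟨i, hi⟩
      exact hmono _ _ (hDC i) hi

end card

section req

variable {G : Type} [Group G]

/-- residually (finite derived subgroup) -/
def ResX (G : Type) [Group G] : Prop :=
  ∀ g : G, g ≠ 1 → ∃ (N : Subgroup G) (_ : N.Normal), g ∉ N ∧
    ((commutator (G ⧸ N) : Subgroup (G ⧸ N)) : Set (G ⧸ N)).Finite

theorem ResX.one (hR : ResX G) (g : G) (hg : g ≠ 1) : ∃ (N : Subgroup G) (m : ℕ), N.Normal ∧ 0 < m ∧
    g ∉ N ∧ ∀ v ∈ commutator G, v ^ m ∈ N := by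
  obtain ⟨N, hN, hgN, hfin⟩ := hR g hg
  have := hfin.to_subtype
  have : Finite (commutator (G ⧸ N)) := this
  refine ⟨N, Nat.card (commutator (G ⧸ N)), hN, Nat.card_pos, hgN, fun v hv => ?_⟩
  have h1 : (QuotientGroup.mk' N) v ∈ commutator (G ⧸ N) := by
    have h2 : (commutator G).map (QuotientGroup.mk' N) ≤ commutator (G ⧸ N) := by
      rw [commutator_def, Subgroup.map_commutator, commutator_def]
      exact Subgroup.commutator_mono le_top le_top
    exact h2 (Subgroup.mem_map_of_mem _ hv)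
  have h3 : (⟨_, h1⟩ : commutator (G ⧸ N)) ^ Nat.card (commutator (G ⧸ N)) = 1 := pow_card_eq_one'
  have h4 : ((QuotientGroup.mk' N) v) ^ Nat.card (commutator (G ⧸ N)) = 1 :=
    congrArg Subtype.val h3
  rw [← map_pow] at h4
  exact (QuotientGroup.eq_one_iff _).1 h4

theorem ResX.fin (hR : ResX G) (U : Set G) (hU : U.Finite) : ∃ (N : Subgroup G) (m : ℕ), N.Normal ∧
    0 < m ∧ (∀ u ∈ U, u ∈ N → u = 1) ∧ ∀ v ∈ commutator G, v ^ m ∈ N := by
  induction U, hU using Set.Finite.induction_on with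
  | empty => exact ⟨⊤, 1, inferInstance, Nat.one_pos, by simp, fun _ _ => Subgroup.mem_top _⟩
  | @insert u U _ _ ih =>
    obtain ⟨N, m, h1, h2, h3, h4⟩ := ih
    by_cases hu : u = 1
    · refine ⟨N, m, h1, h2, ?_, h4⟩
      rintro w (rfl | hw) hwN
      · exact hu
      · exact h3 w hw hwN
    · obtain ⟨N', m', h1', h2', h3', h4'⟩ := hR.one u hu
      refine ⟨N ⊓ N', m * m', inferInstance, Nat.mul_pos h2 h2', ?_, fun v hv => ⟨?_, ?_⟩⟩
      · rintro w (rfl | hw) hwN
        · exact absurd hwN.2 h3'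
        · exact h3 w hw hwN.1
      · show v ^ (m * m') ∈ N
        rw [pow_mul]
        exact N.pow_mem (h4 v hv) _
      · show v ^ (m * m') ∈ N'
        rw [mul_comm, pow_mul]
        exact N'.pow_mem (h4' v hv) _

/-- group elements in a finite set of labels -/
def US (s : Finset (Om G)) : Set G := {g : G | (Sum.inl g : Om G) ∈ s}

theorem US_finite (s : Finset (Om G)) : (US s).Finite :=
  (s.finite_toSet).preimage (f := (Sum.inl : G → Om G)) Sum.inl_injective.injOn

theorem ResX.exN (hR : ResX G) (U : Set G) (hU : U.Finite) : ∃ (N : Subgroup G), N.Normal ∧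
    (∀ u ∈ U, ∀ v ∈ U, u⁻¹ * v ∈ N → u = v) ∧ ∃ m : ℕ, 0 < m ∧
      ∀ v ∈ commutator G, v ^ m ∈ N := by
  obtain ⟨N, m, h1, h2, h3, h4⟩ := hR.fin (Set.image2 (fun u v => u⁻¹ * v) U U)
    (hU.image2 _ hU)
  refine ⟨N, h1, fun u hu v hv huv => ?_, m, h2, h4⟩
  have := h3 _ ⟨u, hu, v, hv, rfl⟩ huv
  exact (inv_mul_eq_one.1 this)

open Classical in
/-- the chosen subgroup -/
noncomputable def NN (hR : ResX G) (U : Set G) : Subgroup G :=
  if h : U.Finite then (hR.exN U h).choose else ⊥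

theorem NN_spec (hR : ResX G) (U : Set G) (hU : U.Finite) : (NN hR U).Normal ∧
    (∀ u ∈ U, ∀ v ∈ U, u⁻¹ * v ∈ NN hR U → u = v) ∧ ∃ m : ℕ, 0 < m ∧
      ∀ v ∈ commutator G, v ^ m ∈ NN hR U := by
  have : NN hR U = (hR.exN U hU).choose := dif_pos hU
  rw [this]
  exact (hR.exN U hU).choose_spec

/-- the conditions -/
def PB (hR : ResX G) (s : Finset (Om G)) (d : MulAut G) : Option ℕ → G → G → Prop
  | some n, g, v => g⁻¹ * v ∈ US s ∧ (g⁻¹ * v) ^ n = dl d g
  | none, g, v => g⁻¹ * v ∈ US s ∧ (dl d g)⁻¹ * (g⁻¹ * v) ∈ NN hR (US s)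

theorem PB.mem {hR : ResX G} {s : Finset (Om G)} {d : MulAut G} {o : Option ℕ} {g v : G}
    (h : PB hR s d o g v) : g⁻¹ * v ∈ US s := by
  cases o with
  | none => exact h.1
  | some n => exact h.1

theorem compactness' (hFC : FCG G) (R : G → G → Prop) (U : Set G) (hU : U.Finite)
    (hRU : ∀ g v, R g v → g⁻¹ * v ∈ U)
    (h : ∀ W : Finset G, ∃ x ∈ XX G, ∀ w ∈ W, R w (x w)) :
    ∃ x ∈ XX G, ∀ g, R g (x g) := by
  classical
  choose x hx hxR using h
  let V : Ultrafilter (Finset G) := Ultrafilter.of Filter.atTop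
  have hV : (V : Filter (Finset G)) ≤ Filter.atTop := Ultrafilter.of_le _
  have hval : ∀ g, ∃ v, ∀ᶠ W in (V : Filter (Finset G)), x W g = v := by
    intro g
    have hmem : (⋃ v ∈ {u | ∃ c, u = c⁻¹ * g * c}, {W | x W g = v}) ∈ V := by
      have : (⋃ v ∈ {u | ∃ c, u = c⁻¹ * g * c}, {W | x W g = v}) = Set.univ := by
        rw [Set.eq_univ_iff_forall]
        intro W
        simp only [Set.mem_iUnion]
        obtain ⟨c, hc⟩ := (hx W).1 {g}
        exact ⟨x W g, ⟨c, hc g (by simp)⟩, rfl⟩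
      rw [this]
      exact Filter.univ_mem
    rw [Ultrafilter.finite_biUnion_mem_iff (hFC.fin g)] at hmem
    obtain ⟨v, _, hv⟩ := hmem
    exact ⟨v, hv⟩
  choose φ hφ using hval
  have hLI : LI φ := by
    intro s
    have : ∀ᶠ W in (V : Filter (Finset G)), ∀ g ∈ s, x W g = φ g := by
      rw [Filter.eventually_all_finset]
      intro g _
      exact hφ g
    obtain ⟨W, hW⟩ := this.exists
    obtain ⟨c, hc⟩ := (hx W).1 s
    exact ⟨c, fun g hg => by rw [← hW g hg, hc g hg]⟩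
  obtain ⟨y, hy⟩ := li_toMulAut hFC hLI
  have hyR : ∀ g, R g (y g) := by
    intro g
    have h1 : ∀ᶠ W in (V : Filter (Finset G)), {g} ≤ W :=
      (Filter.eventually_ge_atTop {g}).filter_mono hV
    obtain ⟨W, hW1, hW2⟩ := (h1.and (hφ g)).exists
    have := hxR W g (hW1 (Finset.mem_singleton_self g))
    rw [hy, ← hW2]
    exact this
  refine ⟨y, ⟨?_, ?_⟩, hyR⟩
  · have : (y : G → G) = φ := funext hy
    rw [this]
    exact hLI
  · refine hU.subset ?_
    rintro _ ⟨g, rfl⟩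
    exact hRU g _ (hyR g)

/-- the new requirements -/
def U4 (hR : ResX G) (s : Finset (Om G)) (d : MulAut G) (o : Option ℕ) (t : Set (Om G)) : Prop :=
  (∃ e ∈ XX G, (Sum.inr e : Om G) ∈ t ∧ ∀ g, PB hR s d o g (e g)) ∨
    ∃ W : Finset G, (∀ w ∈ W, (Sum.inl w : Om G) ∈ t) ∧
      ∀ x ∈ XX G, ∃ w ∈ W, ¬ PB hR s d o w (x w)

theorem U4.mono {hR : ResX G} {s : Finset (Om G)} {d : MulAut G} {o : Option ℕ}
    {t t' : Set (Om G)} (h : t ⊆ t') (hu : U4 hR s d o t) : U4 hR s d o t' := by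
  rcases hu with ⟨e, h1, h2, h3⟩ | ⟨W, h1, h2⟩
  · exact Or.inl ⟨e, h1, h h2, h3⟩
  · exact Or.inr ⟨W, fun w hw => h (h1 w hw), h2⟩

theorem exU4 (hFC : FCG G) (hR : ResX G) (s : Finset (Om G)) (d : MulAut G) (o : Option ℕ) :
    ∃ t : Set (Om G), t.Countable ∧ U4 hR s d o t := by
  classical
  by_cases h : ∃ e ∈ XX G, ∀ g, PB hR s d o g (e g)
  · obtain ⟨e, he, he'⟩ := h
    exact ⟨{Sum.inr e}, Set.countable_singleton _, Or.inl ⟨e, he, rfl, he'⟩⟩
  · have : ∃ W : Finset G, ∀ x ∈ XX G, ∃ w ∈ W, ¬ PB hR s d o w (x w) := by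
      by_contra hcon
      push Not at hcon
      exact h (compactness' hFC (PB hR s d o) (US s) (US_finite s) (fun g v hgv => hgv.mem) hcon)
    obtain ⟨W, hW⟩ := this
    exact ⟨Sum.inl '' (W : Set G), (W.finite_toSet.image _).countable,
      Or.inr ⟨W, fun w hw => ⟨w, hw, rfl⟩, hW⟩⟩

/-- the closure operation -/
noncomputable def FF2 (hFC : FCG G) (hR : ResX G) (s : Finset (Om G)) : Set (Om G) :=
  FF hFC s ∪ ⋃ d ∈ {d : MulAut G | (Sum.inr d : Om G) ∈ s}, ⋃ o : Option ℕ,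
    (exU4 hFC hR s d o).choose

theorem FF2_countable (hFC : FCG G) (hR : ResX G) (s : Finset (Om G)) :
    (FF2 hFC hR s).Countable := by
  refine (FF_countable hFC s).union ?_
  have hfin : {d : MulAut G | (Sum.inr d : Om G) ∈ s}.Finite :=
    (s.finite_toSet).preimage (f := (Sum.inr : MulAut G → Om G)) Sum.inr_injective.injOn
  exact hfin.countable.biUnion fun d _ =>
    Set.countable_iUnion fun o => (exU4 hFC hR s d o).choose_spec.1

theorem closed_FF {hFC : FCG G} {hR : ResX G} {C : Set (Om G)} (hC : Closed (FF2 hFC hR) C) :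
    Closed (FF hFC) C := fun s hs => (Set.subset_union_left).trans (hC s hs)

theorem c_U4 {hFC : FCG G} {hR : ResX G} {C : Set (Om G)} (hC : Closed (FF2 hFC hR) C)
    {s : Finset (Om G)} (hs : ↑s ⊆ C) {d : MulAut G} (hd : (Sum.inr d : Om G) ∈ s)
    (o : Option ℕ) : U4 hR s d o C := by
  refine (exU4 hFC hR s d o).choose_spec.2.mono ?_
  refine subset_trans ?_ (hC s hs)
  intro x hx
  refine Or.inr ?_
  simp only [Set.mem_iUnion]
  exact ⟨d, hd, o, hx⟩

end req

section base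

variable {G : Type} [Group G]

theorem perm_hom (S : Set G) (hS : ∀ y ∈ XX G, ∀ h, y h ∈ S ↔ h ∈ S) :
    ∃ φ : XX G →* Equiv.Perm S, ∀ (y : XX G) (h : S), (φ y h : G) = y.1 h := by
  refine ⟨MonoidHom.mk' (fun y => Equiv.Perm.subtypePerm y.1.toEquiv (fun h => hS y.1 y.2 h)) ?_, ?_⟩
  · intro y z
    ext h
    rfl
  · intro y h
    rfl

theorem XX_tors (hFC : FCG G) (x : XX G) : ∃ n : ℕ, 0 < n ∧ x ^ n = 1 := by
  classical
  set R : Subgroup G := Subgroup.normalClosure (Set.range (dl x.1)) with hR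
  have hRn : R.Normal := Subgroup.normalClosure_normal
  have hRf : (R : Set G).Finite := hFC.nc_comm_finite _ x.2.2 (by
    rintro _ ⟨g, rfl⟩
    exact x.2.1.dl_comm g)
  have hfin : Finite R := hRf.to_subtype
  have hfin' : Finite (R : Set G) := hRf.to_subtype
  obtain ⟨φ, hφ⟩ := perm_hom (R : Set G) (fun y hy h => by
    constructor
    · intro h1
      have h2 := ((inv_mem hy : y⁻¹ ∈ XX G)).1.normal hRn h1
      rwa [MulAut.inv_apply_self] at h2
    · intro h1
      exact hy.1.normal hRn h1)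
  set k := Nat.card (Equiv.Perm (R : Set G)) with hk
  have hk0 : 0 < k := Nat.card_pos
  set y : XX G := x ^ k with hy
  have hyR : ∀ r ∈ R, y.1 r = r := by
    intro r hr
    have h1 : φ y = 1 := by rw [hy, map_pow, hk, pow_card_eq_one']
    have h2 := hφ y ⟨r, hr⟩
    rw [h1] at h2
    exact h2.symm
  have hdl : ∀ i : ℕ, ∀ g, dl (x ^ i : XX G).1 g ∈ R := by
    intro i
    induction i with
    | zero =>
      intro g
      have : dl ((x ^ 0 : XX G)).1 g = 1 := by
        rw [pow_zero]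
        show g⁻¹ * (1 : MulAut G) g = 1
        simp
      rw [this]
      exact one_mem _
    | succ i ih =>
      intro g
      have h1 : ((x ^ (i + 1) : XX G)).1 = (x ^ i : XX G).1 * x.1 := by
        rw [pow_succ]; rfl
      rw [h1, dl_mul]
      exact mul_mem (ih g) ((x ^ i).2.1.normal hRn (Subgroup.subset_normalClosure ⟨g, rfl⟩))
  have hpow : ∀ n : ℕ, ∀ g, (y ^ n : XX G).1 g = g * (dl y.1 g) ^ n := by
    intro n
    induction n with
    | zero =>
      intro g
      rw [pow_zero, pow_zero, mul_one]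
      rfl
    | succ n ih =>
      intro g
      have h1 : ((y ^ (n + 1) : XX G)).1 g = y.1 ((y ^ n : XX G).1 g) := by
        rw [pow_succ']; rfl
      rw [h1, ih, map_mul, map_pow, hyR _ (hdl k g), dl_eq y.1 g, mul_assoc, ← pow_succ']
  refine ⟨k * Nat.card R, Nat.mul_pos hk0 Nat.card_pos, ?_⟩
  rw [pow_mul, ← hy]
  apply Subtype.ext
  ext g
  rw [hpow]
  have h1 : (⟨dl y.1 g, hdl k g⟩ : R) ^ Nat.card R = 1 := pow_card_eq_one'
  have h2 : (dl y.1 g) ^ Nat.card R = 1 := congrArg Subtype.val h1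
  rw [h2, mul_one]
  rfl

theorem XX_fc : FCG (XX G) := by
  intro x
  have h1 := XX_classes x.2
  refine (h1.preimage (f := (Subtype.val : XX G → MulAut G)) Subtype.val_injective.injOn).subset ?_
  intro y hy
  obtain ⟨c, hc⟩ := isConj_iff.1 hy
  refine ⟨(c⁻¹ : XX G).1, (c⁻¹ : XX G).2, ?_⟩
  rw [← hc]
  show (c * x * c⁻¹ : XX G).1 = _
  simp

theorem XX_rf (hFC : FCG G) (x : XX G) (hx : x ≠ 1) :
    ∃ N : Subgroup (XX G), N.Normal ∧ N.FiniteIndex ∧ x ∉ N := by
  have h1 : ∃ g, x.1 g ≠ g := by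
    by_contra hcon
    push Not at hcon
    apply hx
    apply Subtype.ext
    ext g
    exact hcon g
  obtain ⟨g, hg⟩ := h1
  have hfin : Finite {h : G | IsConj g h} := (hFC g).to_subtype
  obtain ⟨φ, hφ⟩ := perm_hom {h : G | IsConj g h} (fun y hy h => by
    obtain ⟨c, hc⟩ := hy.1 {h}
    have h2 : IsConj h (y h) := by
      rw [isConj_iff]
      exact ⟨c⁻¹, by rw [hc h (by simp)]; group⟩
    exact ⟨fun h3 => IsConj.trans h3 h2.symm, fun h3 => IsConj.trans h3 h2⟩)
  refine ⟨φ.ker, inferInstance, inferInstance, fun h => ?_⟩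
  have h2 := hφ x ⟨g, IsConj.refl g⟩
  rw [MonoidHom.mem_ker.1 h] at h2
  exact hg h2.symm

/-- the subgroup of the labels in `C` -/
def PQ (C : Set (Om G)) : Subgroup (XX G) := Subgroup.closure {x : XX G | (Sum.inr x.1 : Om G) ∈ C}

theorem PQ_mono {C C' : Set (Om G)} (h : C ⊆ C') : PQ C ≤ PQ C' :=
  Subgroup.closure_mono fun _ hx => h hx

theorem mem_PQ {hFC : FCG G} {C : Set (Om G)} (hC : Closed (FF hFC) C) (x : XX G) :
    x ∈ PQ C ↔ (Sum.inr x.1 : Om G) ∈ C := by
  constructor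
  · intro hx
    unfold PQ at hx
    induction hx using Subgroup.closure_induction with
    | mem x hx => exact hx
    | one => exact c_x1 hC
    | mul x y _ _ hx hy => exact c_U2 hC hx hy
    | inv x _ hx => exact (c_U1 hC hx x.2).1
  · intro hx
    exact Subgroup.subset_closure hx

theorem PQ_normal {hFC : FCG G} {C : Set (Om G)} (hC : Closed (FF hFC) C) : (PQ C).Normal := by
  refine ⟨fun x hx y => ?_⟩
  rw [mem_PQ hC] at hx ⊢
  have := (c_U1 hC hx x.2).2.1 (y⁻¹ : XX G).1 (y⁻¹ : XX G).2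
  have h2 : (y * x * y⁻¹ : XX G).1 = ((y⁻¹ : XX G).1)⁻¹ * x.1 * (y⁻¹ : XX G).1 := by simp
  rw [h2]
  exact this

theorem base {hFC : FCG G} {C : Set (Om G)} (hC : Closed (FF hFC) C) (hcount : C.Countable) :
    SDF (PQ C) := by
  have hc : Countable (PQ C) := by
    have := hcount.to_subtype
    refine Function.Injective.countable (β := C)
      (f := fun x => ⟨Sum.inr x.1.1, (mem_PQ hC x.1).1 x.2⟩) ?_
    intro x y hxy
    have h1 : (Sum.inr x.1.1 : Om G) = Sum.inr y.1.1 := congrArg Subtype.val hxy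
    exact Subtype.ext (Subtype.ext (Sum.inr_injective h1))
  refine SDF.of_countable (fun x => ?_) (fun x hx => ?_)
  · refine ⟨Subgroup.normalClosure {x}, Subgroup.normalClosure_normal, ?_,
      Subgroup.subset_normalClosure rfl⟩
    refine (XX_fc.sub (PQ C)).nc_finite {x} (Set.finite_singleton x) ?_
    intro s hs
    rw [Set.mem_singleton_iff] at hs
    rw [hs]
    obtain ⟨n, hn, hn'⟩ := XX_tors hFC x.1
    rw [isOfFinOrder_iff_pow_eq_one]
    exact ⟨n, hn, Subtype.ext hn'⟩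
  · obtain ⟨N, h1, h2, h3⟩ := XX_rf hFC x.1 (fun h => hx (Subtype.ext h))
    exact ⟨N.comap (PQ C).subtype, h1.comap _, fi_comap _ _ h2, h3⟩

end base

theorem splitM {A : Type} [CommGroup A] [Countable A] (ht : ∀ a : A, ∃ n : ℕ, 0 < n ∧ a ^ n = 1)
    {B : Subgroup A} (hP : ∀ (n : ℕ) (a : A), a ^ n ∈ B → ∃ b ∈ B, b ^ n = a ^ n)
    (hH : ∀ a : A, a ∉ B → ∃ m : ℕ, 0 < m ∧ ∀ c : A, a / c ^ m ∉ B) :
    ∃ r : A →* A, (∀ a, r a ∈ B) ∧ ∀ b ∈ B, r b = b := by
  have hc : Countable (Additive A) := ‹Countable A›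
  obtain ⟨r, h1, h2⟩ := split (A := Additive A) (B := Subgroup.toAddSubgroup B) ht
    (fun n a ha => hP n a ha) (fun a ha => hH a ha)
  exact ⟨MonoidHom.mk' (fun a => (r (Additive.ofMul a)).toMul) (fun a b => by
    show (r (Additive.ofMul a + Additive.ofMul b)).toMul = _
    rw [map_add]; rfl), fun a => h1 _, fun b hb => h2 _ hb⟩

section retr

variable {G : Type} [Group G]

theorem retr {hFC : FCG G} {hR : ResX G} {C C' : Set (Om G)} (hC : Closed (FF2 hFC hR) C)
    (hC' : Closed (FF2 hFC hR) C') (hCC : C ⊆ C') (hcount : C'.Countable) :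
    ∃ ρ : XX G → XX G, (∀ x ∈ PQ C', ∀ y ∈ PQ C', ρ (x * y) = ρ x * ρ y) ∧
      (∀ x ∈ PQ C', ρ x ∈ PQ C) ∧ ∀ x ∈ PQ C, ρ x = x := by
  classical
  have hF := closed_FF hC
  have hF' := closed_FF hC'
  have hHn : (HH hF).Normal := HH_normal hF
  have hPP := PQ_mono hCC
  -- the centralizing part
  let Yc : Subgroup (XX G) :=
    { carrier := {w | w ∈ PQ C' ∧ ∀ h : G, (Sum.inl h : Om G) ∈ C → dl w.1 h ∈ Subgroup.center G}
      one_mem' := by
        refine ⟨one_mem _, fun h _ => ?_⟩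
        have : dl (1 : XX G).1 h = 1 := by
          show h⁻¹ * (1 : MulAut G) h = 1
          simp
        rw [this]
        exact one_mem _
      mul_mem' := by
        rintro w w' ⟨h1, h2⟩ ⟨h1', h2'⟩
        refine ⟨mul_mem h1 h1', fun h hh => ?_⟩
        show dl (w.1 * w'.1) h ∈ _
        rw [dl_mul, w.2.1.center (h2' h hh)]
        exact mul_mem (h2 h hh) (h2' h hh)
      inv_mem' := by
        rintro w ⟨h1, h2⟩
        refine ⟨inv_mem h1, fun h hh => ?_⟩
        show dl (w.1)⁻¹ h ∈ _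
        rw [dl_inv]
        refine inv_mem (h2 _ ?_)
        exact (w⁻¹).2.1.normal hHn (show h ∈ HH hF from hh) }
  have hYP : ∀ w : Yc, w.1 ∈ PQ C' := fun w => w.2.1
  have hYz : ∀ (w : Yc) (h : G), (Sum.inl h : Om G) ∈ C → dl w.1.1 h ∈ Subgroup.center G :=
    fun w => w.2.2
  let δ : Yc →* ({h : G // (Sum.inl h : Om G) ∈ C} → ↥(Subgroup.center G)) :=
    MonoidHom.mk' (fun w h => ⟨dl w.1.1 h.1, hYz w h.1 h.2⟩) (by
      intro w w'
      funext h
      apply Subtype.ext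
      show dl (w.1.1 * w'.1.1) h.1 = dl w.1.1 h.1 * dl w'.1.1 h.1
      rw [dl_mul, w.1.2.1.center (hYz w' h.1 h.2)])
  have hδ : ∀ w h, ((δ w h : ↥(Subgroup.center G)) : G) = dl w.1.1 h.1 := fun _ _ => rfl
  let D : Subgroup Yc := (PQ C).comap Yc.subtype
  have hD : ∀ d : Yc, d ∈ D ↔ d.1 ∈ PQ C := fun d => Iff.rfl
  have hinj : ∀ d ∈ D, δ d = 1 → d = 1 := by
    intro d hd hd1
    by_contra hne
    have hne' : d.1.1 ≠ 1 := fun h => hne (Subtype.ext (Subtype.ext h))
    have h1 := (mem_PQ hF d.1).1 hd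
    obtain ⟨g, hg, hg'⟩ := (c_U1 hF h1 d.1.2).2.2 hne'
    apply hg'
    have h2 := congrArg Subtype.val (congrFun hd1 ⟨g, hg⟩)
    have h3 : dl d.1.1 g = 1 := h2
    rw [dl_eq, h3, mul_one]
  have hinj' : ∀ d ∈ D, ∀ d' ∈ D, δ d = δ d' → d = d' := by
    intro d hd d' hd' h
    have h1 := hinj (d⁻¹ * d') (mul_mem (inv_mem hd) hd') (by
      rw [map_mul, map_inv, h, inv_mul_cancel])
    exact (inv_mul_eq_one.1 h1)
  -- countability
  have hcP : Countable (PQ C') := by
    have := hcount.to_subtype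
    refine Function.Injective.countable (β := C')
      (f := fun x => ⟨Sum.inr x.1.1, (mem_PQ hF' x.1).1 x.2⟩) ?_
    intro x y hxy
    have h1 : (Sum.inr x.1.1 : Om G) = Sum.inr y.1.1 := congrArg Subtype.val hxy
    exact Subtype.ext (Subtype.ext (Sum.inr_injective h1))
  have hcY : Countable Yc := by
    refine Function.Injective.countable (β := PQ C') (f := fun w => ⟨w.1, hYP w⟩) ?_
    intro x y hxy
    have h1 : (⟨x.1, hYP x⟩ : PQ C') = ⟨y.1, hYP y⟩ := hxy
    exact Subtype.ext (Subtype.mk.inj h1)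
  have hcA : Countable δ.range := δ.rangeRestrict_surjective.countable
  have hval : ∀ w w' : Yc, δ.rangeRestrict w = δ.rangeRestrict w' → δ w = δ w' :=
    fun w w' h => congrArg Subtype.val h
  have hval' : ∀ w w' : Yc, δ w = δ w' → δ.rangeRestrict w = δ.rangeRestrict w' :=
    fun w w' h => Subtype.ext h
  -- label sets
  have hlab : ∀ (w d : Yc), d ∈ D → ∃ s : Finset (Om G), ↑s ⊆ C ∧ (Sum.inr d.1.1 : Om G) ∈ s ∧
      US s = (dl w.1.1) '' (HH hF : Set G) := by
    intro w d hd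
    have hfin : ((dl w.1.1) '' (HH hF : Set G)).Finite :=
      w.1.2.2.subset (Set.image_subset_range _ _)
    refine ⟨hfin.toFinset.image Sum.inl ∪ {Sum.inr d.1.1}, ?_, ?_, ?_⟩
    · intro a ha
      rw [Finset.mem_coe, Finset.mem_union] at ha
      rcases ha with ha | ha
      · obtain ⟨u, hu, rfl⟩ := Finset.mem_image.1 ha
        obtain ⟨h, hh, rfl⟩ := hfin.mem_toFinset.1 hu
        exact w.1.2.1.dl_normal hHn hh
      · rw [Finset.mem_singleton] at ha
        rw [ha]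
        exact (mem_PQ hF d.1).1 hd
    · simp
    · ext g
      unfold US
      simp
  have hmk : ∀ (w : Yc) (e : MulAut G) (he : e ∈ XX G), (Sum.inr e : Om G) ∈ C →
      (∀ g, g⁻¹ * e g ∈ (dl w.1.1) '' (HH hF : Set G)) →
      ∃ e' : Yc, e' ∈ D ∧ e'.1.1 = e := by
    intro w e he heC h
    have h1 : (⟨e, he⟩ : XX G) ∈ PQ C := (mem_PQ hF _).2 heC
    refine ⟨⟨⟨e, he⟩, hPP h1, fun g hg => ?_⟩, h1, rfl⟩
    obtain ⟨h', hh', heq⟩ := h g
    show g⁻¹ * e g ∈ _
    rw [← heq]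
    exact hYz w h' hh'
  -- the retraction of the abelian group
  obtain ⟨r, hr1, hr2⟩ : ∃ r : δ.range →* δ.range, (∀ a, r a ∈ D.map δ.rangeRestrict) ∧
      ∀ b ∈ D.map δ.rangeRestrict, r b = b := by
    refine splitM (A := ↥δ.range) (B := D.map δ.rangeRestrict) ?_ ?_ ?_
    · intro a
      obtain ⟨w, rfl⟩ := δ.rangeRestrict_surjective a
      obtain ⟨n, hn, hn'⟩ := XX_tors hFC w.1
      refine ⟨n, hn, ?_⟩
      have : w ^ n = 1 := Subtype.ext hn'
      rw [← map_pow, this, map_one]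
    · intro n a ha
      obtain ⟨w, rfl⟩ := δ.rangeRestrict_surjective a
      obtain ⟨d, hd, hdw⟩ := ha
      rw [← map_pow] at hdw
      have hdw' := hval _ _ hdw
      obtain ⟨s, hs, hds, hsU⟩ := hlab w d hd
      have hpt : ∀ h : G, (Sum.inl h : Om G) ∈ C → PB hR s d.1.1 (some n) h (w.1.1 h) := by
        intro h hh
        refine ⟨?_, ?_⟩
        · rw [hsU]
          exact ⟨h, hh, rfl⟩
        · have h1 := congrArg Subtype.val (congrFun hdw' ⟨h, hh⟩)
          rw [map_pow] at h1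
          exact h1.symm
      rcases c_U4 hC hs hds (some n) with ⟨e, he, heC, heP⟩ | ⟨W, hW, hW'⟩
      · obtain ⟨e', heD, hee⟩ := hmk w e he heC (fun g => by rw [← hsU]; exact (heP g).1)
        refine ⟨δ.rangeRestrict e', ⟨e', heD, rfl⟩, ?_⟩
        rw [← map_pow, ← map_pow, ← hdw]
        apply hval'
        funext h
        apply Subtype.ext
        rw [map_pow]
        show (dl e'.1.1 h.1) ^ n = dl d.1.1 h.1
        rw [hee]
        exact (heP h.1).2
      · obtain ⟨g, hg, hg'⟩ := hW' w.1.1 w.1.2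
        exact absurd (hpt g (hW g hg)) hg'
    · intro a ha
      obtain ⟨w, rfl⟩ := δ.rangeRestrict_surjective a
      have hUf : ((dl w.1.1) '' (HH hF : Set G)).Finite :=
        w.1.2.2.subset (Set.image_subset_range _ _)
      obtain ⟨hNn, hNU, m, hm, hNm⟩ := NN_spec hR _ hUf
      refine ⟨m, hm, fun c hc => ha ?_⟩
      obtain ⟨v, rfl⟩ := δ.rangeRestrict_surjective c
      obtain ⟨d, hd, hdw⟩ := hc
      have hdw1 : δ.rangeRestrict d = δ.rangeRestrict (w / v ^ m) := by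
        rw [map_div, map_pow]; exact hdw
      have hdw' : δ d = δ (w / v ^ m) := hval _ _ hdw1
      obtain ⟨s, hs, hds, hsU⟩ := hlab w d hd
      have hdlw : ∀ h : G, (Sum.inl h : Om G) ∈ C →
          (dl d.1.1 h)⁻¹ * dl w.1.1 h = (dl v.1.1 h) ^ m := by
        intro h hh
        have h1 := congrFun hdw' ⟨h, hh⟩
        rw [map_div, map_pow] at h1
        have h2 : (δ d ⟨h, hh⟩)⁻¹ * δ w ⟨h, hh⟩ = (δ v ⟨h, hh⟩) ^ m := by
          rw [h1]
          show (δ w ⟨h, hh⟩ / (δ v ⟨h, hh⟩) ^ m)⁻¹ * δ w ⟨h, hh⟩ = (δ v ⟨h, hh⟩) ^ m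
          rw [inv_div, div_mul_cancel]
        exact congrArg Subtype.val h2
      have hpt : ∀ h : G, (Sum.inl h : Om G) ∈ C → PB hR s d.1.1 none h (w.1.1 h) := by
        intro h hh
        refine ⟨?_, ?_⟩
        · rw [hsU]
          exact ⟨h, hh, rfl⟩
        · show (dl d.1.1 h)⁻¹ * dl w.1.1 h ∈ _
          rw [hdlw h hh, hsU]
          exact hNm _ (v.1.2.1.dl_comm h)
      rcases c_U4 hC hs hds none with ⟨e, he, heC, heP⟩ | ⟨W, hW, hW'⟩
      · obtain ⟨e', heD, hee⟩ := hmk w e he heC (fun g => by rw [← hsU]; exact (heP g).1)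
        refine ⟨e', heD, ?_⟩
        apply hval'
        funext h
        apply Subtype.ext
        show dl e'.1.1 h.1 = dl w.1.1 h.1
        rw [hee]
        have h1 := (heP h.1).1
        have h2 := (heP h.1).2
        have h3 := (hpt h.1 h.2).2
        rw [hsU] at h1 h2 h3
        refine hNU _ h1 _ ⟨h.1, h.2, rfl⟩ ?_
        have h4 := mul_mem (inv_mem h2) h3
        have h5 : ((dl d.1.1 h.1)⁻¹ * (h.1⁻¹ * e h.1))⁻¹ * ((dl d.1.1 h.1)⁻¹ * (h.1⁻¹ * w.1.1 h.1)) =
            (h.1⁻¹ * e h.1)⁻¹ * dl w.1.1 h.1 := by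
          unfold dl
          group
        rw [h5] at h4
        exact h4
      · obtain ⟨g, hg, hg'⟩ := hW' w.1.1 w.1.2
        exact absurd (hpt g (hW g hg)) hg'
  -- the relation
  have hcomm : ∀ k ∈ PQ C, ∀ w : Yc, k * w.1 = w.1 * k := by
    intro k hk w
    apply Subtype.ext
    exact c_comm hF k.2 ((mem_PQ hF k).1 hk) w.1.2 (hYz w)
  let Rel : XX G → XX G → Prop := fun x z => ∃ (k : XX G) (w d : Yc), k ∈ PQ C ∧ d ∈ D ∧
    x = k * w.1 ∧ z = k * d.1 ∧ δ.rangeRestrict d = r (δ.rangeRestrict w)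
  have hex : ∀ x ∈ PQ C', ∃ z, Rel x z := by
    intro x hx
    obtain ⟨k, hk, hkC, hkz⟩ := c_exK hF x.2
    have hkP : (⟨k, hk⟩ : XX G) ∈ PQ C := (mem_PQ hF _).2 hkC
    let w : Yc := ⟨(⟨k, hk⟩ : XX G)⁻¹ * x, mul_mem (inv_mem (hPP hkP)) hx, hkz⟩
    obtain ⟨d, hd, hd'⟩ := hr1 (δ.rangeRestrict w)
    refine ⟨(⟨k, hk⟩ : XX G) * d.1, ⟨k, hk⟩, w, d, hkP, hd, ?_, rfl, hd'⟩
    show x = (⟨k, hk⟩ : XX G) * ((⟨k, hk⟩ : XX G)⁻¹ * x)
    rw [mul_inv_cancel_left]
  have huniq : ∀ x z z', Rel x z → Rel x z' → z = z' := by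
    rintro x z z' ⟨k, w, d, hk, hd, hx, hz, hr⟩ ⟨k', w', d', hk', hd', hx', hz', hr'⟩
    -- the quotient
    have h1 : k'⁻¹ * k = (w' * w⁻¹ : Yc).1 := by
      show k'⁻¹ * k = w'.1 * (w.1)⁻¹
      rw [eq_mul_inv_iff_mul_eq, mul_assoc, ← hx, hx', inv_mul_cancel_left]
    have h2 : (w' * w⁻¹ : Yc) ∈ D := by
      rw [hD, ← h1]
      exact mul_mem (inv_mem hk') hk
    have h3 : r (δ.rangeRestrict (w' * w⁻¹)) = δ.rangeRestrict (w' * w⁻¹) :=
      hr2 _ ⟨_, h2, rfl⟩
    have h4 : δ.rangeRestrict d' = δ.rangeRestrict ((w' * w⁻¹) * d) := by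
      rw [map_mul _ (w' * w⁻¹) d, ← h3, hr, hr', ← map_mul, ← map_mul, inv_mul_cancel_right]
    have h5 : d' = (w' * w⁻¹) * d := hinj' _ hd' _ (mul_mem h2 hd) (hval _ _ h4)
    rw [hz, hz', h5]
    show k * d.1 = k' * ((w' * w⁻¹ : Yc).1 * d.1)
    rw [← h1]
    group
  have hmul : ∀ x z y z', Rel x z → Rel y z' → Rel (x * y) (z * z') := by
    rintro x z y z' ⟨k, w, d, hk, hd, hx, hz, hr⟩ ⟨k', w', d', hk', hd', hx', hz', hr'⟩
    refine ⟨k * k', w * w', d * d', mul_mem hk hk', mul_mem hd hd', ?_, ?_, ?_⟩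
    · rw [hx, hx']
      show k * w.1 * (k' * w'.1) = k * k' * (w.1 * w'.1)
      calc k * w.1 * (k' * w'.1) = k * (w.1 * k') * w'.1 := by group
        _ = k * (k' * w.1) * w'.1 := by rw [← hcomm k' hk' w]
        _ = _ := by group
    · rw [hz, hz']
      show k * d.1 * (k' * d'.1) = k * k' * (d.1 * d'.1)
      calc k * d.1 * (k' * d'.1) = k * (d.1 * k') * d'.1 := by group
        _ = k * (k' * d.1) * d'.1 := by rw [← hcomm k' hk' d]
        _ = _ := by group
    · rw [map_mul, map_mul, map_mul, hr, hr']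
  have hmem : ∀ x z, Rel x z → z ∈ PQ C := by
    rintro x z ⟨k, w, d, hk, hd, hx, hz, hr⟩
    rw [hz]
    exact mul_mem hk hd
  have hfix : ∀ x ∈ PQ C, Rel x x := by
    intro x hx
    exact ⟨x, 1, 1, hx, one_mem _, (mul_one x).symm, (mul_one x).symm, by rw [map_one, map_one]⟩
  choose! ρ hρ using hex
  refine ⟨ρ, fun x hx y hy => ?_, fun x hx => hmem _ _ (hρ x hx), fun x hx => ?_⟩
  · exact huniq _ _ _ (hρ _ (mul_mem hx hy)) (hmul _ _ _ _ (hρ x hx) (hρ y hy))
  · exact huniq _ _ _ (hρ x (hPP hx)) (hfix x hx)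

end retr

section final

open Cardinal

variable {G : Type} [Group G]

theorem PQ_SDF (hFC : FCG G) (hR : ResX G) (C : Set (Om G)) (hC : Closed (FF2 hFC hR) C)
    (hcard : #C ≤ ℵ_ 1) : SDF (PQ C) := by
  refine SDF.of_system1 (FF2 hFC hR) (FF2_countable hFC hR) PQ
    (fun C hC => PQ_normal (closed_FF hC)) (fun C C' h => PQ_mono h) ?_
    (fun C C' hC hC' hCC hcount => retr hC hC' hCC hcount)
    (fun C hC hcount => base (closed_FF hC) hcount) C hC hcard
  intro C hC x hx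
  refine ⟨{Sum.inr x.1}, ?_, fun C' hC' hs => ?_⟩
  · rw [Finset.coe_singleton, Set.singleton_subset_iff]
    exact (mem_PQ (closed_FF hC) x).1 hx
  · rw [Finset.coe_singleton, Set.singleton_subset_iff] at hs
    exact (mem_PQ (closed_FF hC') x).2 hs

theorem exists_psi (hFC : FCG G) : ∃ ψ : G ⧸ Subgroup.center G →* XX G, Function.Injective ψ := by
  let φ : G →* XX G :=
    { toFun := fun g => ⟨MulAut.conj g, conj_mem_XX hFC g⟩
      map_one' := by
        apply Subtype.ext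
        simp
      map_mul' := fun a b => by
        apply Subtype.ext
        simp }
  have hker : ∀ g, φ g = 1 ↔ g ∈ Subgroup.center G := by
    intro g
    rw [Subgroup.mem_center_iff]
    constructor
    · intro h a
      have h1 : MulAut.conj g a = a := by
        have h2 : MulAut.conj g = 1 := congrArg Subtype.val h
        rw [h2]; rfl
      rw [MulAut.conj_apply] at h1
      calc a * g = (g * a * g⁻¹) * g := by rw [h1]
        _ = g * a := by group
    · intro h
      apply Subtype.ext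
      ext a
      show g * a * g⁻¹ = a
      rw [← h a]; group
  refine ⟨QuotientGroup.lift _ φ (fun g hg => (hker g).mpr hg), ?_⟩
  rw [injective_iff_map_eq_one]
  intro x hx
  obtain ⟨g, rfl⟩ := QuotientGroup.mk_surjective x
  rw [QuotientGroup.eq_one_iff]
  exact (hker g).mp hx

theorem sub_SDF (hFC : FCG G) (hR : ResX G) (K : Subgroup (G ⧸ Subgroup.center G))
    (hK : #K ≤ ℵ_ 1) : SDF K := by
  obtain ⟨ψ, hψ⟩ := exists_psi hFC
  set C : Set (Om G) := cl (FF2 hFC hR) (Set.range fun q : K => (Sum.inr (ψ q.1).1 : Om G)) with hC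
  have hCc : Closed (FF2 hFC hR) C := cl_closed _
  have hcard : #C ≤ ℵ_ 1 := by
    refine (mk_cl_le (FF2_countable hFC hR) _).trans (max_le (aleph0_le_aleph 1) ?_)
    exact mk_range_le.trans hK
  have hmem : ∀ q : K, ψ q.1 ∈ PQ C := fun q =>
    (mem_PQ (closed_FF hCc) _).2 (subset_cl _ ⟨q, rfl⟩)
  refine (PQ_SDF hFC hR C hCc hcard).comap ((ψ.comp K.subtype).codRestrict (PQ C) hmem) ?_
  intro a b hab
  exact Subtype.ext (hψ (congrArg Subtype.val hab))

end final

end Pool.Agent.Helper316.FCX
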