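import Pool.Agent.Helper316.Core
set_option autoImplicit false
namespace Pool.Agent.Helper316

open Finset

theorem harmonic_mono {a b : ℕ} (h : a ≤ b) : (harmonic a : ℝ) ≤ harmonic b := by
  have : (harmonic a : ℚ) ≤ harmonic b := by
    unfold harmonic
    apply sum_le_sum_of_subset_of_nonneg
    · exact range_subset_range.2 h
    · intro i _ _; positivity
  exact_mod_cast this

theorem harmonic_nonneg (a : ℕ) : (0:ℝ) ≤ harmonic a := by
  have : (0 : ℚ) ≤ harmonic a := by
    unfold harmonic; exact sum_nonneg fun i _ => by positivity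
  exact_mod_cast this

theorem sum_inv_le_harmonic (n : ℕ) : ∀ (K : Finset ℕ), K.card = n → (∀ k ∈ K, 0 < k) →
    ∑ k ∈ K, (1:ℝ)/k ≤ (harmonic n : ℝ) := by
  induction n with
  | zero =>
    intro K hK _
    rw [card_eq_zero] at hK
    subst hK
    simp
  | succ n ih =>
    intro K hK hpos
    have hne : K.Nonempty := by rw [← card_pos]; omega
    set M := K.max' hne with hM
    have hMK : M ∈ K := max'_mem K hne
    have hle : n + 1 ≤ M := by
      have hsub : K ⊆ Icc 1 M := by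
        intro k hk
        rw [mem_Icc]
        exact ⟨hpos k hk, le_max' K k hk⟩
      have := card_le_card hsub
      rw [Nat.card_Icc] at this
      omega
    rw [← add_sum_erase K _ hMK]
    have h1 := ih (K.erase M) (by rw [card_erase_of_mem hMK, hK]; rfl)
      (fun k hk => hpos k (mem_of_mem_erase hk))
    rw [harmonic_succ]
    push_cast
    have h2 : (1:ℝ)/M ≤ ((n:ℝ)+1)⁻¹ := by
      rw [← one_div]
      apply one_div_le_one_div_of_le (by positivity)
      exact_mod_cast hle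
    linarith

theorem far_sum_aux (h : ℕ) (hh : 0 < h) (D : Finset ℤ) (s : ℤ) (hs0 : 0 ≤ s) (hs : 2*s ≤ h)
    (hcong : ∀ a ∈ D, (h:ℤ) ∣ a - s) (hfar : ∀ a ∈ D, (h:ℤ) < 2*|a|) :
    ∑ a ∈ D, (1:ℝ)/|(a:ℝ)| ≤ (2/h) * harmonic D.card := by
  classical
  have hhZ : (0:ℤ) < h := by exact_mod_cast hh
  let k : ℤ → ℤ := fun a => (a - s) / h
  have hk : ∀ a ∈ D, a = s + h * k a := by
    intro a ha
    have := Int.mul_ediv_cancel' (hcong a ha)
    simp only [k]; linarith
  have hk0 : ∀ a ∈ D, k a ≠ 0 := by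
    intro a ha h0
    have h1 := hk a ha
    rw [h0, mul_zero, add_zero] at h1
    have h2 := hfar a ha
    rw [h1, abs_of_nonneg hs0] at h2
    omega
  let f : ℤ → ℕ := fun a => if 0 < k a then (2 * k a).toNat else (-2 * k a - 1).toNat
  have hfpos : ∀ a ∈ D, 0 < f a := by
    intro a ha
    have := hk0 a ha
    simp only [f]
    split_ifs <;> omega
  have hfle : ∀ a ∈ D, (1:ℝ)/|(a:ℝ)| ≤ (2/h) * (1/(f a : ℝ)) := by
    intro a ha
    have h0 := hk0 a ha
    have h1 := hk a ha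
    have hpos := hfpos a ha
    have key : (h:ℤ) * (f a : ℤ) ≤ 2 * |a| := by
      simp only [f]
      split_ifs with hc
      · rw [Int.toNat_of_nonneg (by omega)]
        have : 0 ≤ a := by rw [h1]; positivity
        rw [abs_of_nonneg this]
        nlinarith
      · rw [Int.toNat_of_nonneg (by omega)]
        have hkn : k a ≤ -1 := by omega
        have : a ≤ 0 := by rw [h1]; nlinarith
        rw [abs_of_nonpos this]
        nlinarith
    have keyR : (h:ℝ) * (f a : ℝ) ≤ 2 * |(a:ℝ)| := by exact_mod_cast key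
    have hfR : (0:ℝ) < f a := by exact_mod_cast hpos
    have hhR : (0:ℝ) < h := by exact_mod_cast hh
    have haR : (0:ℝ) < |(a:ℝ)| := by
      have : 0 < (h:ℝ) * (f a : ℝ) := by positivity
      linarith
    rw [div_mul_div_comm, mul_one, div_le_div_iff₀ haR (by positivity)]
    linarith
  have hinj : ∀ a ∈ D, ∀ b ∈ D, f a = f b → a = b := by
    intro a ha b hb hab
    have ha0 := hk0 a ha
    have hb0 := hk0 b hb
    have : k a = k b := by
      simp only [f] at hab
      split_ifs at hab with h1 h2 h2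
      · omega
      · omega
      · omega
      · omega
    rw [hk a ha, hk b hb, this]
  calc ∑ a ∈ D, (1:ℝ)/|(a:ℝ)| ≤ ∑ a ∈ D, (2/h) * (1/(f a : ℝ)) := sum_le_sum hfle
    _ = (2/h) * ∑ n ∈ D.image f, (1:ℝ)/n := by
        rw [sum_image hinj, mul_sum]
    _ ≤ (2/h) * harmonic D.card := by
        apply mul_le_mul_of_nonneg_left _ (by positivity)
        rw [← card_image_of_injOn (s := D) (f := f) (fun a ha b hb => hinj a ha b hb)]
        apply sum_inv_le_harmonic _ _ rfl
        intro n hn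
        obtain ⟨a, ha, rfl⟩ := mem_image.1 hn
        exact hfpos a ha

theorem far_sum (h : ℕ) (hh : 0 < h) (D : Finset ℤ)
    (hcong : ∀ a ∈ D, ∀ b ∈ D, (h:ℤ) ∣ a - b) (hfar : ∀ a ∈ D, (h:ℤ) < 2*|a|) :
    ∑ a ∈ D, (1:ℝ)/|(a:ℝ)| ≤ (2/h) * harmonic D.card := by
  classical
  rcases D.eq_empty_or_nonempty with rfl | ⟨a0, ha0⟩
  · simp
  have hhZ : (0:ℤ) < h := by exact_mod_cast hh
  set r := a0 % (h:ℤ) with hr
  have hr0 : 0 ≤ r := Int.emod_nonneg _ hhZ.ne'
  have hr1 : r < h := Int.emod_lt_of_pos _ hhZ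
  have hra : (h:ℤ) ∣ a0 - r := by
    rw [hr]; exact Int.dvd_self_sub_emod
  by_cases hc : 2 * r ≤ h
  · refine far_sum_aux h hh D r hr0 hc (fun a ha => ?_) hfar
    have h1 := dvd_add (hcong a ha a0 ha0) hra
    have h2 : a - a0 + (a0 - r) = a - r := by ring
    rwa [h2] at h1
  · have hneg := far_sum_aux h hh (D.image (fun a => -a)) (h - r) (by omega) (by omega) ?_ ?_
    · rw [sum_image (fun x _ y _ h => by simpa using h), card_image_of_injective _ neg_injective]
        at hneg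
      simpa using hneg
    · intro a ha
      obtain ⟨b, hb, rfl⟩ := mem_image.1 ha
      have h1 := dvd_add (hcong a0 ha0 b hb) (dvd_neg.2 hra)
      have h2 := dvd_sub h1 (dvd_refl (h:ℤ))
      have h3 : a0 - b + -(a0 - r) - (h:ℤ) = -b - (h - r) := by ring
      rwa [h3] at h2
    · intro a ha
      obtain ⟨b, hb, rfl⟩ := mem_image.1 ha
      rw [abs_neg]; exact hfar b hb

/-- near part, window half of y -/
noncomputable def nu (m y d : ℕ) : ℝ :=
  ∑ e ∈ m.divisors.filter (fun e => 2 * |((y*e : ℕ):ℤ) - d| < y), phi (y*e) d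

/-- near part, window y -/
noncomputable def nu2 (m y d : ℕ) : ℝ :=
  ∑ e ∈ m.divisors.filter (fun e => |((y*e : ℕ):ℤ) - d| < y), phi (y*e) d

theorem phi_eq_int (x d : ℕ) : phi x d = 1 / |(((x:ℤ) - d : ℤ) : ℝ)| := by
  unfold phi; push_cast; rfl

theorem G_le_odd {m y : ℕ} (hy : Odd y) :
    G m y 1 ≤ ∑ d ∈ m.divisors, nu m y d
      + m.divisors.card * ((2/y) * harmonic m.divisors.card) := by
  have hy0 : 0 < y := hy.pos
  have h1 : G m y 1 = ∑ d ∈ m.divisors, ∑ e ∈ m.divisors, phi (y*e) d := by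
    unfold G; rw [sum_comm]; simp
  rw [h1, ← nsmul_eq_mul, ← sum_const, ← sum_add_distrib]
  apply sum_le_sum
  intro d _
  rw [← sum_filter_add_sum_filter_not m.divisors (fun e => 2 * |((y*e : ℕ):ℤ) - d| < y)]
  apply add_le_add (le_refl _)
  set E := m.divisors.filter (fun e => ¬ 2 * |((y*e : ℕ):ℤ) - d| < y) with hE
  have hinj : ∀ a ∈ E, ∀ b ∈ E, ((y*a : ℕ):ℤ) - d = ((y*b:ℕ):ℤ) - d → a = b := by
    intro a _ b _ hab
    have : y * a = y * b := by omega
    exact Nat.eq_of_mul_eq_mul_left hy0 this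
  have h2 := far_sum y hy0 (E.image (fun e => ((y*e : ℕ):ℤ) - d)) ?_ ?_
  · rw [sum_image hinj, card_image_of_injOn hinj] at h2
    calc ∑ e ∈ E, phi (y*e) d = ∑ x ∈ E, (1:ℝ) / |((((y*x : ℕ):ℤ) - d : ℤ) : ℝ)| :=
          sum_congr rfl fun e _ => phi_eq_int _ _
      _ ≤ _ := h2
      _ ≤ _ := by
        apply mul_le_mul_of_nonneg_left _ (by positivity)
        exact harmonic_mono (card_le_card (filter_subset _ _))
  · intro a ha b hb
    obtain ⟨e, _, rfl⟩ := mem_image.1 ha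
    obtain ⟨e', _, rfl⟩ := mem_image.1 hb
    refine ⟨(e:ℤ) - e', ?_⟩
    push_cast; ring
  · intro a ha
    obtain ⟨e, he, rfl⟩ := mem_image.1 ha
    have h3 := (mem_filter.1 he).2
    obtain ⟨t, ht⟩ := hy
    omega

theorem G_le_two {m y : ℕ} (hm : Odd m) (hy0 : 0 < y) :
    G m y 1 ≤ ∑ d ∈ m.divisors, nu2 m y d
      + m.divisors.card * ((1/y) * harmonic m.divisors.card) := by
  have h1 : G m y 1 = ∑ d ∈ m.divisors, ∑ e ∈ m.divisors, phi (y*e) d := by
    unfold G; rw [sum_comm]; simp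
  rw [h1, ← nsmul_eq_mul, ← sum_const, ← sum_add_distrib]
  apply sum_le_sum
  intro d hd
  have hdodd : Odd d := Odd.of_dvd_nat hm (Nat.dvd_of_mem_divisors hd)
  rw [← sum_filter_add_sum_filter_not m.divisors (fun e => |((y*e : ℕ):ℤ) - d| < y)]
  apply add_le_add (le_refl _)
  set E := m.divisors.filter (fun e => ¬ |((y*e : ℕ):ℤ) - d| < y) with hE
  have hinj : ∀ a ∈ E, ∀ b ∈ E, ((y*a : ℕ):ℤ) - d = ((y*b:ℕ):ℤ) - d → a = b := by
    intro a _ b _ hab
    have : y * a = y * b := by omega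
    exact Nat.eq_of_mul_eq_mul_left hy0 this
  have h2 := far_sum (2*y) (by omega) (E.image (fun e => ((y*e : ℕ):ℤ) - d)) ?_ ?_
  · rw [sum_image hinj, card_image_of_injOn hinj] at h2
    have hy0R : (0:ℝ) < y := by exact_mod_cast hy0
    have h2y : (2:ℝ) / ((2*y : ℕ):ℝ) = 1/y := by push_cast; field_simp
    rw [h2y] at h2
    calc ∑ e ∈ E, phi (y*e) d = ∑ x ∈ E, (1:ℝ) / |((((y*x : ℕ):ℤ) - d : ℤ) : ℝ)| :=
          sum_congr rfl fun e _ => phi_eq_int _ _
      _ ≤ _ := h2
      _ ≤ _ := by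
        apply mul_le_mul_of_nonneg_left _ (by positivity)
        exact harmonic_mono (card_le_card (filter_subset _ _))
  · intro a ha b hb
    obtain ⟨e, he, rfl⟩ := mem_image.1 ha
    obtain ⟨e', he', rfl⟩ := mem_image.1 hb
    have ho : Odd e := Odd.of_dvd_nat hm (Nat.dvd_of_mem_divisors (mem_filter.1 he).1)
    have ho' : Odd e' := Odd.of_dvd_nat hm (Nat.dvd_of_mem_divisors (mem_filter.1 he').1)
    obtain ⟨u, hu⟩ := ho
    obtain ⟨u', hu'⟩ := ho'
    refine ⟨(u:ℤ) - u', ?_⟩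
    subst hu; subst hu'
    push_cast; ring
  · intro a ha
    obtain ⟨e, he, rfl⟩ := mem_image.1 ha
    have h3 := (mem_filter.1 he).2
    have ho : Odd e := Odd.of_dvd_nat hm (Nat.dvd_of_mem_divisors (mem_filter.1 he).1)
    obtain ⟨u, hu⟩ := ho
    obtain ⟨t, ht⟩ := hdodd
    have h4 : ((y*e : ℕ):ℤ) = 2 * ((y*u : ℕ):ℤ) + y := by subst hu; push_cast; ring
    have h5 : |((y*e : ℕ):ℤ) - d| ≠ y := by
      rw [h4, ht]
      push_cast
      intro h6
      rcases abs_eq (by positivity : (0:ℤ) ≤ y) |>.1 h6 with h7 | h7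
      · omega
      · omega
    push_cast at h3 h5 ⊢
    omega

/-- weighted near sums over the levels -/
noncomputable def W (m q : ℕ) : ℕ → ℕ → ℝ
  | 0, _ => 0
  | (a+1), d => nu m (q^(a+1)) d + W m q a d / q

noncomputable def W2 (m q : ℕ) : ℕ → ℕ → ℝ
  | 0, _ => 0
  | (a+1), d => nu2 m (q^(a+1)) d + W2 m q a d / q

theorem V_le_odd {m q : ℕ} (hq : Odd q) (a : ℕ) :
    V m q a ≤ ∑ d ∈ m.divisors, W m q a d
      + m.divisors.card * ((2*a/(q:ℝ)^a) * harmonic m.divisors.card) := by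
  induction a with
  | zero => simp [V, W]
  | succ a ih =>
    have hq0 : (0:ℝ) < q := by exact_mod_cast hq.pos
    have h1 := G_le_odd (m := m) (hq.pow (n := a+1))
    rw [V]
    have h2 : V m q a / q ≤ (∑ d ∈ m.divisors, W m q a d
      + m.divisors.card * ((2*a/(q:ℝ)^a) * harmonic m.divisors.card)) / q :=
      div_le_div_of_nonneg_right ih hq0.le
    have h3 : ∑ d ∈ m.divisors, W m q (a+1) d
      = ∑ d ∈ m.divisors, nu m (q^(a+1)) d + (∑ d ∈ m.divisors, W m q a d) / q := by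
      rw [sum_div, ← sum_add_distrib]
      exact sum_congr rfl fun d _ => rfl
    rw [h3]
    have h4 : (2*((a+1:ℕ):ℝ)/(q:ℝ)^(a+1)) = 2/((q^(a+1) : ℕ):ℝ) + (2*a/(q:ℝ)^a)/q := by
      push_cast; rw [pow_succ]; field_simp; ring
    rw [h4]
    rw [add_div] at h2
    have h5 : (m.divisors.card : ℝ) * ((2*a/(q:ℝ)^a) * harmonic m.divisors.card) / q
      = m.divisors.card * (((2*a/(q:ℝ)^a)/q) * harmonic m.divisors.card) := by ring
    rw [h5] at h2
    linarith

theorem V_le_two {m q : ℕ} (hm : Odd m) (hq : 0 < q) (a : ℕ) :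
    V m q a ≤ ∑ d ∈ m.divisors, W2 m q a d
      + m.divisors.card * ((a/(q:ℝ)^a) * harmonic m.divisors.card) := by
  induction a with
  | zero => simp [V, W2]
  | succ a ih =>
    have hq0 : (0:ℝ) < q := by exact_mod_cast hq
    have h1 := G_le_two (m := m) (y := q^(a+1)) hm (by positivity)
    rw [V]
    have h2 : V m q a / q ≤ (∑ d ∈ m.divisors, W2 m q a d
      + m.divisors.card * ((a/(q:ℝ)^a) * harmonic m.divisors.card)) / q :=
      div_le_div_of_nonneg_right ih hq0.le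
    have h3 : ∑ d ∈ m.divisors, W2 m q (a+1) d
      = ∑ d ∈ m.divisors, nu2 m (q^(a+1)) d + (∑ d ∈ m.divisors, W2 m q a d) / q := by
      rw [sum_div, ← sum_add_distrib]
      exact sum_congr rfl fun d _ => rfl
    rw [h3]
    have h4 : (((a+1:ℕ):ℝ)/(q:ℝ)^(a+1)) = 1/((q^(a+1) : ℕ):ℝ) + (a/(q:ℝ)^a)/q := by
      push_cast; rw [pow_succ]; field_simp; ring
    rw [h4]
    rw [add_div] at h2
    have h5 : (m.divisors.card : ℝ) * ((a/(q:ℝ)^a) * harmonic m.divisors.card) / q
      = m.divisors.card * (((a/(q:ℝ)^a)/q) * harmonic m.divisors.card) := by ring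
    rw [h5] at h2
    linarith

end Pool.Agent.Helper316
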