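import Pool.Agent.Helper316.Check
set_option autoImplicit false
namespace Pool.Agent.Helper316

open Finset

/-- the increment inequality for the component q^a -/
def Good (m q a : ℕ) : Prop := V m q a + S m / (q:ℝ)^a ≤ m.divisors.card

theorem sum_N_bsum (N : ℕ → ℕ) (Q m : ℕ) :
    ∑ d ∈ m.divisors, N (d % Q) = ∑ d ∈ m.divisors, bsum N Q d [1] := by
  refine sum_congr rfl fun d _ => ?_
  rw [bsum_cons, bsum_nil, mul_one, add_zero]

theorem fin_even {q a m M i Q q1 n : ℕ} {N : ℕ → ℕ} (hq : q.Prime) (hq2 : q ≠ 2)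
    (hN : ∀ d ∈ m.divisors, 1000000 * W m q (a+1) d ≤ N (d % Q))
    (hsym : ∀ d, ¬ q ∣ d → ∃ k, k < n ∧ ∀ v, N (d*v % Q) = N ((k+1+k/q1)*v % Q))
    (rs : List (ℕ × ℕ)) (hrs : ∀ p ∈ rs, p.1.Prime) (hm : m = M * 2^i) (hM2 : ¬ 2 ∣ M)
    (hs : Supp rs M) (hqm : ¬ q ∣ m)
    (ht : tree N Q (q^(a+1)) q1 (2*(a+1)) n rs (ext Q 2 [1] i) = true)
    (hS : S m ≤ 1.13 * m.divisors.card) : Good m q (a+1) := by
  have hM0 : M ≠ 0 := Supp.pos hrs hs
  have hqM : ¬ q ∣ M := fun h => hqm (hm ▸ dvd_mul_of_dvd_left h _)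
  have h1 := tree_sound hsym rs hrs _ M ht hs hqM
  rw [length_ext, List.length_singleton, mul_one] at h1
  have hcard : m.divisors.card = (i+1) * M.divisors.card := by
    rw [hm]; exact card_mul_pow Nat.prime_two hM2 i
  rw [← hcard] at h1
  have hcardR : ((i+1 : ℕ):ℝ) * M.divisors.card = m.divisors.card := by
    rw [hcard]; push_cast; ring
  rw [hcardR] at h1
  rw [← sum_bsum_ext N Q Nat.prime_two hM2 hM0, ← hm, ← sum_N_bsum] at h1
  have hodd : Odd q := hq.odd_of_ne_two hq2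
  have h2 := V_le_odd (m := m) hodd (a+1)
  have h3 : 1000000 * ∑ d ∈ m.divisors, W m q (a+1) d ≤ ((∑ d ∈ m.divisors, N (d % Q) : ℕ):ℝ) := by
    rw [mul_sum]; push_cast
    exact sum_le_sum hN
  unfold Good
  set X : ℝ := (q:ℝ)^(a+1) with hX
  have hXpos : 0 < X := by
    have : (0:ℝ) < q := by exact_mod_cast hq.pos
    positivity
  have hXc : (((q^(a+1) : ℕ)):ℝ) = X := by push_cast; rfl
  rw [hXc] at h1
  set τ : ℝ := (m.divisors.card : ℝ) with hτ
  set H : ℝ := (harmonic m.divisors.card : ℝ) with hH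
  have h4 : S m / X ≤ 1.13 * τ / X := div_le_div_of_nonneg_right hS hXpos.le
  set SW := ∑ d ∈ m.divisors, W m q (a+1) d with hSW
  push_cast at h1 h2
  have h5 : X * (1000000 * SW) + τ * ((2*((a:ℝ)+1)) * (1000000 * H) + 1130000) ≤ τ * 1000000 * X := by
    have : X * (1000000 * SW) ≤ X * ((∑ d ∈ m.divisors, N (d % Q) : ℕ):ℝ) :=
      mul_le_mul_of_nonneg_left h3 hXpos.le
    push_cast at this
    linarith
  have h6 : SW + τ * ((2*((a:ℝ)+1)/X) * H) + 1.13 * τ / X ≤ τ := by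
    rw [← mul_le_mul_iff_right₀ hXpos]
    have e1 : X * (SW + τ * ((2*((a:ℝ)+1)/X) * H) + 1.13 * τ / X)
      = X * SW + τ * (2*((a:ℝ)+1)) * H + 1.13 * τ := by field_simp
    rw [e1]
    nlinarith
  linarith

theorem nu2_le_half {m y d : ℕ} (hm : Odd m) (hy : Odd y) (hd : Odd d) : nu2 m y d ≤ 1/2 := by
  rcases nu2_cases hm y d with h | ⟨e, he, _, h2⟩
  · rw [h]; norm_num
  · rw [h2, phi_eq_int]
    have ho : Odd e := Odd.of_dvd_nat hm (Nat.dvd_of_mem_divisors he)
    obtain ⟨s, hs⟩ : Odd (y*e) := hy.mul ho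
    obtain ⟨t, ht⟩ := hd
    have h3 : ((y*e : ℕ):ℤ) - d = 2 * ((s:ℤ) - t) := by rw [hs, ht]; push_cast; ring
    rw [h3]
    by_cases h0 : (s:ℤ) - t = 0
    · rw [h0]; norm_num
    · have h4 : (1:ℤ) ≤ |(s:ℤ) - t| := Int.one_le_abs h0
      have h5 : (2:ℝ) ≤ |((2 * ((s:ℤ) - t) : ℤ):ℝ)| := by
        rw [← Int.cast_abs, abs_mul]
        have : (2:ℤ) ≤ |2| * |(s:ℤ) - t| := by
          rw [show |(2:ℤ)| = 2 by norm_num]; omega
        exact_mod_cast this
      rw [one_div, one_div]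
      exact inv_anti₀ (by norm_num) h5

theorem W2_odd_le {m q d : ℕ} (hm : Odd m) (hq : Odd q) (hq3 : 3 ≤ q) (hd : Odd d) (a : ℕ) :
    W2 m q a d ≤ q / (2 * ((q:ℝ) - 1)) := by
  have h3 : (3:ℝ) ≤ q := by exact_mod_cast hq3
  have hpos : (0:ℝ) < q - 1 := by linarith
  have hq0 : (0:ℝ) < q := by linarith
  induction a with
  | zero => rw [W2]; positivity
  | succ a ih =>
    rw [W2]
    have h1 := nu2_le_half (y := q^(a+1)) hm hq.pow hd
    have h2 : W2 m q a d / q ≤ (q / (2 * ((q:ℝ) - 1))) / q :=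
      div_le_div_of_nonneg_right ih hq0.le
    have h4 : (q:ℝ) / (2 * ((q:ℝ) - 1)) = 1/2 + (q / (2 * ((q:ℝ) - 1))) / q := by
      field_simp; ring
    linarith

theorem fin_odd_aux {q a m T : ℕ} {κ : ℝ} (hq : q.Prime) (hm : Odd m)
    (hκ : ∀ d ∈ m.divisors, W2 m q a d ≤ κ)
    (hT' : m.divisors.card ≤ T)
    (hc : κ * (q:ℝ)^a + a * harmonic T + 1.13 ≤ (q:ℝ)^a)
    (hS : S m ≤ 1.13 * m.divisors.card) : Good m q a := by
  have h1 := V_le_two (m := m) hm hq.pos a
  have h2 : ∑ d ∈ m.divisors, W2 m q a d ≤ m.divisors.card * κ := by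
    calc _ ≤ ∑ d ∈ m.divisors, κ := sum_le_sum hκ
      _ = _ := by rw [sum_const, nsmul_eq_mul]
  unfold Good
  set X : ℝ := (q:ℝ)^a with hX
  have hXpos : 0 < X := by
    have : (0:ℝ) < q := by exact_mod_cast hq.pos
    positivity
  set τ : ℝ := (m.divisors.card : ℝ) with hτ
  have h3 : S m / X ≤ 1.13 * τ / X := div_le_div_of_nonneg_right hS hXpos.le
  have h4 : (harmonic m.divisors.card : ℝ) ≤ harmonic T := harmonic_mono hT'
  have h5 : ((a:ℝ)/X) * harmonic m.divisors.card ≤ ((a:ℝ)/X) * harmonic T :=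
    mul_le_mul_of_nonneg_left h4 (by positivity)
  have hτ0 : 0 ≤ τ := by positivity
  have h6 : τ * (κ + ((a:ℝ)/X) * harmonic T + 1.13/X) ≤ τ * 1 := by
    apply mul_le_mul_of_nonneg_left _ hτ0
    rw [← mul_le_mul_iff_right₀ hXpos]
    have e1 : X * (κ + ((a:ℝ)/X) * harmonic T + 1.13/X) = κ * X + a * harmonic T + 1.13 := by
      field_simp
    rw [e1]; linarith
  have h7 : τ * (((a:ℝ)/X) * harmonic m.divisors.card) ≤ τ * (((a:ℝ)/X) * harmonic T) :=
    mul_le_mul_of_nonneg_left h5 hτ0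
  have h8 : 1.13 * τ / X = τ * (1.13/X) := by ring
  nlinarith

/-- odd m, odd prime power, at least one level -/
theorem fin_odd {q a m T : ℕ} (hq : q.Prime) (hq2 : q ≠ 2) (hm : Odd m)
    (hT' : m.divisors.card ≤ T)
    (hc : (a * hT T + 1130000) * (2 * (q-1)) ≤ 1000000 * q^a * (q-2))
    (hS : S m ≤ 1.13 * m.divisors.card) : Good m q a := by
  have hodd : Odd q := hq.odd_of_ne_two hq2
  have hq3 : 3 ≤ q := by have := hq.two_le; omega
  have hqR : (3:ℝ) ≤ q := by exact_mod_cast hq3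
  apply fin_odd_aux (κ := q / (2 * ((q:ℝ) - 1))) hq hm _ hT' _ hS
  · intro d hd
    exact W2_odd_le hm hodd hq3 (Odd.of_dvd_nat hm (Nat.dvd_of_mem_divisors hd)) a
  · have h1 := hT_spec T
    have h2 : (((a * hT T + 1130000) * (2 * (q-1)) : ℕ):ℝ)
      ≤ ((1000000 * q^a * (q-2) : ℕ):ℝ) := by exact_mod_cast hc
    push_cast [show 1 ≤ q by omega, show 2 ≤ q by omega] at h2
    have h3 : (a:ℝ) * (1000000 * (harmonic T : ℝ)) ≤ a * hT T :=
      mul_le_mul_of_nonneg_left h1 (by positivity)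
    have h4 : (0:ℝ) < 2 * ((q:ℝ)-1) := by linarith
    have h5 : (1000000 * (a * harmonic T + 1.13)) * (2 * ((q:ℝ)-1))
      ≤ 1000000 * (q:ℝ)^a * ((q:ℝ)-2) := by
      have : (1000000 * (a * harmonic T + 1.13)) * (2 * ((q:ℝ)-1))
        ≤ (a * hT T + 1130000) * (2 * ((q:ℝ)-1)) := by
        apply mul_le_mul_of_nonneg_right _ h4.le
        linarith
      linarith
    have h6 : a * (harmonic T : ℝ) + 1.13 ≤ (q:ℝ)^a * (((q:ℝ)-2) / (2 * ((q:ℝ)-1))) := by
      rw [← mul_div_assoc, le_div_iff₀ h4]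
      linarith
    have h7 : ((q:ℝ)-2) / (2 * ((q:ℝ)-1)) = 1 - q / (2 * ((q:ℝ)-1)) := by
      rw [eq_sub_iff_add_eq, ← add_div, div_eq_one_iff_eq h4.ne']
      ring
    rw [h7] at h6
    linarith

theorem fin_odd_one {q m T : ℕ} (hq : q.Prime) (hq2 : q ≠ 2) (hm : Odd m)
    (hT' : m.divisors.card ≤ T) (hc : hT T + 1130000 ≤ 500000 * q)
    (hS : S m ≤ 1.13 * m.divisors.card) : Good m q 1 := by
  have hodd : Odd q := hq.odd_of_ne_two hq2
  apply fin_odd_aux (κ := 1/2) hq hm _ hT' _ hS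
  · intro d hd
    rw [W2, W2]
    simp only [zero_add, pow_one, zero_div, add_zero]
    exact nu2_le_half hm hodd (Odd.of_dvd_nat hm (Nat.dvd_of_mem_divisors hd))
  · have h1 := hT_spec T
    have h2 : ((hT T + 1130000 : ℕ):ℝ) ≤ ((500000 * q : ℕ):ℝ) := by exact_mod_cast hc
    push_cast at h2 ⊢
    rw [pow_one]
    linarith

/-- check for a prime component with exponent one -/
def chkP (p C : ℕ) : Bool :=
  Nat.ble (hT (prodT (mkrs p (p-1) C 1)) + 1130000) (500000 * p) &&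
  (List.range (mexp 2 1 C 60 1)).all
    (fun i => tree (Np p) p p (p-1) 2 (p/2 - p/2/p) (mkrs p (p-1) C 1) (ext p 2 [1] (i+1)))

theorem chkP_sound {p C m : ℕ} (hp : p.Prime) (hp2 : p ≠ 2) (hp307 : p ≤ 307) (hC : C < 2^50)
    (hC2 : 2 * C < p^2) (h : chkP p C = true) (hm0 : m ≠ 0) (hpm : ¬ p ∣ m)
    (hcon : Con (p-1) C 1 m) (hS : S m ≤ 1.13 * m.divisors.card) : Good m p 1 := by
  unfold chkP at h
  rw [Bool.and_eq_true] at h
  obtain ⟨h1, h2⟩ := h
  have hp1 := hp.two_le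
  by_cases hm2 : 2 ∣ m
  · -- even case
    set i := m.factorization 2 with hi
    set M := m / 2^i with hM
    have hi1 : 1 ≤ i := Nat.prime_two.factorization_pos_of_dvd hm0 hm2
    have hM2 : ¬ 2 ∣ M := Nat.not_dvd_ordCompl Nat.prime_two hm0
    have hmM : m = M * 2^i := by
      rw [mul_comm]; exact (Nat.ordProj_mul_ordCompl_eq_self m 2).symm
    have hM0 : M ≠ 0 := (Nat.ordCompl_pos 2 hm0).ne'
    have hconM : Con (p-1) C 1 M := by
      intro r hr hrM
      have hr2 : r ≠ 2 := by rintro rfl; exact hM2 hrM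
      have h3 := hcon r hr (hrM.trans (Nat.ordCompl_dvd m 2))
      have h4 : M.factorization r = m.factorization r := by
        rw [hM, Nat.factorization_ordCompl, Finsupp.erase_ne hr2]
      rw [h4]; exact h3
    have hpM : ¬ p ∣ M := fun hc => hpm (hc.trans (Nat.ordCompl_dvd m 2))
    have hs : Supp (mkrs p (p-1) C 1) M :=
      mkrs_supp hM0 (by omega) (le_refl _) hC (by rw [Nat.sub_add_cancel (by omega)]; omega)
        hconM hM2 hpM
    have hi2 : i ≤ mexp 2 1 C 60 1 := by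
      rcases Nat.lt_or_ge 1 i with h5 | h5
      · have h6 := (hcon 2 Nat.prime_two hm2).2 h5
        have h7 := exp_small (le_refl 2) (le_refl 1) hC h6
        have := mexp_ge (le_refl 2) h6 60 1 (le_refl _) hi1
        omega
      · have : ∀ f b, b ≤ mexp 2 1 C f b := by
          intro f
          induction f with
          | zero => intro b; exact le_refl _
          | succ f ih => intro b; rw [mexp]; cases Nat.ble (2^(b+1) * 1) ((b+1)*C) with
            | false => exact le_refl _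
            | true => rw [cond_true]; have := ih (b+1); omega
        have := this 60 1
        omega
    rw [List.all_eq_true] at h2
    have h3 := h2 (i-1) (List.mem_range.2 (by omega))
    rw [Nat.sub_add_cancel hi1] at h3
    have hle : p/2/p ≤ p/2 := Nat.div_le_self _ _
    refine fin_even (a := 0) (Q := p) (n := p/2 - p/2/p) (N := Np p) hp hp2 ?_
      (hsym_gen hp1 (dvd_refl p) hp.pos (Np p) (by omega) (Np_neg hp.pos)) _
      (mkrs_prime _ _ _ _) hmM hM2 hs hpm (by simpa using h3) hS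
    intro d hd
    exact W_le_Np hp.one_lt
      (fun e he hc => hpm (hc.trans (Nat.dvd_of_mem_divisors he))) d
  · have hs : Supp (mkrs p (p-1) C 1) m :=
      mkrs_supp hm0 (by omega) (le_refl _) hC (by rw [Nat.sub_add_cancel (by omega)]; omega)
        hcon hm2 hpm
    have hodd : Odd m := by
      rw [← Nat.not_even_iff_odd]; intro h3; exact hm2 h3.two_dvd
    exact fin_odd_one hp hp2 hodd (Supp.card_le (mkrs_prime _ _ _ _) hs) (by
      rw [Nat.ble_eq] at h1; exact h1) hS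

end Pool.Agent.Helper316
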