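import Pool.Agent.Helper316.Fin
set_option autoImplicit false
namespace Pool.Agent.Helper316

open Finset

theorem le_mexp (r den num : ℕ) : ∀ f b, b ≤ mexp r den num f b := by
  intro f
  induction f with
  | zero => intro b; exact le_refl _
  | succ f ih => intro b; rw [mexp]; cases Nat.ble (r^(b+1) * den) ((b+1)*num) with
    | false => exact le_refl _
    | true => rw [cond_true]; have := ih (b+1); omega

theorem split_two {cs num den m : ℕ} (hm0 : m ≠ 0) (hden : 1 ≤ den) (hnum : num < 2^50)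
    (hcon : Con cs num den m) (hm2 : 2 ∣ m) :
    ∃ i M, 1 ≤ i ∧ i ≤ mexp 2 den num 60 1 ∧ m = M * 2^i ∧ ¬ 2 ∣ M ∧ M ≠ 0 ∧ M ∣ m ∧
      Con cs num den M := by
  set i := m.factorization 2 with hi
  set M := m / 2^i with hM
  have hi1 : 1 ≤ i := Nat.prime_two.factorization_pos_of_dvd hm0 hm2
  have hM2 : ¬ 2 ∣ M := Nat.not_dvd_ordCompl Nat.prime_two hm0
  have hmM : m = M * 2^i := by
    rw [mul_comm]; exact (Nat.ordProj_mul_ordCompl_eq_self m 2).symm
  have hM0 : M ≠ 0 := (Nat.ordCompl_pos 2 hm0).ne'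
  refine ⟨i, M, hi1, ?_, hmM, hM2, hM0, Nat.ordCompl_dvd m 2, ?_⟩
  · rcases Nat.lt_or_ge 1 i with h5 | h5
    · have h6 := (hcon 2 Nat.prime_two hm2).2 h5
      have h7 := exp_small (le_refl 2) hden hnum h6
      have := mexp_ge (le_refl 2) h6 60 1 (le_refl _) hi1
      omega
    · have := le_mexp 2 den num 60 1
      omega
  · intro r hr hrM
    have hr2 : r ≠ 2 := by rintro rfl; exact hM2 hrM
    have h3 := hcon r hr (hrM.trans (Nat.ordCompl_dvd m 2))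
    have h4 : M.factorization r = m.factorization r := by
      rw [hM, Nat.factorization_ordCompl, Finsupp.erase_ne hr2]
    rw [h4]; exact h3

/-- check for an odd prime power q^(a+1) -/
def chkW (q a cs : ℕ) : Bool :=
  Nat.ble (((a+1) * hT (prodT (mkrs q cs (q^(a+1)) (a+1))) + 1130000) * (2 * (q-1)))
    (1000000 * q^(a+1) * (q-2)) &&
  (List.range (mexp 2 (a+1) (q^(a+1)) 60 1)).all
    (fun i => tree (topN q a) (q^(a+1)) (q^(a+1)) (q-1) (2*(a+1)) (q^(a+1)/2 - q^(a+1)/2/q)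
      (mkrs q cs (q^(a+1)) (a+1)) (ext (q^(a+1)) 2 [1] (i+1)))

theorem chkW_sound {q a cs m : ℕ} (hq : q.Prime) (hq2 : q ≠ 2) (hcs : cs < 307)
    (hnum : q^(a+1) < 2^50) (hcs2 : 2 * q^(a+1) < (cs+1)^2 * (a+1))
    (h : chkW q a cs = true) (hm0 : m ≠ 0) (hqm : ¬ q ∣ m)
    (hcon : Con cs (q^(a+1)) (a+1) m) (hS : S m ≤ 1.13 * m.divisors.card) :
    Good m q (a+1) := by
  unfold chkW at h
  rw [Bool.and_eq_true] at h
  obtain ⟨h1, h2⟩ := h
  by_cases hm2 : 2 ∣ m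
  · obtain ⟨i, M, hi1, hi2, hmM, hM2, hM0, hMm, hconM⟩ :=
      split_two hm0 (by omega) hnum hcon hm2
    have hqM : ¬ q ∣ M := fun hc => hqm (hc.trans hMm)
    have hs : Supp (mkrs q cs (q^(a+1)) (a+1)) M :=
      mkrs_supp hM0 hcs (by omega) hnum hcs2 hconM hM2 hqM
    rw [List.all_eq_true] at h2
    have h3 := h2 (i-1) (List.mem_range.2 (by omega))
    rw [Nat.sub_add_cancel hi1] at h3
    have hle : q^(a+1)/2/q ≤ q^(a+1)/2 := Nat.div_le_self _ _
    refine fin_even (Q := q^(a+1)) (n := q^(a+1)/2 - q^(a+1)/2/q) (N := topN q a) hq hq2 ?_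
      (hsym_gen hq.two_le (dvd_pow_self q (by omega)) (pow_pos hq.pos _) _ (by omega)
        (topN_neg hq.pos)) _ (mkrs_prime _ _ _ _) hmM hM2 hs hqm h3 hS
    intro d hd
    exact W_le_topN hq.one_lt
      (fun e he hc => hqm (hc.trans (Nat.dvd_of_mem_divisors he))) d a
  · have hs : Supp (mkrs q cs (q^(a+1)) (a+1)) m :=
      mkrs_supp hm0 hcs (by omega) hnum hcs2 hcon hm2 hqm
    have hodd : Odd m := by
      rw [← Nat.not_even_iff_odd]; intro h3; exact hm2 h3.two_dvd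
    exact fin_odd hq hq2 hodd (Supp.card_le (mkrs_prime _ _ _ _) hs) (by
      rw [Nat.ble_eq] at h1; exact h1) hS

/-- absolute difference -/
def adf (x y : ℕ) : ℕ := (x - y) + (y - x)

theorem adf_cast (x y : ℕ) : ((adf x y : ℕ):ℤ) = |(x:ℤ) - y| := by
  unfold adf
  rcases le_total x y with h | h
  · rw [abs_of_nonpos (by omega)]; omega
  · rw [abs_of_nonneg (by omega)]; omega

theorem adf_mod {k e d : ℕ} (he : Odd e) (h : |((2^k*e : ℕ):ℤ) - d| < (2^k : ℕ)) :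
    ((adf (2^k) (d % 2^(k+1)) : ℕ):ℤ) = |((2^k*e : ℕ):ℤ) - d| := by
  obtain ⟨u, hu⟩ := he
  have hk : 0 < 2^k := by positivity
  have h1 : 2^k * e = 2^(k+1) * u + 2^k := by rw [hu]; ring
  have h2 : 2^(k+1) = 2 * 2^k := by ring
  have h3 := abs_lt.1 h
  rw [h1] at h3 ⊢
  have h4 : ∃ r, d = 2^(k+1) * u + r ∧ r < 2^(k+1) := by
    rw [h2] at h3 ⊢
    generalize 2^k = K at *
    generalize 2 * K * u = P at *
    refine ⟨d - P, ?_, ?_⟩
    · push_cast at h3; omega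
    · push_cast at h3; omega
  obtain ⟨r, hr, hr1⟩ := h4
  have h5 : d % 2^(k+1) = r := by rw [hr, Nat.mul_add_mod]; exact Nat.mod_eq_of_lt hr1
  rw [h5, adf_cast]
  congr 1
  rw [hr]; push_cast; ring

def loN2 (r : ℕ) : ℕ → ℕ → ℕ
  | 0, _ => 0
  | (k+1), w => 1000000 / (w * adf (2^(k+1)) (r % 2^(k+2))) + 1 + loN2 r k (w*2)

theorem nu2_le_adf {m d : ℕ} (hm : Odd m) (k : ℕ) :
    nu2 m (2^k) d ≤ 1 / (adf (2^k) (d % 2^(k+1)) : ℝ) := by
  rcases nu2_cases hm (2^k) d with h | ⟨e, he, h1, h2⟩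
  · rw [h]; positivity
  · have ho : Odd e := Odd.of_dvd_nat hm (Nat.dvd_of_mem_divisors he)
    have h3 := adf_mod ho h1
    rw [h2, phi_eq_int]
    have h4 : ((adf (2^k) (d % 2^(k+1)) : ℕ) : ℝ) = |((((2^k*e : ℕ):ℤ) - d : ℤ) : ℝ)| := by
      rw [← Int.cast_abs, ← h3]; simp
    rw [h4]

theorem W2_le_loN2 {m : ℕ} (hm : Odd m) (d : ℕ) (k : ℕ) :
    ∀ w : ℕ, 0 < w → 1000000 * W2 m 2 k d / w ≤ loN2 d k w := by
  induction k with
  | zero => intro w _; simp [W2, loN2]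
  | succ k ih =>
    intro w hw
    have hwR : (0:ℝ) < w := by exact_mod_cast hw
    have h1 := ih (w*2) (by positivity)
    rw [W2, loN2]
    have h2 : 1000000 * (nu2 m (2^(k+1)) d + W2 m 2 k d / (2:ℕ)) / w
      = 1000000 * nu2 m (2^(k+1)) d / w + 1000000 * W2 m 2 k d / ((w*2 : ℕ):ℝ) := by
      push_cast; field_simp
    rw [h2]
    have h3 := nu2_le_adf (d := d) hm (k+1)
    have h4 := div_le_scaled w (adf (2^(k+1)) (d % 2^(k+2)))
    have h5 : 1000000 * nu2 m (2^(k+1)) d / w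
      ≤ ((1000000 / (w * adf (2^(k+1)) (d % 2^(k+2))) + 1 : ℕ):ℝ) := by
      refine le_trans ?_ h4
      push_cast
      rw [show (1000000:ℝ) / (w * (adf (2^(k+1)) (d % 2^(k+2))))
        = 1000000 * (1/(adf (2^(k+1)) (d % 2^(k+2)) : ℝ)) / w by
        rw [mul_one_div, div_div, mul_comm (w:ℝ)]]
      gcongr
    push_cast at h5 h1 ⊢
    linarith

theorem loN2_mod (r a : ℕ) : ∀ k w : ℕ, k < a → loN2 (r % 2^a) k w = loN2 r k w := by
  intro k
  induction k with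
  | zero => intro w _; rfl
  | succ k ih =>
    intro w hk
    rw [loN2, loN2, ih _ (by omega)]
    have h2 : r % 2^a % 2^(k+2) = r % 2^(k+2) :=
      Nat.mod_mod_of_dvd _ (pow_dvd_pow 2 (by omega))
    rw [h2]

theorem adf_symm {k r r' : ℕ} (h : (r + r') % 2^(k+1) = 0) :
    adf (2^k) (r % 2^(k+1)) = adf (2^k) (r' % 2^(k+1)) := by
  have hy : 0 < 2^(k+1) := by positivity
  have h1 : r % 2^(k+1) < 2^(k+1) := Nat.mod_lt _ hy
  have h2 : 2^(k+1) = 2 * 2^k := by ring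
  rcases mod_compl hy h with ⟨h3, h4⟩ | ⟨h3, h4⟩
  · rw [h3, h4]
  · rw [h4]; unfold adf; omega

theorem loN2_symm {r r' a : ℕ} (h : (r + r') % 2^a = 0) :
    ∀ k w : ℕ, k < a → loN2 r k w = loN2 r' k w := by
  intro k
  induction k with
  | zero => intro w _; rfl
  | succ k ih =>
    intro w hk
    rw [loN2, loN2, ih _ (by omega)]
    have hd : (r + r') % 2^(k+1+1) = 0 :=
      Nat.mod_eq_zero_of_dvd ((pow_dvd_pow 2 (by omega)).trans (Nat.dvd_of_mod_eq_zero h))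
    rw [adf_symm hd]

theorem loN2_neg {a : ℕ} (d v : ℕ) :
    loN2 ((2^(a+2) - d % 2^(a+2)) * v % 2^(a+2)) (a+1) 1 = loN2 (d * v % 2^(a+2)) (a+1) 1 :=
  loN2_symm (neg_mod (by positivity) d v) _ _ (by omega)

theorem fin_two {a m : ℕ} (hm : Odd m) (rs : List (ℕ × ℕ)) (hrs : ∀ p ∈ rs, p.1.Prime)
    (hs : Supp rs m)
    (ht : tree (fun r => loN2 r (a+1) 1) (2^(a+2)) (2^(a+1)) 1 (a+1) (2^a) rs [1] = true)
    (hS : S m ≤ 1.13 * m.divisors.card) : Good m 2 (a+1) := by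
  have h2m : ¬ 2 ∣ m := by
    intro h; exact (Nat.not_even_iff_odd.2 hm) ((even_iff_two_dvd).2 h)
  have e1 : 2^(a+2) = 4 * 2^a := by ring
  have h1 := tree_sound (n := 2^a) (hsym_gen (le_refl 2) (dvd_pow_self 2 (by omega)) (by positivity)
    (fun r => loN2 r (a+1) 1) (by rw [e1]; omega) loN2_neg)
    rs hrs _ m ht hs h2m
  rw [List.length_singleton] at h1
  simp only [Nat.cast_one, one_mul] at h1
  rw [← sum_N_bsum] at h1
  have h2 := V_le_two (m := m) hm (q := 2) (by norm_num) (a+1)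
  have h3 : 1000000 * ∑ d ∈ m.divisors, W2 m 2 (a+1) d
      ≤ ((∑ d ∈ m.divisors, loN2 (d % 2^(a+2)) (a+1) 1 : ℕ):ℝ) := by
    rw [mul_sum]; push_cast
    apply sum_le_sum
    intro d _
    rw [loN2_mod d (a+2) (a+1) 1 (by omega)]
    have := W2_le_loN2 hm d (a+1) 1 (by norm_num)
    simpa using this
  unfold Good
  push_cast at h1 h2 h3 ⊢
  set X : ℝ := (2:ℝ)^(a+1) with hX
  have hXpos : 0 < X := by positivity
  set τ : ℝ := (m.divisors.card : ℝ) with hτ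
  set H : ℝ := (harmonic m.divisors.card : ℝ) with hH
  have h4 : S m / X ≤ 1.13 * τ / X := div_le_div_of_nonneg_right hS hXpos.le
  set SW := ∑ d ∈ m.divisors, W2 m 2 (a+1) d with hSW
  have h5 : X * (1000000 * SW) + τ * (((a:ℝ)+1) * (1000000 * H) + 1130000) ≤ τ * 1000000 * X := by
    have := mul_le_mul_of_nonneg_left h3 hXpos.le
    linarith
  have h6 : SW + τ * ((((a:ℝ)+1)/X) * H) + 1.13 * τ / X ≤ τ := by
    rw [← mul_le_mul_iff_right₀ hXpos]
    have e1 : X * (SW + τ * ((((a:ℝ)+1)/X) * H) + 1.13 * τ / X)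
      = X * SW + τ * ((a:ℝ)+1) * H + 1.13 * τ := by field_simp
    rw [e1]
    nlinarith
  linarith

/-- check for 2^(a+1) -/
def chkT (a cs : ℕ) : Bool :=
  tree (fun r => loN2 r (a+1) 1) (2^(a+2)) (2^(a+1)) 1 (a+1) (2^a)
    (mkrs 2 cs (2^(a+1)) (a+1)) [1]

theorem chkT_sound {a cs m : ℕ} (hcs : cs < 307)
    (hnum : 2^(a+1) < 2^50) (hcs2 : 2 * 2^(a+1) < (cs+1)^2 * (a+1))
    (h : chkT a cs = true) (hm0 : m ≠ 0) (hqm : ¬ 2 ∣ m)
    (hcon : Con cs (2^(a+1)) (a+1) m) (hS : S m ≤ 1.13 * m.divisors.card) :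
    Good m 2 (a+1) := by
  have hs : Supp (mkrs 2 cs (2^(a+1)) (a+1)) m :=
    mkrs_supp hm0 hcs (by omega) hnum hcs2 hcon hqm hqm
  have hodd : Odd m := by
    rw [← Nat.not_even_iff_odd]; intro h3; exact hqm h3.two_dvd
  exact fin_two hodd _ (mkrs_prime _ _ _ _) hs h hS

end Pool.Agent.Helper316
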