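import Pool.Agent.Helper316.Far
set_option autoImplicit false
namespace Pool.Agent.Helper316

open Finset

theorem harmonic_sixteen : (harmonic 16 : ℝ) = 2436559/720720 := by
  have : (harmonic 16 : ℚ) = 2436559/720720 := by
    norm_num [harmonic, sum_range_succ]
  rw [this]; push_cast; norm_num

theorem harm_le_log {T : ℕ} (hT : 16 ≤ T) : (harmonic T : ℝ) ≤ 0.608141 + Real.log T := by
  have h1 := Real.strictAnti_eulerMascheroniSeq'.antitone hT
  unfold Real.eulerMascheroniSeq' at h1
  rw [if_neg (by omega), if_neg (by norm_num), harmonic_sixteen] at h1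
  have h2 : Real.log ((16:ℕ):ℝ) = 4 * Real.log 2 := by
    rw [show ((16:ℕ):ℝ) = 2^4 by norm_num, Real.log_pow]; norm_num
  rw [h2] at h1
  have h3 := Real.log_two_gt_d9
  norm_num at h1 ⊢
  linarith

/-- scaled upper bound of the harmonic number -/
def hT (T : ℕ) : ℕ :=
  cond (Nat.blt T 16)
    ([0,1000000,1500000,1833334,2083334,2283334,2450000,2592858,2717858,2828969,2928969,
      3019878,3103211,3180134,3251563,3318230].getD T 0)
    (608141 + 693148 * (Nat.log2 (T^16) + 1) / 16 + 1)

theorem hT_spec (T : ℕ) : (1000000:ℝ) * harmonic T ≤ hT T := by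
  by_cases h : T < 16
  · interval_cases T <;>
      simp only [hT] <;> norm_num [harmonic, sum_range_succ, Nat.blt, Nat.ble]
  · have h16 : 16 ≤ T := by omega
    have hb : Nat.blt T 16 = false := by
      rw [Bool.eq_false_iff]; intro hc; rw [Nat.blt_eq] at hc; omega
    have h1 := harm_le_log h16
    have h2 : T^16 < 2^(Nat.log2 (T^16) + 1) := Nat.lt_log2_self
    set L := Nat.log2 (T^16) with hL
    have h3 : Real.log T * 16 ≤ (L+1) * Real.log 2 := by
      have h4 : ((T^16 : ℕ):ℝ) ≤ ((2^(L+1) : ℕ) : ℝ) := by exact_mod_cast h2.le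
      have h5 := Real.log_le_log (by positivity) h4
      push_cast at h5
      rw [Real.log_pow, Real.log_pow] at h5
      push_cast at h5
      linarith
    have h6 := Real.log_two_lt_d9
    have h7 : ((hT T : ℕ):ℝ) = 608141 + ((693148 * (L+1) / 16 : ℕ):ℝ) + 1 := by
      simp only [hT, hb, cond_false]
      push_cast; rfl
    rw [h7]
    have h8 : (693148 * ((L:ℝ)+1)) / 16 ≤ ((693148 * (L+1) / 16 : ℕ):ℝ) + 1 := by
      have h9 : 693148 * (L+1) < (693148 * (L+1) / 16 + 1) * 16 := by omega
      have h10 : (693148 * ((L:ℝ)+1)) < ((693148 * (L+1) / 16 : ℕ) + 1 : ℝ) * 16 := by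
        exact_mod_cast h9
      linarith
    have h11 : (0:ℝ) ≤ (L:ℝ) + 1 := by positivity
    nlinarith
end Pool.Agent.Helper316
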