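import Mathlib

set_option autoImplicit false

namespace Pool.Agent.Helper316.Invol

open MvPolynomial

variable {n : ℕ}

/-- `P` is given by a function constant + linear + quadratic. -/
def Quad (P : MvPolynomial (Fin n) ℂ) : Prop :=
  ∃ (c : ℂ) (l : (Fin n → ℂ) →ₗ[ℂ] ℂ) (b : (Fin n → ℂ) →ₗ[ℂ] (Fin n → ℂ) →ₗ[ℂ] ℂ),
    (∀ v w, b v w = b w v) ∧ ∀ v, eval v P = c + l v + b v v

theorem quad_zero : Quad (0 : MvPolynomial (Fin n) ℂ) := ⟨0, 0, 0, by simp, by simp⟩

theorem quad_add {P Q : MvPolynomial (Fin n) ℂ} (hP : Quad P) (hQ : Quad Q) : Quad (P + Q) := by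
  obtain ⟨c, l, b, hb, h⟩ := hP
  obtain ⟨c', l', b', hb', h'⟩ := hQ
  refine ⟨c + c', l + l', b + b', ?_, ?_⟩
  · intro v w
    simp [hb v w, hb' v w]
  · intro v
    rw [map_add, h, h']
    simp
    ring

theorem quad_monomial (s : Fin n →₀ ℕ) (a : ℂ) (hs : (s.sum fun _ e => e) ≤ 2) :
    Quad (monomial s a) := by
  have hev : ∀ v : Fin n → ℂ, eval v (monomial s a) = a * ((Finsupp.toMultiset s).map v).prod := by
    intro v
    rw [eval_monomial]
    congr 1
    rw [Finsupp.toMultiset_map, Finsupp.prod_toMultiset,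
      Finsupp.prod_mapDomain_index (fun _ => pow_zero _) (fun _ _ _ => pow_add _ _ _)]
  have hcard : Multiset.card (Finsupp.toMultiset s) ≤ 2 := by
    rw [Finsupp.card_toMultiset]
    exact hs
  have h3 : Multiset.card (Finsupp.toMultiset s) = 0 ∨ Multiset.card (Finsupp.toMultiset s) = 1 ∨
      Multiset.card (Finsupp.toMultiset s) = 2 := by omega
  rcases h3 with h | h | h
  · rw [Multiset.card_eq_zero] at h
    refine ⟨a, 0, 0, by simp, ?_⟩
    intro v
    rw [hev, h]
    simp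
  · rw [Multiset.card_eq_one] at h
    obtain ⟨i, h⟩ := h
    refine ⟨0, a • LinearMap.proj i, 0, by simp, ?_⟩
    intro v
    rw [hev, h]
    simp
  · rw [Multiset.card_eq_two] at h
    obtain ⟨i, j, h⟩ := h
    refine ⟨0, 0, LinearMap.mk₂ ℂ (fun v w => a / 2 * (v i * w j + v j * w i)) ?_ ?_ ?_ ?_, ?_, ?_⟩
    · intro m m' w; simp; ring
    · intro r m w; simp; ring
    · intro m w w'; simp; ring
    · intro r m w; simp; ring
    · intro v w; simp only [LinearMap.mk₂_apply]; ring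
    · intro v
      rw [hev, h]
      simp only [LinearMap.mk₂_apply, LinearMap.zero_apply, Multiset.insert_eq_cons,
        Multiset.map_cons, Multiset.map_singleton, Multiset.prod_cons, Multiset.prod_singleton]
      ring

theorem quad_of_degree (P : MvPolynomial (Fin n) ℂ) (hP : P.totalDegree ≤ 2) : Quad P := by
  rw [P.as_sum]
  apply Finset.sum_induction _ Quad (fun _ _ => quad_add) quad_zero
  intro s hs
  exact quad_monomial s _ ((le_totalDegree hs).trans hP)

theorem coef (a0 a1 a2 a3 a4 : Fin n → ℂ)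
    (h : ∀ t : ℂ, a0 + t • a1 + t ^ 2 • a2 + t ^ 3 • a3 + t ^ 4 • a4 = 0) :
    a0 = 0 ∧ a1 = 0 ∧ a2 = 0 ∧ a3 = 0 ∧ a4 = 0 := by
  have hi : ∀ (i : Fin n) (t : ℂ),
      a0 i + t * a1 i + t ^ 2 * a2 i + t ^ 3 * a3 i + t ^ 4 * a4 i = 0 := by
    intro i t
    simpa using congrFun (h t) i
  refine ⟨funext fun i => ?_, funext fun i => ?_, funext fun i => ?_, funext fun i => ?_,
    funext fun i => ?_⟩
  · simp only [Pi.zero_apply]
    linear_combination hi i 0
  · simp only [Pi.zero_apply]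
    linear_combination (1 / 2) * (hi i 1 - hi i (-1)) -
      (1 / 12) * (hi i 2 - hi i (-2) - 2 * (hi i 1 - hi i (-1)))
  · simp only [Pi.zero_apply]
    linear_combination (1 / 2) * (hi i 1 + hi i (-1)) - hi i 0 -
      (1 / 24) * (hi i 2 + hi i (-2) - 4 * (hi i 1 + hi i (-1)) + 6 * hi i 0)
  · simp only [Pi.zero_apply]
    linear_combination (1 / 12) * (hi i 2 - hi i (-2) - 2 * (hi i 1 - hi i (-1)))
  · simp only [Pi.zero_apply]
    linear_combination (1 / 24) * (hi i 2 + hi i (-2) - 4 * (hi i 1 + hi i (-1)) + 6 * hi i 0)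

/-- Relations satisfied by the data of a quadratic involution. -/
theorem rel (f : (Fin n → ℂ) → (Fin n → ℂ)) (c : Fin n → ℂ) (L : (Fin n → ℂ) →ₗ[ℂ] (Fin n → ℂ))
    (B : (Fin n → ℂ) →ₗ[ℂ] (Fin n → ℂ) →ₗ[ℂ] (Fin n → ℂ)) (hB : ∀ v w, B v w = B w v)
    (hf : ∀ v, f v = c + L v + B v v) (hff : ∀ v, f (f v) = v) (v : Fin n → ℂ) :
    c + L c + B c c = 0 ∧ L (L v) + (2 : ℂ) • B c (L v) - v = 0 ∧
      L (B v v) + B (L v) (L v) + (2 : ℂ) • B c (B v v) = 0 ∧
      (2 : ℂ) • B (L v) (B v v) = 0 ∧ B (B v v) (B v v) = 0 := by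
  apply coef
  intro t
  have h := hff (t • v)
  rw [hf (f (t • v)), hf (t • v)] at h
  simp only [map_add, map_smul, LinearMap.add_apply, LinearMap.smul_apply] at h
  rw [hB (L v) c, hB (B v v) c, hB (B v v) (L v)] at h
  rw [← sub_eq_zero] at h
  rw [← h]
  module

/-- A quadratic involution is linearised by an explicit quadratic automorphism. -/
theorem vec (f : (Fin n → ℂ) → (Fin n → ℂ)) (c : Fin n → ℂ) (L : (Fin n → ℂ) →ₗ[ℂ] (Fin n → ℂ))
    (B : (Fin n → ℂ) →ₗ[ℂ] (Fin n → ℂ) →ₗ[ℂ] (Fin n → ℂ)) (hB : ∀ v w, B v w = B w v)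
    (hf : ∀ v, f v = c + L v + B v v) (hff : ∀ v, f (f v) = v) :
    ∃ (p : Fin n → ℂ) (M : (Fin n → ℂ) →ₗ[ℂ] (Fin n → ℂ))
      (g h : (Fin n → ℂ) → (Fin n → ℂ)),
      (∀ v, g v = (1 / 2 : ℂ) • ((v - p) + M (f v - p))) ∧
      (∀ v, h v = (2 : ℂ) • v - g (v + p) + p) ∧
      (∀ w, h (g w) = w) ∧ (∀ w, g (h w) = w) ∧ (∀ w, g (f (h w)) = M w) := by
  -- the fixed point
  obtain ⟨r0, r1, r2, -, r4⟩ := rel f c L B hB hf hff c
  have hLc : L c = -c - B c c := by
    rw [eq_comm, ← sub_eq_zero]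
    rw [← neg_eq_zero, ← r0]
    module
  rw [hLc] at r1 r2
  simp only [map_neg, map_sub, LinearMap.neg_apply, LinearMap.sub_apply, hLc] at r1 r2
  rw [hB (B c c) c] at r2
  have hcq : B c (B c c) = 0 := by
    have h1 : (2 : ℂ) • B c (B c c) = 0 := by
      have h2 := congrArg₂ (· + ·) r1 r2
      simp only [add_zero] at h2
      rw [← h2, r4]
      module
    exact (smul_eq_zero.mp h1).resolve_left two_ne_zero
  rw [hcq] at r1
  have hLq : L (B c c) = -B c c := by
    rw [← sub_eq_zero, ← neg_eq_zero, ← r1]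
    module
  obtain ⟨p, hp⟩ : ∃ p, p = (1 / 2 : ℂ) • c - (1 / 8 : ℂ) • B c c := ⟨_, rfl⟩
  have hfix : c + L p + B p p = p := by
    rw [hp]
    simp only [map_sub, map_smul, LinearMap.sub_apply, LinearMap.smul_apply]
    rw [hB (B c c) c, hcq, hLc, hLq, r4]
    module
  obtain ⟨M, hM⟩ : ∃ M : (Fin n → ℂ) →ₗ[ℂ] (Fin n → ℂ), ∀ w, M w = L w + (2 : ℂ) • B p w :=
    ⟨L + (2 : ℂ) • B p, fun w => by simp⟩
  have hF : ∀ x, f (x + p) - p = 0 + M x + B x x := by
    intro x
    rw [hf, hM]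
    simp only [map_add, LinearMap.add_apply]
    rw [hB x p]
    have h1 := sub_eq_zero.mpr hfix
    rw [← sub_eq_zero]
    refine Eq.trans ?_ h1
    module
  have hFF : ∀ x, (fun x => f (x + p) - p) ((fun x => f (x + p) - p) x) = x := by
    intro x
    simp only [sub_add_cancel, hff]
    module
  have hr := rel (fun x => f (x + p) - p) 0 M B hB hF hFF
  have s1 : ∀ x, M (M x) = x := by
    intro x
    have := (hr x).2.1
    simpa [sub_eq_zero] using this
  have s2 : ∀ x, B (M x) (M x) = -M (B x x) := by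
    intro x
    have h1 := (hr x).2.2.1
    simp only [map_zero, LinearMap.zero_apply, smul_zero, add_zero] at h1
    rw [← sub_eq_zero, ← h1]
    module
  have s3 : ∀ x, B (M x) (B x x) = 0 := by
    intro x
    exact (smul_eq_zero.mp (hr x).2.2.2.1).resolve_left two_ne_zero
  have s4 : ∀ x, B (B x x) (B x x) = 0 := fun x => (hr x).2.2.2.2
  -- consequences
  have t1 : ∀ x, B x (M (B x x)) = 0 := by
    intro x
    have h1 := s3 (M x)
    rw [s1, s2, map_neg, neg_eq_zero] at h1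
    exact h1
  have t2 : ∀ x, B (M (B x x)) (M (B x x)) = 0 := by
    intro x
    rw [s2, s4, map_zero, neg_zero]
  refine ⟨p, M, fun v => (1 / 2 : ℂ) • ((v - p) + M (f v - p)),
    fun v => (2 : ℂ) • v - (1 / 2 : ℂ) • ((v + p - p) + M (f (v + p) - p)) + p,
    fun v => rfl, fun v => rfl, ?_, ?_, ?_⟩
  · intro w
    obtain ⟨x, rfl⟩ : ∃ x, w = x + p := ⟨w - p, by module⟩
    simp only [hF, zero_add, map_add, s1, add_sub_cancel_right, map_smul, LinearMap.add_apply,
      LinearMap.smul_apply]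
    rw [hB (M (B x x)) x, t1, t2]
    simp only [map_zero, smul_zero, add_zero]
    module
  · intro w
    simp only [hF, zero_add, map_add, s1, add_sub_cancel_right, map_smul, LinearMap.add_apply,
      LinearMap.smul_apply, map_sub, LinearMap.sub_apply]
    rw [hB (M (B w w)) w, t1, t2]
    simp only [map_zero, smul_zero, add_zero, sub_zero]
    module
  · intro w
    have hx : (2 : ℂ) • w - (1 / 2 : ℂ) • ((w + p - p) + M (f (w + p) - p)) + p =
        (w - (1 / 2 : ℂ) • M (B w w)) + p := by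
      simp only [hF, zero_add, map_add, s1, add_sub_cancel_right]
      module
    beta_reduce
    rw [hx, hff, hF]
    simp only [add_sub_cancel_right, zero_add, map_sub, map_smul, s1, LinearMap.sub_apply,
      LinearMap.smul_apply]
    rw [hB (M (B w w)) w, t1, t2]
    simp only [smul_zero, sub_zero]
    module

theorem eval_aeval (v : Fin n → ℂ) (f : Fin n → MvPolynomial (Fin n) ℂ)
    (P : MvPolynomial (Fin n) ℂ) : eval v (aeval f P) = eval (fun i => eval v (f i)) P := by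
  have h := comp_aeval_apply (f := f) (aeval v : MvPolynomial (Fin n) ℂ →ₐ[ℂ] ℂ) P
  simpa [coe_aeval_eq_eval] using h

theorem eval_equiv (F : MvPolynomial (Fin n) ℂ ≃ₐ[ℂ] MvPolynomial (Fin n) ℂ) (v : Fin n → ℂ)
    (P : MvPolynomial (Fin n) ℂ) : eval v (F P) = eval (fun i => eval v (F (X i))) P := by
  have h : F P = aeval (fun i => F (X i)) P := by
    have h1 := comp_aeval_apply (f := (X : Fin n → MvPolynomial (Fin n) ℂ))
      (F : MvPolynomial (Fin n) ℂ →ₐ[ℂ] MvPolynomial (Fin n) ℂ) P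
    rw [aeval_X_left_apply] at h1
    simpa using h1
  rw [h, eval_aeval]

/-- Every involution of degree at most two of affine space is linearizable. -/
theorem main (F : MvPolynomial (Fin n) ℂ ≃ₐ[ℂ] MvPolynomial (Fin n) ℂ)
    (hFF : ∀ p : MvPolynomial (Fin n) ℂ, F (F p) = p)
    (hdeg : ∀ i : Fin n, (F (X i : MvPolynomial (Fin n) ℂ)).totalDegree ≤ 2) :
    ∃ G : MvPolynomial (Fin n) ℂ ≃ₐ[ℂ] MvPolynomial (Fin n) ℂ,
      ∀ i : Fin n, (G.symm (F (G (X i : MvPolynomial (Fin n) ℂ)))).IsHomogeneous 1 := by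
  obtain ⟨f, hfdef⟩ : ∃ f : (Fin n → ℂ) → (Fin n → ℂ), ∀ v, f v = fun i => eval v (F (X i)) :=
    ⟨_, fun v => rfl⟩
  have hevF : ∀ (v : Fin n → ℂ) (P : MvPolynomial (Fin n) ℂ), eval v (F P) = eval (f v) P := by
    intro v P
    rw [hfdef, eval_equiv]
  have hff : ∀ v, f (f v) = v := by
    intro v
    funext i
    have h1 : f (f v) i = eval (f v) (F (X i)) := by rw [hfdef (f v)]
    rw [h1, ← hevF, hFF, eval_X]
  choose c l b hb h using fun i => quad_of_degree (F (X i : MvPolynomial (Fin n) ℂ)) (hdeg i)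
  obtain ⟨p, M, g, k, hg, hk, hkg, hgk, hlin⟩ := vec f c (LinearMap.pi l)
    (LinearMap.mk₂ ℂ (fun v w i => b i v w) (by intro m m' w; ext i; simp)
      (by intro r m w; ext i; simp) (by intro m w w'; ext i; simp) (by intro r m w; ext i; simp))
    (by intro v w; ext i; simp only [LinearMap.mk₂_apply]; exact hb i v w)
    (by intro v; rw [hfdef]; funext i; rw [h i v]; rfl) hff
  -- polynomials for `g` and its inverse
  obtain ⟨Pg, hPg⟩ : ∃ Pg : Fin n → MvPolynomial (Fin n) ℂ, ∀ v i, eval v (Pg i) = g v i := by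
    refine ⟨fun i => C (1 / 2) * ((X i - C (p i)) +
      ∑ j, (F (X j) - C (p j)) * C (M (fun m => if j = m then 1 else 0) i)), ?_⟩
    intro v i
    rw [hg, LinearMap.pi_apply_eq_sum_univ M (f v - p)]
    simp only [map_mul, map_add, map_sub, map_sum, eval_C, eval_X, Pi.smul_apply, Pi.add_apply,
      Pi.sub_apply, smul_eq_mul, Finset.sum_apply, hfdef]
  obtain ⟨Pk, hPk⟩ : ∃ Pk : Fin n → MvPolynomial (Fin n) ℂ, ∀ v i, eval v (Pk i) = k v i := by
    refine ⟨fun i => C 2 * X i - aeval (fun m => X m + C (p m)) (Pg i) + C (p i), ?_⟩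
    intro v i
    rw [hk]
    simp only [map_mul, map_add, map_sub, eval_C, eval_X, eval_aeval, Pi.smul_apply, Pi.add_apply,
      Pi.sub_apply, smul_eq_mul]
    rw [hPg]
    rfl
  have hevg : ∀ (v : Fin n → ℂ) (P : MvPolynomial (Fin n) ℂ),
      eval v (aeval Pg P) = eval (g v) P := by
    intro v P
    rw [eval_aeval]
    congr 2
    funext i
    exact hPg v i
  have hevk : ∀ (v : Fin n → ℂ) (P : MvPolynomial (Fin n) ℂ),
      eval v (aeval Pk P) = eval (k v) P := by
    intro v P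
    rw [eval_aeval]
    congr 2
    funext i
    exact hPk v i
  refine ⟨AlgEquiv.ofAlgHom (aeval Pg) (aeval Pk) ?_ ?_, ?_⟩
  · apply AlgHom.ext
    intro P
    apply MvPolynomial.funext
    intro v
    rw [AlgHom.comp_apply, hevg, hevk, hkg]
    rfl
  · apply AlgHom.ext
    intro P
    apply MvPolynomial.funext
    intro v
    rw [AlgHom.comp_apply, hevk, hevg, hgk]
    rfl
  · intro i
    have hres : (aeval Pk (F (aeval Pg (X i : MvPolynomial (Fin n) ℂ))) : MvPolynomial (Fin n) ℂ) =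
        ∑ j, X j * C (M (fun m => if j = m then 1 else 0) i) := by
      apply MvPolynomial.funext
      intro v
      rw [hevk, hevF, hevg, eval_X, hlin, LinearMap.pi_apply_eq_sum_univ M v]
      simp only [map_sum, map_mul, eval_X, eval_C, Finset.sum_apply, Pi.smul_apply, smul_eq_mul]
    have hgoal : (aeval Pk (F (aeval Pg (X i : MvPolynomial (Fin n) ℂ))) :
        MvPolynomial (Fin n) ℂ).IsHomogeneous 1 := by
      rw [hres]
      apply IsHomogeneous.sum
      intro j _
      exact (isHomogeneous_X ℂ j).mul (isHomogeneous_C (Fin n) _)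
    exact hgoal

end Pool.Agent.Helper316.Invol
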