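import Mathlib

set_option autoImplicit false

namespace Pool.Agent.Helper316.Invol2

open MvPolynomial

variable {n : ℕ}

/-- `P` is given by a function constant + linear + quadratic. -/
def Quad (P : MvPolynomial (Fin n) ℂ) : Prop :=
  ∃ (c : ℂ) (l : (Fin n → ℂ) →ₗ[ℂ] ℂ) (b : (Fin n → ℂ) →ₗ[ℂ] (Fin n → ℂ) →ₗ[ℂ] ℂ),
    (∀ v w, b v w = b w v) ∧ ∀ v, eval v P = c + l v + b v v

theorem quad_zero : Quad (0 : MvPolynomial (Fin n) ℂ) := ⟨0, 0, 0, by simp, by simp⟩

theorem quad_add {P Q : MvPolynomial (Fin n) ℂ} (hP : Quad P) (hQ : Quad Q) : Quad (P + Q) := by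
  obtain ⟨c, l, b, hb, h⟩ := hP
  obtain ⟨c', l', b', hb', h'⟩ := hQ
  refine ⟨c + c', l + l', b + b', ?_, ?_⟩
  · intro v w
    simp [hb v w, hb' v w]
  · intro v
    rw [map_add, h, h']
    simp
    ring

theorem quad_monomial (s : Fin n →₀ ℕ) (a : ℂ) (hs : (s.sum fun _ e => e) ≤ 2) :
    Quad (monomial s a) := by
  have hev : ∀ v : Fin n → ℂ, eval v (monomial s a) = a * ((Finsupp.toMultiset s).map v).prod := by
    intro v
    rw [eval_monomial]
    congr 1
    rw [Finsupp.toMultiset_map, Finsupp.prod_toMultiset,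
      Finsupp.prod_mapDomain_index (fun _ => pow_zero _) (fun _ _ _ => pow_add _ _ _)]
  have hcard : Multiset.card (Finsupp.toMultiset s) ≤ 2 := by
    rw [Finsupp.card_toMultiset]
    exact hs
  have h3 : Multiset.card (Finsupp.toMultiset s) = 0 ∨ Multiset.card (Finsupp.toMultiset s) = 1 ∨
      Multiset.card (Finsupp.toMultiset s) = 2 := by omega
  rcases h3 with h | h | h
  · rw [Multiset.card_eq_zero] at h
    refine ⟨a, 0, 0, by simp, ?_⟩
    intro v
    rw [hev, h]
    simp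
  · rw [Multiset.card_eq_one] at h
    obtain ⟨i, h⟩ := h
    refine ⟨0, a • LinearMap.proj i, 0, by simp, ?_⟩
    intro v
    rw [hev, h]
    simp
  · rw [Multiset.card_eq_two] at h
    obtain ⟨i, j, h⟩ := h
    refine ⟨0, 0, LinearMap.mk₂ ℂ (fun v w => a / 2 * (v i * w j + v j * w i)) ?_ ?_ ?_ ?_, ?_, ?_⟩
    · intro m m' w; simp; ring
    · intro r m w; simp; ring
    · intro m w w'; simp; ring
    · intro r m w; simp; ring
    · intro v w; simp only [LinearMap.mk₂_apply]; ring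
    · intro v
      rw [hev, h]
      simp only [LinearMap.mk₂_apply, LinearMap.zero_apply, Multiset.insert_eq_cons,
        Multiset.map_cons, Multiset.map_singleton, Multiset.prod_cons, Multiset.prod_singleton]
      ring

theorem quad_of_degree (P : MvPolynomial (Fin n) ℂ) (hP : P.totalDegree ≤ 2) : Quad P := by
  rw [P.as_sum]
  apply Finset.sum_induction _ Quad (fun _ _ => quad_add) quad_zero
  intro s hs
  exact quad_monomial s _ ((le_totalDegree hs).trans hP)

theorem coef (a0 a1 a2 a3 a4 : Fin n → ℂ)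
    (h : ∀ t : ℂ, a0 + t • a1 + t ^ 2 • a2 + t ^ 3 • a3 + t ^ 4 • a4 = 0) :
    a0 = 0 ∧ a1 = 0 ∧ a2 = 0 ∧ a3 = 0 ∧ a4 = 0 := by
  have hi : ∀ (i : Fin n) (t : ℂ),
      a0 i + t * a1 i + t ^ 2 * a2 i + t ^ 3 * a3 i + t ^ 4 * a4 i = 0 := by
    intro i t
    simpa using congrFun (h t) i
  refine ⟨funext fun i => ?_, funext fun i => ?_, funext fun i => ?_, funext fun i => ?_,
    funext fun i => ?_⟩
  · simp only [Pi.zero_apply]
    linear_combination hi i 0
  · simp only [Pi.zero_apply]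
    linear_combination (1 / 2) * (hi i 1 - hi i (-1)) -
      (1 / 12) * (hi i 2 - hi i (-2) - 2 * (hi i 1 - hi i (-1)))
  · simp only [Pi.zero_apply]
    linear_combination (1 / 2) * (hi i 1 + hi i (-1)) - hi i 0 -
      (1 / 24) * (hi i 2 + hi i (-2) - 4 * (hi i 1 + hi i (-1)) + 6 * hi i 0)
  · simp only [Pi.zero_apply]
    linear_combination (1 / 12) * (hi i 2 - hi i (-2) - 2 * (hi i 1 - hi i (-1)))
  · simp only [Pi.zero_apply]
    linear_combination (1 / 24) * (hi i 2 + hi i (-2) - 4 * (hi i 1 + hi i (-1)) + 6 * hi i 0)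

/-- Relations satisfied by the data of a quadratic involution. -/
theorem rel (f : (Fin n → ℂ) → (Fin n → ℂ)) (c : Fin n → ℂ) (L : (Fin n → ℂ) →ₗ[ℂ] (Fin n → ℂ))
    (B : (Fin n → ℂ) →ₗ[ℂ] (Fin n → ℂ) →ₗ[ℂ] (Fin n → ℂ)) (hB : ∀ v w, B v w = B w v)
    (hf : ∀ v, f v = c + L v + B v v) (hff : ∀ v, f (f v) = v) (v : Fin n → ℂ) :
    c + L c + B c c = 0 ∧ L (L v) + (2 : ℂ) • B c (L v) - v = 0 ∧
      L (B v v) + B (L v) (L v) + (2 : ℂ) • B c (B v v) = 0 ∧
      (2 : ℂ) • B (L v) (B v v) = 0 ∧ B (B v v) (B v v) = 0 := by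
  apply coef
  intro t
  have h := hff (t • v)
  rw [hf (f (t • v)), hf (t • v)] at h
  simp only [map_add, map_smul, LinearMap.add_apply, LinearMap.smul_apply] at h
  rw [hB (L v) c, hB (B v v) c, hB (B v v) (L v)] at h
  rw [← sub_eq_zero] at h
  rw [← h]
  module

/-- A quadratic involution is linearised by an explicit quadratic automorphism. -/
theorem vec (f : (Fin n → ℂ) → (Fin n → ℂ)) (c : Fin n → ℂ) (L : (Fin n → ℂ) →ₗ[ℂ] (Fin n → ℂ))
    (B : (Fin n → ℂ) →ₗ[ℂ] (Fin n → ℂ) →ₗ[ℂ] (Fin n → ℂ)) (hB : ∀ v w, B v w = B w v)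
    (hf : ∀ v, f v = c + L v + B v v) (hff : ∀ v, f (f v) = v) :
    ∃ (p : Fin n → ℂ) (M : (Fin n → ℂ) →ₗ[ℂ] (Fin n → ℂ))
      (g h : (Fin n → ℂ) → (Fin n → ℂ)),
      (∀ v, g v = (1 / 2 : ℂ) • ((v - p) + M (f v - p))) ∧
      (∀ v, h v = (2 : ℂ) • v - g (v + p) + p) ∧
      (∀ w, h (g w) = w) ∧ (∀ w, g (h w) = w) ∧ (∀ w, g (f (h w)) = M w) := by
  -- the fixed point
  obtain ⟨r0, r1, r2, -, r4⟩ := rel f c L B hB hf hff c
  have hLc : L c = -c - B c c := by
    rw [eq_comm, ← sub_eq_zero]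
    rw [← neg_eq_zero, ← r0]
    module
  rw [hLc] at r1 r2
  simp only [map_neg, map_sub, LinearMap.neg_apply, LinearMap.sub_apply, hLc] at r1 r2
  rw [hB (B c c) c] at r2
  have hcq : B c (B c c) = 0 := by
    have h1 : (2 : ℂ) • B c (B c c) = 0 := by
      have h2 := congrArg₂ (· + ·) r1 r2
      simp only [add_zero] at h2
      rw [← h2, r4]
      module
    exact (smul_eq_zero.mp h1).resolve_left two_ne_zero
  rw [hcq] at r1
  have hLq : L (B c c) = -B c c := by
    rw [← sub_eq_zero, ← neg_eq_zero, ← r1]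
    module
  obtain ⟨p, hp⟩ : ∃ p, p = (1 / 2 : ℂ) • c - (1 / 8 : ℂ) • B c c := ⟨_, rfl⟩
  have hfix : c + L p + B p p = p := by
    rw [hp]
    simp only [map_sub, map_smul, LinearMap.sub_apply, LinearMap.smul_apply]
    rw [hB (B c c) c, hcq, hLc, hLq, r4]
    module
  obtain ⟨M, hM⟩ : ∃ M : (Fin n → ℂ) →ₗ[ℂ] (Fin n → ℂ), ∀ w, M w = L w + (2 : ℂ) • B p w :=
    ⟨L + (2 : ℂ) • B p, fun w => by simp⟩
  have hF : ∀ x, f (x + p) - p = 0 + M x + B x x := by
    intro x
    rw [hf, hM]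
    simp only [map_add, LinearMap.add_apply]
    rw [hB x p]
    have h1 := sub_eq_zero.mpr hfix
    rw [← sub_eq_zero]
    refine Eq.trans ?_ h1
    module
  have hFF : ∀ x, (fun x => f (x + p) - p) ((fun x => f (x + p) - p) x) = x := by
    intro x
    simp only [sub_add_cancel, hff]
    module
  have hr := rel (fun x => f (x + p) - p) 0 M B hB hF hFF
  have s1 : ∀ x, M (M x) = x := by
    intro x
    have := (hr x).2.1
    simpa [sub_eq_zero] using this
  have s2 : ∀ x, B (M x) (M x) = -M (B x x) := by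
    intro x
    have h1 := (hr x).2.2.1
    simp only [map_zero, LinearMap.zero_apply, smul_zero, add_zero] at h1
    rw [← sub_eq_zero, ← h1]
    module
  have s3 : ∀ x, B (M x) (B x x) = 0 := by
    intro x
    exact (smul_eq_zero.mp (hr x).2.2.2.1).resolve_left two_ne_zero
  have s4 : ∀ x, B (B x x) (B x x) = 0 := fun x => (hr x).2.2.2.2
  -- consequences
  have t1 : ∀ x, B x (M (B x x)) = 0 := by
    intro x
    have h1 := s3 (M x)
    rw [s1, s2, map_neg, neg_eq_zero] at h1
    exact h1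
  have t2 : ∀ x, B (M (B x x)) (M (B x x)) = 0 := by
    intro x
    rw [s2, s4, map_zero, neg_zero]
  refine ⟨p, M, fun v => (1 / 2 : ℂ) • ((v - p) + M (f v - p)),
    fun v => (2 : ℂ) • v - (1 / 2 : ℂ) • ((v + p - p) + M (f (v + p) - p)) + p,
    fun v => rfl, fun v => rfl, ?_, ?_, ?_⟩
  · intro w
    obtain ⟨x, rfl⟩ : ∃ x, w = x + p := ⟨w - p, by module⟩
    simp only [hF, zero_add, map_add, s1, add_sub_cancel_right, map_smul, LinearMap.add_apply,
      LinearMap.smul_apply]
    rw [hB (M (B x x)) x, t1, t2]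
    simp only [map_zero, smul_zero, add_zero]
    module
  · intro w
    simp only [hF, zero_add, map_add, s1, add_sub_cancel_right, map_smul, LinearMap.add_apply,
      LinearMap.smul_apply, map_sub, LinearMap.sub_apply]
    rw [hB (M (B w w)) w, t1, t2]
    simp only [map_zero, smul_zero, add_zero, sub_zero]
    module
  · intro w
    have hx : (2 : ℂ) • w - (1 / 2 : ℂ) • ((w + p - p) + M (f (w + p) - p)) + p =
        (w - (1 / 2 : ℂ) • M (B w w)) + p := by
      simp only [hF, zero_add, map_add, s1, add_sub_cancel_right]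
      module
    beta_reduce
    rw [hx, hff, hF]
    simp only [add_sub_cancel_right, zero_add, map_sub, map_smul, s1, LinearMap.sub_apply,
      LinearMap.smul_apply]
    rw [hB (M (B w w)) w, t1, t2]
    simp only [smul_zero, sub_zero]
    module

theorem eval_aeval (v : Fin n → ℂ) (f : Fin n → MvPolynomial (Fin n) ℂ)
    (P : MvPolynomial (Fin n) ℂ) : eval v (aeval f P) = eval (fun i => eval v (f i)) P := by
  have h := comp_aeval_apply (f := f) (aeval v : MvPolynomial (Fin n) ℂ →ₐ[ℂ] ℂ) P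
  simpa [coe_aeval_eq_eval] using h

theorem eval_equiv (F : MvPolynomial (Fin n) ℂ ≃ₐ[ℂ] MvPolynomial (Fin n) ℂ) (v : Fin n → ℂ)
    (P : MvPolynomial (Fin n) ℂ) : eval v (F P) = eval (fun i => eval v (F (X i))) P := by
  have h : F P = aeval (fun i => F (X i)) P := by
    have h1 := comp_aeval_apply (f := (X : Fin n → MvPolynomial (Fin n) ℂ))
      (F : MvPolynomial (Fin n) ℂ →ₐ[ℂ] MvPolynomial (Fin n) ℂ) P
    rw [aeval_X_left_apply] at h1
    simpa using h1
  rw [h, eval_aeval]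

/-- From a linearization at the level of functions to one of algebras. -/
theorem assemble (F : MvPolynomial (Fin n) ℂ ≃ₐ[ℂ] MvPolynomial (Fin n) ℂ)
    (f : (Fin n → ℂ) → (Fin n → ℂ)) (hfdef : ∀ v, f v = fun i => eval v (F (X i)))
    (p : Fin n → ℂ) (M : (Fin n → ℂ) →ₗ[ℂ] (Fin n → ℂ)) (g k : (Fin n → ℂ) → (Fin n → ℂ))
    (hg : ∀ v, g v = (1 / 2 : ℂ) • ((v - p) + M (f v - p)))
    (hk : ∀ v, k v = (2 : ℂ) • v - g (v + p) + p)
    (hkg : ∀ w, k (g w) = w) (hgk : ∀ w, g (k w) = w) (hlin : ∀ w, g (f (k w)) = M w) :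
    ∃ G : MvPolynomial (Fin n) ℂ ≃ₐ[ℂ] MvPolynomial (Fin n) ℂ,
      ∀ i : Fin n, (G.symm (F (G (X i : MvPolynomial (Fin n) ℂ)))).IsHomogeneous 1 := by
  have hevF : ∀ (v : Fin n → ℂ) (P : MvPolynomial (Fin n) ℂ), eval v (F P) = eval (f v) P := by
    intro v P
    rw [hfdef, eval_equiv]
  -- polynomials for `g` and its inverse
  obtain ⟨Pg, hPg⟩ : ∃ Pg : Fin n → MvPolynomial (Fin n) ℂ, ∀ v i, eval v (Pg i) = g v i := by
    refine ⟨fun i => C (1 / 2) * ((X i - C (p i)) +
      ∑ j, (F (X j) - C (p j)) * C (M (fun m => if j = m then 1 else 0) i)), ?_⟩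
    intro v i
    rw [hg, LinearMap.pi_apply_eq_sum_univ M (f v - p)]
    simp only [map_mul, map_add, map_sub, map_sum, eval_C, eval_X, Pi.smul_apply, Pi.add_apply,
      Pi.sub_apply, smul_eq_mul, Finset.sum_apply, hfdef]
  obtain ⟨Pk, hPk⟩ : ∃ Pk : Fin n → MvPolynomial (Fin n) ℂ, ∀ v i, eval v (Pk i) = k v i := by
    refine ⟨fun i => C 2 * X i - aeval (fun m => X m + C (p m)) (Pg i) + C (p i), ?_⟩
    intro v i
    rw [hk]
    simp only [map_mul, map_add, map_sub, eval_C, eval_X, eval_aeval, Pi.smul_apply, Pi.add_apply,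
      Pi.sub_apply, smul_eq_mul]
    rw [hPg]
    rfl
  have hevg : ∀ (v : Fin n → ℂ) (P : MvPolynomial (Fin n) ℂ),
      eval v (aeval Pg P) = eval (g v) P := by
    intro v P
    rw [eval_aeval]
    congr 2
    funext i
    exact hPg v i
  have hevk : ∀ (v : Fin n → ℂ) (P : MvPolynomial (Fin n) ℂ),
      eval v (aeval Pk P) = eval (k v) P := by
    intro v P
    rw [eval_aeval]
    congr 2
    funext i
    exact hPk v i
  refine ⟨AlgEquiv.ofAlgHom (aeval Pg) (aeval Pk) ?_ ?_, ?_⟩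
  · apply AlgHom.ext
    intro P
    apply MvPolynomial.funext
    intro v
    rw [AlgHom.comp_apply, hevg, hevk, hkg]
    rfl
  · apply AlgHom.ext
    intro P
    apply MvPolynomial.funext
    intro v
    rw [AlgHom.comp_apply, hevk, hevg, hgk]
    rfl
  · intro i
    have hres : (aeval Pk (F (aeval Pg (X i : MvPolynomial (Fin n) ℂ))) : MvPolynomial (Fin n) ℂ) =
        ∑ j, X j * C (M (fun m => if j = m then 1 else 0) i) := by
      apply MvPolynomial.funext
      intro v
      rw [hevk, hevF, hevg, eval_X, hlin, LinearMap.pi_apply_eq_sum_univ M v]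
      simp only [map_sum, map_mul, eval_X, eval_C, Finset.sum_apply, Pi.smul_apply, smul_eq_mul]
    have hgoal : (aeval Pk (F (aeval Pg (X i : MvPolynomial (Fin n) ℂ))) :
        MvPolynomial (Fin n) ℂ).IsHomogeneous 1 := by
      rw [hres]
      apply IsHomogeneous.sum
      intro j _
      exact (isHomogeneous_X ℂ j).mul (isHomogeneous_C (Fin n) _)
    exact hgoal

theorem inv_fun (F : MvPolynomial (Fin n) ℂ ≃ₐ[ℂ] MvPolynomial (Fin n) ℂ)
    (hFF : ∀ p : MvPolynomial (Fin n) ℂ, F (F p) = p)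
    (f : (Fin n → ℂ) → (Fin n → ℂ)) (hfdef : ∀ v, f v = fun i => eval v (F (X i)))
    (v : Fin n → ℂ) : f (f v) = v := by
  funext i
  have h1 : f (f v) i = eval (f v) (F (X i)) := by rw [hfdef (f v)]
  have h2 : eval (f v) (F (X i)) = eval v (F (F (X i))) := by
    rw [eval_equiv F v (F (X i)), hfdef v]
  rw [h1, h2, hFF, eval_X]

/-- Every involution of degree at most two of affine space is linearizable. -/
theorem main (F : MvPolynomial (Fin n) ℂ ≃ₐ[ℂ] MvPolynomial (Fin n) ℂ)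
    (hFF : ∀ p : MvPolynomial (Fin n) ℂ, F (F p) = p)
    (hdeg : ∀ i : Fin n, (F (X i : MvPolynomial (Fin n) ℂ)).totalDegree ≤ 2) :
    ∃ G : MvPolynomial (Fin n) ℂ ≃ₐ[ℂ] MvPolynomial (Fin n) ℂ,
      ∀ i : Fin n, (G.symm (F (G (X i : MvPolynomial (Fin n) ℂ)))).IsHomogeneous 1 := by
  obtain ⟨f, hfdef⟩ : ∃ f : (Fin n → ℂ) → (Fin n → ℂ), ∀ v, f v = fun i => eval v (F (X i)) :=
    ⟨_, fun v => rfl⟩
  choose c l b hb h using fun i => quad_of_degree (F (X i : MvPolynomial (Fin n) ℂ)) (hdeg i)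
  obtain ⟨p, M, g, k, hg, hk, hkg, hgk, hlin⟩ := vec f c (LinearMap.pi l)
    (LinearMap.mk₂ ℂ (fun v w i => b i v w) (by intro m m' w; ext i; simp)
      (by intro r m w; ext i; simp) (by intro m w w'; ext i; simp) (by intro r m w; ext i; simp))
    (by intro v w; ext i; simp only [LinearMap.mk₂_apply]; exact hb i v w)
    (by intro v; rw [hfdef]; funext i; rw [h i v]; rfl) (inv_fun F hFF f hfdef)
  exact assemble F f hfdef p M g k hg hk hkg hgk hlin

theorem eval_smul_hom (d : ℕ) (φ : MvPolynomial (Fin n) ℂ) (hφ : φ.IsHomogeneous d) (t : ℂ)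
    (v : Fin n → ℂ) : eval (t • v) φ = t ^ d * eval v φ := by
  rw [eval_eq', eval_eq', Finset.mul_sum]
  refine Finset.sum_congr rfl fun s hs => ?_
  have hsum : ∑ i, s i = d := by
    have h1 := hφ (mem_support_iff.mp hs)
    simpa [Finsupp.weight_apply, Finsupp.sum_fintype] using h1
  simp only [Pi.smul_apply, smul_eq_mul, mul_pow, Finset.prod_mul_distrib]
  rw [Finset.prod_pow_eq_pow_sum, hsum]
  ring

theorem lin_of_hom (φ : MvPolynomial (Fin n) ℂ) (hφ : φ.IsHomogeneous 1) :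
    ∃ l : (Fin n → ℂ) →ₗ[ℂ] ℂ, ∀ v, eval v φ = l v := by
  have hd : φ.totalDegree ≤ 2 := (hφ.totalDegree_le).trans (by norm_num)
  obtain ⟨c, l, b, hb, h⟩ := quad_of_degree φ hd
  refine ⟨l, fun v => ?_⟩
  have h0 := eval_smul_hom 1 φ hφ 0 v
  have h2 := eval_smul_hom 1 φ hφ 2 v
  rw [h, h] at h0 h2
  simp only [map_smul, LinearMap.smul_apply, smul_eq_mul, zero_smul, map_zero, LinearMap.zero_apply] at h0 h2
  rw [h]
  linear_combination (3 / 2) * h0 + (1 / 2) * h2

/-- Every involution of affine space which is the sum of a linear map and of a map homogeneous of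
degree `d ≥ 2` is linearizable. -/
theorem homog (d : ℕ) (hd : 2 ≤ d) (F : MvPolynomial (Fin n) ℂ ≃ₐ[ℂ] MvPolynomial (Fin n) ℂ)
    (hFF : ∀ p : MvPolynomial (Fin n) ℂ, F (F p) = p)
    (hdeg : ∀ i : Fin n, ∃ l h : MvPolynomial (Fin n) ℂ, l.IsHomogeneous 1 ∧ h.IsHomogeneous d ∧
      F (X i : MvPolynomial (Fin n) ℂ) = l + h) :
    ∃ G : MvPolynomial (Fin n) ℂ ≃ₐ[ℂ] MvPolynomial (Fin n) ℂ,
      ∀ i : Fin n, (G.symm (F (G (X i : MvPolynomial (Fin n) ℂ)))).IsHomogeneous 1 := by
  obtain ⟨f, hfdef⟩ : ∃ f : (Fin n → ℂ) → (Fin n → ℂ), ∀ v, f v = fun i => eval v (F (X i)) :=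
    ⟨_, fun v => rfl⟩
  have hff := inv_fun F hFF f hfdef
  choose l h hl hh hF using hdeg
  choose l' hl' using fun i => lin_of_hom (l i) (hl i)
  obtain ⟨L, hL⟩ : ∃ L : (Fin n → ℂ) →ₗ[ℂ] (Fin n → ℂ), ∀ v i, L v i = eval v (l i) :=
    ⟨LinearMap.pi l', fun v i => by rw [hl']; rfl⟩
  obtain ⟨H, hH⟩ : ∃ H : (Fin n → ℂ) → (Fin n → ℂ), ∀ v i, H v i = eval v (h i) :=
    ⟨fun v i => eval v (h i), fun v i => rfl⟩
  have hf : ∀ v, f v = L v + H v := by
    intro v
    rw [hfdef]
    funext i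
    rw [hF, map_add, Pi.add_apply, hL, hH]
  have hHs : ∀ (t : ℂ) v, H (t • v) = t ^ d • H v := by
    intro t v
    funext i
    rw [hH, Pi.smul_apply, hH, smul_eq_mul, eval_smul_hom d _ (hh i)]
  -- the relations
  have key : ∀ (v : Fin n → ℂ) (i : Fin n), L (L v) i - v i = 0 ∧
      ∀ s : ℂ, L (H v) i + H (L v + s • H v) i = 0 := by
    intro v i
    obtain ⟨η, hη⟩ : ∃ η : Polynomial ℂ, ∀ s : ℂ, η.eval s = H (L v + s • H v) i := by
      refine ⟨aeval (fun m => Polynomial.C (L v m) + Polynomial.X * Polynomial.C (H v m)) (h i), ?_⟩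
      intro s
      rw [hH]
      have h2 := comp_aeval_apply
        (f := fun m => Polynomial.C (L v m) + Polynomial.X * Polynomial.C (H v m))
        (Polynomial.aeval s : Polynomial ℂ →ₐ[ℂ] ℂ) (h i)
      rw [Polynomial.coe_aeval_eq_eval] at h2
      have hfun : (fun m => Polynomial.eval s (Polynomial.C (L v m) +
          Polynomial.X * Polynomial.C (H v m))) = L v + s • H v := by
        funext m
        simp
        try ring
      rw [h2, hfun]
      rfl
    have hq : (Polynomial.C (L (L v) i - v i) + Polynomial.X * (Polynomial.C (L (H v) i) + η) :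
        Polynomial ℂ) = 0 := by
      apply Polynomial.eq_zero_of_infinite_isRoot
      apply Set.Infinite.mono (s := {s : ℂ | s ≠ 0})
      · intro s hs
        obtain ⟨t, ht⟩ := IsAlgClosed.exists_pow_nat_eq s (show 0 < d - 1 by omega)
        have ht0 : t ≠ 0 := by
          rintro rfl
          rw [zero_pow (by omega)] at ht
          exact hs ht.symm
        have hx := congrFun (hff (t • v)) i
        have hd1 : t ^ d = t * s := by
          rw [← ht, ← pow_succ']
          congr 1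
          omega
        have e1 : f (t • v) = t • (L v + s • H v) := by
          rw [hf, map_smul, hHs, hd1, smul_add, smul_smul]
        rw [e1, hf, map_smul, hHs, hd1] at hx
        simp only [Pi.add_apply, Pi.smul_apply, smul_eq_mul, map_add, map_smul] at hx
        simp only [Set.mem_setOf_eq, Polynomial.IsRoot.def, Polynomial.eval_add, Polynomial.eval_mul,
          Polynomial.eval_C, Polynomial.eval_X, hη]
        have h5 : t * (L (L v) i - v i + s * (L (H v) i + H (L v + s • H v) i)) = 0 := by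
          linear_combination hx
        exact (mul_eq_zero.mp h5).resolve_left ht0
      · exact (Set.finite_singleton (0 : ℂ)).infinite_compl
    have h0 := congrArg (Polynomial.eval 0) hq
    simp only [Polynomial.eval_add, Polynomial.eval_mul, Polynomial.eval_C, Polynomial.eval_X,
      zero_mul, add_zero, Polynomial.eval_zero] at h0
    refine ⟨h0, fun s => ?_⟩
    rw [h0, Polynomial.C_0, zero_add, mul_eq_zero] at hq
    have h1 := congrArg (Polynomial.eval s) (hq.resolve_left Polynomial.X_ne_zero)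
    simpa [hη] using h1
  have s1 : ∀ x, L (L x) = x := by
    intro x
    funext i
    have := (key x i).1
    linear_combination this
  have s2 : ∀ x (s : ℂ), H (L x + s • H x) = -L (H x) := by
    intro x s
    funext i
    have := (key x i).2 s
    rw [Pi.neg_apply]
    linear_combination this
  have s3 : ∀ x, H (L x) = -L (H x) := by
    intro x
    have := s2 x 0
    simpa using this
  have s4 : ∀ x (s : ℂ), H (x + s • L (H x)) = H x := by
    intro x s
    have h1 := s2 (L x) (-s)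
    rw [s1, s3, map_neg, s1, neg_neg, smul_neg, neg_smul, neg_neg] at h1
    exact h1
  refine assemble F f hfdef 0 L (fun v => v + (1 / 2 : ℂ) • L (H v))
    (fun v => v + (-1 / 2 : ℂ) • L (H v)) ?_ ?_ ?_ ?_ ?_
  · intro v
    beta_reduce
    rw [hf, sub_zero, sub_zero, map_add, s1]
    module
  · intro v
    simp only [add_zero]
    module
  · intro w
    beta_reduce
    rw [s4]
    module
  · intro w
    beta_reduce
    rw [s4]
    module
  · intro w
    beta_reduce
    have e1 : L (f (w + (-1 / 2 : ℂ) • L (H w))) = w + (-1 / 2 : ℂ) • L (H w) + L (H w) := by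
      rw [hf, map_add, s1, s4]
    have e2 : H (f (w + (-1 / 2 : ℂ) • L (H w))) = -L (H (w + (-1 / 2 : ℂ) • L (H w))) := by
      have h1 := s2 (w + (-1 / 2 : ℂ) • L (H w)) 1
      rw [one_smul] at h1
      rw [hf]
      exact h1
    rw [e2, s4, map_neg, s1, hf, s4, map_add, map_smul, s1]
    module

end Pool.Agent.Helper316.Invol2
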