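import Mathlib
import Pool.Agent.Helper316.Invol2

set_option autoImplicit false

namespace Pool.Agent.Helper316.Invol3

open MvPolynomial Pool.Agent.Helper316.Invol2

variable {n : ℕ}

theorem aeval_mul_hom (d : ℕ) (φ : MvPolynomial (Fin n) ℂ) (hφ : φ.IsHomogeneous d)
    (P : Polynomial ℂ) (c : Fin n → Polynomial ℂ) :
    aeval (fun m => P * c m) φ = P ^ d * aeval c φ := by
  rw [aeval_def, aeval_def, eval₂_eq', eval₂_eq', Finset.mul_sum]
  refine Finset.sum_congr rfl fun s hs => ?_
  have hsum : ∑ i, s i = d := by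
    have h1 := hφ (mem_support_iff.mp hs)
    simpa [Finsupp.weight_apply, Finsupp.sum_fintype] using h1
  simp only [mul_pow, Finset.prod_mul_distrib]
  rw [Finset.prod_pow_eq_pow_sum, hsum]
  ring

theorem aeval_dvd (φ : MvPolynomial (Fin n) ℂ) (a c : Fin n → Polynomial ℂ) (D : Polynomial ℂ)
    (h : ∀ m, D ∣ c m - a m) : D ∣ aeval c φ - aeval a φ := by
  induction φ using MvPolynomial.induction_on with
  | C r => simp
  | add p q hp hq =>
    rw [map_add, map_add, add_sub_add_comm]
    exact dvd_add hp hq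
  | mul_X p i hp =>
    rw [map_mul, map_mul, aeval_X, aeval_X]
    have h1 : aeval c p * c i - aeval a p * a i =
        (aeval c p - aeval a p) * c i + aeval a p * (c i - a i) := by ring
    rw [h1]
    exact dvd_add (hp.mul_right _) ((h i).mul_left _)

theorem aeval_const (φ : MvPolynomial (Fin n) ℂ) (v : Fin n → ℂ) :
    aeval (fun m => Polynomial.C (v m)) φ = Polynomial.C (eval v φ) := by
  have h := MvPolynomial.aeval_algebraMap_apply (A := ℂ) (B := Polynomial ℂ) v φ
  have h2 : (aeval v) φ = eval v φ := by simp [aeval_eq_eval]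
  rw [h2] at h
  exact h

theorem lin_form (φ : MvPolynomial (Fin n) ℂ) (hφ : φ.IsHomogeneous 1) :
    ∃ a : Fin n → ℂ, φ = ∑ m, C (a m) * X m := by
  obtain ⟨l, hl⟩ := lin_of_hom φ hφ
  refine ⟨fun m => l (fun k => if m = k then 1 else 0), ?_⟩
  apply MvPolynomial.funext
  intro v
  rw [hl, LinearMap.pi_apply_eq_sum_univ l v]
  simp only [map_sum, map_mul, eval_C, eval_X, smul_eq_mul]
  refine Finset.sum_congr rfl fun m _ => ?_
  ring

theorem gap_rel (d : ℕ) (hd : 2 ≤ d) (F : MvPolynomial (Fin n) ℂ ≃ₐ[ℂ] MvPolynomial (Fin n) ℂ)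
    (hFF : ∀ p : MvPolynomial (Fin n) ℂ, F (F p) = p)
    (l : Fin n → MvPolynomial (Fin n) ℂ) (h : Fin n → ℕ → MvPolynomial (Fin n) ℂ)
    (hl : ∀ i, (l i).IsHomogeneous 1) (hh : ∀ i j, (h i j).IsHomogeneous j)
    (hF : ∀ i, F (X i : MvPolynomial (Fin n) ℂ) = l i + ∑ j ∈ Finset.Icc d (2 * d - 2), h i j)
    (a : Fin n → Fin n → ℂ) (ha : ∀ i, l i = ∑ m, C (a i m) * X m) (v : Fin n → ℂ) (i : Fin n) :
    (∑ m, a i m * (∑ m', a m m' * v m')) = v i ∧
      ∀ k ∈ Finset.Icc d (2 * d - 2),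
        (∑ m, a i m * eval v (h m k)) + eval (fun m => ∑ m', a m m' * v m') (h i k) = 0 := by
  obtain ⟨w, hw⟩ : ∃ w : Fin n → ℂ, w = fun m => ∑ m', a m m' * v m' := ⟨_, rfl⟩
  have hlw : ∀ m, eval v (l m) = w m := by
    intro m
    rw [ha, hw]
    simp
  rw [← hw]
  have hww : ∀ m, (∑ m', a m m' * v m') = w m := fun m => by rw [hw]
  simp only [hww]
  obtain ⟨θ, hθ⟩ : ∃ θ : MvPolynomial (Fin n) ℂ →ₐ[ℂ] Polynomial ℂ,
      θ = aeval (fun m => Polynomial.X * Polynomial.C (v m)) := ⟨_, rfl⟩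
  have hθh : ∀ (k : ℕ) (φ : MvPolynomial (Fin n) ℂ), φ.IsHomogeneous k →
      θ φ = Polynomial.X ^ k * Polynomial.C (eval v φ) := by
    intro k φ hφ
    rw [hθ, aeval_mul_hom k φ hφ, aeval_const]
  obtain ⟨η, hη⟩ : ∃ η : Fin n → Polynomial ℂ, ∀ m, η m = ∑ j ∈ Finset.Icc d (2 * d - 2),
      Polynomial.X ^ (j - d) * Polynomial.C (eval v (h m j)) := ⟨_, fun m => rfl⟩
  obtain ⟨c, hc⟩ : ∃ c : Fin n → Polynomial ℂ, ∀ m, c m = Polynomial.C (w m) +
      Polynomial.X ^ (d - 1) * η m := ⟨_, fun m => rfl⟩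
  have hηs : ∀ m, Polynomial.X ^ d * η m = ∑ j ∈ Finset.Icc d (2 * d - 2),
      Polynomial.X ^ j * Polynomial.C (eval v (h m j)) := by
    intro m
    rw [hη, Finset.mul_sum]
    refine Finset.sum_congr rfl fun j hj => ?_
    rw [Finset.mem_Icc] at hj
    rw [← mul_assoc, ← pow_add]
    congr 2
    omega
  have hXd : (Polynomial.X : Polynomial ℂ) * Polynomial.X ^ (d - 1) = Polynomial.X ^ d := by
    rw [← pow_succ']
    congr 1
    omega
  have hθF : ∀ m, θ (F (X m)) = Polynomial.X * c m := by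
    intro m
    rw [hF, map_add, map_sum, hθh 1 _ (hl m), hlw, hc, mul_add, ← mul_assoc, hXd, hηs, pow_one]
    congr 1
    exact Finset.sum_congr rfl fun j _ => hθh j _ (hh m j)
  -- the main identity
  have hmain : aeval (fun m => Polynomial.X * c m) (F (X i)) =
      Polynomial.X * Polynomial.C (v i) := by
    have h1 : F (F (X i)) = aeval (fun m => F (X m)) (F (X i)) := by
      have h2 := comp_aeval_apply (f := (X : Fin n → MvPolynomial (Fin n) ℂ))
        (F : MvPolynomial (Fin n) ℂ →ₐ[ℂ] MvPolynomial (Fin n) ℂ) (F (X i))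
      rw [aeval_X_left_apply] at h2
      simpa using h2
    have h3 : θ (X i) = θ (aeval (fun m => F (X m)) (F (X i))) := by rw [← h1, hFF]
    have h4 : θ (aeval (fun m => F (X m)) (F (X i))) =
        aeval (fun m => θ (F (X m))) (F (X i)) := comp_aeval_apply (f := fun m => F (X m)) θ (F (X i))
    have h5 : (fun m => θ (F (X m))) = fun m => Polynomial.X * c m := funext hθF
    have h6 : θ (X i) = Polynomial.X * Polynomial.C (v i) := by rw [hθ, aeval_X]
    rw [h5] at h4
    exact h4.symm.trans (h3.symm.trans h6)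
  have hlin : aeval (fun m => Polynomial.X * c m) (l i) =
      Polynomial.X * Polynomial.C (∑ m, a i m * w m) +
        ∑ j ∈ Finset.Icc d (2 * d - 2), Polynomial.X ^ j *
          Polynomial.C (∑ m, a i m * eval v (h m j)) := by
    have ht : ∀ m, Polynomial.C (a i m) * (Polynomial.X * c m) =
        Polynomial.X * Polynomial.C (a i m * w m) + ∑ j ∈ Finset.Icc d (2 * d - 2),
          Polynomial.X ^ j * Polynomial.C (a i m * eval v (h m j)) := by
      intro m
      have e1 : Polynomial.C (a i m) * (Polynomial.X ^ d * η m) =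
          ∑ j ∈ Finset.Icc d (2 * d - 2),
            Polynomial.X ^ j * Polynomial.C (a i m * eval v (h m j)) := by
        rw [hηs, Finset.mul_sum]
        refine Finset.sum_congr rfl fun j _ => ?_
        rw [Polynomial.C_mul]
        ring
      rw [← e1, hc, Polynomial.C_mul, ← hXd]
      ring
    have ht2 : ∀ m, aeval (fun m => Polynomial.X * c m) (C (a i m) * X m : MvPolynomial (Fin n) ℂ) =
        Polynomial.C (a i m) * (Polynomial.X * c m) := by
      intro m
      rw [map_mul, aeval_X, aeval_C]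
      rfl
    rw [ha i, map_sum, Finset.sum_congr rfl fun m _ => (ht2 m).trans (ht m),
      Finset.sum_add_distrib, Finset.sum_comm, ← Finset.mul_sum, ← map_sum]
    refine congrArg (fun z => Polynomial.X * Polynomial.C (∑ m, a i m * w m) + z) ?_
    refine Finset.sum_congr rfl fun j _ => ?_
    rw [← Finset.mul_sum, ← map_sum]
  obtain ⟨α, hα⟩ : ∃ α : ℂ, α = ∑ m, a i m * w m := ⟨_, rfl⟩
  obtain ⟨β, hβ⟩ : ∃ β : ℕ → ℂ, ∀ j, β j = (∑ m, a i m * eval v (h m j)) + eval w (h i j) :=
    ⟨_, fun j => rfl⟩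
  have hdv : Polynomial.X ^ (2 * d - 1) ∣
      Polynomial.X * Polynomial.C (α - v i) +
        ∑ j ∈ Finset.Icc d (2 * d - 2), Polynomial.X ^ j * Polynomial.C (β j) := by
    have h1 : (Polynomial.X * Polynomial.C (α - v i) +
        ∑ j ∈ Finset.Icc d (2 * d - 2), Polynomial.X ^ j * Polynomial.C (β j) : Polynomial ℂ) =
        -∑ j ∈ Finset.Icc d (2 * d - 2), Polynomial.X ^ j *
          (aeval c (h i j) - aeval (fun m => Polynomial.C (w m)) (h i j)) := by
      have h2 : ∀ j, aeval (fun m => Polynomial.X * c m) (h i j) =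
          Polynomial.X ^ j * aeval c (h i j) := fun j => aeval_mul_hom j _ (hh i j) _ _
      have hs : aeval (fun m => Polynomial.X * c m) (∑ j ∈ Finset.Icc d (2 * d - 2), h i j) =
          ∑ j ∈ Finset.Icc d (2 * d - 2), Polynomial.X ^ j * aeval c (h i j) := by
        rw [map_sum]
        exact Finset.sum_congr rfl fun j _ => h2 j
      rw [hF, map_add, hlin, hs, ← hα] at hmain
      simp only [hβ, aeval_const, mul_sub, Finset.sum_sub_distrib, Polynomial.C_sub,
        Polynomial.C_add, mul_add, Finset.sum_add_distrib]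
      linear_combination hmain
    rw [h1, dvd_neg]
    apply Finset.dvd_sum
    intro j hj
    rw [Finset.mem_Icc] at hj
    have h3 : (Polynomial.X ^ (2 * d - 1) : Polynomial ℂ) ∣
        Polynomial.X ^ j * Polynomial.X ^ (d - 1) := by
      rw [← pow_add]
      exact pow_dvd_pow _ (by omega)
    refine h3.trans (mul_dvd_mul_left _ (aeval_dvd _ _ _ _ fun m => ?_))
    rw [hc, add_sub_cancel_left]
    exact dvd_mul_right _ _
  rw [Polynomial.X_pow_dvd_iff] at hdv
  rw [← hα]
  simp only [← hβ]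
  constructor
  · have h1 := hdv 1 (by omega)
    rw [Polynomial.coeff_add, Polynomial.finsetSum_coeff, Finset.sum_eq_zero] at h1
    · rw [← zero_add 1, Polynomial.coeff_X_mul, Polynomial.coeff_C_zero] at h1
      linear_combination h1
    · intro j hj
      rw [Finset.mem_Icc] at hj
      rw [Polynomial.coeff_X_pow_mul', if_neg (by omega)]
  · intro k hk
    have hk' := Finset.mem_Icc.mp hk
    have h1 := hdv k (by omega)
    rw [Polynomial.coeff_add, Polynomial.finsetSum_coeff, Finset.sum_eq_single k] at h1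
    · obtain ⟨k', rfl⟩ : ∃ k', k = k' + 1 := ⟨k - 1, by omega⟩
      rw [Polynomial.coeff_X_mul, Polynomial.coeff_C, if_neg (by omega), Polynomial.coeff_X_pow_mul',
        if_pos le_rfl, Nat.sub_self, Polynomial.coeff_C_zero] at h1
      linear_combination h1
    · intro j hj hjk
      rw [Polynomial.coeff_X_pow_mul']
      split_ifs with h2
      · rw [Polynomial.coeff_C, if_neg (by omega)]
      · rfl
    · intro h2
      exact absurd hk h2

/-- Involutions whose nonlinear part has degrees between `d` and `2 d - 2`. -/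
theorem gap (d : ℕ) (hd : 2 ≤ d) (F : MvPolynomial (Fin n) ℂ ≃ₐ[ℂ] MvPolynomial (Fin n) ℂ)
    (hFF : ∀ p : MvPolynomial (Fin n) ℂ, F (F p) = p)
    (hdeg : ∀ i : Fin n, ∀ s ∈ (F (X i : MvPolynomial (Fin n) ℂ)).support,
      s.degree = 1 ∨ (d ≤ s.degree ∧ s.degree ≤ 2 * d - 2)) :
    ∃ G : MvPolynomial (Fin n) ℂ ≃ₐ[ℂ] MvPolynomial (Fin n) ℂ,
      ∀ i : Fin n, (G.symm (F (G (X i : MvPolynomial (Fin n) ℂ)))).IsHomogeneous 1 := by
  obtain ⟨f, hfdef⟩ : ∃ f : (Fin n → ℂ) → (Fin n → ℂ), ∀ v, f v = fun i => eval v (F (X i)) :=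
    ⟨_, fun v => rfl⟩
  have hff := inv_fun F hFF f hfdef
  obtain ⟨l, hl'⟩ : ∃ l : Fin n → MvPolynomial (Fin n) ℂ,
      ∀ i, l i = homogeneousComponent 1 (F (X i)) := ⟨_, fun i => rfl⟩
  obtain ⟨h, hh'⟩ : ∃ h : Fin n → ℕ → MvPolynomial (Fin n) ℂ,
      ∀ i j, h i j = homogeneousComponent j (F (X i)) := ⟨_, fun i j => rfl⟩
  have hl : ∀ i, (l i).IsHomogeneous 1 := fun i => by
    rw [hl']
    exact homogeneousComponent_isHomogeneous _ _
  have hh : ∀ i j, (h i j).IsHomogeneous j := fun i j => by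
    rw [hh']
    exact homogeneousComponent_isHomogeneous _ _
  have hF : ∀ i, F (X i : MvPolynomial (Fin n) ℂ) =
      l i + ∑ j ∈ Finset.Icc d (2 * d - 2), h i j := by
    intro i
    ext s
    rw [coeff_add, coeff_sum, hl', coeff_homogeneousComponent]
    simp only [hh', coeff_homogeneousComponent]
    rw [Finset.sum_ite_eq]
    by_cases hs : s ∈ (F (X i : MvPolynomial (Fin n) ℂ)).support
    · rcases hdeg i s hs with h1 | h1
      · rw [if_pos h1, if_neg (by rw [Finset.mem_Icc]; omega), add_zero]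
      · rw [if_neg (by omega), if_pos (by rw [Finset.mem_Icc]; exact h1), zero_add]
    · rw [notMem_support_iff.mp hs]
      simp
  choose a ha using fun i => lin_form (l i) (hl i)
  have hrel := gap_rel d hd F hFF l h hl hh hF a ha
  obtain ⟨L, hL⟩ : ∃ L : (Fin n → ℂ) →ₗ[ℂ] (Fin n → ℂ), ∀ v, L v = fun i => ∑ m, a i m * v m :=
    ⟨Matrix.mulVecLin (Matrix.of a), fun v => by
      funext i
      simp [Matrix.mulVec, dotProduct]⟩
  obtain ⟨H, hH⟩ : ∃ H : (Fin n → ℂ) → (Fin n → ℂ),
      ∀ v i, H v i = ∑ j ∈ Finset.Icc d (2 * d - 2), eval v (h i j) := ⟨_, fun v i => rfl⟩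
  have hf : ∀ v, f v = L v + H v := by
    intro v
    rw [hfdef]
    funext i
    rw [hF, map_add, Pi.add_apply, hL, hH, map_sum]
    congr 1
    rw [ha]
    simp
  have s1 : ∀ x, L (L x) = x := by
    intro x
    funext i
    simp only [hL]
    exact (hrel x i).1
  have s3 : ∀ x, H (L x) = -L (H x) := by
    intro x
    funext i
    rw [Pi.neg_apply, hH, hL x, hL (H x), eq_neg_iff_add_eq_zero]
    simp only [hH, Finset.mul_sum]
    rw [Finset.sum_comm, ← Finset.sum_add_distrib]
    apply Finset.sum_eq_zero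
    intro k hk
    have h1 := (hrel x i).2 k hk
    linear_combination h1
  have s2 : ∀ x, H (x - L (H x)) = H x := by
    intro x
    have h1 := hff (L x)
    rw [hf (f (L x)), hf (L x), s1, s3, map_add, map_neg, s1, ← sub_eq_add_neg] at h1
    have h2 : L x - H x + H (x - L (H x)) - L x = 0 := sub_eq_zero.mpr h1
    rw [← sub_eq_zero, ← h2]
    module
  have s5 : ∀ (m : ℕ) x, H (x - (m : ℂ) • L (H x)) = H x := by
    intro m
    induction m with
    | zero => intro x; simp
    | succ m ih =>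
      intro x
      have h1 := s2 (x - (m : ℂ) • L (H x))
      rw [ih] at h1
      have e : x - ((m + 1 : ℕ) : ℂ) • L (H x) = x - (m : ℂ) • L (H x) - L (H x) := by
        push_cast
        module
      rw [e, h1]
  have s4 : ∀ x (s : ℂ), H (x + s • L (H x)) = H x := by
    intro x s
    funext i
    obtain ⟨q, hq⟩ : ∃ q : Polynomial ℂ, ∀ s : ℂ, q.eval s = H (x - s • L (H x)) i := by
      refine ⟨∑ j ∈ Finset.Icc d (2 * d - 2),
        aeval (fun m => Polynomial.C (x m) - Polynomial.X * Polynomial.C (L (H x) m)) (h i j), ?_⟩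
      intro s
      rw [hH, Polynomial.eval_finsetSum]
      refine Finset.sum_congr rfl fun j _ => ?_
      have h2 := comp_aeval_apply
        (f := fun m => Polynomial.C (x m) - Polynomial.X * Polynomial.C (L (H x) m))
        (Polynomial.aeval s : Polynomial ℂ →ₐ[ℂ] ℂ) (h i j)
      rw [Polynomial.coe_aeval_eq_eval] at h2
      have hfun : (fun m => Polynomial.eval s (Polynomial.C (x m) -
          Polynomial.X * Polynomial.C (L (H x) m))) = x - s • L (H x) := by
        funext m
        simp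
        ring
      rw [h2, hfun]
      rfl
    have hz : q - Polynomial.C (H x i) = 0 := by
      apply Polynomial.eq_zero_of_infinite_isRoot
      apply (Set.infinite_range_of_injective (Nat.cast_injective (R := ℂ))).mono
      rintro _ ⟨m, rfl⟩
      change Polynomial.eval (m : ℂ) (q - Polynomial.C (H x i)) = 0
      rw [Polynomial.eval_sub, hq, s5, Polynomial.eval_C, sub_self]
    have h3 := congrArg (Polynomial.eval (-s)) hz
    rw [Polynomial.eval_sub, hq, Polynomial.eval_C, Polynomial.eval_zero, neg_smul,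
      sub_neg_eq_add] at h3
    exact sub_eq_zero.mp h3
  refine assemble F f hfdef 0 L (fun v => v + (1 / 2 : ℂ) • L (H v))
    (fun v => v + (-1 / 2 : ℂ) • L (H v)) ?_ ?_ ?_ ?_ ?_
  · intro v
    beta_reduce
    rw [hf, sub_zero, sub_zero, map_add, s1]
    module
  · intro v
    simp only [add_zero]
    module
  · intro w
    beta_reduce
    rw [s4]
    module
  · intro w
    beta_reduce
    rw [s4]
    module
  · intro w
    beta_reduce
    have e2 : H (f (w + (-1 / 2 : ℂ) • L (H w))) = -L (H w) := by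
      obtain ⟨y, hy⟩ : ∃ y, y = w + (-1 / 2 : ℂ) • L (H w) := ⟨_, rfl⟩
      have hy2 : H y = H w := by rw [hy, s4]
      have e3 : H (y + (1 : ℂ) • L (H y)) = H y := s4 y 1
      have e4 : f y = L (y + (1 : ℂ) • L (H y)) := by rw [hf, map_add, map_smul, s1, one_smul]
      rw [← hy, e4, s3, e3, hy2]
    rw [e2, map_neg, s1, hf, s4, map_add, map_smul, s1]
    module

/-- The same around an arbitrary point `p`. -/
theorem gap_at (d : ℕ) (hd : 2 ≤ d) (F : MvPolynomial (Fin n) ℂ ≃ₐ[ℂ] MvPolynomial (Fin n) ℂ)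
    (hFF : ∀ p : MvPolynomial (Fin n) ℂ, F (F p) = p) (p : Fin n → ℂ)
    (hdeg : ∀ i : Fin n, ∀ s ∈ (aeval (fun m => X m + C (p m)) (F (X i : MvPolynomial (Fin n) ℂ)) -
        C (p i) : MvPolynomial (Fin n) ℂ).support,
      s.degree = 1 ∨ (d ≤ s.degree ∧ s.degree ≤ 2 * d - 2)) :
    ∃ G : MvPolynomial (Fin n) ℂ ≃ₐ[ℂ] MvPolynomial (Fin n) ℂ,
      ∀ i : Fin n, (G.symm (F (G (X i : MvPolynomial (Fin n) ℂ)))).IsHomogeneous 1 := by
  obtain ⟨T, hT, hT2⟩ : ∃ T : MvPolynomial (Fin n) ℂ ≃ₐ[ℂ] MvPolynomial (Fin n) ℂ,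
      (∀ q, T q = aeval (fun m => X m + C (p m)) q) ∧ ∀ i, T.symm (X i) = X i - C (p i) := by
    refine ⟨AlgEquiv.ofAlgHom (aeval (fun m => X m + C (p m))) (aeval (fun m => X m - C (p m)))
      ?_ ?_, fun q => rfl, fun i => ?_⟩
    · apply MvPolynomial.algHom_ext
      intro i
      simp [MvPolynomial.algebraMap_eq]
    · apply MvPolynomial.algHom_ext
      intro i
      simp [MvPolynomial.algebraMap_eq]
    · exact aeval_X _ _
  have hTC : ∀ c : ℂ, T (C c) = C c := fun c => T.commutes c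
  have hFC : ∀ c : ℂ, F (C c) = C c := fun c => F.commutes c
  have hFT : ∀ q, ((T.symm.trans F).trans T) q = T (F (T.symm q)) := fun q => rfl
  obtain ⟨G', hG'⟩ := gap d hd ((T.symm.trans F).trans T) (by
      intro q
      rw [hFT, hFT, AlgEquiv.symm_apply_apply, hFF, AlgEquiv.apply_symm_apply]) (by
      intro i s hs
      apply hdeg i s
      rw [hFT, hT2, map_sub, map_sub, hFC, hTC, hT] at hs
      exact hs)
  exact ⟨G'.trans T.symm, fun i => hG' i⟩

end Pool.Agent.Helper316.Invol3
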