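import Pool.Agent.Helper316.PD
import Pool.Agent.Helper316.ChkA
import Pool.Agent.Helper316.ChkB
import Pool.Agent.Helper316.ChkC
set_option autoImplicit false
namespace Pool.Agent.Helper316

open Finset

theorem good_one_big {m p : ℕ} (hp : p.Prime) (hp307 : 307 ≤ p) (hm0 : m ≠ 0)
    (hcon : Con (p-1) (4*p) 1 m) (hS : S m ≤ 1.13 * m.divisors.card) : Good m p 1 := by
  have hcon' : Con ((4*p-1)/4) (4*p) 1 m := by
    have : (4*p-1)/4 = p-1 := by omega
    rw [this]; exact hcon
  have hall : ∀ r, r.Prime → r ∣ m → r ≤ p-1 := by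
    intro r hr hrm
    have := hcon'.all_le (by omega) hm0 hr hrm
    omega
  have hF := FN (by omega) hm0 hcon'
  push_cast at hF
  have hpR : (307:ℝ) ≤ p := by exact_mod_cast hp307
  have hodd : Odd p := hp.odd_of_ne_two (by omega)
  have hf : 2 * ((1:ℕ):ℝ) * (harmonic m.divisors.card : ℝ) ≤ 0.366 * (p:ℝ)^1 := by
    rw [pow_one]; push_cast; linarith
  have hf2 : ((1:ℕ):ℝ) * (harmonic m.divisors.card : ℝ) ≤ 0.183 * (p:ℝ)^1 := by
    rw [pow_one]; push_cast; linarith
  have h113 : 1.13 / (p:ℝ)^1 ≤ 0.0037 := by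
    rw [pow_one, div_le_iff₀ (by linarith)]; linarith
  by_cases hm2 : 2 ∣ m
  · obtain ⟨i, M, hi1, hmM, hM2, hM0, hMm⟩ := split2 hm0 hm2
    rcases Nat.lt_or_ge i 2 with hi | hi
    · have hi' : i = 1 := by omega
      subst hi'
      rw [pow_one] at hmM
      have hn := near_i1 hodd (by omega) hmM hM2 hM0 (by
        intro r hr hrM
        have h1 := hall r hr (hrM.trans hMm)
        have hro : Odd r := hr.odd_of_ne_two (by rintro rfl; exact hM2 hrM)
        obtain ⟨u, hu⟩ := hro
        obtain ⟨w, hw⟩ := hodd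
        omega)
      have h2 : 1/(2*((p:ℝ)-1)) ≤ 0.0017 := by
        rw [div_le_iff₀ (by linarith)]; linarith
      exact good_odd hp (by omega) hn hf (by linarith) hS
    · exact good_odd hp (by omega) (near_i2 hmM hM2 hM0 hi hodd (by omega)) hf (by linarith) hS
  · have hmo := odd_of_not hm2
    exact good_two hp hmo (sum_W2_odd hmo hodd (by omega)) hf2 (by linarith) hS

theorem chk_all {p : ℕ} (hp : p.Prime) (h37 : 37 ≤ p) (h307 : p < 307) :
    chkP p (4*p) = true := by
  have hPL : p ∈ PL := by
    rcases PL_complete p h307 hp with h | h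
    · omega
    · exact h
  have hA := List.all_eq_true.1 chkA2
  have hB := List.all_eq_true.1 chkB1
  have hC := List.all_eq_true.1 chkC1
  have hmem : p ∈ [37,41,43,47,53,59,61,67,71,73,79,83,89,97,101,103,107,109,113,127,131] ∨
      p ∈ [137,139,149,151,157,163,167,173,179,181,191,193,197,199,211] ∨
      p ∈ [223,227,229,233,239,241,251,257,263,269,271,277,281,283,293] := by
    have h1 : ∀ x ∈ PL, 37 ≤ x →
      x ∈ [37,41,43,47,53,59,61,67,71,73,79,83,89,97,101,103,107,109,113,127,131] ∨
      x ∈ [137,139,149,151,157,163,167,173,179,181,191,193,197,199,211] ∨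
      x ∈ [223,227,229,233,239,241,251,257,263,269,271,277,281,283,293] := by decide +kernel
    exact h1 p hPL h37
  rcases hmem with h | h | h
  · exact hA p h
  · exact hB p h
  · exact hC p h

theorem good_one {m p : ℕ} (hp : p.Prime) (hp29 : 29 ≤ p) (hm0 : m ≠ 0) (hpm : ¬ p ∣ m)
    (hcon : Con (p-1) (Cf p) 1 m) (hS : S m ≤ 1.13 * m.divisors.card) : Good m p 1 := by
  rcases Nat.lt_or_ge p 37 with h | h
  · have hA := chkA1
    rw [Bool.and_eq_true] at hA
    have h3 : p = 29 ∨ p = 31 := by
      interval_cases p <;> first | omega | (exfalso; revert hp; norm_num)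
    rcases h3 with rfl | rfl
    · exact chkP_sound hp (by norm_num) (by norm_num) (by norm_num) (by norm_num) hA.1 hm0 hpm
        hcon hS
    · exact chkP_sound hp (by norm_num) (by norm_num) (by norm_num) (by norm_num) hA.2 hm0 hpm
        hcon hS
  · have hC : Cf p = 4*p := by unfold Cf; split_ifs <;> omega
    rw [hC] at hcon
    rcases Nat.lt_or_ge p 307 with h' | h'
    · refine chkP_sound hp (by omega) (by omega) (by omega) (by nlinarith) (chk_all hp h h') hm0 hpm
        hcon hS
    · exact good_one_big hp h' hm0 hcon hS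

end Pool.Agent.Helper316
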