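import Pool.Agent.Helper316.Exc
import Pool.Agent.Helper316.Sing
set_option autoImplicit false
namespace Pool.Agent.Helper316

open Finset

def PP (n : ℕ) : Prop :=
  S n < n.divisors.card ∨ (n ∈ EL ∧ S n ≤ 1.13 * n.divisors.card)

theorem PP.le {n : ℕ} (h : PP n) : S n ≤ 1.13 * n.divisors.card := by
  rcases h with h | h
  · have : (0:ℝ) ≤ n.divisors.card := Nat.cast_nonneg _
    linarith
  · exact h.2

theorem step {m q a : ℕ} (hq : q.Prime) (hqm : ¬ q ∣ m) (hm0 : m ≠ 0) (hP : PP (m*q^a))
    (hG : Good m q (a+1)) : S (m*q^(a+1)) < (m*q^(a+1)).divisors.card ∨ m*q^a ∈ EL := by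
  rcases hP with h | h
  · left
    rw [S_rec hq hqm hm0, card_succ hq hqm hm0]
    unfold Good at hG
    push_cast
    linarith
  · right; exact h.1

/-- taking out the full power of a prime -/
theorem take {n r : ℕ} (hr : r.Prime) (hn0 : n ≠ 0) (hrn : r ∣ n) :
    ∃ m b, n.factorization r = b+1 ∧ n = m * r^(b+1) ∧ ¬ r ∣ m ∧ m ≠ 0 ∧ m < n ∧ m*r^b < n ∧
      ∀ s, s.Prime → s ∣ m → s ∣ n ∧ m.factorization s = n.factorization s ∧ s ≠ r := by
  have hb1 : 1 ≤ n.factorization r := hr.factorization_pos_of_dvd hn0 hrn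
  obtain ⟨b, hb⟩ : ∃ b, n.factorization r = b+1 := ⟨n.factorization r - 1, by omega⟩
  have hnm : n = (n / r^(b+1)) * r^(b+1) := by
    rw [mul_comm, ← hb]; exact (Nat.ordProj_mul_ordCompl_eq_self n r).symm
  have hrm : ¬ r ∣ n / r^(b+1) := by rw [← hb]; exact Nat.not_dvd_ordCompl hr hn0
  have hm0 : n / r^(b+1) ≠ 0 := by rw [← hb]; exact (Nat.ordCompl_pos r hn0).ne'
  refine ⟨n / r^(b+1), b, hb, hnm, hrm, hm0, ?_, ?_, ?_⟩
  · generalize n / r^(b+1) = m at *
    rw [hnm]
    have : 1 < r^(b+1) := Nat.one_lt_pow (by omega) hr.one_lt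
    exact (Nat.lt_mul_iff_one_lt_right (Nat.pos_of_ne_zero hm0)).2 this
  · generalize n / r^(b+1) = m at *
    rw [hnm]
    apply Nat.mul_lt_mul_of_pos_left _ (Nat.pos_of_ne_zero hm0)
    exact Nat.pow_lt_pow_right hr.one_lt (by omega)
  · intro s hs hsm
    have hsr : s ≠ r := by rintro rfl; exact hrm hsm
    refine ⟨?_, ?_, hsr⟩
    · rw [hnm]; exact dvd_mul_of_dvd_left hsm _
    · rw [← hb, Nat.factorization_ordCompl, Finsupp.erase_ne hsr]

theorem prime_dvd_5040 {q : ℕ} (hq : q.Prime) (h : q ∣ 5040) : q = 2 ∨ q = 3 ∨ q = 5 ∨ q = 7 := by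
  rw [show (5040:ℕ) = 2^4*3^2*5*7 by norm_num] at h
  rcases hq.dvd_mul.1 h with h | h
  · rcases hq.dvd_mul.1 h with h | h
    · rcases hq.dvd_mul.1 h with h | h
      · left; exact (Nat.prime_dvd_prime_iff_eq hq Nat.prime_two).1 (hq.dvd_of_dvd_pow h)
      · right; left; exact (Nat.prime_dvd_prime_iff_eq hq Nat.prime_three).1 (hq.dvd_of_dvd_pow h)
    · right; right; left; exact (Nat.prime_dvd_prime_iff_eq hq Nat.prime_five).1 h
  · right; right; right
    exact (Nat.prime_dvd_prime_iff_eq hq (by norm_num)).1 h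

theorem exc_pow {q b : ℕ} (hq : q.Prime) (hb : 1 ≤ b) (h : q^b ∣ 5040)
    (h49 : 49 * (b+1) ≤ 2 * q^(b+1)) : q = 7 ∧ b = 1 := by
  have h1 : q ∣ 5040 := (dvd_pow_self q (by omega)).trans h
  have key : ∀ c, c ≤ b → q^c ∣ 5040 := fun c hc => (pow_dvd_pow q hc).trans h
  rcases prime_dvd_5040 hq h1 with rfl | rfl | rfl | rfl
  · exfalso
    have hb4 : b ≤ 4 := by
      by_contra hc
      have := key 5 (by omega)
      omega
    interval_cases b <;> omega
  · exfalso
    have hb4 : b ≤ 2 := by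
      by_contra hc
      have := key 3 (by omega)
      omega
    interval_cases b <;> omega
  · exfalso
    have hb4 : b ≤ 1 := by
      by_contra hc
      have := key 2 (by omega)
      omega
    interval_cases b <;> omega
  · refine ⟨rfl, ?_⟩
    have hb4 : b ≤ 1 := by
      by_contra hc
      have := key 2 (by omega)
      omega
    omega

theorem pd_case {n q : ℕ} (IH : ∀ k < n, k ≠ 0 → PP k) (hn0 : n ≠ 0) (hq : q.Prime)
    (hqn : q ∣ n) (ha2 : 2 ≤ n.factorization q)
    (h49 : 49 * n.factorization q ≤ 2 * q^(n.factorization q))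
    (sing : ∀ r, r.Prime → r ∣ n → n.factorization r = 1 →
      r ≤ 23 ∨ Cf r * n.factorization q < q^(n.factorization q))
    (powr : ∀ r, r.Prime → r ∣ n → 2 ≤ n.factorization r →
      r^(n.factorization r) * n.factorization q ≤ n.factorization r * q^(n.factorization q)) :
    PP n := by
  obtain ⟨m, b, hb, hnm, hqm, hm0, hlt1, hlt2, hfac⟩ := take hq hn0 hqn
  rw [hb] at ha2 h49 sing powr
  have hPD : PD m q (b+1) := by
    constructor
    · intro r hr hrm h1
      obtain ⟨h2, h3, _⟩ := hfac r hr hrm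
      exact sing r hr h2 (by rw [← h3]; exact h1)
    · intro r hr hrm h1
      obtain ⟨h2, h3, _⟩ := hfac r hr hrm
      rw [h3] at h1 ⊢
      exact powr r hr h2 h1
  have hG := good_pow hq ha2 hm0 hqm h49 hPD (IH m hlt1 hm0).le
  have hq0 : q^b ≠ 0 := pow_ne_zero _ hq.ne_zero
  rcases step hq hqm hm0 (IH _ hlt2 (mul_ne_zero hm0 hq0)) hG with h | h
  · left; rw [hnm]; exact h
  · have h1 := EL_dvd _ h
    have h2 : q^b ∣ 5040 := (dvd_mul_left _ _).trans h1
    obtain ⟨rfl, rfl⟩ := exc_pow hq (by omega) h2 h49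
    left
    rw [hnm]
    rw [pow_one] at h
    have := exc_seven _ h (dvd_mul_left _ _)
    rwa [show m * 7 * 7 = m * 7^(1+1) by ring] at this

theorem single_case {n p : ℕ} (IH : ∀ k < n, k ≠ 0 → PP k) (hn0 : n ≠ 0) (hp : p.Prime)
    (hp29 : 29 ≤ p) (hpn : p ∣ n) (hv : n.factorization p = 1)
    (hmax : ∀ r, r.Prime → r ∣ n → n.factorization r = 1 → r ≤ p)
    (hpow : ∀ r, r.Prime → r ∣ n → 2 ≤ n.factorization r →
      r^(n.factorization r) ≤ n.factorization r * Cf p) : PP n := by
  obtain ⟨m, b, hb, hnm, hpm, hm0, hlt1, hlt2, hfac⟩ := take hp hn0 hpn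
  have hb0 : b = 0 := by omega
  subst hb0
  have hcon : Con (p-1) (Cf p) 1 m := by
    intro r hr hrm
    obtain ⟨h2, h3, h4⟩ := hfac r hr hrm
    rw [h3]
    refine ⟨fun h1 => ?_, fun h1 => ?_⟩
    · have := hmax r hr h2 h1
      omega
    · rw [mul_one]; exact hpow r hr h2 h1
  have hG := good_one hp hp29 hm0 hpm hcon (IH m hlt1 hm0).le
  rcases step hp hpm hm0 (IH _ hlt2 (by rw [pow_zero, mul_one]; exact hm0)) hG with h | h
  · left; rw [hnm]; exact h
  · rw [pow_zero, mul_one] at h
    left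
    rw [hnm, zero_add, pow_one]
    exact exc h hp hp29 hpm (IH m hlt1 hm0).le

theorem le23 {r : ℕ} (hr : r.Prime) (h : r < 29) : r ≤ 23 := by
  by_contra hc
  have : 24 ≤ r := by omega
  interval_cases r <;> revert hr <;> norm_num

theorem mem_sing {r : ℕ} (hr : r.Prime) (h : r ≤ 23) :
    r = 2 ∨ r = 3 ∨ r = 5 ∨ r ∈ [7,11,13,17,19,23] := by
  have := hr.two_le
  interval_cases r <;> first | decide | (exfalso; revert hr; norm_num)

theorem base_exp {r v : ℕ} (hr : r.Prime) (h1 : v = 1 → r ≤ 23) (hv : 1 ≤ v)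
    (h2 : 2 ≤ v → 2 * r^v < 49 * v) :
    (r = 2 ∧ v ≤ 7) ∨ (r = 3 ∧ v ≤ 4) ∨ (r = 5 ∧ v ≤ 2) ∨ (r ∈ [7,11,13,17,19,23] ∧ v ≤ 1) := by
  rcases Nat.lt_or_ge v 2 with h | h
  · have hv1 : v = 1 := by omega
    subst hv1
    rcases mem_sing hr (h1 rfl) with h3 | h3 | h3 | h3
    · left; exact ⟨h3, by omega⟩
    · right; left; exact ⟨h3, by omega⟩
    · right; right; left; exact ⟨h3, by omega⟩
    · right; right; right; exact ⟨h3, le_refl _⟩
  · have h3 := h2 h
    have h4 : r^v * 2 ≤ v * 49 := by omega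
    have h5 : r < 7 := by
      rcases Nat.lt_or_ge v 3 with h6 | h6
      · have : v = 2 := by omega
        subst this
        by_contra hc
        have : 7^2 ≤ r^2 := Nat.pow_le_pow_left (by omega) 2
        omega
      · have h7 := pow_down hr.two_le h4 3 (by norm_num) h6
        by_contra hc
        have : 7^3 ≤ r^3 := Nat.pow_le_pow_left (by omega) 3
        omega
    have h8 : r = 2 ∨ r = 3 ∨ r = 5 := by
      have := hr.two_le
      interval_cases r <;> first | omega | (exfalso; revert hr; norm_num)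
    rcases h8 with rfl | rfl | rfl
    · left
      refine ⟨rfl, ?_⟩
      by_contra hc
      have := pow_down (le_refl 2) h4 8 (by norm_num) (by omega)
      omega
    · right; left
      refine ⟨rfl, ?_⟩
      by_contra hc
      have := pow_down hr.two_le h4 5 (by norm_num) (by omega)
      omega
    · right; right; left
      refine ⟨rfl, ?_⟩
      by_contra hc
      have := pow_down hr.two_le h4 3 (by norm_num) (by omega)
      omega

theorem base_case {n : ℕ} (IH : ∀ k < n, k ≠ 0 → PP k) (hn0 : n ≠ 0)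
    (hs : ∀ r, r.Prime → r ∣ n → n.factorization r = 1 → r ≤ 23)
    (hpow : ∀ r, r.Prime → r ∣ n → 2 ≤ n.factorization r →
      2 * r^(n.factorization r) < 49 * n.factorization r) : PP n := by
  by_cases h7 : n.factorization 2 = 7
  · have h2n : 2 ∣ n := by
      by_contra hc
      rw [Nat.factorization_eq_zero_of_not_dvd hc] at h7
      omega
    obtain ⟨m, b, hb, hnm, hqm, hm0, hlt1, hlt2, hfac⟩ := take Nat.prime_two hn0 h2n
    have hb6 : b = 6 := by omega
    subst hb6
    have hsupp : Supp [(3,4),(5,2),(7,1),(11,1),(13,1),(17,1),(19,1),(23,1)] m := by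
      apply supp_of _ (by decide) (by decide +kernel) m hm0
      intro r hr hrm
      obtain ⟨h2, h3, h4⟩ := hfac r hr hrm
      rw [h3]
      have hv := hr.factorization_pos_of_dvd hn0 h2
      rcases base_exp hr (hs r hr h2) hv (hpow r hr h2) with h | h | h | h
      · exact absurd h.1 h4
      · exact ⟨4, by rw [h.1]; decide, h.2⟩
      · exact ⟨2, by rw [h.1]; decide, h.2⟩
      · refine ⟨1, ?_, h.2⟩
        have h5 := h.1
        simp only [List.mem_cons, List.not_mem_nil, or_false] at h5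
        rcases h5 with rfl | rfl | rfl | rfl | rfl | rfl <;> decide
    have hG : Good m 2 (6+1) :=
      fin_two (odd_of_not hqm) _ (by decide +kernel) hsupp chkD4 (IH m hlt1 hm0).le
    rcases step Nat.prime_two hqm hm0 (IH _ hlt2 (mul_ne_zero hm0 (by norm_num))) hG with h | h
    · left; rw [hnm]; exact h
    · exfalso
      have h1 := EL_dvd _ h
      have h2 : 2^6 ∣ 5040 := (dvd_mul_left _ _).trans h1
      omega
  · apply baseA
    apply supp_of _ (by decide +kernel) (by decide +kernel) n hn0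
    intro r hr hrn
    have hv := hr.factorization_pos_of_dvd hn0 hrn
    rcases base_exp hr (hs r hr hrn) hv (hpow r hr hrn) with h | h | h | h
    · refine ⟨6, by rw [h.1]; decide, ?_⟩
      have h1 := h.2
      rw [h.1] at h1 ⊢
      omega
    · exact ⟨4, by rw [h.1]; decide, h.2⟩
    · exact ⟨2, by rw [h.1]; decide, h.2⟩
    · refine ⟨1, ?_, h.2⟩
      have h5 := h.1
      simp only [List.mem_cons, List.not_mem_nil, or_false] at h5
      rcases h5 with rfl | rfl | rfl | rfl | rfl | rfl <;> decide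

theorem exists_max_pow {n r0 : ℕ} (hn0 : n ≠ 0) (hr0 : r0.Prime) (hrn : r0 ∣ n)
    (hv : 2 ≤ n.factorization r0) :
    ∃ q, q.Prime ∧ q ∣ n ∧ 2 ≤ n.factorization q ∧
      ∀ r, r.Prime → r ∣ n → 2 ≤ n.factorization r →
        r^(n.factorization r) * n.factorization q ≤ n.factorization r * q^(n.factorization q) := by
  set T := n.primeFactors.filter (fun r => 2 ≤ n.factorization r) with hT
  have hne : T.Nonempty := ⟨r0, by rw [hT, mem_filter, Nat.mem_primeFactors]; exact ⟨⟨hr0, hrn, hn0⟩, hv⟩⟩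
  obtain ⟨q, hq, hmax⟩ := exists_max_image T
    (fun r => ((r^(n.factorization r) : ℕ) : ℚ) / (n.factorization r : ℚ)) hne
  rw [hT, mem_filter, Nat.mem_primeFactors] at hq
  refine ⟨q, hq.1.1, hq.1.2.1, hq.2, ?_⟩
  intro r hr hrn hvr
  have h1 := hmax r (by rw [hT, mem_filter, Nat.mem_primeFactors]; exact ⟨⟨hr, hrn, hn0⟩, hvr⟩)
  have p1 : (0:ℚ) < (n.factorization r : ℚ) := by exact_mod_cast (by omega : 0 < n.factorization r)
  have p2 : (0:ℚ) < (n.factorization q : ℚ) := by
    have := hq.2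
    exact_mod_cast (by omega : 0 < n.factorization q)
  rw [div_le_div_iff₀ p1 p2] at h1
  have h2 : r^(n.factorization r) * n.factorization q ≤ q^(n.factorization q) * n.factorization r := by
    exact_mod_cast h1
  rw [mul_comm (n.factorization r)]
  exact h2

theorem main (n : ℕ) : n ≠ 0 → PP n := by
  induction n using Nat.strong_induction_on with
  | _ n ih =>
    intro hn0
    have IH : ∀ k < n, k ≠ 0 → PP k := ih
    by_cases hs : ∃ p, p.Prime ∧ p ∣ n ∧ n.factorization p = 1 ∧ 29 ≤ p
    · obtain ⟨p0, hp0, hp0n, hp01, hp029⟩ := hs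
      set T := n.primeFactors.filter (fun r => n.factorization r = 1) with hT
      have hne : T.Nonempty :=
        ⟨p0, by rw [hT, mem_filter, Nat.mem_primeFactors]; exact ⟨⟨hp0, hp0n, hn0⟩, hp01⟩⟩
      have hpT := T.max'_mem hne
      have hmax : ∀ r, r.Prime → r ∣ n → n.factorization r = 1 → r ≤ T.max' hne := by
        intro r hr hrn h1
        apply T.le_max'
        rw [hT, mem_filter, Nat.mem_primeFactors]; exact ⟨⟨hr, hrn, hn0⟩, h1⟩
      generalize T.max' hne = p at hpT hmax
      rw [hT, mem_filter, Nat.mem_primeFactors] at hpT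
      obtain ⟨⟨hp, hpn, _⟩, hp1⟩ := hpT
      have hp29 : 29 ≤ p := le_trans hp029 (hmax p0 hp0 hp0n hp01)
      by_cases hpow : ∀ r, r.Prime → r ∣ n → 2 ≤ n.factorization r →
          r^(n.factorization r) ≤ n.factorization r * Cf p
      · exact single_case IH hn0 hp hp29 hpn hp1 hmax hpow
      · push Not at hpow
        obtain ⟨r0, hr0, hr0n, hv0, hbig⟩ := hpow
        obtain ⟨q, hq, hqn, hvq, hqmax⟩ := exists_max_pow hn0 hr0 hr0n hv0
        have h1 := hqmax r0 hr0 hr0n hv0
        set v0 := n.factorization r0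
        set a := n.factorization q
        have h2 : (Cf p * a) * v0 < q^a * v0 := by
          have : (v0 * Cf p) * a < r0^v0 * a := Nat.mul_lt_mul_of_pos_right hbig (by omega)
          calc (Cf p * a) * v0 = (v0 * Cf p) * a := by ring
            _ < r0^v0 * a := this
            _ ≤ v0 * q^a := h1
            _ = q^a * v0 := by ring
        have h3 : Cf p * a < q^a := Nat.lt_of_mul_lt_mul_right h2
        have h4 := Nat.mul_le_mul_right a (Cf_ge p)
        have h6 : 49 * a ≤ 2 * q^a := by omega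
        refine pd_case IH hn0 hq hqn hvq h6 ?_ hqmax
        intro r hr hrn hr1
        right
        have h5 := Cf_mono (hmax r hr hrn hr1)
        exact lt_of_le_of_lt (Nat.mul_le_mul_right _ h5) h3
    · have hs' : ∀ r, r.Prime → r ∣ n → n.factorization r = 1 → r ≤ 23 := by
        intro r hr hrn h1
        apply le23 hr
        by_contra hc
        exact hs ⟨r, hr, hrn, h1, by omega⟩
      by_cases hpow : ∀ r, r.Prime → r ∣ n → 2 ≤ n.factorization r →
          2 * r^(n.factorization r) < 49 * n.factorization r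
      · exact base_case IH hn0 hs' hpow
      · push Not at hpow
        obtain ⟨r0, hr0, hr0n, hv0, hbig⟩ := hpow
        obtain ⟨q, hq, hqn, hvq, hqmax⟩ := exists_max_pow hn0 hr0 hr0n hv0
        have h1 := hqmax r0 hr0 hr0n hv0
        set v0 := n.factorization r0
        set a := n.factorization q
        have h2 : (49 * a) * v0 ≤ (2 * q^a) * v0 := by
          calc (49 * a) * v0 = (49 * v0) * a := by ring
            _ ≤ (2 * r0^v0) * a := Nat.mul_le_mul_right _ hbig
            _ = 2 * (r0^v0 * a) := by ring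
            _ ≤ 2 * (v0 * q^a) := Nat.mul_le_mul_left _ h1
            _ = (2 * q^a) * v0 := by ring
        have h3 : 49 * a ≤ 2 * q^a := Nat.le_of_mul_le_mul_right h2 (by omega)
        exact pd_case IH hn0 hq hqn hvq h3 (fun r hr hrn hr1 => Or.inl (hs' r hr hrn hr1)) hqmax

theorem final (n : ℕ) (hn : 5040 < n) : S n < n.divisors.card := by
  rcases main n (by omega) with h | h
  · exact h
  · exfalso
    have h1 := EL_dvd n h.1
    have := Nat.le_of_dvd (by norm_num) h1
    omega

end Pool.Agent.Helper316
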