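import Pool.Agent.Helper316.Harm
set_option autoImplicit false
namespace Pool.Agent.Helper316

open Finset

theorem nu_cases (m y d : ℕ) :
    nu m y d = 0 ∨ ∃ e ∈ m.divisors, 2 * |((y*e : ℕ):ℤ) - d| < y ∧ nu m y d = phi (y*e) d := by
  unfold nu
  rcases (m.divisors.filter (fun e => 2 * |((y*e : ℕ):ℤ) - d| < y)).eq_empty_or_nonempty
    with h | ⟨e, he⟩
  · left; rw [h]; simp
  · right
    have he1 := (mem_filter.1 he).1
    have he2 := (mem_filter.1 he).2
    refine ⟨e, he1, he2, ?_⟩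
    have hs : m.divisors.filter (fun e => 2 * |((y*e : ℕ):ℤ) - d| < y) = {e} := by
      ext e'
      rw [mem_singleton]
      constructor
      · intro he'
        have h2 := (mem_filter.1 he').2
        by_contra hne
        have hy : (0:ℤ) < y := by
          have := abs_nonneg (((y*e : ℕ):ℤ) - d); omega
        have h3 : |((y*e' : ℕ):ℤ) - ((y*e:ℕ):ℤ)| < y := by
          have := abs_sub_le (((y*e' : ℕ):ℤ) ) (d:ℤ) ((y*e : ℕ):ℤ)
          have h4 : |(d:ℤ) - ((y*e:ℕ):ℤ)| = |((y*e : ℕ):ℤ) - d| := abs_sub_comm _ _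
          omega
        have h5 : ((y*e' : ℕ):ℤ) - ((y*e:ℕ):ℤ) = y * ((e':ℤ) - e) := by push_cast; ring
        rw [h5, abs_mul, abs_of_pos hy] at h3
        have h6 : (1:ℤ) ≤ |(e':ℤ) - e| := by
          have : (e':ℤ) - e ≠ 0 := by
            intro h; apply hne; omega
          exact Int.one_le_abs this
        nlinarith
      · rintro rfl; exact he
    rw [hs, sum_singleton]

theorem nu2_cases {m : ℕ} (hm : Odd m) (y d : ℕ) :
    nu2 m y d = 0 ∨ ∃ e ∈ m.divisors, |((y*e : ℕ):ℤ) - d| < y ∧ nu2 m y d = phi (y*e) d := by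
  unfold nu2
  rcases (m.divisors.filter (fun e => |((y*e : ℕ):ℤ) - d| < y)).eq_empty_or_nonempty
    with h | ⟨e, he⟩
  · left; rw [h]; simp
  · right
    have he1 := (mem_filter.1 he).1
    have he2 := (mem_filter.1 he).2
    refine ⟨e, he1, he2, ?_⟩
    have hs : m.divisors.filter (fun e => |((y*e : ℕ):ℤ) - d| < y) = {e} := by
      ext e'
      rw [mem_singleton]
      constructor
      · intro he'
        have h2 := (mem_filter.1 he').2
        by_contra hne
        have hy : (0:ℤ) < y := by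
          have := abs_nonneg (((y*e : ℕ):ℤ) - d); omega
        have h3 : |((y*e' : ℕ):ℤ) - ((y*e:ℕ):ℤ)| < 2*y := by
          have := abs_sub_le (((y*e' : ℕ):ℤ) ) (d:ℤ) ((y*e : ℕ):ℤ)
          have h4 : |(d:ℤ) - ((y*e:ℕ):ℤ)| = |((y*e : ℕ):ℤ) - d| := abs_sub_comm _ _
          omega
        have h5 : ((y*e' : ℕ):ℤ) - ((y*e:ℕ):ℤ) = y * ((e':ℤ) - e) := by push_cast; ring
        rw [h5, abs_mul, abs_of_pos hy] at h3
        obtain ⟨u, hu⟩ : Odd e := Odd.of_dvd_nat hm (Nat.dvd_of_mem_divisors he1)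
        obtain ⟨u', hu'⟩ : Odd e' :=
          Odd.of_dvd_nat hm (Nat.dvd_of_mem_divisors (mem_filter.1 he').1)
        have h6 : (2:ℤ) ≤ |(e':ℤ) - e| := by
          have h7 : (e':ℤ) - e = 2 * ((u':ℤ) - u) := by rw [hu, hu']; push_cast; ring
          have : (u':ℤ) - u ≠ 0 := by
            intro h; apply hne; omega
          rw [h7, abs_mul]
          have := Int.one_le_abs this
          norm_num
          omega
        nlinarith
      · rintro rfl; exact he
    rw [hs, sum_singleton]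

/-- distance to the nearest multiple of y -/
def nt (y r : ℕ) : ℕ := min (r % y) (y - r % y)

theorem nt_of_near {y e d : ℕ} (h : 2 * |((y*e : ℕ):ℤ) - d| < y) :
    ((nt y d : ℕ) : ℤ) = |((y*e : ℕ):ℤ) - d| := by
  have hy : 0 < y := by
    have := abs_nonneg (((y*e : ℕ):ℤ) - d); omega
  rcases le_total (y*e) d with hle | hle
  · obtain ⟨t, ht⟩ := Nat.exists_eq_add_of_le hle
    subst ht
    have h1 : |((y*e : ℕ):ℤ) - ((y*e + t : ℕ):ℤ)| = t := by
      rw [abs_sub_comm]; push_cast; rw [add_sub_cancel_left]; exact Nat.abs_cast t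
    rw [h1] at h ⊢
    have h2 : (y*e + t) % y = t := by
      rw [Nat.mul_add_mod]; exact Nat.mod_eq_of_lt (by omega)
    unfold nt; rw [h2]
    have : t ≤ y - t := by omega
    rw [min_eq_left this]
  · obtain ⟨t, ht⟩ := Nat.exists_eq_add_of_le hle
    have h1 : |((y*e : ℕ):ℤ) - (d:ℤ)| = t := by
      rw [ht]; push_cast; rw [add_sub_cancel_left]; exact Nat.abs_cast t
    rw [h1] at h ⊢
    rcases Nat.eq_zero_or_pos t with h0 | hpos
    · subst h0
      have h2 : d % y = 0 := by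
        rw [add_zero] at ht; rw [← ht]; exact Nat.mul_mod_right y e
      unfold nt; rw [h2]; simp
    · have he : e ≠ 0 := by
        rintro rfl; rw [mul_zero] at ht; omega
      obtain ⟨e', rfl⟩ := Nat.exists_eq_succ_of_ne_zero he
      have h2 : d = y*e' + (y - t) := by
        have : y * (e'.succ) = y*e' + y := by rw [Nat.succ_eq_add_one]; ring
        omega
      have h3 : d % y = y - t := by
        rw [h2, Nat.mul_add_mod]; exact Nat.mod_eq_of_lt (by omega)
      unfold nt; rw [h3]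
      have h4 : y - (y - t) = t := by omega
      rw [h4, min_eq_right (by omega)]

theorem nu_le_nt (m y d : ℕ) : nu m y d ≤ 1 / (nt y d : ℝ) := by
  rcases nu_cases m y d with h | ⟨e, _, h1, h2⟩
  · rw [h]; positivity
  · rw [h2, phi_eq_int]
    have h3 := nt_of_near h1
    have h4 : ((nt y d : ℕ) : ℝ) = |((((y*e : ℕ):ℤ) - d : ℤ) : ℝ)| := by
      rw [← Int.cast_abs, ← h3]; simp
    rw [h4]

theorem nu_nonneg (m y d : ℕ) : 0 ≤ nu m y d := sum_nonneg fun _ _ => phi_nonneg _ _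

theorem nu2_nonneg (m y d : ℕ) : 0 ≤ nu2 m y d := sum_nonneg fun _ _ => phi_nonneg _ _

theorem W_nonneg (m q a d : ℕ) : 0 ≤ W m q a d := by
  induction a with
  | zero => simp [W]
  | succ a ih => rw [W]; have := nu_nonneg m (q^(a+1)) d; positivity

/-- validity of a residue at level k -/
def vld (q k r : ℕ) : Bool :=
  Nat.blt (q^k) (2 * (r % q^(k+1))) && Nat.blt (2 * (r % q^(k+1))) (2 * q^(k+1) - q^k)

theorem vld_of_near {q k e d : ℕ} (hq : 1 < q) (he : ¬ q ∣ e)
    (h : 2 * |((q^k*e : ℕ):ℤ) - d| < (q^k : ℕ)) : vld q k d = true := by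
  have hqk : 0 < q^k := by positivity
  -- write e = q u + v
  have hv0 : e % q ≠ 0 := fun h0 => he (Nat.dvd_of_mod_eq_zero h0)
  have hvq : e % q < q := Nat.mod_lt _ (by omega)
  have hdecomp : q^k * e = q^(k+1) * (e/q) + q^k * (e % q) := by
    conv_lhs => rw [← Nat.div_add_mod e q]
    ring
  have h1 : q^k ≤ q^k * (e % q) := Nat.le_mul_of_pos_right _ (by omega)
  have h2 : q^k * (e % q) + q^k ≤ q^(k+1) := by
    calc q^k * (e % q) + q^k = q^k * (e % q + 1) := by ring
      _ ≤ q^k * q := Nat.mul_le_mul_left _ (by omega)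
      _ = q^(k+1) := by ring
  -- bounds for d
  have h3 := abs_lt.1 (show |((q^k*e : ℕ):ℤ) - d| < ((q^k : ℕ):ℤ) by
    have := abs_nonneg (((q^k*e : ℕ):ℤ) - d); omega)
  have h4 : ∃ r, d = q^(k+1) * (e/q) + r ∧ q^k < 2*r ∧ 2*r < 2*q^(k+1) - q^k := by
    refine ⟨d - q^(k+1) * (e/q), ?_, ?_, ?_⟩
    · omega
    · have := abs_lt.1 (show |((q^k*e : ℕ):ℤ) - d| < ((q^k : ℕ):ℤ) by omega)
      have h5 := le_abs_self (((q^k*e : ℕ):ℤ) - d)
      have h6 := neg_abs_le (((q^k*e : ℕ):ℤ) - d)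
      omega
    · have h5 := le_abs_self (((q^k*e : ℕ):ℤ) - d)
      have h6 := neg_abs_le (((q^k*e : ℕ):ℤ) - d)
      omega
  obtain ⟨r, hr, hr1, hr2⟩ := h4
  have h5 : d % q^(k+1) = r := by
    rw [hr, Nat.mul_add_mod]; exact Nat.mod_eq_of_lt (by omega)
  unfold vld
  rw [h5, Bool.and_eq_true, Nat.blt_eq, Nat.blt_eq]
  exact ⟨hr1, hr2⟩

/-- scaled bound of the levels below the top -/
def loN (q r : ℕ) : ℕ → ℕ → ℕ
  | 0, _ => 0
  | (k+1), w => cond (vld q (k+1) r) (1000000 / (w * nt (q^(k+1)) r) + 1) 0 + loN q r k (w*q)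

theorem div_le_scaled (w t : ℕ) : (1000000:ℝ) / ((w * t : ℕ):ℝ) ≤ ((1000000 / (w*t) + 1 : ℕ):ℝ) := by
  rcases Nat.eq_zero_or_pos (w*t) with h | h
  · rw [h]; simp
  · have hR : (0:ℝ) < ((w*t : ℕ):ℝ) := by exact_mod_cast h
    rw [div_le_iff₀ hR]
    have h1 : 1000000 < (1000000 / (w*t) + 1) * (w*t) := by
      have := Nat.div_add_mod 1000000 (w*t)
      have h2 := Nat.mod_lt 1000000 h
      nlinarith
    exact_mod_cast h1.le

theorem W_le_loN {m q : ℕ} (hq : 1 < q) (hm : ∀ e ∈ m.divisors, ¬ q ∣ e) (d : ℕ) (k : ℕ) :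
    ∀ w : ℕ, 0 < w → 1000000 * W m q k d / w ≤ loN q d k w := by
  induction k with
  | zero => intro w _; simp [W, loN]
  | succ k ih =>
    intro w hw
    have hwR : (0:ℝ) < w := by exact_mod_cast hw
    have hqR : (0:ℝ) < q := by exact_mod_cast (by omega : 0 < q)
    have h1 := ih (w*q) (by positivity)
    rw [W, loN]
    push_cast
    have h2 : 1000000 * (nu m (q^(k+1)) d + W m q k d / q) / w
      = 1000000 * nu m (q^(k+1)) d / w + 1000000 * W m q k d / ((w*q : ℕ):ℝ) := by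
      push_cast; field_simp
    rw [h2]
    apply add_le_add _ h1
    rcases nu_cases m (q^(k+1)) d with h | ⟨e, he, hn, _⟩
    · rw [h]; simp
    · have hv := vld_of_near hq (hm e he) hn
      rw [hv, cond_true]
      have h3 := nu_le_nt m (q^(k+1)) d
      have h4 := div_le_scaled w (nt (q^(k+1)) d)
      push_cast at h4 ⊢
      refine le_trans ?_ h4
      rw [show (1000000:ℝ) / (w * (nt (q^(k+1)) d)) = 1000000 * (1/(nt (q^(k+1)) d : ℝ)) / w by
        rw [mul_one_div, div_div, mul_comm (w:ℝ)]]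
      gcongr

theorem loN_mod (q r a : ℕ) : ∀ k w : ℕ, k < a → loN q (r % q^a) k w = loN q r k w := by
  intro k
  induction k with
  | zero => intro w _; rfl
  | succ k ih =>
    intro w hk
    rw [loN, loN, ih _ (by omega)]
    have h1 : r % q^a % q^(k+1) = r % q^(k+1) :=
      Nat.mod_mod_of_dvd _ (pow_dvd_pow q (by omega))
    have h2 : r % q^a % q^(k+1+1) = r % q^(k+1+1) :=
      Nat.mod_mod_of_dvd _ (pow_dvd_pow q (by omega))
    have h3 : nt (q^(k+1)) (r % q^a) = nt (q^(k+1)) r := by unfold nt; rw [h1]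
    have h4 : vld q (k+1) (r % q^a) = vld q (k+1) r := by unfold vld; rw [h2]
    rw [h3, h4]

/-- residue function used for q odd, a+1 levels -/
def topN (q a r : ℕ) : ℕ := 1000000 / nt (q^(a+1)) r + 1 + loN q r a q

theorem W_le_topN {m q : ℕ} (hq : 1 < q) (hm : ∀ e ∈ m.divisors, ¬ q ∣ e) (d a : ℕ) :
    1000000 * W m q (a+1) d ≤ topN q a (d % q^(a+1)) := by
  have hqR : (0:ℝ) < q := by exact_mod_cast (by omega : 0 < q)
  unfold topN
  rw [loN_mod q d (a+1) a q (by omega)]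
  have h1 : nt (q^(a+1)) (d % q^(a+1)) = nt (q^(a+1)) d := by
    unfold nt; rw [Nat.mod_mod]
  rw [h1, W]
  have h2 := W_le_loN hq hm d a q (by omega)
  have h3 := nu_le_nt m (q^(a+1)) d
  have h4 := div_le_scaled 1 (nt (q^(a+1)) d)
  rw [one_mul] at h4
  push_cast at h4 ⊢
  have h5 : 1000000 * (nu m (q^(a+1)) d + W m q a d / q)
    = 1000000 * nu m (q^(a+1)) d + 1000000 * W m q a d / q := by ring
  rw [h5]
  have h6 : 1000000 * nu m (q^(a+1)) d ≤ 1000000 / (nt (q^(a+1)) d : ℝ) := by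
    calc 1000000 * nu m (q^(a+1)) d ≤ 1000000 * (1 / (nt (q^(a+1)) d : ℝ)) := by gcongr
      _ = _ := by ring
  linarith

/-- residue function used for a prime, one level -/
def Np (p r : ℕ) : ℕ := cond (Nat.ble (2*r) p) (1000000 / r + 1) (1000000 / (p - r) + 1)

theorem Np_eq {p r : ℕ} (hr : r < p) : Np p r = 1000000 / nt p r + 1 := by
  unfold Np nt
  rw [Nat.mod_eq_of_lt hr]
  by_cases h : 2*r ≤ p
  · have hb : Nat.ble (2*r) p = true := by rw [Nat.ble_eq]; exact h
    rw [hb, cond_true, min_eq_left (by omega)]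
  · have : Nat.ble (2*r) p = false := by
      rw [Bool.eq_false_iff]; intro hc; rw [Nat.ble_eq] at hc; exact h hc
    rw [this, cond_false, min_eq_right (by omega)]

theorem W_le_Np {m p : ℕ} (hp : 1 < p) (hm : ∀ e ∈ m.divisors, ¬ p ∣ e) (d : ℕ) :
    1000000 * W m p 1 d ≤ Np p (d % p) := by
  have h := W_le_topN hp hm d 0
  rw [Np_eq (Nat.mod_lt _ (by omega))]
  unfold topN loN at h
  simpa using h

theorem mod_compl {y r r' : ℕ} (hy : 0 < y) (h : (r + r') % y = 0) :
    (r % y = 0 ∧ r' % y = 0) ∨ (0 < r % y ∧ r' % y = y - r % y) := by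
  have h1 : r % y < y := Nat.mod_lt _ hy
  have h2 : r' % y < y := Nat.mod_lt _ hy
  rw [Nat.add_mod] at h
  have h7 : y ∣ r % y + r' % y := Nat.dvd_of_mod_eq_zero h
  obtain ⟨k, hk⟩ := h7
  have : k < 2 := by
    by_contra hc
    have : y * 2 ≤ y * k := Nat.mul_le_mul_left _ (by omega)
    omega
  interval_cases k
  · left; omega
  · right; omega

theorem nt_symm {y r r' : ℕ} (hy : 0 < y) (h : (r + r') % y = 0) : nt y r = nt y r' := by
  have h1 : r % y < y := Nat.mod_lt _ hy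
  unfold nt
  rcases mod_compl hy h with ⟨h2, h3⟩ | ⟨h2, h3⟩
  · rw [h2, h3]
  · rw [h3]; omega

theorem vld_symm {q k r r' : ℕ} (hq : 0 < q) (h : (r + r') % q^(k+1) = 0) :
    vld q k r = vld q k r' := by
  have hy : 0 < q^(k+1) := by positivity
  have h1 : r % q^(k+1) < q^(k+1) := Nat.mod_lt _ hy
  unfold vld
  rcases mod_compl hy h with ⟨h2, h3⟩ | ⟨h2, h3⟩
  · rw [h2, h3]
  · rw [h3, Bool.eq_iff_iff]
    simp only [Bool.and_eq_true, Nat.blt_eq]
    generalize q^(k+1) = L at *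
    generalize q^k = K at *
    omega

theorem loN_symm {q r r' a : ℕ} (hq : 0 < q) (h : (r + r') % q^a = 0) :
    ∀ k w : ℕ, k < a → loN q r k w = loN q r' k w := by
  intro k
  induction k with
  | zero => intro w _; rfl
  | succ k ih =>
    intro w hk
    rw [loN, loN, ih _ (by omega)]
    have hd : ∀ j, j ≤ a → (r + r') % q^j = 0 := by
      intro j hj
      exact Nat.mod_eq_zero_of_dvd ((pow_dvd_pow q hj).trans (Nat.dvd_of_mod_eq_zero h))
    rw [nt_symm (by positivity) (hd (k+1) (by omega)), vld_symm hq (hd (k+2) (by omega))]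

theorem topN_symm {q r r' a : ℕ} (hq : 0 < q) (h : (r + r') % q^(a+1) = 0) :
    topN q a r = topN q a r' := by
  unfold topN
  rw [nt_symm (by positivity) h, loN_symm hq h a q (by omega)]

theorem neg_mod {Q : ℕ} (hQ : 0 < Q) (d v : ℕ) :
    ((Q - d % Q) * v % Q + d * v % Q) % Q = 0 := by
  rw [← Nat.add_mod]
  have h2 : (Q - d % Q) * v + d * v = Q * (v + (d/Q) * v) := by
    have h3 : d % Q ≤ Q := (Nat.mod_lt _ hQ).le
    have h4 : d = Q * (d/Q) + d % Q := (Nat.div_add_mod d Q).symm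
    zify [h3]
    have h5 : (d:ℤ) = Q * (d/Q : ℕ) + (d % Q : ℕ) := by exact_mod_cast h4
    push_cast at h5 ⊢
    nlinarith [h5]
  rw [h2]; exact Nat.mul_mod_right _ _

theorem topN_neg {q a : ℕ} (hq : 0 < q) (d v : ℕ) :
    topN q a ((q^(a+1) - d % q^(a+1)) * v % q^(a+1)) = topN q a (d * v % q^(a+1)) :=
  topN_symm hq (neg_mod (by positivity) d v)

theorem Np_neg {p : ℕ} (hp : 0 < p) (d v : ℕ) :
    Np p ((p - d % p) * v % p) = Np p (d * v % p) := by
  rw [Np_eq (Nat.mod_lt _ hp), Np_eq (Nat.mod_lt _ hp), nt_symm hp (neg_mod hp d v)]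

end Pool.Agent.Helper316
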