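import Pool.Agent.Helper316.PrL
set_option autoImplicit false
namespace Pool.Agent.Helper316

open Finset

def rs2 (Z : ℕ) : List (ℕ × ℕ) :=
  (PL2.filter (fun r => Nat.blt (4*r) Z)).map (fun r => (r, mexp r 1 Z 60 1))

theorem rs2_prime (Z : ℕ) : ∀ p ∈ rs2 Z, p.1.Prime := by
  intro p hp
  obtain ⟨r, hr, rfl⟩ := List.mem_map.1 hp
  exact PL2_prime r (List.mem_filter.1 hr).1

theorem rs2_nodup (Z : ℕ) : ((rs2 Z).map Prod.fst).Nodup := by
  unfold rs2
  rw [List.map_map]
  have : (Prod.fst ∘ fun r : ℕ => (r, mexp r 1 Z 60 1)) = id := rfl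
  rw [this, List.map_id]
  exact PL2_nodup.filter _

theorem le_mexp' (r den num : ℕ) : ∀ f b, b ≤ mexp r den num f b := by
  intro f
  induction f with
  | zero => intro b; exact le_refl _
  | succ f ih => intro b; rw [mexp]; cases Nat.ble (r^(b+1) * den) ((b+1)*num) with
    | false => exact le_refl _
    | true => rw [cond_true]; have := ih (b+1); omega

theorem Con.mono {cs cs' num num' m : ℕ} (h : Con cs num 1 m) (h1 : cs ≤ cs')
    (h2 : num ≤ num') : Con cs' num' 1 m := by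
  intro r hr hrm
  obtain ⟨c1, c2⟩ := h r hr hrm
  refine ⟨fun h => (c1 h).trans h1, fun h => (c2 h).trans (Nat.mul_le_mul_left _ h2)⟩

theorem supp2 {Z m : ℕ} (hZ : 33 ≤ Z) (hZ2 : Z ≤ 16384) (hm0 : m ≠ 0)
    (hcon : Con ((Z-1)/4) Z 1 m) : Supp (rs2 Z) m := by
  apply supp_of _ (rs2_nodup _) (rs2_prime _) m hm0
  intro r hr hrm
  obtain ⟨c1, c2⟩ := hcon r hr hrm
  set v := m.factorization r with hv
  have hv1 : 1 ≤ v := hr.factorization_pos_of_dvd hm0 hrm
  have hrZ : 4*r < Z := by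
    rcases Nat.lt_or_ge 1 v with h | h
    · have h3 := pow_down hr.two_le (c2 h) 2 (by norm_num) h
      by_contra hc
      have : r ≤ 8 := by nlinarith
      omega
    · have := c1 (by omega)
      omega
  refine ⟨mexp r 1 Z 60 1, ?_, ?_⟩
  · apply List.mem_map.2
    refine ⟨r, List.mem_filter.2 ⟨PL2_complete r (by omega) hr, ?_⟩, rfl⟩
    rw [Nat.blt_eq]; exact hrZ
  · rcases Nat.lt_or_ge 1 v with h | h
    · have h3 := exp_small hr.two_le (le_refl 1) (by omega) (c2 h)
      have := mexp_ge hr.two_le (c2 h) 60 1 (le_refl _) hv1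
      omega
    · have := le_mexp' r 1 Z 60 1
      omega

def chkN (c : ℕ) (b : ℕ × ℕ) : Bool := Nat.ble (2 * hT (prodT (rs2 b.2))) (c * (b.1 - 1))

theorem chkN_sound {c Z0 Z1 Z m : ℕ} (h : chkN c (Z0,Z1) = true) (hZ : 33 ≤ Z0) (h0 : Z0 ≤ Z)
    (h1 : Z ≤ Z1) (h2 : Z1 ≤ 16384) (hm0 : m ≠ 0) (hcon : Con ((Z-1)/4) Z 1 m) :
    2 * (1000000 * (harmonic m.divisors.card : ℝ)) ≤ c * ((Z:ℝ) - 1) := by
  have hcon' : Con ((Z1-1)/4) Z1 1 m := hcon.mono (by omega) h1
  have hs := supp2 (by omega) h2 hm0 hcon'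
  have hc := Supp.card_le (rs2_prime _) hs
  have h3 := harmonic_mono hc
  have h4 := hT_spec (prodT (rs2 Z1))
  unfold chkN at h
  rw [Nat.ble_eq] at h
  have h5 : c * (Z0 - 1) ≤ c * (Z - 1) := Nat.mul_le_mul_left _ (by omega)
  have h6 : ((2 * hT (prodT (rs2 Z1)) : ℕ):ℝ) ≤ ((c * (Z - 1) : ℕ):ℝ) := by
    exact_mod_cast h.trans h5
  push_cast [show 1 ≤ Z by omega] at h6
  linarith

theorem blk1 : [(149,180),(181,268),(269,508),(509,820)].all (chkN 220000) = true := by
  decide +kernel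

theorem blk2 : [(821,1004),(1005,1227)].all (chkN 117000) = true := by decide +kernel

theorem blk3 : [(1228,1252),(1253,1324),(1325,1412),(1413,1556),(1557,1756),(1757,2084),
    (2085,2588),(2589,3444),(3445,4948),(4949,7916),(7917,13996),(13997,16384)].all
    (chkN 91500) = true := by decide +kernel

theorem N1_fin {Z m : ℕ} (h0 : 149 ≤ Z) (h1 : Z ≤ 820) (hm0 : m ≠ 0)
    (hcon : Con ((Z-1)/4) Z 1 m) :
    2 * (harmonic m.divisors.card : ℝ) ≤ 0.22 * ((Z:ℝ) - 1) := by
  have h := List.all_eq_true.1 blk1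
  simp only [List.mem_cons, List.not_mem_nil, or_false, forall_eq_or_imp, forall_eq] at h
  obtain ⟨b1, b2, b3, b4⟩ := h
  have key : 2 * (1000000 * (harmonic m.divisors.card : ℝ)) ≤ (220000:ℕ) * ((Z:ℝ) - 1) := by
    rcases Nat.lt_or_ge Z 181 with h | h
    · exact chkN_sound b1 (by norm_num) h0 (by omega) (by norm_num) hm0 hcon
    rcases Nat.lt_or_ge Z 269 with h' | h'
    · exact chkN_sound b2 (by norm_num) h (by omega) (by norm_num) hm0 hcon
    rcases Nat.lt_or_ge Z 509 with h'' | h''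
    · exact chkN_sound b3 (by norm_num) h' (by omega) (by norm_num) hm0 hcon
    · exact chkN_sound b4 (by norm_num) h'' (by omega) (by norm_num) hm0 hcon
  push_cast at key
  linarith

theorem N2_fin {Z m : ℕ} (h0 : 821 ≤ Z) (h1 : Z ≤ 1227) (hm0 : m ≠ 0)
    (hcon : Con ((Z-1)/4) Z 1 m) :
    2 * (harmonic m.divisors.card : ℝ) ≤ 0.117 * ((Z:ℝ) - 1) := by
  have h := List.all_eq_true.1 blk2
  simp only [List.mem_cons, List.not_mem_nil, or_false, forall_eq_or_imp, forall_eq] at h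
  obtain ⟨b1, b2⟩ := h
  have key : 2 * (1000000 * (harmonic m.divisors.card : ℝ)) ≤ (117000:ℕ) * ((Z:ℝ) - 1) := by
    rcases Nat.lt_or_ge Z 1005 with h | h
    · exact chkN_sound b1 (by norm_num) h0 (by omega) (by norm_num) hm0 hcon
    · exact chkN_sound b2 (by norm_num) h (by omega) (by norm_num) hm0 hcon
  push_cast at key
  linarith

theorem FN_fin {Z m : ℕ} (h0 : 1228 ≤ Z) (h1 : Z ≤ 16384) (hm0 : m ≠ 0)
    (hcon : Con ((Z-1)/4) Z 1 m) :
    2 * (harmonic m.divisors.card : ℝ) ≤ 0.0915 * ((Z:ℝ) - 1) := by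
  have h := List.all_eq_true.1 blk3
  simp only [List.mem_cons, List.not_mem_nil, or_false, forall_eq_or_imp, forall_eq] at h
  obtain ⟨b1, b2, b3, b4, b5, b6, b7, b8, b9, b10, b11, b12⟩ := h
  have key : 2 * (1000000 * (harmonic m.divisors.card : ℝ)) ≤ (91500:ℕ) * ((Z:ℝ) - 1) := by
    rcases Nat.lt_or_ge Z 1253 with g1 | g1
    · exact chkN_sound b1 (by norm_num) h0 (by omega) (by norm_num) hm0 hcon
    rcases Nat.lt_or_ge Z 1325 with g2 | g2
    · exact chkN_sound b2 (by norm_num) g1 (by omega) (by norm_num) hm0 hcon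
    rcases Nat.lt_or_ge Z 1413 with g3 | g3
    · exact chkN_sound b3 (by norm_num) g2 (by omega) (by norm_num) hm0 hcon
    rcases Nat.lt_or_ge Z 1557 with g4 | g4
    · exact chkN_sound b4 (by norm_num) g3 (by omega) (by norm_num) hm0 hcon
    rcases Nat.lt_or_ge Z 1757 with g5 | g5
    · exact chkN_sound b5 (by norm_num) g4 (by omega) (by norm_num) hm0 hcon
    rcases Nat.lt_or_ge Z 2085 with g6 | g6
    · exact chkN_sound b6 (by norm_num) g5 (by omega) (by norm_num) hm0 hcon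
    rcases Nat.lt_or_ge Z 2589 with g7 | g7
    · exact chkN_sound b7 (by norm_num) g6 (by omega) (by norm_num) hm0 hcon
    rcases Nat.lt_or_ge Z 3445 with g8 | g8
    · exact chkN_sound b8 (by norm_num) g7 (by omega) (by norm_num) hm0 hcon
    rcases Nat.lt_or_ge Z 4949 with g9 | g9
    · exact chkN_sound b9 (by norm_num) g8 (by omega) (by norm_num) hm0 hcon
    rcases Nat.lt_or_ge Z 7917 with g10 | g10
    · exact chkN_sound b10 (by norm_num) g9 (by omega) (by norm_num) hm0 hcon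
    rcases Nat.lt_or_ge Z 13997 with g11 | g11
    · exact chkN_sound b11 (by norm_num) g10 (by omega) (by norm_num) hm0 hcon
    · exact chkN_sound b12 (by norm_num) g11 h1 (by norm_num) hm0 hcon
  push_cast at key
  linarith

/-! ## large values -/

theorem pi_4096 : Nat.primeCounting' 4096 ≤ 564 := by
  unfold Nat.primeCounting'
  rw [Nat.count_eq_card_filter_range]
  have h : (range 4096).filter Nat.Prime ⊆ PL2.toFinset := by
    intro r hr
    rw [mem_filter, mem_range] at hr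
    rw [List.mem_toFinset]
    exact PL2_complete r hr.1 hr.2
  calc _ ≤ PL2.toFinset.card := card_le_card h
    _ ≤ PL2.length := List.toFinset_card_le _
    _ = 564 := PL2_length

theorem card_primes_lt (A : Finset ℕ) (k : ℕ) (h : ∀ r ∈ A, r.Prime ∧ r < k) :
    A.card ≤ Nat.primeCounting' k := by
  unfold Nat.primeCounting'
  rw [Nat.count_eq_card_filter_range]
  apply card_le_card
  intro r hr
  rw [mem_filter, mem_range]
  exact ⟨(h r hr).2, (h r hr).1⟩

theorem pi_big (n : ℕ) : ((Nat.primeCounting' (4096 + n) : ℕ):ℝ) ≤ 612 + 48/210 * n := by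
  have h := Nat.primeCounting'_add_le (a := 210) (k := 4096) (by norm_num) (by norm_num) n
  have h2 : Nat.totient 210 = 48 := by decide +kernel
  rw [h2] at h
  have h1 := pi_4096
  have h3 : Nat.primeCounting' (4096 + n) ≤ 612 + 48 * (n/210) := by omega
  have h4 : ((n/210 : ℕ):ℝ) ≤ (n:ℝ)/210 := Nat.cast_div_le
  have h5 : ((Nat.primeCounting' (4096 + n) : ℕ):ℝ) ≤ ((612 + 48 * (n/210) : ℕ):ℝ) := by
    exact_mod_cast h3
  push_cast at h5 h4
  linarith

theorem pi_small (s : ℕ) (hs : 6 ≤ s) : ((Nat.primeCounting' (s+1) : ℕ):ℝ) ≤ 3 + s/3 := by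
  obtain ⟨n, rfl⟩ : ∃ n, s = n + 6 := ⟨s-6, by omega⟩
  have h := Nat.primeCounting'_add_le (a := 6) (k := 7) (by norm_num) (by norm_num) n
  have h2 : Nat.totient 6 = 2 := by decide +kernel
  have h1 : Nat.primeCounting' 7 = 3 := by decide +kernel
  rw [h2, h1] at h
  have h3 : Nat.primeCounting' (n+6+1) ≤ 5 + 2 * (n/6) := by
    rw [show n+6+1 = 7+n by ring]; omega
  have h4 : ((n/6 : ℕ):ℝ) ≤ (n:ℝ)/6 := Nat.cast_div_le
  have h5 : ((Nat.primeCounting' (n+6+1) : ℕ):ℝ) ≤ ((5 + 2 * (n/6) : ℕ):ℝ) := by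
    exact_mod_cast h3
  push_cast at h5 h4 ⊢
  linarith

theorem exp_log_bound {r v Z L : ℕ} (hr : 2 ≤ r) (hL : 14 ≤ L) (hZ : Z < 2^(L+1))
    (h : r^v * 1 ≤ v * Z) : v + 1 ≤ 2 * L := by
  by_contra hc
  have hv : 2 * L ≤ v := by omega
  have h1 : 2^v ≤ v * 2^(L+1) := by
    calc 2^v ≤ r^v := Nat.pow_le_pow_left hr v
      _ = r^v * 1 := by ring
      _ ≤ v * Z := h
      _ ≤ v * 2^(L+1) := Nat.mul_le_mul_left _ hZ.le
  obtain ⟨w, rfl⟩ : ∃ w, v = w + (L+1) := ⟨v - (L+1), by omega⟩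
  rw [pow_add] at h1
  have h2 : 2^w ≤ w + (L+1) := Nat.le_of_mul_le_mul_right h1 (by positivity)
  have h3 : ∀ w, 4 ≤ w → 2*w + 3 ≤ 2^w := by
    intro w hw
    induction w, hw using Nat.le_induction with
    | base => norm_num
    | succ n hn ih => rw [pow_succ]; omega
  have h4 := h3 w (by omega)
  omega

theorem log_card_bound {Z m : ℕ} (hZ : 16384 ≤ Z) (hm0 : m ≠ 0)
    (hcon : Con ((Z-1)/4) Z 1 m) :
    Real.log m.divisors.card
      ≤ (612 + 48/210 * (((Z:ℝ)+3)/4 - 4096)) * Real.log 2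
        + (3 + (Nat.sqrt (2*Z) : ℝ)/3) * Real.log (Nat.log 2 Z) := by
  set L := Nat.log 2 Z with hL
  set s := Nat.sqrt (2*Z) with hs
  have hL1 : 2^L ≤ Z := Nat.pow_log_le_self 2 (by omega)
  have hL2 : Z < 2^(L+1) := Nat.lt_pow_succ_log_self (by norm_num) Z
  have hL14 : 14 ≤ L := by
    by_contra hc
    have : 2^(L+1) ≤ 2^14 := Nat.pow_le_pow_right (by norm_num) (by omega)
    omega
  have hs2 : 2*Z < (s+1)*(s+1) := Nat.lt_succ_sqrt (2*Z)
  have hs6 : 6 ≤ s := by
    by_contra hc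
    have : (s+1)*(s+1) ≤ 6*6 := Nat.mul_le_mul (by omega) (by omega)
    omega
  -- factor bound
  have hfac : ∀ r ∈ m.primeFactors,
      m.factorization r + 1 ≤ 2 * (if r ≤ s then L else 1) := by
    intro r hr
    have hrp := Nat.prime_of_mem_primeFactors hr
    have hrm := Nat.dvd_of_mem_primeFactors hr
    obtain ⟨c1, c2⟩ := hcon r hrp hrm
    rcases Nat.lt_or_ge 1 (m.factorization r) with h | h
    · have h3 := pow_down hrp.two_le (c2 h) 2 (by norm_num) h
      have hrs : r ≤ s := by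
        rw [hs, Nat.le_sqrt]; rw [pow_two] at h3; omega
      rw [if_pos hrs]
      exact exp_log_bound hrp.two_le hL14 hL2 (c2 h)
    · split_ifs <;> omega
  have hcard : m.divisors.card ≤ 2^m.primeFactors.card * L^(m.primeFactors.filter (· ≤ s)).card := by
    rw [Nat.card_divisors hm0]
    calc ∏ x ∈ m.primeFactors, (m.factorization x + 1)
        ≤ ∏ x ∈ m.primeFactors, (2 * (if x ≤ s then L else 1)) := prod_le_prod' hfac
      _ = _ := by
        rw [prod_mul_distrib, prod_const, prod_ite, prod_const, prod_const_one, mul_one]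
  have hn1 : (m.primeFactors.card : ℝ) ≤ 612 + 48/210 * (((Z:ℝ)+3)/4 - 4096) := by
    have h1 : m.primeFactors.card ≤ Nat.primeCounting' (4096 + ((Z-1)/4 + 1 - 4096)) := by
      apply card_primes_lt
      intro r hr
      have hrp := Nat.prime_of_mem_primeFactors hr
      have hrm := Nat.dvd_of_mem_primeFactors hr
      refine ⟨hrp, ?_⟩
      obtain ⟨c1, c2⟩ := hcon r hrp hrm
      have : r ≤ (Z-1)/4 := by
        rcases Nat.lt_or_ge 1 (m.factorization r) with h | h
        · have h3 := pow_down hrp.two_le (c2 h) 2 (by norm_num) h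
          by_contra hc
          have h4 : Z ≤ 4*r := by omega
          have : r ≤ 8 := by nlinarith
          omega
        · apply c1
          have := hrp.factorization_pos_of_dvd hm0 hrm
          omega
      omega
    have h2 := pi_big ((Z-1)/4 + 1 - 4096)
    have h3 : (((Z-1)/4 + 1 - 4096 : ℕ):ℝ) ≤ ((Z:ℝ)+3)/4 - 4096 := by
      rw [Nat.cast_sub (by omega)]
      push_cast
      have h4 : (((Z-1)/4 : ℕ):ℝ) ≤ ((Z-1 : ℕ):ℝ)/4 := Nat.cast_div_le
      rw [Nat.cast_sub (by omega)] at h4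
      push_cast at h4
      linarith
    have h5 : (m.primeFactors.card : ℝ) ≤ (Nat.primeCounting' (4096 + ((Z-1)/4 + 1 - 4096)) : ℝ) := by
      exact_mod_cast h1
    linarith
  have hns : ((m.primeFactors.filter (· ≤ s)).card : ℝ) ≤ 3 + (s:ℝ)/3 := by
    have h1 : (m.primeFactors.filter (· ≤ s)).card ≤ Nat.primeCounting' (s+1) := by
      apply card_primes_lt
      intro r hr
      rw [mem_filter] at hr
      exact ⟨Nat.prime_of_mem_primeFactors hr.1, by omega⟩
    have h2 := pi_small s hs6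
    have h3 : ((m.primeFactors.filter (· ≤ s)).card : ℝ) ≤ (Nat.primeCounting' (s+1) : ℝ) := by
      exact_mod_cast h1
    linarith
  have hpos : (0:ℝ) < m.divisors.card := by
    have : 0 < m.divisors.card := card_pos.2 ⟨1, Nat.one_mem_divisors.2 hm0⟩
    exact_mod_cast this
  have hLR : (0:ℝ) < L := by
    have : 0 < L := by omega
    exact_mod_cast this
  have h1 : Real.log m.divisors.card ≤ Real.log ((2:ℝ)^m.primeFactors.card
      * (L:ℝ)^(m.primeFactors.filter (· ≤ s)).card) := by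
    apply Real.log_le_log hpos
    exact_mod_cast hcard
  rw [Real.log_mul (by positivity) (by positivity), Real.log_pow, Real.log_pow] at h1
  have hl2 : 0 ≤ Real.log 2 := Real.log_nonneg (by norm_num)
  have hlL : 0 ≤ Real.log (L:ℝ) := Real.log_nonneg (by
    have : 1 ≤ L := by omega
    exact_mod_cast this)
  have h2 := mul_le_mul_of_nonneg_right hn1 hl2
  have h3 := mul_le_mul_of_nonneg_right hns hlL
  linarith

theorem pow_big (L : ℕ) (h : 65 ≤ L) : (200*L+1)*(200*L+1) ≤ 2^(L+1) := by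
  induction L, h using Nat.le_induction with
  | base => norm_num
  | succ n hn ih =>
    rw [pow_succ]
    nlinarith

theorem FN_big {Z m : ℕ} (hZ : 16384 ≤ Z) (hm0 : m ≠ 0)
    (hcon : Con ((Z-1)/4) Z 1 m) :
    2 * (harmonic m.divisors.card : ℝ) ≤ 0.0915 * ((Z:ℝ) - 1) := by
  have hZR : (16384:ℝ) ≤ Z := by exact_mod_cast hZ
  rcases Nat.lt_or_ge m.divisors.card 16 with hc | hc
  · have h1 := harmonic_mono hc.le
    rw [harmonic_sixteen] at h1
    norm_num at h1 ⊢
    linarith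
  have h1 := harm_le_log hc
  have h2 := log_card_bound hZ hm0 hcon
  have hl2 := Real.log_two_lt_d9
  have hl2' := Real.log_two_gt_d9
  set L := Nat.log 2 Z with hL
  set s := Nat.sqrt (2*Z) with hs
  have hL1 : 2^L ≤ Z := Nat.pow_log_le_self 2 (by omega)
  have hL2 : Z < 2^(L+1) := Nat.lt_pow_succ_log_self (by norm_num) Z
  have hL14 : 14 ≤ L := by
    by_contra hc
    have : 2^(L+1) ≤ 2^14 := Nat.pow_le_pow_right (by norm_num) (by omega)
    omega
  have hs2 : 2*Z < (s+1)*(s+1) := Nat.lt_succ_sqrt (2*Z)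
  have hs1 : s*s ≤ 2*Z := Nat.sqrt_le (2*Z)
  have hs1R : (s:ℝ)*s ≤ 2*Z := by exact_mod_cast hs1
  have hsR : (0:ℝ) ≤ s := by positivity
  set n1 : ℝ := 612 + 48/210 * (((Z:ℝ)+3)/4 - 4096) with hn1
  have hn1pos : 0 ≤ n1 := by rw [hn1]; linarith
  have h3 : n1 * Real.log 2 ≤ n1 * 0.6931471808 := mul_le_mul_of_nonneg_left hl2.le hn1pos
  set c := Real.log (L:ℝ) with hc'
  have hc0 : 0 ≤ c := Real.log_nonneg (by
    have : 1 ≤ L := by omega
    exact_mod_cast this)
  -- main inequality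
  have key : 2 * ((3 + (s:ℝ)/3) * c) ≤ 0.00614 * ((s:ℝ)*s) + 447 := by
    rcases Nat.lt_or_ge L 65 with h64 | h65
    · have hc4 : c ≤ 4.16 := by
        have h5 : c ≤ Real.log 64 := Real.log_le_log (by
          have : 0 < L := by omega
          exact_mod_cast this) (by
          have : L ≤ 64 := by omega
          exact_mod_cast this)
        have h6 : Real.log 64 = 6 * Real.log 2 := by
          rw [show (64:ℝ) = 2^6 by norm_num, Real.log_pow]; norm_num
        rw [h6] at h5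
        linarith
      have h7 : (3 + (s:ℝ)/3) * c ≤ (3 + (s:ℝ)/3) * 4.16 :=
        mul_le_mul_of_nonneg_left hc4 (by positivity)
      nlinarith [sq_nonneg ((s:ℝ) - 226)]
    · have h5 := pow_big L h65
      have h6 : 200*L+1 ≤ s + 1 := by
        by_contra hcon
        have h7 : (s+1)*(s+1) < (200*L+1)*(200*L+1) := Nat.mul_self_lt_mul_self (by omega)
        have h8 : 2^(L+1) = 2 * 2^L := by rw [pow_succ]; ring
        omega
      have h7 : (200:ℝ) * L ≤ s := by
        have : 200*L ≤ s := by omega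
        exact_mod_cast this
      have hcL : c ≤ L := (Real.log_le_sub_one_of_pos (by
        have : 0 < L := by omega
        exact_mod_cast this)).trans (by linarith)
      have hL65 : (65:ℝ) ≤ L := by exact_mod_cast h65
      have h8 : c ≤ s/200 := by linarith
      have h9 : (3 + (s:ℝ)/3) * c ≤ (3 + (s:ℝ)/3) * (s/200) :=
        mul_le_mul_of_nonneg_left h8 (by positivity)
      nlinarith
  rw [hn1] at h3
  nlinarith

theorem FN {Z m : ℕ} (hZ : 1228 ≤ Z) (hm0 : m ≠ 0) (hcon : Con ((Z-1)/4) Z 1 m) :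
    2 * (harmonic m.divisors.card : ℝ) ≤ 0.0915 * ((Z:ℝ) - 1) := by
  rcases le_total Z 16384 with h | h
  · exact FN_fin hZ h hm0 hcon
  · exact FN_big h hm0 hcon

theorem N2 {Z m : ℕ} (hZ : 821 ≤ Z) (hm0 : m ≠ 0) (hcon : Con ((Z-1)/4) Z 1 m) :
    2 * (harmonic m.divisors.card : ℝ) ≤ 0.117 * ((Z:ℝ) - 1) := by
  have hZR : (821:ℝ) ≤ Z := by exact_mod_cast hZ
  rcases Nat.lt_or_ge Z 1228 with h | h
  · exact N2_fin hZ (by omega) hm0 hcon
  · have := FN h hm0 hcon
    linarith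

theorem N1 {Z m : ℕ} (hZ : 149 ≤ Z) (hm0 : m ≠ 0) (hcon : Con ((Z-1)/4) Z 1 m) :
    2 * (harmonic m.divisors.card : ℝ) ≤ 0.22 * ((Z:ℝ) - 1) := by
  have hZR : (149:ℝ) ≤ Z := by exact_mod_cast hZ
  rcases Nat.lt_or_ge Z 821 with h | h
  · exact N1_fin hZ (by omega) hm0 hcon
  · have := N2 h hm0 hcon
    linarith

end Pool.Agent.Helper316
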