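import Pool.Agent.Helper316.TheoryB
import Pool.Agent.Helper316.Num
import Pool.Agent.Helper316.ChkD
import Pool.Agent.Helper316.ChkE
set_option autoImplicit false
namespace Pool.Agent.Helper316

open Finset

def Cf (x : ℕ) : ℕ := if x ≤ 30 then 43 else if x ≤ 36 then 46 else 4*x

theorem Cf_mono {x y : ℕ} (h : x ≤ y) : Cf x ≤ Cf y := by
  unfold Cf; split_ifs <;> omega

theorem Cf_ge (x : ℕ) : 43 ≤ Cf x := by
  unfold Cf; split_ifs <;> omega

structure PD (m q a : ℕ) : Prop where
  sing : ∀ r, r.Prime → r ∣ m → m.factorization r = 1 → r ≤ 23 ∨ Cf r * a < q^a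
  powr : ∀ r, r.Prime → r ∣ m → 2 ≤ m.factorization r →
    r^(m.factorization r) * a ≤ m.factorization r * q^a

theorem PD.con {m q a cs : ℕ} (h : PD m q a)
    (hcs : ∀ r, r.Prime → (r ≤ 23 ∨ Cf r * a < q^a) → r ≤ cs) : Con cs (q^a) a m :=
  fun r hr hrm => ⟨fun h1 => hcs r hr (h.sing r hr hrm h1), h.powr r hr hrm⟩

theorem PD.conZ {m q a : ℕ} (h : PD m q a) (ha : 0 < a) (hbig : 148 * a < q^a) :
    Con ((q^a/a + 1 - 1)/4) (q^a/a + 1) 1 m := by
  have h1 := Nat.div_add_mod (q^a) a
  have h2 := Nat.mod_lt (q^a) ha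
  set t := q^a/a with ht
  have ht148 : 148 ≤ t := by
    rw [ht, Nat.le_div_iff_mul_le ha]; omega
  intro r hr hrm
  constructor
  · intro h3
    rcases h.sing r hr hrm h3 with h4 | h4
    · omega
    · have h5 : Cf r ≤ t := by
        rw [ht, Nat.le_div_iff_mul_le ha]; omega
      unfold Cf at h5
      split_ifs at h5 <;> omega
  · intro h3
    have h4 := h.powr r hr hrm h3
    rw [mul_one]
    have h5 : q^a ≤ a * (t+1) := by
      have : a * (t+1) = a*t + a := by ring
      omega
    have h6 : r^(m.factorization r) * a ≤ (m.factorization r * (t+1)) * a := by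
      calc _ ≤ m.factorization r * q^a := h4
        _ ≤ m.factorization r * (a * (t+1)) := Nat.mul_le_mul_left _ h5
        _ = _ := by ring
    exact Nat.le_of_mul_le_mul_right h6 ha

theorem Con.all_le {Z m r : ℕ} (hZ : 33 ≤ Z) (hm0 : m ≠ 0) (hcon : Con ((Z-1)/4) Z 1 m)
    (hr : r.Prime) (hrm : r ∣ m) : r ≤ (Z-1)/4 := by
  obtain ⟨c1, c2⟩ := hcon r hr hrm
  rcases Nat.lt_or_ge 1 (m.factorization r) with h | h
  · have h3 := pow_down hr.two_le (c2 h) 2 (by norm_num) h
    by_contra hc
    have h4 : Z ≤ 4*r := by omega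
    have : r ≤ 8 := by nlinarith
    omega
  · apply c1
    have := hr.factorization_pos_of_dvd hm0 hrm
    omega

theorem two_pow_148 (a : ℕ) (h : 11 ≤ a) : 148 * a < 2^a := by
  induction a, h using Nat.le_induction with
  | base => norm_num
  | succ n hn ih => rw [pow_succ]; omega

theorem three_pow_820 (a : ℕ) (h : 8 ≤ a) : 820 * a ≤ 3^a := by
  induction a, h using Nat.le_induction with
  | base => norm_num
  | succ n hn ih => rw [pow_succ]; omega

theorem sum_W2_odd {m q a : ℕ} (hm : Odd m) (hq : Odd q) (hq3 : 3 ≤ q) :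
    ∑ d ∈ m.divisors, W2 m q a d ≤ m.divisors.card * (3/4) := by
  have hqR : (3:ℝ) ≤ q := by exact_mod_cast hq3
  calc _ ≤ ∑ d ∈ m.divisors, (3/4:ℝ) := by
        apply sum_le_sum
        intro d hd
        refine (W2_odd_le hm hq hq3 (Odd.of_dvd_nat hm (Nat.dvd_of_mem_divisors hd)) a).trans ?_
        rw [div_le_iff₀ (by linarith)]
        linarith
    _ = _ := by rw [sum_const, nsmul_eq_mul]

/-- splitting off the power of two -/
theorem split2 {m : ℕ} (hm0 : m ≠ 0) (hm2 : 2 ∣ m) :
    ∃ i M, 1 ≤ i ∧ m = M * 2^i ∧ ¬ 2 ∣ M ∧ M ≠ 0 ∧ M ∣ m := by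
  refine ⟨m.factorization 2, m / 2^(m.factorization 2),
    Nat.prime_two.factorization_pos_of_dvd hm0 hm2, ?_,
    Nat.not_dvd_ordCompl Nat.prime_two hm0, (Nat.ordCompl_pos 2 hm0).ne', Nat.ordCompl_dvd m 2⟩
  rw [mul_comm]; exact (Nat.ordProj_mul_ordCompl_eq_self m 2).symm

theorem odd_of_not {m : ℕ} (h : ¬ 2 ∣ m) : Odd m := by
  rw [← Nat.not_even_iff_odd]; intro h3; exact h h3.two_dvd

theorem good_big {m q a : ℕ} (hq : q.Prime) (ha : 2 ≤ a) (hm0 : m ≠ 0) (hqm : ¬ q ∣ m)
    (hbig : 148 * a < q^a) (h37 : ¬ (q = 3 ∧ a = 7)) (hPD : PD m q a)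
    (hS : S m ≤ 1.13 * m.divisors.card) : Good m q a := by
  have ha0 : 0 < a := by omega
  have hcon := hPD.conZ ha0 hbig
  have h1 := Nat.div_add_mod (q^a) a
  set t := q^a/a with ht
  have ht148 : 148 ≤ t := by
    rw [ht, Nat.le_div_iff_mul_le ha0]; omega
  have hall : ∀ r, r.Prime → r ∣ m → r ≤ t/4 := by
    intro r hr hrm
    have := hcon.all_le (by omega) hm0 hr hrm
    rwa [Nat.add_sub_cancel] at this
  have hat : a * t ≤ q^a := by omega
  have hatR : (a:ℝ) * t ≤ (q:ℝ)^a := by exact_mod_cast hat
  have haR : (2:ℝ) ≤ a := by exact_mod_cast ha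
  have hbigR : 148 * (a:ℝ) < (q:ℝ)^a := by exact_mod_cast hbig
  have hN1 := N1 (by omega) hm0 hcon
  push_cast at hN1
  rw [add_sub_cancel_right] at hN1
  set X : ℝ := (q:ℝ)^a with hX
  have hXpos : 0 < X := by linarith
  have hH0 := harmonic_nonneg m.divisors.card
  have hf : 2 * a * (harmonic m.divisors.card : ℝ) ≤ 0.22 * X := by
    have : (a:ℝ) * (2 * (harmonic m.divisors.card : ℝ)) ≤ a * (0.22 * t) :=
      mul_le_mul_of_nonneg_left hN1 (by positivity)
    linarith
  have hf2 : a * (harmonic m.divisors.card : ℝ) ≤ 0.11 * X := by linarith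
  have h113 : 1.13 / X ≤ 0.004 := by
    rw [div_le_iff₀ hXpos]; linarith
  by_cases hq2 : q = 2
  · subst hq2
    have hmo := odd_of_not hqm
    have ha11 : 11 ≤ a := by
      by_contra hc
      have : a < 11 := by omega
      interval_cases a <;> omega
    have ha11R : (11:ℝ) ≤ a := by exact_mod_cast ha11
    have hn := near_two (a := a) hmo hm0 (by omega) (by
      intro r hr hrm
      have h2 := hall r hr hrm
      have h3 : t ≤ a * t := Nat.le_mul_of_pos_left t ha0
      omega)
    refine good_two hq hmo hn hf2 ?_ hS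
    have e : ((2:ℕ):ℝ)^a = X := by rw [hX]
    have e2 : (2:ℝ)^a = X := by rw [hX]; norm_num
    rw [e, e2]
    have h3 : 2 * (a:ℝ)/X ≤ 2/148 := by
      rw [div_le_div_iff₀ hXpos (by norm_num)]; linarith
    have h4 : 1.13 / X ≤ 0.0007 := by
      rw [div_le_iff₀ hXpos]; linarith
    linarith
  · have hodd : Odd q := hq.odd_of_ne_two hq2
    have hq3 : 3 ≤ q := by have := hq.two_le; omega
    by_cases hm2 : 2 ∣ m
    · obtain ⟨i, M, hi1, hmM, hM2, hM0, hMm⟩ := split2 hm0 hm2
      rcases Nat.lt_or_ge q 5 with hq5 | hq5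
      · have : q = 3 := by
          rcases Nat.lt_or_ge q 4 with h | h
          · omega
          · exfalso
            have : q = 4 := by omega
            subst this; revert hq; norm_num
        subst this
        have ha7 : 7 ≤ a := by
          by_contra hc
          have : a < 7 := by omega
          interval_cases a <;> omega
        have ha8 : 8 ≤ a := by
          rcases Nat.lt_or_ge a 8 with h | h
          · exfalso; exact h37 ⟨rfl, by omega⟩
          · exact h
        have ht820 : 820 ≤ t := by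
          rw [ht, Nat.le_div_iff_mul_le ha0]; exact three_pow_820 a ha8
        have hN2 := N2 (by omega) hm0 hcon
        push_cast at hN2
        rw [add_sub_cancel_right] at hN2
        have hf' : 2 * a * (harmonic m.divisors.card : ℝ) ≤ 0.117 * X := by
          have : (a:ℝ) * (2 * (harmonic m.divisors.card : ℝ)) ≤ a * (0.117 * t) :=
            mul_le_mul_of_nonneg_left hN2 (by positivity)
          linarith
        have hX6 : 6560 ≤ X := by
          have ht820R : (820:ℝ) ≤ t := by exact_mod_cast ht820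
          have ha8R : (8:ℝ) ≤ a := by exact_mod_cast ha8
          nlinarith
        have h4 : 1.13 / X ≤ 0.0002 := by
          rw [div_le_iff₀ hXpos]; linarith
        rcases Nat.lt_or_ge i 2 with hi | hi
        · have hi' : i = 1 := by omega
          subst hi'
          rw [pow_one] at hmM
          have hn := near_pow_i1 (q := 3) (a := a) (κ := 8/5) hmM hM2 hM0
            (fun d => UU_3 hqm d a (by omega))
          exact good_odd hq hq2 hn hf' (by rw [← hX]; linarith) hS
        · exact good_odd hq hq2 (near_3 hmM hM2 hM0 hi a ha8) hf' (by rw [← hX]; linarith) hS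
      · rcases Nat.lt_or_ge i 2 with hi | hi
        · have hi' : i = 1 := by omega
          subst hi'
          rw [pow_one] at hmM
          have hn := near_pow_i1 (q := q) (a := a) (κ := 3/2) hmM hM2 hM0
            (fun d => UU_5 hqm hodd hq5 d a)
          exact good_odd hq hq2 hn hf (by linarith) hS
        · rcases Nat.lt_or_ge q 7 with hq7 | hq7
          · have : q = 5 := by
              rcases Nat.lt_or_ge q 6 with h | h
              · omega
              · exfalso
                have : q = 6 := by omega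
                subst this; revert hq; norm_num
            subst this
            have ha4 : 4 ≤ a := by
              by_contra hc
              have : a < 4 := by omega
              interval_cases a <;> omega
            exact good_odd hq hq2 (near_5 hmM hM2 hM0 hi a ha4) hf (by rw [← hX]; linarith) hS
          · exact good_odd hq hq2 (near_7 hmM hM2 hM0 hi hodd hq7 a ha) hf (by linarith) hS
    · have hmo := odd_of_not hm2
      exact good_two hq hmo (sum_W2_odd hmo hodd hq3) hf2 (by linarith) hS

theorem le31 {r : ℕ} (hr : r.Prime) (h : r ≤ 36) : r ≤ 31 := by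
  by_contra hc
  have : 32 ≤ r := by omega
  interval_cases r <;> revert hr <;> norm_num

theorem le73 {r : ℕ} (hr : r.Prime) (h : r ≤ 78) : r ≤ 73 := by
  by_contra hc
  have : 74 ≤ r := by omega
  interval_cases r <;> revert hr <;> norm_num

theorem cs23 {X a : ℕ} (h : X ≤ 43 * a) : ∀ r, r.Prime → (r ≤ 23 ∨ Cf r * a < X) → r ≤ 23 := by
  intro r _ h1
  rcases h1 with h1 | h1
  · exact h1
  · exfalso
    have := Nat.mul_le_mul_right a (Cf_ge r)
    omega

theorem cs31 {X a : ℕ} (h : X ≤ 148 * a) : ∀ r, r.Prime → (r ≤ 23 ∨ Cf r * a < X) → r ≤ 31 := by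
  intro r hr h1
  rcases h1 with h1 | h1
  · omega
  · apply le31 hr
    by_contra hc
    have h2 : 148 ≤ Cf r := by unfold Cf; split_ifs <;> omega
    have := Nat.mul_le_mul_right a h2
    omega

theorem good_small {m q a : ℕ} (hq : q.Prime) (ha : 2 ≤ a) (hm0 : m ≠ 0) (hqm : ¬ q ∣ m)
    (h49 : 49 * a ≤ 2 * q^a) (hsm : q^a ≤ 148 * a) (hPD : PD m q a)
    (hS : S m ≤ 1.13 * m.divisors.card) : Good m q a := by
  have hD := chkD1
  simp only [Bool.and_eq_true] at hD
  obtain ⟨⟨⟨⟨⟨⟨d1, d2⟩, d3⟩, d4⟩, d5⟩, d6⟩, d7⟩ := hD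
  have hT := chkD3
  simp only [Bool.and_eq_true] at hT
  obtain ⟨⟨t1, t2⟩, t3⟩ := hT
  have ha10 : a ≤ 10 := by
    by_contra hc
    have h1 := two_pow_148 a (by omega)
    have h2 : 2^a ≤ q^a := Nat.pow_le_pow_left hq.two_le a
    omega
  have hq17 : q ≤ 17 := by
    have h1 : q^a * 1 ≤ a * 148 := by omega
    have h2 := pow_down hq.two_le h1 2 (by norm_num) ha
    by_contra hc
    have : 18^2 ≤ q^2 := Nat.pow_le_pow_left (by omega) 2
    omega
  have c31 := hPD.con (cs31 hsm)
  by_cases e2 : q = 2
  · subst e2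
    have ha8 : 8 ≤ a := by
      by_contra hc
      have : a < 8 := by omega
      interval_cases a <;> omega
    interval_cases a
    · exact chkT_sound (by norm_num) (by norm_num) (by norm_num) t1 hm0 hqm
        (hPD.con (cs23 (by norm_num))) hS
    · exact chkT_sound (by norm_num) (by norm_num) (by norm_num) t2 hm0 hqm c31 hS
    · exact chkT_sound (by norm_num) (by norm_num) (by norm_num) t3 hm0 hqm c31 hS
  by_cases e3 : q = 3
  · subst e3
    have ha56 : a = 5 ∨ a = 6 := by
      interval_cases a <;> omega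
    rcases ha56 with rfl | rfl
    · exact chkW_sound hq (by norm_num) (by norm_num) (by norm_num) (by norm_num) d3 hm0 hqm c31 hS
    · exact chkW_sound hq (by norm_num) (by norm_num) (by norm_num) (by norm_num) chkE1 hm0 hqm
        c31 hS
  by_cases e5 : q = 5
  · subst e5
    have ha3 : a = 3 := by
      interval_cases a <;> omega
    subst ha3
    exact chkW_sound hq (by norm_num) (by norm_num) (by norm_num) (by norm_num) d2 hm0 hqm
      (hPD.con (cs23 (by norm_num))) hS
  by_cases e7 : q = 7
  · subst e7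
    have ha23 : a = 2 ∨ a = 3 := by
      interval_cases a <;> omega
    rcases ha23 with rfl | rfl
    · exact chkW_sound hq (by norm_num) (by norm_num) (by norm_num) (by norm_num) d1 hm0 hqm
        (hPD.con (cs23 (by norm_num))) hS
    · exact chkW_sound hq (by norm_num) (by norm_num) (by norm_num) (by norm_num) d6 hm0 hqm c31 hS
  have hq11 : 11 ≤ q := by
    by_contra hc
    have : q < 11 := by omega
    have := hq.two_le
    interval_cases q <;> first | omega | (revert hq; norm_num)
  have ha2 : a = 2 := by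
    by_contra hc
    have h1 : q^a * 1 ≤ a * 148 := by omega
    have h2 := pow_down hq.two_le h1 3 (by norm_num) (by omega)
    have : 11^3 ≤ q^3 := Nat.pow_le_pow_left hq11 3
    omega
  subst ha2
  have hq3 : q = 11 ∨ q = 13 ∨ q = 17 := by
    interval_cases q <;> first | omega | (exfalso; revert hq; norm_num)
  rcases hq3 with rfl | rfl | rfl
  · exact chkW_sound hq (by norm_num) (by norm_num) (by norm_num) (by norm_num) d4 hm0 hqm c31 hS
  · exact chkW_sound hq (by norm_num) (by norm_num) (by norm_num) (by norm_num) d5 hm0 hqm c31 hS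
  · exact chkW_sound hq (by norm_num) (by norm_num) (by norm_num) (by norm_num) d7 hm0 hqm c31 hS

theorem good_pow {m q a : ℕ} (hq : q.Prime) (ha : 2 ≤ a) (hm0 : m ≠ 0) (hqm : ¬ q ∣ m)
    (h49 : 49 * a ≤ 2 * q^a) (hPD : PD m q a)
    (hS : S m ≤ 1.13 * m.divisors.card) : Good m q a := by
  rcases Nat.lt_or_ge (148 * a) (q^a) with h | h
  · by_cases h37 : q = 3 ∧ a = 7
    · obtain ⟨rfl, rfl⟩ := h37
      refine chkW_sound hq (by norm_num) (by norm_num) (by norm_num) (by norm_num) chkE2 hm0 hqm
        (hPD.con ?_) hS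
      intro r hr h1
      rcases h1 with h1 | h1
      · omega
      · apply le73 hr
        norm_num at h1
        unfold Cf at h1
        split_ifs at h1 <;> omega
    · exact good_big hq ha hm0 hqm h h37 hPD hS
  · exact good_small hq ha hm0 hqm h49 h hPD hS

end Pool.Agent.Helper316
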