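import Pool.Agent.Helper316.Check
set_option autoImplicit false
namespace Pool.Agent.Helper316

/-- primes below 4096 -/
def PL2 : List ℕ :=
  [4093,4091,4079,4073,4057,4051,4049,4027,4021,4019,4013,4007,4003,4001,3989,3967,3947,3943,3931,
  3929,3923,3919,3917,3911,3907,3889,3881,3877,3863,3853,3851,3847,3833,3823,3821,3803,3797,3793,
  3779,3769,3767,3761,3739,3733,3727,3719,3709,3701,3697,3691,3677,3673,3671,3659,3643,3637,3631,
  3623,3617,3613,3607,3593,3583,3581,3571,3559,3557,3547,3541,3539,3533,3529,3527,3517,3511,3499,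
  3491,3469,3467,3463,3461,3457,3449,3433,3413,3407,3391,3389,3373,3371,3361,3359,3347,3343,3331,
  3329,3323,3319,3313,3307,3301,3299,3271,3259,3257,3253,3251,3229,3221,3217,3209,3203,3191,3187,
  3181,3169,3167,3163,3137,3121,3119,3109,3089,3083,3079,3067,3061,3049,3041,3037,3023,3019,3011,
  3001,2999,2971,2969,2963,2957,2953,2939,2927,2917,2909,2903,2897,2887,2879,2861,2857,2851,2843,
  2837,2833,2819,2803,2801,2797,2791,2789,2777,2767,2753,2749,2741,2731,2729,2719,2713,2711,2707,
  2699,2693,2689,2687,2683,2677,2671,2663,2659,2657,2647,2633,2621,2617,2609,2593,2591,2579,2557,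
  2551,2549,2543,2539,2531,2521,2503,2477,2473,2467,2459,2447,2441,2437,2423,2417,2411,2399,2393,
  2389,2383,2381,2377,2371,2357,2351,2347,2341,2339,2333,2311,2309,2297,2293,2287,2281,2273,2269,
  2267,2251,2243,2239,2237,2221,2213,2207,2203,2179,2161,2153,2143,2141,2137,2131,2129,2113,2111,
  2099,2089,2087,2083,2081,2069,2063,2053,2039,2029,2027,2017,2011,2003,1999,1997,1993,1987,1979,
  1973,1951,1949,1933,1931,1913,1907,1901,1889,1879,1877,1873,1871,1867,1861,1847,1831,1823,1811,
  1801,1789,1787,1783,1777,1759,1753,1747,1741,1733,1723,1721,1709,1699,1697,1693,1669,1667,1663,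
  1657,1637,1627,1621,1619,1613,1609,1607,1601,1597,1583,1579,1571,1567,1559,1553,1549,1543,1531,
  1523,1511,1499,1493,1489,1487,1483,1481,1471,1459,1453,1451,1447,1439,1433,1429,1427,1423,1409,
  1399,1381,1373,1367,1361,1327,1321,1319,1307,1303,1301,1297,1291,1289,1283,1279,1277,1259,1249,
  1237,1231,1229,1223,1217,1213,1201,1193,1187,1181,1171,1163,1153,1151,1129,1123,1117,1109,1103,
  1097,1093,1091,1087,1069,1063,1061,1051,1049,1039,1033,1031,1021,1019,1013,1009,997,991,983,977,
  971,967,953,947,941,937,929,919,911,907,887,883,881,877,863,859,857,853,839,829,827,823,821,811,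
  809,797,787,773,769,761,757,751,743,739,733,727,719,709,701,691,683,677,673,661,659,653,647,643,
  641,631,619,617,613,607,601,599,593,587,577,571,569,563,557,547,541,523,521,509,503,499,491,487,
  479,467,463,461,457,449,443,439,433,431,421,419,409,401,397,389,383,379,373,367,359,353,349,347,
  337,331,317,313,311,307,293,283,281,277,271,269,263,257,251,241,239,233,229,227,223,211,199,197,
  193,191,181,179,173,167,163,157,151,149,139,137,131,127,113,109,107,103,101,97,89,83,79,73,71,
  67,61,59,53,47,43,41,37,31,29,23,19,17,13,11,7,5,3,2]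

/-- small factor test -/
def cmp (n : ℕ) : Bool :=
  Nat.blt n 2 || [2,3,5,7,11,13,17,19,23,29,31,37,41,43,47,53,59,61].any
     (fun q => Nat.blt q n && Nat.beq (Nat.mod n q) 0)

def cmpl (n : ℕ) : List ℕ → Bool :=
  Nat.rec (motive := fun _ => List ℕ → Bool) (fun _ => true)
    (fun n ih l => cond (cmp n) (ih l) (List.rec (motive := fun _ => Bool) false
      (fun p l' _ => cond (Nat.beq p n) (ih l') false) l)) n

theorem cmpl_succ (n : ℕ) (l : List ℕ) : cmpl (n+1) l = cond (cmp n) (cmpl n l)
    (List.rec (motive := fun _ => Bool) false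
      (fun p l' _ => cond (Nat.beq p n) (cmpl n l') false) l) := rfl

theorem cmp_spec {r : ℕ} (h : cmp r = true) (hr : r.Prime) : False := by
  unfold cmp at h
  rw [Bool.or_eq_true, Nat.blt_eq, List.any_eq_true] at h
  rcases h with h | ⟨q, hq, h⟩
  · exact absurd hr.two_le (by omega)
  · rw [Bool.and_eq_true, Nat.blt_eq, Nat.beq_eq] at h
    have h1 : q ∣ r := Nat.dvd_of_mod_eq_zero h.2
    rcases (Nat.dvd_prime hr).1 h1 with h2 | h2
    · subst h2; simp at hq
    · omega

theorem cmpl_spec : ∀ (n : ℕ) (l : List ℕ), cmpl n l = true → ∀ r < n, r.Prime → r ∈ l := by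
  intro n
  induction n with
  | zero => intro l _ r h; omega
  | succ n ih =>
    intro l h r hr hp
    rw [cmpl_succ] at h
    cases hc : cmp n with
    | true =>
      rw [hc, cond_true] at h
      rcases Nat.lt_or_ge r n with h1 | h1
      · exact ih l h r h1 hp
      · exfalso
        have : r = n := by omega
        subst this
        exact cmp_spec hc hp
    | false =>
      rw [hc, cond_false] at h
      cases l with
      | nil => simp at h
      | cons p l =>
        simp only at h
        cases hb : Nat.beq p n with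
        | false => rw [hb] at h; simp at h
        | true =>
          rw [hb, cond_true] at h
          rw [Nat.beq_eq] at hb
          rcases Nat.lt_or_ge r n with h1 | h1
          · exact List.mem_cons_of_mem _ (ih l h r h1 hp)
          · have : r = n := by omega
            rw [this, hb]; exact List.mem_cons_self

theorem PL2_cmpl : cmpl 4096 PL2 = true := by decide +kernel

theorem PL2_complete : ∀ r < 4096, r.Prime → r ∈ PL2 := cmpl_spec 4096 PL2 PL2_cmpl

/-- trial division up to 61 -/
def isp (n : ℕ) : Bool :=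
  Nat.ble 2 n && Nat.blt n 4096 && [2,3,5,7,11,13,17,19,23,29,31,37,41,43,47,53,59,61].all
     (fun q => Nat.ble n q || !(Nat.beq (Nat.mod n q) 0))

theorem isp_spec {n : ℕ} (h : isp n = true) : n.Prime := by
  unfold isp at h
  rw [Bool.and_eq_true, Bool.and_eq_true, Nat.ble_eq, Nat.blt_eq, List.all_eq_true] at h
  obtain ⟨⟨h1, h2⟩, h3⟩ := h
  by_contra hn
  set p := n.minFac with hp
  have hpp : p.Prime := Nat.minFac_prime (by omega)
  have hpn : p ∣ n := Nat.minFac_dvd n
  have hsq : p^2 ≤ n := Nat.minFac_sq_le_self (by omega) hn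
  have hp64 : p < 64 := by nlinarith
  have hmem : p ∈ [2,3,5,7,11,13,17,19,23,29,31,37,41,43,47,53,59,61] := by
    clear_value p
    interval_cases p <;> first | decide | (exfalso; revert hpp; norm_num)
  have h4 := h3 p hmem
  rw [Bool.or_eq_true, Nat.ble_eq, Bool.not_eq_true'] at h4
  rcases h4 with h4 | h4
  · have h5 : 2*p ≤ p^2 := by rw [pow_two]; exact Nat.mul_le_mul_right _ hpp.two_le
    have := hpp.pos
    omega
  · rw [Bool.eq_false_iff] at h4
    apply h4
    rw [Nat.beq_eq]
    exact Nat.mod_eq_zero_of_dvd hpn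

theorem PL2_isp : PL2.all isp = true := by decide +kernel

theorem PL2_prime : ∀ r ∈ PL2, r.Prime := fun r hr =>
  isp_spec ((List.all_eq_true.1 PL2_isp) r hr)

def desc : List ℕ → Bool
 | [] => true
 | [_] => true
 | (a :: b :: l) => Nat.blt b a && desc (b :: l)

theorem desc_spec : ∀ (l : List ℕ), desc l = true → l.Pairwise (fun a b => b < a) := by
  intro l
  induction l with
  | nil => intro _; exact List.Pairwise.nil
  | cons a l ih =>
    intro h
    cases l with
    | nil => exact List.pairwise_singleton _ _
    | cons b l =>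
      rw [desc, Bool.and_eq_true, Nat.blt_eq] at h
      have h2 := ih h.2
      rw [List.pairwise_cons] at h2 ⊢
      refine ⟨?_, by rw [List.pairwise_cons]; exact h2⟩
      intro c hc
      rcases List.mem_cons.1 hc with rfl | hc
      · exact h.1
      · exact (h2.1 c hc).trans h.1

theorem PL2_nodup : PL2.Nodup := by
  have h := desc_spec PL2 (by decide +kernel)
  exact h.imp (fun h => (ne_of_lt h).symm)

theorem PL2_length : PL2.length = 564 := by decide +kernel

end Pool.Agent.Helper316
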