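import Pool.Agent.Helper316.Dbl
set_option autoImplicit false
namespace Pool.Agent.Helper316

open Finset

theorem good_odd {q a m : ℕ} {κ η : ℝ} (hq : q.Prime) (hq2 : q ≠ 2)
    (hn : ∑ d ∈ m.divisors, W m q a d ≤ m.divisors.card * κ)
    (hf : 2 * a * (harmonic m.divisors.card : ℝ) ≤ η * (q:ℝ)^a)
    (hs : κ + η + 1.13 / (q:ℝ)^a ≤ 1)
    (hS : S m ≤ 1.13 * m.divisors.card) : Good m q a := by
  have hodd : Odd q := hq.odd_of_ne_two hq2
  have h2 := V_le_odd (m := m) hodd a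
  unfold Good
  set X : ℝ := (q:ℝ)^a with hX
  have hXpos : 0 < X := by
    have : (0:ℝ) < q := by exact_mod_cast hq.pos
    positivity
  set τ : ℝ := (m.divisors.card : ℝ) with hτ
  set H : ℝ := (harmonic m.divisors.card : ℝ) with hH
  have hτ0 : 0 ≤ τ := by positivity
  have h4 : S m / X ≤ 1.13 * τ / X := div_le_div_of_nonneg_right hS hXpos.le
  have h5 : (2*a/X) * H ≤ η := by
    rw [div_mul_eq_mul_div, div_le_iff₀ hXpos]; exact hf
  have h6 := mul_le_mul_of_nonneg_left h5 hτ0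
  have h7 := mul_le_mul_of_nonneg_left hs hτ0
  have h8 : 1.13 * τ / X = τ * (1.13 / X) := by ring
  nlinarith

theorem good_two {q a m : ℕ} {κ η : ℝ} (hq : q.Prime) (hm : Odd m)
    (hn : ∑ d ∈ m.divisors, W2 m q a d ≤ m.divisors.card * κ)
    (hf : a * (harmonic m.divisors.card : ℝ) ≤ η * (q:ℝ)^a)
    (hs : κ + η + 1.13 / (q:ℝ)^a ≤ 1)
    (hS : S m ≤ 1.13 * m.divisors.card) : Good m q a := by
  have h2 := V_le_two (m := m) hm hq.pos a
  unfold Good
  set X : ℝ := (q:ℝ)^a with hX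
  have hXpos : 0 < X := by
    have : (0:ℝ) < q := by exact_mod_cast hq.pos
    positivity
  set τ : ℝ := (m.divisors.card : ℝ) with hτ
  set H : ℝ := (harmonic m.divisors.card : ℝ) with hH
  have hτ0 : 0 ≤ τ := by positivity
  have h4 : S m / X ≤ 1.13 * τ / X := div_le_div_of_nonneg_right hS hXpos.le
  have h5 : (a/X) * H ≤ η := by
    rw [div_mul_eq_mul_div, div_le_iff₀ hXpos]; exact hf
  have h6 := mul_le_mul_of_nonneg_left h5 hτ0
  have h7 := mul_le_mul_of_nonneg_left hs hτ0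
  have h8 : 1.13 * τ / X = τ * (1.13 / X) := by ring
  nlinarith

theorem nu_le_one (m y d : ℕ) : nu m y d ≤ 1 := (nu_le_nt m y d).trans (inv_one _)

theorem nu_zero {m y z d : ℕ} (h : 2 * |((y*z : ℕ):ℤ) - d| < y) (hz : z ∉ m.divisors) :
    nu m y d = 0 := by
  rcases nu_cases m y d with h1 | ⟨e, he, h1, _⟩
  · exact h1
  · exfalso
    apply hz
    have hy : (0:ℤ) < y := by
      have := abs_nonneg (((y*e : ℕ):ℤ) - d); omega
    have h3 : |((y*z : ℕ):ℤ) - ((y*e:ℕ):ℤ)| < y := by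
      have := abs_sub_le (((y*z : ℕ):ℤ) ) (d:ℤ) ((y*e : ℕ):ℤ)
      have h4 : |(d:ℤ) - ((y*e:ℕ):ℤ)| = |((y*e : ℕ):ℤ) - d| := abs_sub_comm _ _
      omega
    have h5 : ((y*z : ℕ):ℤ) - ((y*e:ℕ):ℤ) = y * ((z:ℤ) - e) := by push_cast; ring
    rw [h5, abs_mul, abs_of_pos hy] at h3
    by_cases hze : z = e
    · rw [hze]; exact he
    · exfalso
      have h6 : (1:ℤ) ≤ |(z:ℤ) - e| := by
        have : (z:ℤ) - e ≠ 0 := by intro h; apply hze; omega
        exact Int.one_le_abs this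
      nlinarith

/-- type A predicate -/
def TA (m y d : ℕ) : Prop := ∃ e ∈ m.divisors, |((y*e : ℕ):ℤ) - d| = 1

theorem g_le_TS {m y : ℕ} (hy : Odd y) (hy5 : 5 ≤ y) (d : ℕ) :
    nu m y d + nu m y (2*d) ≤ 3/2 := by
  have h := TS_two hy hy5 d
  have h1 := nu_le_nt m y d
  have h2 := nu_le_nt m y (2*d)
  unfold TS at h
  simp only [sum_range_succ, sum_range_zero, pow_zero, one_mul, pow_one, zero_add] at h
  linarith

theorem g_nonA {m y : ℕ} (hy : Odd y) (hy3 : 3 ≤ y) (d : ℕ) (hA : ¬ TA m y d) :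
    nu m y d + nu m y (2*d) ≤ 1 + 2/((y:ℝ)-1) := by
  have hyR : (3:ℝ) ≤ y := by exact_mod_cast hy3
  have hpos : 0 < 2/((y:ℝ)-1) := by
    apply div_pos (by norm_num); linarith
  have hn2 := nu_le_one m y (2*d)
  rcases nu_cases m y d with h | ⟨e, he, h1, h2⟩
  · rw [h]; linarith
  · have h3 := nt_of_near h1
    have h4 : nt y d ≠ 1 := by
      intro h5
      apply hA
      refine ⟨e, he, ?_⟩
      rw [← h3, h5]; rfl
    have h5 := nu_le_nt m y d
    have h6 := nu_le_nt m y (2*d)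
    have hD := db_nt hy.pos d
    have hle := nt_two_le y d
    generalize nt y d = t at *
    generalize nt y (2*d) = t' at *
    unfold Db at hD
    obtain ⟨w, hw⟩ := hy
    rcases Nat.lt_or_ge t 1 with h7 | h7
    · have : t = 0 := by omega
      subst this
      simp only [Nat.cast_zero, div_zero] at h5
      linarith
    · have j := inv_ub (t := t) 2 (by norm_num) (by omega)
      push_cast at j
      rcases Nat.lt_or_ge t' 2 with h8 | h8
      · rcases Nat.lt_or_ge t' 1 with h9 | h9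
        · have : t' = 0 := by omega
          subst this
          simp only [Nat.cast_zero, div_zero] at h6
          linarith
        · have h10 : t = w := by split_ifs at hD <;> omega
          have h11 : (1:ℝ)/t = 2/((y:ℝ)-1) := by
            rw [h10, hw]; push_cast
            have : (w:ℝ) ≠ 0 := by
              have : 0 < w := by omega
              positivity
            field_simp
            ring
          linarith
      · have j' := inv_ub (t := t') 2 (by norm_num) (by omega)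
        push_cast at j'
        linarith

theorem IS_cond {y r : ℕ} (hr1 : 1 < r) (hr2 : r + 1 < y) {d : ℤ}
    (h : (y:ℤ) ∣ d - 1 ∨ (y:ℤ) ∣ d + 1) (h' : (y:ℤ) ∣ r*d - 1 ∨ (y:ℤ) ∣ r*d + 1) : False := by
  have key : (y:ℤ) ∣ (r:ℤ) - 1 ∨ (y:ℤ) ∣ (r:ℤ) + 1 := by
    rcases h with h | h <;> rcases h' with h' | h'
    · left
      have := dvd_sub h' (h.mul_left (r:ℤ))
      rwa [show (r:ℤ)*d - 1 - r*(d-1) = r - 1 by ring] at this
    · right
      have := dvd_sub h' (h.mul_left (r:ℤ))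
      rwa [show (r:ℤ)*d + 1 - r*(d-1) = r + 1 by ring] at this
    · right
      have := (dvd_sub h' (h.mul_left (r:ℤ))).neg_right
      rwa [show -((r:ℤ)*d - 1 - r*(d+1)) = r + 1 by ring] at this
    · left
      have := (dvd_sub h' (h.mul_left (r:ℤ))).neg_right
      rwa [show -((r:ℤ)*d + 1 - r*(d+1)) = r - 1 by ring] at this
  rcases key with h1 | h1
  · have := Int.le_of_dvd (by omega) h1
    omega
  · have := Int.le_of_dvd (by omega) h1
    omega

theorem TA_dvd {m y d : ℕ} (h : TA m y d) : (y:ℤ) ∣ (d:ℤ) - 1 ∨ (y:ℤ) ∣ (d:ℤ) + 1 := by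
  obtain ⟨e, _, he⟩ := h
  have h1 : (y:ℤ) ∣ ((y*e : ℕ):ℤ) := by push_cast; exact dvd_mul_right _ _
  rcases (abs_eq (by norm_num : (0:ℤ) ≤ 1)).1 he with h2 | h2
  · right
    rwa [show (d:ℤ) + 1 = ((y*e : ℕ):ℤ) by omega]
  · left
    rwa [show (d:ℤ) - 1 = ((y*e : ℕ):ℤ) by omega]

open Classical in
noncomputable def fA (m y d : ℕ) : ℕ := if TA m y d then 1 else 0

theorem fA_one {m y : ℕ} (hy : 3 ≤ y) : fA m y 1 = 0 := by
  unfold fA
  rw [if_neg]
  rintro ⟨e, he, h⟩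
  have he0 : 0 < e := Nat.pos_of_mem_divisors he
  have h1 : y ≤ y*e := Nat.le_mul_of_pos_right _ he0
  have := le_abs_self (((y*e : ℕ):ℤ) - (1:ℕ))
  rw [h] at this
  push_cast at *
  zify at h1 hy
  linarith

theorem fA_pair {m y r : ℕ} (hr1 : 1 < r) (hr2 : r + 1 < y) (d : ℕ) :
    fA m y d + fA m y (r*d) ≤ 1 := by
  unfold fA
  by_cases h1 : TA m y d
  · have h2 : ¬ TA m y (r*d) := by
      intro h2
      have h3 := TA_dvd h2
      push_cast at h3
      exact IS_cond hr1 hr2 (TA_dvd h1) h3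
    rw [if_pos h1, if_neg h2]
  · rw [if_neg h1]; split_ifs <;> omega

/-- average over the type A divisors -/
theorem IS_avg {m M y : ℕ} (hM0 : M ≠ 0) (hy : 3 ≤ y)
    (hr : ∀ r, r.Prime → r ∣ M → r + 1 < y) (F : ℕ → ℝ) {α β : ℝ} (hβ : 0 ≤ β)
    (h1 : ∀ d ∈ M.divisors, TA m y d → F d ≤ α + β)
    (h2 : ∀ d ∈ M.divisors, ¬ TA m y d → F d ≤ α) :
    ∑ d ∈ M.divisors, F d ≤ M.divisors.card * (α + β/2) := by
  have h3 : ∀ d ∈ M.divisors, F d ≤ α + β * (fA m y d : ℝ) := by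
    intro d hd
    unfold fA
    by_cases h : TA m y d
    · rw [if_pos h]; have := h1 d hd h; push_cast; linarith
    · rw [if_neg h]; have := h2 d hd h; push_cast; linarith
  have h4 := IS (fA m y) (fA_one hy) M hM0
    (fun r hr' hrM d => fA_pair hr'.one_lt (hr r hr' hrM) d)
  have h5 : 2 * ∑ d ∈ M.divisors, (fA m y d : ℝ) ≤ M.divisors.card := by exact_mod_cast h4
  calc ∑ d ∈ M.divisors, F d ≤ ∑ d ∈ M.divisors, (α + β * (fA m y d : ℝ)) := sum_le_sum h3
    _ = M.divisors.card * α + β * ∑ d ∈ M.divisors, (fA m y d : ℝ) := by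
      rw [sum_add_distrib, sum_const, nsmul_eq_mul, mul_sum]
    _ ≤ _ := by nlinarith

theorem near_i1 {p m M : ℕ} (hp : Odd p) (hp7 : 7 ≤ p) (hm : m = M*2) (hM2 : ¬ 2 ∣ M)
    (hM0 : M ≠ 0) (hr : ∀ r, r.Prime → r ∣ M → r + 1 < p) :
    ∑ d ∈ m.divisors, W m p 1 d ≤ m.divisors.card * (5/8 + 1/(2*((p:ℝ)-1))) := by
  have hpR : (7:ℝ) ≤ p := by exact_mod_cast hp7
  have e1 : ∀ d, W m p 1 d = nu m p d := by intro d; simp [W]
  have hcard : m.divisors.card = 2 * M.divisors.card := by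
    have := card_mul_pow Nat.prime_two hM2 1
    rw [pow_one, ← hm] at this
    rw [this]
  have h0 : ∑ d ∈ m.divisors, W m p 1 d = ∑ d ∈ M.divisors, (nu m p d + nu m p (2*d)) := by
    have := sum_two_pow hM2 hM0 1 (fun d => W m p 1 d)
    rw [pow_one, ← hm] at this
    rw [this]
    refine sum_congr rfl fun d _ => ?_
    simp [sum_range_succ, e1]
  rw [h0, hcard]
  have hb : 0 ≤ 1/2 - 2/((p:ℝ)-1) := by
    have : 2/((p:ℝ)-1) ≤ 2/6 := by
      apply div_le_div_of_nonneg_left (by norm_num) (by norm_num); linarith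
    linarith
  have h1 := IS_avg (m := m) (y := p) hM0 (by omega) hr (fun d => nu m p d + nu m p (2*d))
    (α := 1 + 2/((p:ℝ)-1)) (β := 1/2 - 2/((p:ℝ)-1)) hb
    (fun d _ _ => by have := g_le_TS (m := m) hp (by omega) d; linarith)
    (fun d _ h => g_nonA hp (by omega) d h)
  refine h1.trans (le_of_eq ?_)
  push_cast
  have : (p:ℝ) - 1 ≠ 0 := by
    have : (0:ℝ) < p - 1 := by linarith
    exact this.ne'
  field_simp
  ring

/-! levels, at least two factors 2 -/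

theorem near_step (m q a : ℕ) : ∑ d ∈ m.divisors, W m q (a+1) d
    = ∑ d ∈ m.divisors, nu m (q^(a+1)) d + (∑ d ∈ m.divisors, W m q a d) / q := by
  rw [sum_div, ← sum_add_distrib]
  exact sum_congr rfl fun d _ => rfl

theorem level_one (m y : ℕ) : ∑ d ∈ m.divisors, nu m y d ≤ m.divisors.card * 1 := by
  calc _ ≤ ∑ d ∈ m.divisors, (1:ℝ) := sum_le_sum fun d _ => nu_le_one m y d
    _ = _ := by simp

theorem level_32 {m M i y : ℕ} (hm : m = M*2^i) (hM2 : ¬ 2 ∣ M) (hM0 : M ≠ 0) (hi : 2 ≤ i)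
    (hy : Odd y) (hy32 : 32 ≤ y) :
    ∑ d ∈ m.divisors, nu m y d ≤ m.divisors.card * (7/12) := by
  have hcard : m.divisors.card = (i+1) * M.divisors.card := by
    rw [hm]; exact card_mul_pow Nat.prime_two hM2 i
  have h0 := sum_two_pow hM2 hM0 i (fun d => nu m y d)
  rw [← hm] at h0
  rw [h0, hcard]
  calc ∑ d ∈ M.divisors, ∑ s ∈ range (i+1), nu m y (2^s*d)
      ≤ ∑ d ∈ M.divisors, (7/12 * ((i+1 : ℕ):ℝ)) := by
        apply sum_le_sum
        intro d _
        refine le_trans ?_ (TS_ge_three hy hy32 (i+1) (by omega) d)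
        exact sum_le_sum fun s _ => nu_le_nt _ _ _
    _ = _ := by rw [sum_const, nsmul_eq_mul]; push_cast; ring

theorem near_i2 {p m M i : ℕ} (hm : m = M*2^i) (hM2 : ¬ 2 ∣ M) (hM0 : M ≠ 0) (hi : 2 ≤ i)
    (hp : Odd p) (hp32 : 32 ≤ p) :
    ∑ d ∈ m.divisors, W m p 1 d ≤ m.divisors.card * (7/12) := by
  have h := level_32 hm hM2 hM0 hi hp hp32
  have e1 : ∀ d, W m p 1 d = nu m p d := by intro d; simp [W]
  rw [sum_congr rfl (fun d _ => e1 d)]
  exact h

section levels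
variable {q m M i : ℕ}

theorem lev_a {a : ℕ} {κ κ' : ℝ} (hq : 0 < q)
    (h : ∑ d ∈ m.divisors, W m q a d ≤ m.divisors.card * κ) (hk : 1 + κ / q ≤ κ') :
    ∑ d ∈ m.divisors, W m q (a+1) d ≤ m.divisors.card * κ' := by
  have hqR : (0:ℝ) < q := by exact_mod_cast hq
  rw [near_step]
  have h1 := level_one m (q^(a+1))
  have h2 := div_le_div_of_nonneg_right h hqR.le
  have h3 := mul_le_mul_of_nonneg_left hk (by positivity : (0:ℝ) ≤ m.divisors.card)
  have h4 : (m.divisors.card:ℝ) * κ / q = m.divisors.card * (κ/q) := by ring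
  rw [h4] at h2
  linarith

theorem lev_b {a : ℕ} {κ κ' : ℝ} (hm : m = M*2^i) (hM2 : ¬ 2 ∣ M) (hM0 : M ≠ 0) (hi : 2 ≤ i)
    (hq : Odd q) (h32 : 32 ≤ q^(a+1))
    (h : ∑ d ∈ m.divisors, W m q a d ≤ m.divisors.card * κ) (hk : 7/12 + κ / q ≤ κ') :
    ∑ d ∈ m.divisors, W m q (a+1) d ≤ m.divisors.card * κ' := by
  have hqR : (0:ℝ) < q := by exact_mod_cast hq.pos
  rw [near_step]
  have h1 := level_32 hm hM2 hM0 hi (hq.pow (n := a+1)) h32
  have h2 := div_le_div_of_nonneg_right h hqR.le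
  have h3 := mul_le_mul_of_nonneg_left hk (by positivity : (0:ℝ) ≤ m.divisors.card)
  have h4 : (m.divisors.card:ℝ) * κ / q = m.divisors.card * (κ/q) := by ring
  rw [h4] at h2
  linarith

theorem lev_0 : ∑ d ∈ m.divisors, W m q 0 d ≤ m.divisors.card * 0 := by simp [W]

theorem near_7 (hm : m = M*2^i) (hM2 : ¬ 2 ∣ M) (hM0 : M ≠ 0) (hi : 2 ≤ i)
    (hq : Odd q) (hq7 : 7 ≤ q) (a : ℕ) (ha : 2 ≤ a) :
    ∑ d ∈ m.divisors, W m q a d ≤ m.divisors.card * (3/4) := by
  have hqR : (7:ℝ) ≤ q := by exact_mod_cast hq7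
  have hpow : ∀ a, 1 ≤ a → 32 ≤ q^(a+1) := by
    intro a ha
    calc 32 ≤ 7^2 := by norm_num
      _ ≤ q^2 := Nat.pow_le_pow_left hq7 2
      _ ≤ q^(a+1) := Nat.pow_le_pow_right (by omega) (by omega)
  have h1 : ∑ d ∈ m.divisors, W m q 1 d ≤ m.divisors.card * 1 :=
    lev_a (by omega) lev_0 (by simp)
  induction a, ha using Nat.le_induction with
  | base =>
    refine lev_b hm hM2 hM0 hi hq (hpow 1 (le_refl _)) h1 ?_
    have : (1:ℝ)/q ≤ 1/7 := one_div_le_one_div_of_le (by norm_num) hqR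
    linarith
  | succ a ha ih =>
    refine lev_b hm hM2 hM0 hi hq (hpow a (by omega)) ih ?_
    have : (3/4:ℝ)/q ≤ (3/4)/7 := div_le_div_of_nonneg_left (by norm_num) (by norm_num) hqR
    linarith

theorem near_5 (hm : m = M*2^i) (hM2 : ¬ 2 ∣ M) (hM0 : M ≠ 0) (hi : 2 ≤ i)
    (a : ℕ) (ha : 4 ≤ a) :
    ∑ d ∈ m.divisors, W m 5 a d ≤ m.divisors.card * (3/4) := by
  have hq : Odd 5 := by decide
  have hpow : ∀ a, 2 ≤ a → 32 ≤ 5^(a+1) := by
    intro a ha
    calc 32 ≤ 5^3 := by norm_num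
      _ ≤ 5^(a+1) := Nat.pow_le_pow_right (by omega) (by omega)
  have h1 : ∑ d ∈ m.divisors, W m 5 1 d ≤ m.divisors.card * 1 :=
    lev_a (by omega) lev_0 (by norm_num)
  have h2 : ∑ d ∈ m.divisors, W m 5 2 d ≤ m.divisors.card * (6/5) :=
    lev_a (by omega) h1 (by norm_num)
  have h3 : ∑ d ∈ m.divisors, W m 5 3 d ≤ m.divisors.card * (247/300) :=
    lev_b hm hM2 hM0 hi hq (by norm_num) h2 (by norm_num)
  induction a, ha using Nat.le_induction with
  | base => exact lev_b hm hM2 hM0 hi hq (by norm_num) h3 (by norm_num)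
  | succ a ha ih => exact lev_b hm hM2 hM0 hi hq (hpow a (by omega)) ih (by norm_num)

theorem near_3 (hm : m = M*2^i) (hM2 : ¬ 2 ∣ M) (hM0 : M ≠ 0) (hi : 2 ≤ i)
    (a : ℕ) (ha : 8 ≤ a) :
    ∑ d ∈ m.divisors, W m 3 a d ≤ m.divisors.card * 0.8775 := by
  have hq : Odd 3 := by decide
  have hpow : ∀ a, 3 ≤ a → 32 ≤ 3^(a+1) := by
    intro a ha
    calc 32 ≤ 3^4 := by norm_num
      _ ≤ 3^(a+1) := Nat.pow_le_pow_right (by omega) (by omega)
  have h1 : ∑ d ∈ m.divisors, W m 3 1 d ≤ m.divisors.card * 1 :=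
    lev_a (by omega) lev_0 (by norm_num)
  have h2 : ∑ d ∈ m.divisors, W m 3 2 d ≤ m.divisors.card * (4/3) :=
    lev_a (by omega) h1 (by norm_num)
  have h3 : ∑ d ∈ m.divisors, W m 3 3 d ≤ m.divisors.card * (13/9) :=
    lev_a (by omega) h2 (by norm_num)
  have h4 : ∑ d ∈ m.divisors, W m 3 4 d ≤ m.divisors.card * 1.06482 :=
    lev_b hm hM2 hM0 hi hq (by norm_num) h3 (by norm_num)
  have h5 : ∑ d ∈ m.divisors, W m 3 5 d ≤ m.divisors.card * 0.93828 :=
    lev_b hm hM2 hM0 hi hq (by norm_num) h4 (by norm_num)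
  have h6 : ∑ d ∈ m.divisors, W m 3 6 d ≤ m.divisors.card * 0.8961 :=
    lev_b hm hM2 hM0 hi hq (by norm_num) h5 (by norm_num)
  have h7 : ∑ d ∈ m.divisors, W m 3 7 d ≤ m.divisors.card * 0.88204 :=
    lev_b hm hM2 hM0 hi hq (by norm_num) h6 (by norm_num)
  induction a, ha using Nat.le_induction with
  | base => exact lev_b hm hM2 hM0 hi hq (by norm_num) h7 (by norm_num)
  | succ a ha ih => exact lev_b hm hM2 hM0 hi hq (hpow a (by omega)) ih (by norm_num)

end levels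

end Pool.Agent.Helper316
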