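import Pool.Agent.Helper316.Near
set_option autoImplicit false
namespace Pool.Agent.Helper316

open Finset

def bsum (N : ℕ → ℕ) (Q c : ℕ) (l : List ℕ) : ℕ :=
  List.rec (motive := fun _ => ℕ) 0 (fun v _ ih => N (c*v % Q) + ih) l

theorem bsum_nil (N : ℕ → ℕ) (Q c : ℕ) : bsum N Q c [] = 0 := rfl
theorem bsum_cons (N : ℕ → ℕ) (Q c v : ℕ) (l : List ℕ) :
    bsum N Q c (v :: l) = N (c*v % Q) + bsum N Q c l := rfl

theorem bsum_append (N : ℕ → ℕ) (Q c : ℕ) (l l' : List ℕ) :
    bsum N Q c (l ++ l') = bsum N Q c l + bsum N Q c l' := by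
  induction l with
  | nil => simp [bsum_nil]
  | cons v l ih => rw [List.cons_append, bsum_cons, bsum_cons, ih]; ring

theorem bsum_map (N : ℕ → ℕ) (Q c r : ℕ) (l : List ℕ) :
    bsum N Q c (l.map (fun v => v * r % Q)) = bsum N Q (r * c) l := by
  induction l with
  | nil => rfl
  | cons v l ih =>
    rw [List.map_cons, bsum_cons, bsum_cons, ih]
    have : c * (v * r % Q) % Q = r * c * v % Q := by
      rw [Nat.mul_mod, Nat.mod_mod, ← Nat.mul_mod]
      congr 1; ring
    rw [this]

theorem bsum_congr {N : ℕ → ℕ} {Q c c' : ℕ} (h : ∀ v, N (c*v % Q) = N (c'*v % Q)) (l : List ℕ) :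
    bsum N Q c l = bsum N Q c' l := by
  induction l with
  | nil => rfl
  | cons v l ih => rw [bsum_cons, bsum_cons, ih, h]

def allc (N : ℕ → ℕ) (Q x q1 bud : ℕ) (B : List ℕ) (n : ℕ) : Bool :=
  Nat.rec (motive := fun _ => Bool) true
    (fun k ih => cond (Nat.ble (x * bsum N Q (k+1+k/q1) B) bud) ih false) n

theorem allc_succ (N : ℕ → ℕ) (Q x q1 bud : ℕ) (B : List ℕ) (k : ℕ) :
    allc N Q x q1 bud B (k+1)
      = cond (Nat.ble (x * bsum N Q (k+1+k/q1) B) bud) (allc N Q x q1 bud B k) false :=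
  rfl

theorem allc_spec {N : ℕ → ℕ} {Q x q1 bud : ℕ} {B : List ℕ} {n : ℕ}
    (h : allc N Q x q1 bud B n = true) : ∀ k, k < n → x * bsum N Q (k+1+k/q1) B ≤ bud := by
  induction n with
  | zero => intro c h1; omega
  | succ k ih =>
    rw [allc_succ] at h
    cases hb : Nat.ble (x * bsum N Q (k+1+k/q1) B) bud with
    | false => rw [hb] at h; simp at h
    | true =>
      rw [hb, cond_true] at h
      intro c h1
      rcases Nat.lt_or_ge c k with h3 | h3
      · exact ih h c h3
      · have : c = k := by omega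
        subst this
        rwa [Nat.ble_eq] at hb

def ext (Q r : ℕ) : List ℕ → ℕ → List ℕ
  | B, 0 => B
  | B, (b+1) => B ++ ext Q r (B.map (fun v => v * r % Q)) b

theorem length_ext (Q r : ℕ) (b : ℕ) : ∀ B : List ℕ, (ext Q r B b).length = (b+1) * B.length := by
  induction b with
  | zero => intro B; simp [ext]
  | succ b ih => intro B; rw [ext, List.length_append, ih, List.length_map]; ring

theorem sum_bsum_ext (N : ℕ → ℕ) (Q : ℕ) {m r : ℕ} (hr : r.Prime) (hm : ¬ r ∣ m) (hm0 : m ≠ 0)
    (b : ℕ) : ∀ B : List ℕ, ∑ d ∈ (m * r^b).divisors, bsum N Q d B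
      = ∑ d ∈ m.divisors, bsum N Q d (ext Q r B b) := by
  induction b with
  | zero => intro B; simp [ext]
  | succ b ih =>
    intro B
    rw [sum_divisors_succ hr hm hm0]
    have h1 : ∑ d ∈ (m * r^b).divisors, bsum N Q (r*d) B
        = ∑ d ∈ (m * r^b).divisors, bsum N Q d (B.map (fun v => v * r % Q)) :=
      sum_congr rfl fun d _ => (bsum_map N Q d r B).symm
    rw [h1, ih, ← sum_add_distrib]
    refine sum_congr rfl fun d _ => ?_
    rw [ext, bsum_append]

/-- m is built from the primes in the list with bounded exponents -/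
def Supp : List (ℕ × ℕ) → ℕ → Prop
  | [], m => m = 1
  | p :: rs, m => ∃ b m', b ≤ p.2 ∧ ¬ p.1 ∣ m' ∧ m = m' * p.1^b ∧ Supp rs m'

def prodT (rs : List (ℕ × ℕ)) : ℕ := rs.foldr (fun p acc => (p.2+1)*acc) 1

theorem prodT_cons (p : ℕ × ℕ) (rs : List (ℕ × ℕ)) : prodT (p :: rs) = (p.2+1) * prodT rs := rfl

theorem Supp.pos {rs : List (ℕ × ℕ)} (hrs : ∀ p ∈ rs, p.1.Prime) : ∀ {m : ℕ}, Supp rs m → m ≠ 0 := by
  induction rs with
  | nil => intro m h; rw [Supp] at h; omega
  | cons p rs ih =>
    intro m h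
    obtain ⟨b, m', _, _, rfl, h4⟩ := h
    have h5 := ih (fun p hp => hrs p (List.mem_cons_of_mem _ hp)) h4
    have h6 := (hrs p List.mem_cons_self).pos
    positivity

theorem card_mul_pow {m r : ℕ} (hr : r.Prime) (hm : ¬ r ∣ m) (b : ℕ) :
    (m * r^b).divisors.card = (b+1) * m.divisors.card := by
  have hc : Nat.Coprime m (r^b) :=
    Nat.Coprime.pow_right _ ((Nat.Prime.coprime_iff_not_dvd hr).2 hm).symm
  rw [hc.card_divisors_mul, Nat.divisors_prime_pow hr]
  simp only [card_map, card_range]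
  ring

theorem Supp.card_le {rs : List (ℕ × ℕ)} (hrs : ∀ p ∈ rs, p.1.Prime) :
    ∀ {m : ℕ}, Supp rs m → m.divisors.card ≤ prodT rs := by
  induction rs with
  | nil => intro m h; rw [Supp] at h; subst h; simp [prodT]
  | cons p rs ih =>
    intro m h
    obtain ⟨b, m', hb, hm', rfl, h4⟩ := h
    have h5 := ih (fun p hp => hrs p (List.mem_cons_of_mem _ hp)) h4
    rw [card_mul_pow (hrs p List.mem_cons_self) hm', prodT_cons]
    exact Nat.mul_le_mul (by omega) h5

def tree (N : ℕ → ℕ) (Q x q1 fn n : ℕ) : List (ℕ × ℕ) → List ℕ → Bool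
  | [], B => Nat.ble (x * bsum N Q 1 B + B.length * (fn * hT B.length + 1130000))
      (B.length * 1000000 * x)
  | (p :: rs), B =>
    (cond (Nat.ble (B.length * (fn * hT (B.length * prodT (p :: rs)) + 1130000))
        (B.length * 1000000 * x))
      (allc N Q x q1 (B.length * 1000000 * x
        - B.length * (fn * hT (B.length * prodT (p :: rs)) + 1130000)) B n) false) ||
    (List.range (p.2+1)).all (fun b => tree N Q x q1 fn n rs (ext Q p.1 B b))

theorem tree_sound {N : ℕ → ℕ} {Q x q1 fn n q : ℕ}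
    (hsym : ∀ d, ¬ q ∣ d → ∃ k, k < n ∧ ∀ v, N (d*v % Q) = N ((k+1+k/q1)*v % Q))
    (rs : List (ℕ × ℕ)) (hrs : ∀ p ∈ rs, p.1.Prime) :
    ∀ (B : List ℕ) (m : ℕ), tree N Q x q1 fn n rs B = true → Supp rs m → ¬ q ∣ m →
    (x:ℝ) * ((∑ d ∈ m.divisors, bsum N Q d B : ℕ) : ℝ)
      + (B.length * m.divisors.card : ℝ) * (fn * (1000000 * harmonic (B.length * m.divisors.card))
        + 1130000)
      ≤ (B.length * m.divisors.card : ℝ) * 1000000 * x := by
  induction rs with
  | nil =>
    intro B m h hs _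
    rw [Supp] at hs
    subst hs
    rw [tree, Nat.ble_eq] at h
    have h1 : ((x * bsum N Q 1 B + B.length * (fn * hT B.length + 1130000) : ℕ):ℝ)
      ≤ ((B.length * 1000000 * x : ℕ):ℝ) := by exact_mod_cast h
    push_cast at h1
    simp only [Nat.divisors_one, sum_singleton, card_singleton, Nat.cast_one, mul_one]
    have h2 := hT_spec B.length
    have h3 : (fn:ℝ) * (1000000 * (harmonic B.length : ℝ)) ≤ fn * hT B.length :=
      mul_le_mul_of_nonneg_left h2 (by positivity)
    have h4 : (0:ℝ) ≤ (B.length:ℝ) := by positivity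
    nlinarith
  | cons p rs ih =>
    intro B m h hs hqm
    have hm0 : m ≠ 0 := Supp.pos hrs hs
    rw [tree, Bool.or_eq_true] at h
    rcases h with h | h
    · -- pass at this node
      set pen := B.length * (fn * hT (B.length * prodT (p :: rs)) + 1130000) with hpen
      cases hb : Nat.ble pen (B.length * 1000000 * x) with
      | false => rw [hb] at h; simp at h
      | true =>
        rw [hb, cond_true] at h
        rw [Nat.ble_eq] at hb
        have h1 : ∀ d ∈ m.divisors, x * bsum N Q d B + pen ≤ B.length * 1000000 * x := by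
          intro d hd
          have hqd : ¬ q ∣ d := fun hc => hqm (hc.trans (Nat.dvd_of_mem_divisors hd))
          obtain ⟨k, hc1, hc3⟩ := hsym d hqd
          rw [bsum_congr hc3 B]
          have := allc_spec h k hc1
          omega
        have h2 := sum_le_sum h1
        rw [sum_add_distrib, ← mul_sum, sum_const, sum_const, smul_eq_mul, smul_eq_mul] at h2
        have h3 : (x:ℝ) * ((∑ d ∈ m.divisors, bsum N Q d B : ℕ):ℝ) + m.divisors.card * (pen:ℝ)
          ≤ m.divisors.card * (B.length * 1000000 * x) := by exact_mod_cast h2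
        have h4 : B.length * m.divisors.card ≤ B.length * prodT (p :: rs) :=
          Nat.mul_le_mul_left _ (Supp.card_le hrs hs)
        have h5 : (1000000:ℝ) * harmonic (B.length * m.divisors.card)
          ≤ hT (B.length * prodT (p :: rs)) :=
          le_trans (mul_le_mul_of_nonneg_left (harmonic_mono h4) (by norm_num)) (hT_spec _)
        have h6 : (pen:ℝ) = B.length * (fn * hT (B.length * prodT (p :: rs)) + 1130000) := by
          rw [hpen]; push_cast; ring
        rw [h6] at h3
        have h7 : (fn:ℝ) * (1000000 * (harmonic (B.length * m.divisors.card) : ℝ))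
          ≤ fn * hT (B.length * prodT (p :: rs)) :=
          mul_le_mul_of_nonneg_left h5 (by positivity)
        have h8 : (0:ℝ) ≤ (B.length:ℝ) * m.divisors.card := by positivity
        nlinarith
    · obtain ⟨b, m', hb, hm', rfl, hs'⟩ := hs
      have hr := hrs p List.mem_cons_self
      rw [List.all_eq_true] at h
      have h1 := h b (List.mem_range.2 (by omega))
      have hm'0 : m' ≠ 0 := by rintro rfl; simp at hm0
      have h2 := ih (fun p hp => hrs p (List.mem_cons_of_mem _ hp)) _ m' h1 hs'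
        (fun hc => hqm (dvd_mul_of_dvd_left hc _))
      rw [sum_bsum_ext N Q hr hm' hm'0, card_mul_pow hr hm']
      rw [length_ext] at h2
      have e1 : (b+1) * B.length * m'.divisors.card = B.length * ((b+1) * m'.divisors.card) := by
        ring
      rw [e1] at h2
      push_cast at h2 ⊢
      have e2 : ((b:ℝ)+1) * B.length * m'.divisors.card = B.length * (((b:ℝ)+1) * m'.divisors.card) := by
        ring
      rw [e2] at h2
      exact h2

/-- representatives up to sign of the residues prime to q -/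
theorem hsym_gen {q Q n : ℕ} (hq : 2 ≤ q) (hqQ : q ∣ Q) (hQ : 0 < Q) (N : ℕ → ℕ)
    (hn : Q / 2 ≤ n + (Q / 2) / q)
    (hN : ∀ d v, N ((Q - d % Q) * v % Q) = N (d * v % Q)) :
    ∀ d, ¬ q ∣ d → ∃ k, k < n ∧ ∀ v, N (d*v % Q) = N ((k+1+k/(q-1))*v % Q) := by
  intro d hd
  -- c with 1 ≤ c ≤ Q/2, not divisible by q
  have h1 : ∃ c, 1 ≤ c ∧ c ≤ Q/2 ∧ ¬ q ∣ c ∧ ∀ v, N (d*v % Q) = N (c*v % Q) := by
    have h0 : ¬ q ∣ d % Q := by
      intro h; apply hd
      exact (Nat.dvd_mod_iff hqQ).1 h
    have hlt : d % Q < Q := Nat.mod_lt _ hQ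
    have hpos : 1 ≤ d % Q := by
      rcases Nat.eq_zero_or_pos (d % Q) with h | h
      · exfalso; apply h0; rw [h]; exact dvd_zero q
      · exact h
    rcases Nat.lt_or_ge (Q/2) (d % Q) with h | h
    · refine ⟨Q - d % Q, by omega, by omega, ?_, fun v => (hN d v).symm⟩
      intro hc
      apply h0
      have := (Nat.dvd_sub_iff_right hlt.le hqQ).1 hc
      exact this
    · exact ⟨d % Q, hpos, h, h0, fun v => by rw [Nat.mod_mul_mod]⟩
  obtain ⟨c, hc1, hc2, hc3, hc4⟩ := h1
  -- write c = q j + s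
  have hs0 : c % q ≠ 0 := fun h => hc3 (Nat.dvd_of_mod_eq_zero h)
  have hsq : c % q < q := Nat.mod_lt _ (by omega)
  have hdm : q * (c/q) + c % q = c := Nat.div_add_mod c q
  obtain ⟨t, rfl⟩ : ∃ t, q = t + 1 := ⟨q-1, by omega⟩
  simp only [Nat.add_sub_cancel]
  set j := c / (t+1) with hj
  set s := c % (t+1) with hs
  have ht : 0 < t := by omega
  have hk : c - 1 - j = t * j + (s - 1) := by
    have : (t+1) * j = t * j + j := by ring
    omega
  have hkd : (c - 1 - j) / t = j := by
    rw [hk, Nat.mul_add_div ht, Nat.div_eq_of_lt (by omega)]; omega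
  refine ⟨c - 1 - j, ?_, fun v => ?_⟩
  · have h5 : (Q/2) / (t+1) * (t+1) ≤ Q/2 := Nat.div_mul_le_self _ _
    -- number of multiples
    have h6 : Q/2 - (Q/2)/(t+1) ≤ n := by omega
    have h7 : c - j ≤ Q/2 - (Q/2)/(t+1) := by
      -- monotone: c - c/(t+1)
      obtain ⟨e, he⟩ := Nat.exists_eq_add_of_le hc2
      rw [he]
      have h8 : (c + e) / (t+1) ≤ c/(t+1) + e := by
        rcases Nat.eq_zero_or_pos e with h | h
        · subst h; simp
        · calc (c+e)/(t+1) ≤ (c + e * (t+1))/(t+1) := by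
                apply Nat.div_le_div_right; nlinarith
            _ = c/(t+1) + e := by rw [Nat.add_mul_div_right _ _ (by omega)]
      have h9 : c / (t+1) ≤ c := Nat.div_le_self _ _
      omega
    have h10 : j ≤ c - 1 := by
      have : (t+1) * j = t * j + j := by ring
      have : 1 * j ≤ t * j := Nat.mul_le_mul_right _ ht
      omega
    omega
  · rw [hkd]
    have h10 : j ≤ c - 1 := by
      have : (t+1) * j = t * j + j := by ring
      have : 1 * j ≤ t * j := Nat.mul_le_mul_right _ ht
      omega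
    have : c - 1 - j + 1 + j = c := by omega
    rw [this]; exact hc4 v

end Pool.Agent.Helper316
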